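import Pool.Agent.Y989.FR.StmA

/-!
Shortening of chains.
-/

set_option autoImplicit false

namespace Pool.Agent.Y989.FR.CHN

open Pool.Agent.Y989.FR

/-- a chain with `l` steps -/
structure Ch (S : Set ℂ) (e : ℝ) (a b : ℂ) (l : ℕ) (y : ℕ → ℂ) : Prop where
  zero : y 0 = a
  last : y l = b
  mem : ∀ i, i ≤ l → y i ∈ S
  step : ∀ i, i < l → dist (y i) (y (i + 1)) ≤ e

lemma exists_chain (S : Set ℂ) (e : ℝ) (a b : ℂ) (ha : a ∈ S)
    (h : Relation.ReflTransGen (fun x y => y ∈ S ∧ dist x y ≤ e) a b) :
    ∃ l y, Ch S e a b l y := by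
  induction h with
  | refl =>
    exact ⟨0, fun _ => a, ⟨rfl, rfl, fun _ _ => ha, fun i hi => absurd hi (Nat.not_lt_zero i)⟩⟩
  | tail _ hbc ih =>
    rename_i b c _
    obtain ⟨l, y, hy⟩ := ih
    refine ⟨l + 1, fun i => if i ≤ l then y i else c, ?_, ?_, ?_, ?_⟩
    · simp [hy.zero]
    · simp
    · intro i hi
      by_cases h : i ≤ l
      · simp only [h, if_true]; exact hy.mem i h
      · simp only [h, if_false]; exact hbc.1
    · intro i hi
      by_cases h : i + 1 ≤ l
      · have h' : i ≤ l := by omega
        simp only [h, h', if_true]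
        exact hy.step i (by omega)
      · have h' : i = l := by omega
        subst h'
        simp only [le_refl, if_true, h, if_false]
        rw [hy.last]
        exact hbc.2

lemma shorten (S : Set ℂ) (e : ℝ) (a b : ℂ) (l : ℕ) (y : ℕ → ℂ) (hy : Ch S e a b l y)
    (i j : ℕ) (hij : i + 2 ≤ j) (hj : j ≤ l) (hd : dist (y i) (y j) ≤ e) :
    ∃ l' y', l' < l ∧ Ch S e a b l' y' := by
  refine ⟨l - (j - i - 1), fun k => if k ≤ i then y k else y (k + (j - i - 1)), by omega,
    ?_, ?_, ?_, ?_⟩
  · simp [hy.zero]
  · have h1 : ¬ (l - (j - i - 1) ≤ i) := by omega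
    have h2 : l - (j - i - 1) + (j - i - 1) = l := by omega
    simp only [h1, if_false, h2, hy.last]
  · intro k hk
    by_cases h : k ≤ i
    · simp only [h, if_true]; exact hy.mem k (by omega)
    · simp only [h, if_false]; exact hy.mem _ (by omega)
  · intro k hk
    by_cases h : k + 1 ≤ i
    · have h' : k ≤ i := by omega
      simp only [h, h', if_true]
      exact hy.step k (by omega)
    · by_cases h' : k ≤ i
      · have h2 : k = i := by omega
        subst h2
        have h3 : k + 1 + (j - k - 1) = j := by omega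
        simp only [le_refl, if_true, h, if_false, h3]
        exact hd
      · simp only [h, h', if_false]
        have h3 : k + 1 + (j - i - 1) = k + (j - i - 1) + 1 := by omega
        rw [h3]
        exact hy.step _ (by omega)

/-- CHN: shortening of chains. -/
theorem t_CHN : S_CHN := by
  classical
  intro R e he
  obtain ⟨t, -, htf, ht⟩ := finite_cover_balls_of_compact (isCompact_closedBall (0 : ℂ) R)
    (half_pos he)
  refine ⟨2 * htf.toFinset.card, fun S a b hS ha hab => ?_⟩
  have hex : ∃ l, ∃ y, Ch S e a b l y := exists_chain S e a b ha hab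
  obtain ⟨y, hy⟩ := Nat.find_spec hex
  set l := Nat.find hex with hl
  have hmin : ∀ l' y', Ch S e a b l' y' → l ≤ l' := fun l' y' h => Nat.find_min' hex ⟨y', h⟩
  have hsep : ∀ i j, i + 2 ≤ j → j ≤ l → e < dist (y i) (y j) := by
    intro i j hij hj
    by_contra h
    obtain ⟨l', y', h1, h2⟩ := shorten S e a b l y hy i j hij hj (not_lt.mp h)
    exact absurd (hmin l' y' h2) (by omega)
  have hc : ∀ i, ∃ c, i ≤ l → c ∈ htf.toFinset ∧ dist (y i) c < e / 2 := by
    intro i
    by_cases hi : i ≤ l
    · have h1 : y i ∈ Metric.closedBall (0 : ℂ) R := by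
        rw [mem_closedBall_zero_iff]; exact hS _ (hy.mem i hi)
      have h2 := ht h1
      simp only [Set.mem_iUnion, Metric.mem_ball, exists_prop] at h2
      obtain ⟨c, hc1, hc2⟩ := h2
      exact ⟨c, fun _ => ⟨htf.mem_toFinset.mpr hc1, hc2⟩⟩
    · exact ⟨0, fun h => absurd h hi⟩
  choose c hc using hc
  have hl2 : l + 1 ≤ 2 * htf.toFinset.card := by
    by_contra h
    push Not at h
    have h1 : htf.toFinset.card * 2 < (Finset.range (l + 1)).card := by
      rw [Finset.card_range]; omega
    obtain ⟨z, -, hz⟩ := Finset.exists_lt_card_fiber_of_mul_lt_card_of_maps_to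
      (f := c) (fun i hi => (hc i (by have := Finset.mem_range.mp hi; omega)).1) h1
    rw [Finset.two_lt_card] at hz
    obtain ⟨i, hi, j, hj, k, hk, hij, hik, hjk⟩ := hz
    simp only [Finset.mem_filter, Finset.mem_range] at hi hj hk
    have key : ∀ i j, (i < l + 1 ∧ c i = z) → (j < l + 1 ∧ c j = z) → i + 2 ≤ j → False := by
      intro i j hi hj h
      have h1 := hsep i j h (by omega)
      have h2 := (hc i (by omega)).2
      have h3 := (hc j (by omega)).2
      rw [hi.2] at h2
      rw [hj.2] at h3
      have h4 := dist_triangle_right (y i) (y j) z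
      linarith
    have hcases : i + 2 ≤ j ∨ j + 2 ≤ i ∨ i + 2 ≤ k ∨ k + 2 ≤ i ∨ j + 2 ≤ k ∨ k + 2 ≤ j := by
      omega
    rcases hcases with h | h | h | h | h | h
    · exact key i j hi hj h
    · exact key j i hj hi h
    · exact key i k hi hk h
    · exact key k i hk hi h
    · exact key j k hj hk h
    · exact key k j hk hj h
  refine ⟨fun i => y (min i.1 l), fun i => hy.mem _ (min_le_right _ _), ?_, ?_, ?_⟩
  · simp [hy.zero]
  · have h1 : min (2 * htf.toFinset.card) l = l := by omega
    simp only [Fin.val_last, h1]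
    exact hy.last
  · intro i
    simp only [Fin.val_castSucc, Fin.val_succ]
    by_cases h : i.1 < l
    · have h1 : min i.1 l = i.1 := by omega
      have h2 : min (i.1 + 1) l = i.1 + 1 := by omega
      rw [h1, h2]
      exact hy.step i.1 h
    · have h1 : min i.1 l = l := by omega
      have h2 : min (i.1 + 1) l = l := by omega
      rw [h1, h2, dist_self]
      exact he.le

end Pool.Agent.Y989.FR.CHN
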