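import Pool.Agent.Y989.FR.StmD
import Pool.Agent.W801.DPdet

/-!
# Visited vertices and thick paths for the exploration path (DET3)
-/

set_option autoImplicit false

namespace Pool.Agent.Y989.FR.DET3

open Pool.Agent.Y989.FR
open H974 H12S Finset H389NS H984P H984N
open Pool.Agent.W92.DP (DTB DLR HA SA)
open Pool.Agent.W801.DPdet (dcross_meet free_edge free_sub dl_LRE dl_TBE)

theorem mem_core3 {a : ℤ} {v : Vtx} : v ∈ core3 a ↔
    (-(60 * a) ≤ v.1 ∧ v.1 ≤ -(58 * a)) ∧ (20 * a ≤ v.2 ∧ v.2 ≤ 22 * a) := by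
  unfold core3
  rw [Finset.mem_product, Finset.mem_Icc, Finset.mem_Icc]

/-- The lower arm and the open crossings lead to the wired arc. -/
theorem open_part {D : Dm} {F : Finset Edg} {a : ℕ} (ha : 192 ≤ a)
    (hl : D.l < -(27 * (4 * a : ℕ))) (hG : GO3 a F) {v : Vtx} (hv : v ∈ core3 a) {w : Vtx}
    (hw : w.2 = v.2 - 12 * a) (hr : Reach ((↑F : Set Edg) ∩ ↑(PR v a)) v w) : v ∈ D.clu F := by
  rw [mem_core3] at hv
  obtain ⟨⟨v1, v2⟩, v3, v4⟩ := hv
  obtain ⟨⟨y, y', hy, hy', h1⟩, ⟨x, x', hx, hx', h2⟩⟩ := hG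
  push_cast at hl
  have h1' : Reach (↑F ∩ ↑(RE (-(80 * (a : ℤ))) (-(40 * a)) (10 * a) (14 * a)))
      (-(80 * (a : ℤ)), y) (-(40 * a), y') :=
    h1.mono (Set.inter_subset_inter_right (↑F) (by exact_mod_cast LRE_subset_RE))
  have h2' : Reach (↑F ∩ ↑(RE (-(80 * (a : ℤ))) (-(76 * a)) 0 (14 * a))) (x, 0) (x', 14 * a) :=
    h2.mono (Set.inter_subset_inter_right (↑F) (by exact_mod_cast TBE_subset_RE))
  have hr' : Reach (↑F ∩ ↑(RE (v.1 - 12 * a) (v.1 + 12 * a) (v.2 - 12 * a) (v.2 + 3 * a))) w v :=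
    hr.symm
  have m1 := cross_meet (F := (↑F : Set Edg)) (A := -(80 * (a : ℤ))) (B := -(40 * a))
      (C := v.2 - 12 * a)
      (D := v.2 + 3 * a) (a := v.1 - 12 * a) (b := v.1 + 12 * a) (c := 10 * a) (d := 14 * a)
      (by omega) (by omega) (by omega) (by omega) (by omega) (by omega) h1'
      (by simp only; omega) (by simp only; omega) hr' (by omega) (by omega)
  have m2 := cross_meet (F := (↑F : Set Edg)) (A := -(80 * (a : ℤ))) (B := -(40 * a)) (C := 0)
      (D := 14 * a) (a := -(80 * (a : ℤ))) (b := -(76 * a)) (c := 10 * a) (d := 14 * a)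
      (by omega) (by omega) (by omega) (by omega) (by omega) (by omega) h1'
      (by simp only; omega) (by simp only; omega) h2' (by simp only; omega) (by simp only; omega)
  have m3 := clu_bottom (D := D) F (-x).toNat (by omega)
  have e3 : (-(((-x).toNat : ℕ) : ℤ)) = x := by omega
  rw [e3] at m3
  have sF : (↑F : Set Edg) ⊆ D.cfg F := Set.subset_union_left
  have n1 : Reach (D.cfg F) (x, 0) (-(80 * (a : ℤ)), y) :=
    (m2.symm).mono (Set.inter_subset_left.trans sF)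
  have n2 : Reach (D.cfg F) (-(80 * (a : ℤ)), y) w := m1.mono (Set.inter_subset_left.trans sF)
  have n3 : Reach (D.cfg F) w v := hr'.mono (Set.inter_subset_left.trans sF)
  exact ((m3.trans n1).trans n2).trans n3

theorem dE_RE {a b c d : ℤ} {T : Finset Edg} (hT : T = RE a b c d) {e : Edg} (he : e ∈ dE T) :
    e ∈ RE a (b + 1) c (d + 1) := by
  subst hT
  unfold dE at he
  obtain ⟨x, y, _ | _⟩ := e
  · have h : dl ((x, y, false) : Edg) ∈ RE a b c d := he
    rw [dl_f, mem_RE_true] at h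
    rw [mem_RE_false]
    omega
  · have h : dl ((x, y, true) : Edg) ∈ RE a b c d := he
    rw [dl_t, mem_RE_false] at h
    rw [mem_RE_true]
    omega

/-- The upper dual arm and the dual crossings lead to the complementary arc. -/
theorem dual_part {D : Dm} (hD : D.Ok) {F : Finset Edg} {a : ℕ} (ha : 192 ≤ a)
    (hl : D.l < -(27 * (4 * a : ℕ))) (hr : 27 * (4 * a : ℕ) < D.r)
    (hh : 39 * (4 * a : ℕ) < D.h) (hG : GD3 a F) {v : Vtx}
    (hv : v ∈ core3 a) {g : Vtx} (hg : g.2 = v.2 + 12 * a)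
    (hfg : DReach (dE (DR v a) \ ↑F) v g) : v ∈ D.dclu F := by
  rw [mem_core3] at hv
  obtain ⟨⟨v1, v2⟩, v3, v4⟩ := hv
  obtain ⟨⟨y, y', hy, hy', hT⟩, ⟨x, x', hx, hx', hR⟩⟩ := hG
  push_cast at hl hr hh
  have sA : (dE (DR v a) \ ↑F : Set Edg) ⊆ (↑D.edges \ D.cfg F : Set Edg) := by
    refine free_sub hD (a := v.1 - 12 * a) (b := v.1 + 12 * a + 1) (c := v.2 - 3 * a)
      (d := v.2 + 12 * a + 1) (by omega) (by omega) (by omega) (by omega) (by omega) ?_
    intro e he
    exact ⟨Finset.mem_coe.mpr (dE_RE rfl he.1), he.2⟩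
  have rA : ∀ e ∈ (dE (DR v a) \ ↑F : Set Edg),
      dl e ∈ RE (v.1 - 12 * a) (v.1 + 12 * a) (v.2 - 3 * a) (v.2 + 12 * a) :=
    fun e he => he.1
  have sR : (↑(LRE (4 * (a : ℤ)) (8 * a) 0 (32 * a) \ F) : Set Edg) ⊆
      (↑D.edges \ D.cfg F : Set Edg) := by
    refine free_sub hD (a := 4 * (a : ℤ)) (b := 8 * a) (c := 0) (d := 32 * a)
      (by omega) (by omega) (by omega) (by omega) (by omega) ?_
    intro e he
    rw [Finset.mem_coe, Finset.mem_sdiff] at he
    exact ⟨Finset.mem_coe.mpr (LRE_subset_RE he.1), he.2⟩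
  have rR : ∀ e ∈ (↑(LRE (4 * (a : ℤ)) (8 * a) 0 (32 * a) \ F) : Set Edg),
      dl e ∈ RE (4 * (a : ℤ)) (8 * a - 1) (0 - 1) (32 * a) := by
    intro e he
    rw [Finset.mem_coe, Finset.mem_sdiff] at he
    exact dl_LRE he.1
  have sT : (↑(TBE (-(80 * (a : ℤ))) (8 * a) (28 * a) (32 * a) \ F) : Set Edg) ⊆
      (↑D.edges \ D.cfg F : Set Edg) := by
    refine free_sub hD (a := -(80 * (a : ℤ))) (b := 8 * a) (c := 28 * a) (d := 32 * a)
      (by omega) (by omega) (by omega) (by omega) (by omega) ?_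
    intro e he
    rw [Finset.mem_coe, Finset.mem_sdiff] at he
    exact ⟨Finset.mem_coe.mpr (TBE_subset_RE he.1), he.2⟩
  have rT : ∀ e ∈ (↑(TBE (-(80 * (a : ℤ))) (8 * a) (28 * a) (32 * a) \ F) : Set Edg),
      dl e ∈ RE (-(80 * (a : ℤ)) - 1) (8 * a) (28 * a) (32 * a - 1) := by
    intro e he
    rw [Finset.mem_coe, Finset.mem_sdiff] at he
    exact dl_TBE he.1
  have hout : ((x, -1) : Vtx) ∈ D.outer := Or.inl ⟨rfl, by simp only; omega, by simp only; omega⟩
  have m1 := dcross_meet (G := (↑D.edges \ D.cfg F : Set Edg)) (A := -(80 * (a : ℤ)) - 1)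
    (B := 8 * a) (C := v.2 - 3 * a) (D := v.2 + 12 * a) (a := v.1 - 12 * a) (b := v.1 + 12 * a)
    (c := 28 * a) (d := 32 * a - 1) (by omega) (by omega) (by omega) (by omega)
    (by omega) (by omega) hT sT rT (by simp only; omega) (by simp only; omega) hfg sA rA
    (by omega) (by omega)
  have m4 := dcross_meet (G := (↑D.edges \ D.cfg F : Set Edg)) (A := -(80 * (a : ℤ)) - 1)
    (B := 8 * a) (C := 0 - 1) (D := 32 * a) (a := 4 * a) (b := 8 * a - 1)
    (c := 28 * a) (d := 32 * a - 1) (by omega) (by omega) (by omega) (by omega)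
    (by omega) (by omega) hT sT rT (by simp only; omega) (by simp only; omega) hR sR rR
    (by simp only; omega) (by simp only; omega)
  exact ⟨(x, -1), hout, m4.symm.trans m1⟩

/-- Distances in `AE`. -/
theorem AE_sd {v : Vtx} {d k : ℕ} {e : Edg} (he : e ∈ AE v d k) :
    sd (src e) v ≤ k ∧ sd (tgt e) v ≤ k := by
  have h : e ∈ blk v k := by
    unfold AE at he
    exact (Finset.mem_sdiff.mp (Finset.mem_coe.mp he)).1
  unfold blk at h
  unfold sd
  obtain ⟨x, y, _ | _⟩ := e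
  · rw [mem_RE_false] at h
    rw [tgt_false]
    simp only [src_mk, max_le_iff, abs_le]
    omega
  · rw [mem_RE_true] at h
    rw [tgt_true]
    simp only [src_mk, max_le_iff, abs_le]
    omega

/-- Vertices of the cluster of the wired arc near `v` belong to `BB`. -/
theorem clu_BB {D : Dm} {F : Finset Edg} {a k : ℕ} (ha : 192 ≤ a) (hk : k = a / 64)
    (hl : D.l < -(27 * (4 * a : ℕ))) (hr : 27 * (4 * a : ℕ) < D.r)
    (hh : 39 * (4 * a : ℕ) < D.h) {v : Vtx} (hv : v ∈ core3 a) {c : Vtx} (hc : c ∈ D.clu F)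
    (hcv : sd c v ≤ ((8 * k : ℕ) : ℤ)) : c ∈ BB k v ↑F := by
  rw [mem_core3] at hv
  obtain ⟨⟨v1, v2⟩, v3, v4⟩ := hv
  push_cast at hl hr hh
  have hk8 : ((8 * k : ℕ) : ℤ) ≤ a := by omega
  set n : ℕ := 8 * k with hn
  unfold sd at hcv
  rw [max_le_iff, abs_le, abs_le] at hcv
  have hc' : Reach (D.cfg F) c (0, 0) := Reach.symm hc
  obtain ⟨w, h1, h2, h3⟩ := first_exit (a := v.1 - n) (b := v.1 + n) (c := v.2 - n)
    (d := v.2 + n) (u := c) (by unfold inR; omega) hc' (by simp only; omega)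
  refine ⟨w, ?_, ?_⟩
  · unfold inR at h1
    unfold bdB
    simp only [Set.mem_ofPred_eq]
    refine ⟨abs_le.mpr (by omega), abs_le.mpr (by omega), ?_⟩
    rcases h2 with h2 | h2 | h2 | h2
    · left; rw [h2, abs_eq (by positivity)]; omega
    · left; rw [h2, abs_eq (by positivity)]; omega
    · right; rw [h2, abs_eq (by positivity)]; omega
    · right; rw [h2, abs_eq (by positivity)]; omega
  · refine h3.mono ?_
    rintro e ⟨he, he'⟩
    refine ⟨?_, he'⟩
    rcases he with he | he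
    · exact he
    · exfalso
      have he2 := Finset.mem_coe.mp he'
      unfold Dm.wir at he
      obtain ⟨x, y, _ | _⟩ := e
      · rw [mem_RE_false] at he2
        simp only [Set.mem_ofPred_eq, Bool.false_eq_true, false_and, false_or, or_false,
          true_and] at he
        omega
      · rw [mem_RE_true] at he2
        simp only [Set.mem_ofPred_eq, Bool.true_eq_false, false_and, false_or, true_and] at he
        omega

theorem awd {D : Dm} (hD : D.Ok) {F : Finset Edg} (hF : F ⊆ D.edges) {M B a k : ℕ} (hM : 16 ≤ M)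
    (hB : 1 ≤ B) (ha : 192 ≤ a)
    (hk : k = a / 64) (hl : D.l < -(27 * (4 * a : ℕ))) (hr : 27 * (4 * a : ℕ) < D.r)
    (hh : 39 * (4 * a : ℕ) < D.h) {v : Vtx} (hv : v ∈ core3 a) {x : Vtx} (hx : sd x v ≤ k)
    (hA : ∀ c ∈ BB k v ↑F, Awy M B k v c x) : AwD D F M B k v x := by
  intro i hi
  obtain ⟨hclu, -⟩ := walk_clu hD hF hi
  set c : Vtx := (D.walk F i).1 with hc
  rcases le_or_gt (sd c v) ((8 * k : ℕ) : ℤ) with h | h
  · exact (hA c (clu_BB ha hk hl hr hh hv hclu h)).le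
  · have hk1 : (1 : ℤ) ≤ k := by omega
    have hx0 : 0 ≤ sd x v := le_max_of_le_left (abs_nonneg _)
    have h7 : (k : ℤ) ≤ sd x c := by
      have h1 : sd c v ≤ sd x c + sd x v := by
        unfold sd
        apply max_le
        · calc |c.1 - v.1| = |(x.1 - v.1) - (x.1 - c.1)| := by ring_nf
            _ ≤ |x.1 - v.1| + |x.1 - c.1| := abs_sub _ _
            _ ≤ _ := by
              rw [add_comm]
              exact add_le_add (le_max_left _ _) (le_max_left _ _)
        · calc |c.2 - v.2| = |(x.2 - v.2) - (x.2 - c.2)| := by ring_nf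
            _ ≤ |x.2 - v.2| + |x.2 - c.2| := abs_sub _ _
            _ ≤ _ := by
              rw [add_comm]
              exact add_le_add (le_max_right _ _) (le_max_right _ _)
      push_cast at h
      linarith
    obtain ⟨B', rfl⟩ : ∃ B', B = B' + 1 := ⟨B - 1, by omega⟩
    rw [Nat.add_sub_cancel, pow_succ]
    have e1 : sd x v ^ B' ≤ ((8 * k : ℕ) : ℤ) ^ B' := by
      apply pow_le_pow_left₀ hx0
      push_cast
      linarith
    have e2 : sd x v ≤ sd x c := hx.trans h7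
    have e3 : (0 : ℤ) ≤ ((8 * k : ℕ) : ℤ) ^ B' := by positivity
    have hM' : (1 : ℤ) ≤ M := by exact_mod_cast (by omega : 1 ≤ M)
    have hxc : 0 ≤ sd x c := by linarith
    calc sd x v ^ B' * sd x v ≤ ((8 * k : ℕ) : ℤ) ^ B' * sd x c :=
          mul_le_mul e1 e2 hx0 e3
      _ = 1 * (((8 * k : ℕ) : ℤ) ^ B' * sd x c) := (one_mul _).symm
      _ ≤ M * (((8 * k : ℕ) : ℤ) ^ B' * sd x c) :=
          mul_le_mul_of_nonneg_right hM' (mul_nonneg e3 hxc)
      _ = _ := by ring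

theorem t_DET3 : S_DET3 := by
  intro D F hD hF M B a hM hB ha hl hr hh hGO hGD v hv hE
  obtain ⟨⟨⟨w, hw, hr1⟩, ⟨g, hg, hd1⟩⟩, x, hx, y, hy, hxy⟩ := hE
  have hvc : v ∈ D.clu F := open_part ha hl hGO hv hw hr1
  have hvd : v ∈ D.dclu F := dual_part hD ha hl hr hh hGD hv hg hd1
  obtain ⟨k1, hk1, hk1'⟩ := H443B.visited hD hF (σ := (v, .ne)) hvc hvd
  refine ⟨⟨k1, hk1, by rw [hk1']⟩, x, hx, y, hy, hxy.mono ?_⟩
  rintro e ⟨he, h1, h2⟩
  exact ⟨he, awd hD hF hM hB ha rfl hl hr hh hv (AE_sd he).1 h1,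
    awd hD hF hM hB ha rfl hl hr hh hv (AE_sd he).2 h2⟩

end Pool.Agent.Y989.FR.DET3
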