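import Mathlib

/-!
# Frontiers of the complementary components of the limits of the exploration path: the steps, part 3
(pure analysis; every step is a `Prop`; nothing is assumed)
-/

set_option autoImplicit false

namespace Pool.Agent.Y989.FR

/-! ### The limit -/

/-- The union of the frontiers of the components of the complement of `K`. -/
def Fro (K : Set ℂ) : Set ℂ := ⋃ x, frontier (connectedComponentIn Kᶜ x)

/-- Pairs `(f, z)`: the curve `f` passes at distance `e` of `z`, and some chain of `N + 1` points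
with steps at most `e` leads from `z` to distance `κ` and keeps away from `f`. -/
def Qc (M κ R e : ℝ) (B N : ℕ) : Set (C(unitInterval, ℂ) × ℂ) :=
  {p | ‖p.2‖ ≤ R ∧ (∃ s, dist (p.1 s) p.2 ≤ e) ∧ ∃ x : Fin (N + 1) → ℂ, (∀ i, ‖x i‖ ≤ R) ∧
    dist (x 0) p.2 ≤ e ∧ κ ≤ dist (x (Fin.last N)) p.2 + e ∧
    (∀ i : Fin N, dist (x i.castSucc) (x i.succ) ≤ e) ∧
    ∀ i s, dist (x i) p.2 ^ B ≤ M * dist (x i) (p.1 s) + e}

/-- QC: these sets are closed. -/
def S_QC : Prop := ∀ (M κ R e : ℝ) (B N : ℕ), IsClosed (Qc M κ R e B N)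

/-- GEO: in the limit `z` lies on the frontier of a component. -/
def S_GEO : Prop := ∀ (M κ R : ℝ) (B : ℕ) (N : ℕ → ℕ) (f : C(unitInterval, ℂ)) (z : ℂ), 0 < M →
  0 < κ → 1 ≤ B → (∀ k : ℕ, (f, z) ∈ Qc M κ R (1 / ((k : ℝ) + 1)) B (N k)) →
    z ∈ Fro (Set.range f)

/-- CHN: shortening of chains. -/
def S_CHN : Prop := ∀ R e : ℝ, 0 < e → ∃ N : ℕ, ∀ (S : Set ℂ) (a b : ℂ), (∀ x ∈ S, ‖x‖ ≤ R) →
  a ∈ S → Relation.ReflTransGen (fun x y => y ∈ S ∧ dist x y ≤ e) a b →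
    ∃ x : Fin (N + 1) → ℂ, (∀ i, x i ∈ S) ∧ x 0 = a ∧ x (Fin.last N) = b ∧
      ∀ i : Fin N, dist (x i.castSucc) (x i.succ) ≤ e

end Pool.Agent.Y989.FR
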