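import Mathlib
import Pool.Agent.Y989.FR.StmA

/-!
# GEO: the limit point lies on the frontier of a component
-/

set_option autoImplicit false

open Set Metric

namespace Pool.Agent.Y989.FR.GEO

open Pool.Agent.Y989.FR

/-- the last index before the chain stays away -/
lemma last_index {N : ℕ} {P : ℕ → Prop} (h0 : P 0) (hN : ¬ P N) :
    ∃ j, j < N ∧ P j ∧ ∀ i, j < i → i ≤ N → ¬ P i := by
  classical
  refine ⟨Nat.findGreatest P N, ?_, Nat.findGreatest_spec (Nat.zero_le N) h0,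
    fun i h1 h2 => Nat.findGreatest_is_greatest h1 h2⟩
  refine lt_of_le_of_ne (Nat.findGreatest_le N) fun h => hN ?_
  have h1 := Nat.findGreatest_spec (P := P) (Nat.zero_le N) h0
  rwa [h] at h1

lemma ball_sub {K : Set ℂ} {x : ℂ} {m : ℝ} (h : ∀ y ∈ K, m ≤ dist x y) : ball x m ⊆ Kᶜ := by
  intro y hy hyK
  have h1 := h y hyK
  rw [mem_ball, dist_comm] at hy
  linarith

lemma comp_eq {K : Set ℂ} {x y : ℂ} {m : ℝ} (hm : 0 < m) (h : ball x m ⊆ Kᶜ) (hy : dist x y < m) :
    connectedComponentIn Kᶜ x = connectedComponentIn Kᶜ y := by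
  apply connectedComponentIn_eq
  have h1 : IsPreconnected (ball x m) := (convex_ball x m).isPreconnected
  refine h1.subset_connectedComponentIn (mem_ball_self hm) h ?_
  rw [mem_ball, dist_comm]
  exact hy

lemma step {M κ R : ℝ} {B : ℕ} {N : ℕ → ℕ} {f : C(unitInterval, ℂ)} {z : ℂ} (hM : 0 < M)
    (hκ : 0 < κ) (hQ : ∀ k : ℕ, (f, z) ∈ Qc M κ R (1 / ((k : ℝ) + 1)) B (N k)) {η : ℝ}
    (hη : 0 < η) (hηκ : η ≤ κ / 4) :
    ∃ u v : ℂ, ‖u‖ ≤ R ∧ ball u ((κ / 2) ^ B / (2 * M)) ⊆ (range f)ᶜ ∧ dist v z ≤ 2 * η ∧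
      v ∈ (range f)ᶜ ∧
      connectedComponentIn (range f)ᶜ v = connectedComponentIn (range f)ᶜ u := by
  have hηB : 0 < η ^ B := pow_pos hη B
  have hmη : 0 < η ^ B / (2 * M) := by positivity
  have hpow : η ^ B ≤ (κ / 2) ^ B := pow_le_pow_left₀ hη.le (by linarith) B
  obtain ⟨k, hk⟩ := exists_nat_one_div_lt (lt_min (lt_min (half_pos hηB) hmη) (lt_min hη
    (half_pos hκ)))
  set e : ℝ := 1 / ((k : ℝ) + 1) with he
  have he1 : e < η ^ B / 2 := hk.trans_le ((min_le_left _ _).trans (min_le_left _ _))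
  have he2 : e < η ^ B / (2 * M) := hk.trans_le ((min_le_left _ _).trans (min_le_right _ _))
  have he3 : e < η := hk.trans_le ((min_le_right _ _).trans (min_le_left _ _))
  have he4 : e < κ / 2 := hk.trans_le ((min_le_right _ _).trans (min_le_right _ _))
  have hQk := hQ k
  rw [← he] at hQk
  generalize N k = n at hQk
  obtain ⟨-, -, x, hxR, hx0, hxN, hxs, hxd⟩ := hQk
  replace hx0 : dist (x 0) z ≤ e := hx0
  replace hxN : κ ≤ dist (x (Fin.last n)) z + e := hxN
  replace hxd : ∀ i s, dist (x i) z ^ B ≤ M * dist (x i) (f s) + e := hxd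
  -- the chain with natural indices
  let X : ℕ → ℂ := fun i => x ⟨min i n, by omega⟩
  have hX0 : X 0 = x 0 := congrArg x (Fin.ext (Nat.zero_min n))
  have hXN : X n = x (Fin.last n) := congrArg x (Fin.ext (min_self n))
  have hXs : ∀ i, i < n → dist (X i) (X (i + 1)) ≤ e := by
    intro i hi
    have h1 := hxs ⟨i, hi⟩
    have e1 : X i = x (Fin.castSucc ⟨i, hi⟩) := congrArg x (Fin.ext (min_eq_left hi.le))
    have e2 : X (i + 1) = x (Fin.succ ⟨i, hi⟩) := congrArg x (Fin.ext (min_eq_left hi))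
    rw [e1, e2]
    exact h1
  have hXd : ∀ i s, dist (X i) z ^ B ≤ M * dist (X i) (f s) + e := fun i s => hxd _ s
  -- points away from `z`
  have away : ∀ (i : ℕ) (ρ : ℝ), 0 < ρ → η ≤ ρ → ρ ≤ dist (X i) z →
      ball (X i) (ρ ^ B / (2 * M)) ⊆ (range f)ᶜ := by
    intro i ρ hρ hηρ hi
    apply ball_sub
    rintro _ ⟨s, rfl⟩
    have h1 := hXd i s
    have h2 : ρ ^ B ≤ dist (X i) z ^ B := pow_le_pow_left₀ hρ.le hi B
    have h3 : η ^ B ≤ ρ ^ B := pow_le_pow_left₀ hη.le hηρ B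
    rw [div_le_iff₀ (by positivity)]
    linarith
  have hP0 : dist (X 0) z < η := by
    rw [hX0]
    exact hx0.trans_lt he3
  have hPN : ¬ dist (X n) z < η := by
    rw [hXN]
    intro h
    linarith
  obtain ⟨j, hj, hPj, hPi⟩ := last_index (P := fun i => dist (X i) z < η) hP0 hPN
  have hcomp : ∀ i, j < i → i ≤ n →
      connectedComponentIn (range f)ᶜ (X (j + 1)) = connectedComponentIn (range f)ᶜ (X i) := by
    intro i hi
    induction i, hi using Nat.le_induction with
    | base => intro _; rfl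
    | succ i hi ih =>
      intro hin
      rw [ih (by omega)]
      refine comp_eq hmη (away i η hη le_rfl (not_lt.1 (hPi i hi (by omega)))) ?_
      exact (hXs i (by omega)).trans_lt he2
  have hjmem : X (j + 1) ∈ (range f)ᶜ :=
    away (j + 1) η hη le_rfl (not_lt.1 (hPi (j + 1) (by omega) (by omega))) (mem_ball_self hmη)
  refine ⟨X n, X (j + 1), hxR _, ?_, ?_, hjmem, hcomp n hj le_rfl⟩
  · refine away n (κ / 2) (by positivity) (by linarith) ?_
    rw [hXN]
    linarith
  · have h1 := dist_triangle (X (j + 1)) (X j) z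
    have h2 := hXs j hj
    rw [dist_comm] at h2
    linarith

theorem t_GEO : S_GEO := by
  intro M κ R B N f z hM hκ _ hQ
  set K : Set ℂ := range f with hK
  have hKc : IsCompact K := isCompact_range f.continuous
  have hz : z ∈ K := by
    rw [← hKc.isClosed.closure_eq, Metric.mem_closure_iff]
    intro ε hε
    obtain ⟨k, hk⟩ := exists_nat_one_div_lt hε
    obtain ⟨-, ⟨s, hs⟩, -⟩ := hQ k
    refine ⟨f s, mem_range_self s, ?_⟩
    rw [dist_comm]
    exact hs.trans_lt hk
  set m : ℝ := (κ / 2) ^ B / (2 * M) with hm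
  have hm0 : 0 < m := by positivity
  obtain ⟨T, -, hTf, hT⟩ := (isCompact_closedBall (0 : ℂ) R).finite_cover_balls hm0
  have hcl : z ∈ closure (⋃ p ∈ T, connectedComponentIn Kᶜ p) := by
    rw [Metric.mem_closure_iff]
    intro ε hε
    obtain ⟨u, v, hu1, hu2, hv1, hv2, huv⟩ := step hM hκ hQ
      (lt_min (by positivity : (0 : ℝ) < κ / 4) (by positivity : (0 : ℝ) < ε / 4))
      (min_le_left _ _)
    have h1 : u ∈ closedBall (0 : ℂ) R := by
      rw [mem_closedBall, dist_zero_right]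
      exact hu1
    obtain ⟨p, hp, hup⟩ := mem_iUnion₂.1 (hT h1)
    refine ⟨v, mem_iUnion₂.2 ⟨p, hp, ?_⟩, ?_⟩
    · have h2 : connectedComponentIn Kᶜ u = connectedComponentIn Kᶜ p :=
        comp_eq hm0 hu2 (mem_ball.1 hup)
      rw [← h2, ← huv]
      exact mem_connectedComponentIn hv2
    · have h3 : min (κ / 4) (ε / 4) ≤ ε / 4 := min_le_right _ _
      rw [dist_comm]
      linarith
  rw [hTf.closure_biUnion] at hcl
  obtain ⟨p, -, hp⟩ := mem_iUnion₂.1 hcl
  refine mem_iUnion.2 ⟨p, hp, fun h => ?_⟩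
  exact connectedComponentIn_subset _ _ (interior_subset h) hz

end Pool.Agent.Y989.FR.GEO
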