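import Pool.Agent.Y989.FR.StmD
import Pool.Agent.H934R2.Expl.Mom

/-!
GOOD3: the good event has positive probability (second moment method), adapted from
`Pool.Agent.W347.DPGood`.
-/

set_option autoImplicit false
set_option maxHeartbeats 400000

namespace Pool.Agent.Y989.FR.GOOD3

open Pool.Agent.Y989.FR H974 H973 H12S H934E Finset H389NS H984P H984N
open Pool.Agent.W92.DP (DTB DLR HA SA)

/-! ### Sums -/

/-- one-dimensional sum -/
theorem t5_one {b : ℝ} (hb : 0 ≤ b) (hb1 : b < 1) : ∀ h : ℤ, 1 ≤ h → ∀ (k : ℤ) (J : Finset ℤ),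
    (∀ l ∈ J, |k - l| ≤ 2 * h) →
    ∑ l ∈ J, ((max |k - l| 1 : ℤ) : ℝ) ^ (-b) ≤ (1 + 4 / (1 - b)) * (h : ℝ) ^ (1 - b) := by
  intro h hh k J hJ
  have hb2 : 0 < 1 - b := by linarith
  have hh1 : (1:ℝ) ≤ h := by exact_mod_cast hh
  have hh0 : (0:ℝ) < h := by linarith
  have h1 := sum_dp hb hb1 (u := 2 * h) (k := k) (J := J) (by omega) hJ
  have hnn : ∀ l : ℤ, 0 ≤ ((max |k - l| 1 : ℤ) : ℝ) ^ (-b) := by
    intro l
    apply Real.rpow_nonneg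
    have : (0 : ℤ) ≤ max |k - l| 1 := le_trans zero_le_one (le_max_right _ _)
    exact_mod_cast this
  have h2 : ∑ l ∈ J.erase k, ((max |k - l| 1 : ℤ) : ℝ) ^ (-b) = ∑ l ∈ J.erase k, dp b k l := by
    apply Finset.sum_congr rfl
    intro l hl
    rw [Finset.mem_erase] at hl
    unfold dp
    have : (1 : ℤ) ≤ |k - l| := Int.one_le_abs (sub_ne_zero.mpr (fun e => hl.1 e.symm))
    rw [max_eq_left this]
    push_cast
    rfl
  have h3 : ∑ l ∈ J, ((max |k - l| 1 : ℤ) : ℝ) ^ (-b) ≤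
      1 + ∑ l ∈ J.erase k, ((max |k - l| 1 : ℤ) : ℝ) ^ (-b) := by
    by_cases hk : k ∈ J
    · rw [← Finset.add_sum_erase _ _ hk]
      simp
    · rw [Finset.erase_eq_of_notMem hk]
      linarith
  have h4 : (1:ℝ) ≤ (h : ℝ) ^ (1 - b) := Real.one_le_rpow hh1 hb2.le
  have h5 : (2 * (h : ℝ)) ^ (1 - b) ≤ 2 * (h : ℝ) ^ (1 - b) := by
    rw [Real.mul_rpow (by norm_num) hh0.le]
    apply mul_le_mul_of_nonneg_right _ (Real.rpow_nonneg hh0.le _)
    calc (2:ℝ) ^ (1 - b) ≤ (2:ℝ) ^ (1:ℝ) :=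
          Real.rpow_le_rpow_of_exponent_le (by norm_num) (by linarith)
      _ = 2 := Real.rpow_one _
  have h6 : 2 * ((((2 * h : ℤ) : ℝ)) ^ (1 - b) / (1 - b)) ≤ 4 / (1 - b) * (h : ℝ) ^ (1 - b) := by
    push_cast
    have : (2 * (h : ℝ)) ^ (1 - b) / (1 - b) ≤ 2 * (h : ℝ) ^ (1 - b) / (1 - b) :=
      div_le_div_of_nonneg_right h5 hb2.le
    calc _ ≤ 2 * (2 * (h : ℝ) ^ (1 - b) / (1 - b)) := by linarith
      _ = _ := by ring
  rw [h2] at h3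
  nlinarith

theorem t5_max_nonneg (a : ℤ) : (0:ℝ) ≤ ((max a 1 : ℤ) : ℝ) := by
  have : (0 : ℤ) ≤ max a 1 := le_trans zero_le_one (le_max_right _ _)
  exact_mod_cast this

theorem t5_max_pos (a : ℤ) : (0:ℝ) < ((max a 1 : ℤ) : ℝ) := by
  have : (0 : ℤ) < max a 1 := lt_of_lt_of_le zero_lt_one (le_max_right _ _)
  exact_mod_cast this


/-- two-dimensional sum -/
theorem t5_two {a : ℝ} (ha : 0 ≤ a) (ha1 : a < 2) (h : ℤ) (hh : 1 ≤ h) (v : Vtx)
    (hv : v ∈ core3 h) :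
    ∑ w ∈ core3 h, ((max (sd v w) 1 : ℤ) : ℝ) ^ (-a) ≤
      (1 + 4 / (1 - a / 2)) ^ 2 * (h : ℝ) ^ (2 - a) := by
  have hh1 : (1:ℝ) ≤ h := by exact_mod_cast hh
  have hh0 : (0:ℝ) < h := by linarith
  unfold core3 at hv ⊢
  rw [Finset.mem_product, Finset.mem_Icc, Finset.mem_Icc] at hv
  have b0 : 0 ≤ a / 2 := by linarith
  have b1 : a / 2 < 1 := by linarith
  have s1 := t5_one b0 b1 h hh v.1 (Finset.Icc (-(60 * h)) (-(58 * h))) (by
    intro l hl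
    rw [Finset.mem_Icc] at hl
    rw [abs_le]
    omega)
  have s2 := t5_one b0 b1 h hh v.2 (Finset.Icc (20 * h) (22 * h)) (by
    intro l hl
    rw [Finset.mem_Icc] at hl
    rw [abs_le]
    omega)
  have key : ∀ w : Vtx, ((max (sd v w) 1 : ℤ) : ℝ) ^ (-a) ≤
      ((max |v.1 - w.1| 1 : ℤ) : ℝ) ^ (-(a / 2)) * ((max |v.2 - w.2| 1 : ℤ) : ℝ) ^ (-(a / 2)) := by
    intro w
    have m1 : ((max |v.1 - w.1| 1 : ℤ) : ℝ) ≤ ((max (sd v w) 1 : ℤ) : ℝ) := by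
      have : max |v.1 - w.1| 1 ≤ max (sd v w) 1 := max_le_max (le_max_left _ _) le_rfl
      exact_mod_cast this
    have m2 : ((max |v.2 - w.2| 1 : ℤ) : ℝ) ≤ ((max (sd v w) 1 : ℤ) : ℝ) := by
      have : max |v.2 - w.2| 1 ≤ max (sd v w) 1 := max_le_max (le_max_right _ _) le_rfl
      exact_mod_cast this
    have e : ((max (sd v w) 1 : ℤ) : ℝ) ^ (-a) =
        ((max (sd v w) 1 : ℤ) : ℝ) ^ (-(a / 2)) * ((max (sd v w) 1 : ℤ) : ℝ) ^ (-(a / 2)) := by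
      rw [← Real.rpow_add (t5_max_pos _)]
      congr 1
      ring
    rw [e]
    exact mul_le_mul
      (Real.rpow_le_rpow_of_nonpos (t5_max_pos _) m1 (by linarith))
      (Real.rpow_le_rpow_of_nonpos (t5_max_pos _) m2 (by linarith))
      (Real.rpow_nonneg (t5_max_nonneg _) _) (Real.rpow_nonneg (t5_max_nonneg _) _)
  have h0 : 0 ≤ ∑ l ∈ Finset.Icc (20 * h) (22 * h), ((max |v.2 - l| 1 : ℤ) : ℝ) ^ (-(a / 2)) :=
    Finset.sum_nonneg (fun _ _ => Real.rpow_nonneg (t5_max_nonneg _) _)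
  calc ∑ w ∈ Finset.Icc (-(60 * h)) (-(58 * h)) ×ˢ Finset.Icc (20 * h) (22 * h), ((max (sd v w) 1 : ℤ) : ℝ) ^ (-a)
      ≤ ∑ w ∈ Finset.Icc (-(60 * h)) (-(58 * h)) ×ˢ Finset.Icc (20 * h) (22 * h),
        ((max |v.1 - w.1| 1 : ℤ) : ℝ) ^ (-(a / 2)) * ((max |v.2 - w.2| 1 : ℤ) : ℝ) ^ (-(a / 2)) :=
        Finset.sum_le_sum (fun w _ => key w)
    _ = (∑ l ∈ Finset.Icc (-(60 * h)) (-(58 * h)), ((max |v.1 - l| 1 : ℤ) : ℝ) ^ (-(a / 2))) *
        ∑ l ∈ Finset.Icc (20 * h) (22 * h), ((max |v.2 - l| 1 : ℤ) : ℝ) ^ (-(a / 2)) := by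
        rw [Finset.sum_product, Finset.sum_mul_sum]
    _ ≤ ((1 + 4 / (1 - a / 2)) * (h : ℝ) ^ (1 - a / 2)) *
        ((1 + 4 / (1 - a / 2)) * (h : ℝ) ^ (1 - a / 2)) :=
        mul_le_mul s1 s2 h0 (h0.trans s2)
    _ = (1 + 4 / (1 - a / 2)) ^ 2 * ((h : ℝ) ^ (1 - a / 2) * (h : ℝ) ^ (1 - a / 2)) := by ring
    _ = _ := by
        rw [← Real.rpow_add hh0]
        congr 2
        ring

theorem t5_card {h : ℤ} (hh : 0 ≤ h) : ((core3 h).card : ℝ) = (2 * h + 1) ^ 2 := by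
  unfold core3
  rw [Finset.card_product, Int.card_Icc, Int.card_Icc]
  have h1 : ((-(58 * h) + 1 - -(60 * h)).toNat : ℤ) = 2 * h + 1 := by omega
  have h2 : ((22 * h + 1 - 20 * h).toNat : ℤ) = 2 * h + 1 := by omega
  have h3 : (((-(58 * h) + 1 - -(60 * h)).toNat : ℤ) : ℝ) = ((2 * h + 1 : ℤ) : ℝ) := by rw [h1]
  have h4 : (((22 * h + 1 - 20 * h).toNat : ℤ) : ℝ) = ((2 * h + 1 : ℤ) : ℝ) := by rw [h2]
  push_cast at h3 h4 ⊢
  rw [h3, h4]
  ring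

/-! ### Number of vertices and energy -/

/-- the number of vertices as a sum of indicators -/
theorem t5_N (M B a : ℕ) (F : Finset Edg) :
    ((V3 M B a F).card : ℝ) = ∑ v ∈ core3 a, ind (E3 M B a v F) := by
  classical
  unfold V3
  rw [Finset.card_filter]
  push_cast
  apply Finset.sum_congr rfl
  intro v _
  by_cases hv : E3 M B a v F
  · rw [if_pos hv, ind_of hv]
  · rw [if_neg hv, ind_not_of hv]

/-- the energy as a sum of indicators -/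
theorem t5_En (t : ℝ) (M B a : ℕ) (F : Finset Edg) :
    En3 t M B a F = ∑ v ∈ core3 a, ∑ w ∈ core3 a,
      ((max (sd v w) 1 : ℤ) : ℝ) ^ (-t) * ind (E3 M B a v F ∧ E3 M B a w F) := by
  classical
  unfold En3 V3
  rw [Finset.sum_filter]
  apply Finset.sum_congr rfl
  intro v _
  by_cases hv : E3 M B a v F
  · rw [if_pos hv, Finset.sum_filter]
    apply Finset.sum_congr rfl
    intro w _
    by_cases hw : E3 M B a w F
    · rw [if_pos hw, ind_of ⟨hv, hw⟩, mul_one]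
    · rw [if_neg hw, ind_not_of (fun h => hw h.2), mul_zero]
  · rw [if_neg hv]
    symm
    apply Finset.sum_eq_zero
    intro w _
    rw [ind_not_of (fun h => hv h.1), mul_zero]

theorem t5_sq (M B a : ℕ) (F : Finset Edg) :
    ((V3 M B a F).card : ℝ) * ((V3 M B a F).card : ℝ) = En3 0 M B a F := by
  unfold En3
  simp only [neg_zero, Real.rpow_zero, Finset.sum_const, nsmul_eq_mul, mul_one]

theorem t5_En_nonneg (t : ℝ) (M B a : ℕ) (F : Finset Edg) : 0 ≤ En3 t M B a F :=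
  Finset.sum_nonneg (fun _ _ => Finset.sum_nonneg
    (fun _ _ => Real.rpow_nonneg (t5_max_nonneg _) _))

/-- expectation of the energy -/
theorem t5_EE (h2 : S_TWO3) {t : ℝ} (ht : 0 ≤ t) (ht1 : t < 4 / 3) (M B : ℕ) :
    ∃ C : ℝ, 0 < C ∧ ∀ a : ℕ, 192 ≤ a → ∀ S : Finset Edg, SA (4 * a) ⊆ S →
      EE S (En3 t M B a) ≤ C * (a : ℝ) ^ (8 / 3 - t) := by
  obtain ⟨C, hC, hT⟩ := h2 M B
  have hb : 0 < 1 - (t + 2 / 3) / 2 := by linarith
  refine ⟨9 * C * (1 + 4 / (1 - (t + 2 / 3) / 2)) ^ 2, by positivity, ?_⟩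
  intro a ha S hS
  have ha0 : (0:ℝ) < a := by
    have : 0 < a := by omega
    exact_mod_cast this
  have ha1 : (1:ℝ) ≤ a := by
    have : 1 ≤ a := by omega
    exact_mod_cast this
  have e1 : EE S (En3 t M B a) = ∑ v ∈ core3 a, ∑ w ∈ core3 a,
      ((max (sd v w) 1 : ℤ) : ℝ) ^ (-t) * Q S (fun F => E3 M B a v F ∧ E3 M B a w F) := by
    have e0 : EE S (En3 t M B a) = EE S (fun F => ∑ v ∈ core3 a, ∑ w ∈ core3 a,
      ((max (sd v w) 1 : ℤ) : ℝ) ^ (-t) * ind (E3 M B a v F ∧ E3 M B a w F)) := by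
      congr 1
      funext F
      exact t5_En t M B a F
    rw [e0]
    unfold EE
    rw [Ex_sum]
    apply Finset.sum_congr rfl
    intro v _
    rw [Ex_sum]
    apply Finset.sum_congr rfl
    intro w _
    rw [Ex_mul_left]
    rfl
  rw [e1]
  have h2 : ∀ v ∈ core3 a, ∑ w ∈ core3 a,
      ((max (sd v w) 1 : ℤ) : ℝ) ^ (-t) * Q S (fun F => E3 M B a v F ∧ E3 M B a w F) ≤
      C * (a : ℝ) ^ (-(2 / 3) : ℝ) *
        ((1 + 4 / (1 - (t + 2 / 3) / 2)) ^ 2 * (a : ℝ) ^ (2 - (t + 2 / 3))) := by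
    intro v hv
    have i1 := t5_two (a := t + 2 / 3) (by linarith) (by linarith) (a : ℤ) (by omega) v hv
    rw [Int.cast_natCast] at i1
    refine le_trans ?_ (mul_le_mul_of_nonneg_left i1
      (mul_nonneg hC.le (Real.rpow_nonneg ha0.le _)))
    rw [Finset.mul_sum]
    apply Finset.sum_le_sum
    intro w hw
    have i2 := hT a ha v hv w hw S hS
    have e2 : ((max (sd v w) 1 : ℤ) : ℝ) ^ (-(t + 2 / 3)) =
        ((max (sd v w) 1 : ℤ) : ℝ) ^ (-t) * ((max (sd v w) 1 : ℤ) : ℝ) ^ (-(2 / 3) : ℝ) := by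
      rw [← Real.rpow_add (t5_max_pos _)]
      congr 1
      ring
    rw [e2]
    calc _ ≤ ((max (sd v w) 1 : ℤ) : ℝ) ^ (-t) *
          (C * ((max (sd v w) 1 : ℤ) : ℝ) ^ (-(2 / 3) : ℝ) * (a : ℝ) ^ (-(2 / 3) : ℝ)) :=
          mul_le_mul_of_nonneg_left i2 (Real.rpow_nonneg (t5_max_nonneg _) _)
      _ = _ := by ring
  refine (Finset.sum_le_sum h2).trans ?_
  rw [Finset.sum_const, nsmul_eq_mul, t5_card (by omega), Int.cast_natCast]
  have e3 : (a : ℝ) ^ 2 * ((a : ℝ) ^ (-(2 / 3) : ℝ) * (a : ℝ) ^ (2 - (t + 2 / 3))) =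
      (a : ℝ) ^ (8 / 3 - t) := by
    rw [← Real.rpow_add ha0, ← Real.rpow_natCast, ← Real.rpow_add ha0]
    congr 1
    push_cast
    ring
  have h4 : (2 * (a : ℝ) + 1) ^ 2 ≤ 9 * (a : ℝ) ^ 2 := by nlinarith
  have h5 : 0 ≤ C * (a : ℝ) ^ (-(2 / 3) : ℝ) *
        ((1 + 4 / (1 - (t + 2 / 3) / 2)) ^ 2 * (a : ℝ) ^ (2 - (t + 2 / 3))) := by
    have := Real.rpow_nonneg ha0.le (-(2 / 3) : ℝ)
    have := Real.rpow_nonneg ha0.le (2 - (t + 2 / 3))
    positivity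
  calc (2 * (a : ℝ) + 1) ^ 2 * (C * (a : ℝ) ^ (-(2 / 3) : ℝ) *
        ((1 + 4 / (1 - (t + 2 / 3) / 2)) ^ 2 * (a : ℝ) ^ (2 - (t + 2 / 3))))
      ≤ (9 * (a : ℝ) ^ 2) * (C * (a : ℝ) ^ (-(2 / 3) : ℝ) *
        ((1 + 4 / (1 - (t + 2 / 3) / 2)) ^ 2 * (a : ℝ) ^ (2 - (t + 2 / 3)))) :=
        mul_le_mul_of_nonneg_right h4 h5
    _ = 9 * C * (1 + 4 / (1 - (t + 2 / 3) / 2)) ^ 2 *
        ((a : ℝ) ^ 2 * ((a : ℝ) ^ (-(2 / 3) : ℝ) * (a : ℝ) ^ (2 - (t + 2 / 3)))) := by ring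
    _ = _ := by rw [e3]

/-- **GOOD3**: the good event has positive probability. -/
theorem t_GOOD3 : S_ONE3 → S_TWO3 → S_GOOD3 := by
  intro h1 h2 t ht ht1
  obtain ⟨M, B, a0, c, hM, hB, ha0, hc, hone⟩ := h1
  obtain ⟨C0, hC0, hE0⟩ := t5_EE h2 (t := 0) le_rfl (by norm_num) M B
  obtain ⟨Ct, hCt, hEt⟩ := t5_EE h2 (t := t) ht.le ht1 M B
  obtain ⟨A, hA⟩ : ∃ A : ℝ, A = 4 * c := ⟨_, rfl⟩
  have hA0 : 0 < A := by rw [hA]; positivity
  set p : ℝ := A ^ 2 / (4 * C0) / 2 with hp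
  have hp0 : 0 < p := by positivity
  refine ⟨M, B, a0, A / 2, Ct / p, min p 1, hM, hB, ha0, by positivity, by positivity,
    lt_min hp0 one_pos, min_le_right _ _, ?_⟩
  intro a haa S hS
  refine (min_le_left _ _).trans ?_
  have ha192 : 192 ≤ a := ha0.trans haa
  have hm0 : (0:ℝ) < a := by
    have : 0 < a := by omega
    exact_mod_cast this
  have hm1 : (1:ℝ) ≤ a := by
    have : 1 ≤ a := by omega
    exact_mod_cast this
  have hU : 0 < (a : ℝ) ^ (4 / 3 : ℝ) := Real.rpow_pos_of_pos hm0 _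
  have hU2 : (a : ℝ) ^ (4 / 3 : ℝ) * (a : ℝ) ^ (4 / 3 : ℝ) = (a : ℝ) ^ (8 / 3 - (0:ℝ)) := by
    rw [← Real.rpow_add hm0]; norm_num
  set X : Finset Edg → ℝ := fun F => ((V3 M B a F).card : ℝ) * ind (GO3 a F ∧ GD3 a F) with hX
  have hX0 : ∀ F, 0 ≤ X F := fun F => mul_nonneg (Nat.cast_nonneg _) (ind_nonneg _)
  -- first moment
  have l1 : A * (a : ℝ) ^ (4 / 3 : ℝ) ≤ EE S X := by
    have e1 : EE S X = ∑ v ∈ core3 a, Q S (fun F => E3 M B a v F ∧ GO3 a F ∧ GD3 a F) := by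
      have e0 : EE S X = EE S (fun F => ∑ v ∈ core3 a,
          ind (E3 M B a v F ∧ GO3 a F ∧ GD3 a F)) := by
        congr 1
        funext F
        rw [hX]
        simp only
        rw [t5_N, Finset.sum_mul]
        apply Finset.sum_congr rfl
        intro v _
        rw [ind_and (E3 M B a v F)]
      rw [e0]
      unfold EE
      rw [Ex_sum]
      rfl
    rw [e1]
    have i1 : ∀ v ∈ core3 a, c * (a : ℝ) ^ (-(2 / 3 : ℝ)) ≤
        Q S (fun F => E3 M B a v F ∧ GO3 a F ∧ GD3 a F) := by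
      intro v hv
      exact hone a haa v hv S hS
    refine le_trans ?_ (Finset.sum_le_sum i1)
    rw [Finset.sum_const, nsmul_eq_mul, t5_card (by omega), Int.cast_natCast]
    have e3 : (a : ℝ) ^ 2 * (a : ℝ) ^ (-(2 / 3 : ℝ)) = (a : ℝ) ^ (4 / 3 : ℝ) := by
      rw [← Real.rpow_natCast, ← Real.rpow_add hm0]
      congr 1
      norm_num
    rw [← e3]
    have h4 : 4 * (a : ℝ) ^ 2 ≤ (2 * (a : ℝ) + 1) ^ 2 := by nlinarith
    have h5 : 0 ≤ c * (a : ℝ) ^ (-(2 / 3 : ℝ)) := by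
      have := Real.rpow_nonneg hm0.le (-(2 / 3 : ℝ))
      positivity
    calc A * ((a : ℝ) ^ 2 * (a : ℝ) ^ (-(2 / 3 : ℝ))) =
        4 * (a : ℝ) ^ 2 * (c * (a : ℝ) ^ (-(2 / 3 : ℝ))) := by rw [hA]; ring
      _ ≤ _ := mul_le_mul_of_nonneg_right h4 h5
  -- second moment
  have l2 : EE S (fun F => X F * X F) ≤ C0 * (a : ℝ) ^ (8 / 3 - (0:ℝ)) := by
    refine le_trans ?_ (hE0 a ha192 S hS)
    unfold EE
    apply Ex_mono okhalf
    intro F _
    rw [← t5_sq]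
    have i1 : X F ≤ ((V3 M B a F).card : ℝ) := by
      rw [hX]
      simp only
      have := ind_le_one (GO3 a F ∧ GD3 a F)
      exact mul_le_of_le_one_right (Nat.cast_nonneg _) this
    exact mul_le_mul i1 i1 (hX0 F) (Nat.cast_nonneg _)
  have k := paley (S := S) (f := X) (fun F _ => hX0 F)
    (m := A * (a : ℝ) ^ (4 / 3 : ℝ)) (V := C0 * (a : ℝ) ^ (8 / 3 - (0:ℝ)))
    (by positivity) (by positivity) l1 l2
  have e3 : (A * (a : ℝ) ^ (4 / 3 : ℝ)) ^ 2 /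
      (4 * (C0 * (a : ℝ) ^ (8 / 3 - (0:ℝ)))) = 2 * p := by
    rw [← hU2, hp]
    field_simp
  rw [e3] at k
  -- energy
  have hU3 : 0 < (a : ℝ) ^ (8 / 3 - t) := Real.rpow_pos_of_pos hm0 _
  have i2 := markov (S := S) (f := En3 t M B a) (fun F _ => t5_En_nonneg t M B a F)
    (t := Ct / p * (a : ℝ) ^ (8 / 3 - t)) (by positivity)
  have i3 : EE S (En3 t M B a) / (Ct / p * (a : ℝ) ^ (8 / 3 - t)) ≤ p := by
    rw [div_le_iff₀ (by positivity)]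
    refine (hEt a ha192 S hS).trans (le_of_eq ?_)
    field_simp
  have i4 : Q S (fun F => A * (a : ℝ) ^ (4 / 3 : ℝ) / 2 ≤ X F) ≤
      Q S (Gd3 (A / 2) (Ct / p) t M B a) +
      Q S (fun F => Ct / p * (a : ℝ) ^ (8 / 3 - t) ≤ En3 t M B a F) := by
    refine le_trans ?_ (Pr_or_le okhalf S (Gd3 (A / 2) (Ct / p) t M B a) _)
    apply Q_mono
    intro F _ hF
    by_cases h5 : En3 t M B a F ≤ Ct / p * (a : ℝ) ^ (8 / 3 - t)
    · left
      have hpos : 0 < X F := lt_of_lt_of_le (by positivity) hF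
      have hcr : GO3 a F ∧ GD3 a F := by
        by_contra hn
        rw [hX] at hpos
        simp only at hpos
        rw [ind_not_of hn, mul_zero] at hpos
        exact lt_irrefl _ hpos
      refine ⟨hcr, ?_, h5⟩
      rw [hX] at hF
      simp only at hF
      rw [ind_of hcr, mul_one] at hF
      refine le_trans (le_of_eq ?_) hF
      ring
    · exact Or.inr (le_of_not_ge h5)
  have i5 : p ≤ Q S (Gd3 (A / 2) (Ct / p) t M B a) := by linarith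
  exact i5

end Pool.Agent.Y989.FR.GOOD3
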