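import Pool.Agent.Y989.FR.StmD
import Pool.Agent.W52.DPInd

/-!
Project FR, job IND3: independence of the scales (adapted from `Pool.Agent.W52.DPInd`).
-/

set_option autoImplicit false

namespace Pool.Agent.Y989.FR.IND3

open H974 H12S H389NS H984P H984N Finset
open Pool.Agent.Y989.FR
open Pool.Agent.W92.DP (DTB DLR HA SA)
open Pool.Agent.W52.DPInd (RE_sub okhalf DTB_local DLR_local SA_disj)

theorem mem_core3 {a : ℤ} {v : Vtx} : v ∈ core3 a ↔
    (-(60 * a) ≤ v.1 ∧ v.1 ≤ -(58 * a)) ∧ (20 * a ≤ v.2 ∧ v.2 ≤ 22 * a) := by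
  unfold core3
  rw [Finset.mem_product, Finset.mem_Icc, Finset.mem_Icc]

theorem inter_eq_of_sub {G H : Finset Edg} (hG : G ⊆ H) (F : Finset Edg) :
    ((↑(F ∩ H) : Set Edg) ∩ ↑G) = (↑F : Set Edg) ∩ ↑G := by
  ext e
  rw [Finset.coe_inter]
  constructor
  · rintro ⟨⟨h1, _⟩, h2⟩
    exact ⟨h1, h2⟩
  · rintro ⟨h1, h2⟩
    exact ⟨⟨h1, hG h2⟩, h2⟩

theorem blk_sub {a : ℕ} (ha : 192 ≤ a) {v : Vtx} (hv : v ∈ core3 a) :
    blk v (8 * (a / 64)) ⊆ SA (4 * a) := by
  rw [mem_core3] at hv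
  unfold blk
  have h : ((8 * (a / 64) : ℕ) : ℤ) ≤ a := by omega
  exact RE_sub (by omega) (by omega) (by omega) (by omega) (by omega)

theorem PR_sub {a : ℕ} (ha : 192 ≤ a) {v : Vtx} (hv : v ∈ core3 a) : PR v a ⊆ SA (4 * a) := by
  rw [mem_core3] at hv
  unfold PR
  exact RE_sub (by omega) (by omega) (by omega) (by omega) (by omega)

theorem dE_sub {a : ℕ} (ha : 192 ≤ a) {v : Vtx} (hv : v ∈ core3 a) :
    dE (DR v a) ⊆ (↑(SA (4 * a)) : Set Edg) := by
  rw [mem_core3] at hv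
  have h : RE (v.1 - 13 * a) (v.1 + 13 * a) (v.2 - 4 * a) (v.2 + 13 * a) ⊆ SA (4 * a) :=
    RE_sub (by omega) (by omega) (by omega) (by omega) (by omega)
  rintro ⟨x, y, _ | _⟩ he
  · apply h
    have he' : dl (x, y, false) ∈ DR v a := he
    unfold DR dl at he'
    simp at he'
    rw [mem_RE_false]
    omega
  · apply h
    have he' : dl (x, y, true) ∈ DR v a := he
    unfold DR dl at he'
    simp at he'
    rw [mem_RE_true]
    omega

theorem RA_local {a : ℕ} (ha : 192 ≤ a) {v : Vtx} (hv : v ∈ core3 a) (F : Finset Edg) :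
    RA v a ↑F ↔ RA v a ↑(F ∩ SA (4 * a)) := by
  unfold RA
  rw [inter_eq_of_sub (PR_sub ha hv)]
  have h2 : dE (DR v a) \ (↑F : Set Edg) = dE (DR v a) \ (↑(F ∩ SA (4 * a)) : Set Edg) := by
    ext e
    rw [Finset.coe_inter]
    constructor
    · rintro ⟨h1, h2⟩
      exact ⟨h1, fun h3 => h2 h3.1⟩
    · rintro ⟨h1, h2⟩
      exact ⟨h1, fun h3 => h2 ⟨h3, dE_sub ha hv h1⟩⟩
  rw [← h2]

theorem Tk_local {M B a : ℕ} (ha : 192 ≤ a) {v : Vtx} (hv : v ∈ core3 a) (F : Finset Edg) :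
    Tk M B (a / 64) v ↑F ↔ Tk M B (a / 64) v ↑(F ∩ SA (4 * a)) := by
  have h : BB (a / 64) v ↑F = BB (a / 64) v ↑(F ∩ SA (4 * a)) := by
    unfold BB
    rw [inter_eq_of_sub (blk_sub ha hv)]
  unfold Tk
  rw [← h]

theorem E3_local {M B a : ℕ} (ha : 192 ≤ a) {v : Vtx} (hv : v ∈ core3 a) (F : Finset Edg) :
    E3 M B a v F ↔ E3 M B a v (F ∩ SA (4 * a)) := by
  unfold E3
  rw [← RA_local ha hv, ← Tk_local ha hv]

theorem GO3_local {a : ℤ} (ha : 192 ≤ a) (F : Finset Edg) : GO3 a F ↔ GO3 a (F ∩ SA (4 * a)) := by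
  unfold GO3
  rw [← LRc_local (LRE_subset_RE.trans (RE_sub (by omega) (by omega) (by omega) (by omega)
      (by omega))),
    ← TBc_local (TBE_subset_RE.trans (RE_sub (by omega) (by omega) (by omega) (by omega)
      (by omega)))]

theorem GD3_local {a : ℤ} (ha : 192 ≤ a) (F : Finset Edg) : GD3 a F ↔ GD3 a (F ∩ SA (4 * a)) := by
  unfold GD3
  rw [← DLR_local (S := SA (4 * a)) (TBE_subset_RE.trans (RE_sub (by omega) (by omega) (by omega)
      (by omega) (by omega))),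
    ← DTB_local (S := SA (4 * a)) (LRE_subset_RE.trans (RE_sub (by omega) (by omega) (by omega)
      (by omega) (by omega)))]

theorem V3_local {M B a : ℕ} (ha : 192 ≤ a) (F : Finset Edg) :
    V3 M B a F = V3 M B a (F ∩ SA (4 * a)) := by
  classical
  unfold V3
  apply Finset.filter_congr
  intro v hv
  exact E3_local ha hv F

theorem Gd3_local {c0 E0 t : ℝ} {M B a : ℕ} (ha : 192 ≤ a) (F : Finset Edg) :
    Gd3 c0 E0 t M B a F ↔ Gd3 c0 E0 t M B a (F ∩ SA (4 * a)) := by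
  have ha' : (192 : ℤ) ≤ a := by exact_mod_cast ha
  unfold Gd3 En3
  rw [← V3_local ha F, ← GO3_local ha' F, ← GD3_local ha' F]

/-- **IND3.** -/
theorem t_IND3 : S_IND3 := by
  intro p c0 E0 t M B a0 hp ha0 hG J a
  induction J with
  | zero =>
    intro S _ _
    rw [pow_zero]
    exact Pr_le_one okhalf _ _
  | succ J ih =>
    intro S ha hS
    have hrj : ∀ j : ℕ, a ≤ 64 ^ j * a := fun j => Nat.le_mul_of_pos_left a (by positivity)
    have hr0 : ∀ j : ℕ, a0 ≤ 64 ^ j * a := fun j => ha.trans (hrj j)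
    have hr1 : ∀ j : ℕ, 192 ≤ 64 ^ j * a := fun j => ha0.trans (hr0 j)
    set T : Finset Edg := (Finset.range J).biUnion
      (fun j => SA (4 * (64 ^ j * a : ℕ))) with hT
    have hTS : T ⊆ S := by
      rw [hT, Finset.biUnion_subset]
      intro j hj
      exact hS j (by have := Finset.mem_range.mp hj; omega)
    have hdis : Disjoint T (SA (4 * (64 ^ J * a : ℕ))) := by
      rw [hT, Finset.disjoint_biUnion_left]
      intro j hj
      have hj' := Finset.mem_range.mp hj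
      apply SA_disj
      · have := hr1 j
        omega
      · have h1 : 64 ^ (j + 1) ≤ 64 ^ J := pow_le_pow_right₀ (by norm_num) hj'
        have h2 : 64 * (64 ^ j * a) ≤ 64 ^ J * a := by
          calc 64 * (64 ^ j * a) = 64 ^ (j + 1) * a := by ring
            _ ≤ 64 ^ J * a := Nat.mul_le_mul_right _ h1
        have h3 : ((64 * (64 ^ j * a) : ℕ) : ℤ) ≤ ((64 ^ J * a : ℕ) : ℤ) := by exact_mod_cast h2
        rw [Nat.cast_mul] at h3
        have h4 : ((64 : ℕ) : ℤ) = 64 := rfl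
        rw [h4] at h3
        linarith
    have hA : ∀ F : Finset Edg, F ⊆ S → ((∀ j < J, ¬ Gd3 c0 E0 t M B (64 ^ j * a) F) ↔
        ∀ j < J, ¬ Gd3 c0 E0 t M B (64 ^ j * a) (F ∩ T)) := by
      intro F _
      refine forall_congr' fun j => ?_
      refine forall_congr' fun hj => ?_
      have hsub : SA (4 * (64 ^ j * a : ℕ)) ⊆ T := by
        rw [hT]
        exact Finset.subset_biUnion_of_mem (fun j => SA (4 * (64 ^ j * a : ℕ)))
          (Finset.mem_range.mpr hj)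
      rw [Gd3_local (hr1 j) F, Gd3_local (hr1 j) (F ∩ T),
        Finset.inter_assoc, Finset.inter_eq_right.mpr hsub]
    have hB : ∀ F : Finset Edg, F ⊆ S → (¬ Gd3 c0 E0 t M B (64 ^ J * a) F ↔
        ¬ Gd3 c0 E0 t M B (64 ^ J * a) (F ∩ SA (4 * (64 ^ J * a : ℕ)))) := by
      intro F _
      rw [← Gd3_local (hr1 J) F]
    have h1 : PQ (1/2) S (fun F => ∀ j < J + 1, ¬ Gd3 c0 E0 t M B (64 ^ j * a) F) =
        PQ (1/2) S (fun F => (∀ j < J, ¬ Gd3 c0 E0 t M B (64 ^ j * a) F) ∧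
          ¬ Gd3 c0 E0 t M B (64 ^ J * a) F) := by
      apply Pr_congr
      intro F _
      constructor
      · intro h2
        exact ⟨fun j hj => h2 j (by omega), h2 J (by omega)⟩
      · rintro ⟨h2, h3⟩ j hj
        rcases Nat.lt_or_ge j J with h4 | h4
        · exact h2 j h4
        · have : j = J := by omega
          subst this
          exact h3
    rw [h1]
    have h2 : PQ (1/2) S (fun F => (∀ j < J, ¬ Gd3 c0 E0 t M B (64 ^ j * a) F) ∧
          ¬ Gd3 c0 E0 t M B (64 ^ J * a) F) =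
        PQ (1/2) S (fun F => ∀ j < J, ¬ Gd3 c0 E0 t M B (64 ^ j * a) F) *
          PQ (1/2) S (fun F => ¬ Gd3 c0 E0 t M B (64 ^ J * a) F) :=
      Pr_indep hTS (hS J (by omega)) hdis hA hB
    rw [h2, pow_succ]
    have h3 := ih S ha (fun j hj => hS j (by omega))
    have h4 : PQ (1/2) S (fun F => ¬ Gd3 c0 E0 t M B (64 ^ J * a) F) ≤ 1 - p := by
      have h5 : PQ (1/2) S (fun F => ¬ Gd3 c0 E0 t M B (64 ^ J * a) F) =
        1 - PQ (1/2) S (Gd3 c0 E0 t M B (64 ^ J * a)) := Pr_not _ _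
      rw [h5]
      have := hG (64 ^ J * a) (hr0 J) S (hS J (by omega))
      linarith
    have h5 : 0 ≤ PQ (1/2) S (fun F => ¬ Gd3 c0 E0 t M B (64 ^ J * a) F) :=
      Pr_nonneg okhalf _ _
    have h6 : (0 : ℝ) ≤ (1 - p) ^ J := pow_nonneg (by linarith) _
    exact mul_le_mul h3 h4 h5 h6

end Pool.Agent.Y989.FR.IND3
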