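import Pool.Agent.Y989.FR.StmD

/-!
Project FR, job LG: abstract passage to the limit (adapted from `Pool.Agent.TH966.DP.DD`).
-/

set_option autoImplicit false

namespace Pool.Agent.Y989.FR.LG

open Set Filter Topology Metric Pool.Agent.H389R2.Dim MeasureTheory
open Pool.Agent.Y989.FR H984N
open scoped ENNReal NNReal

/-- The approximate sets. -/
def AA (K : Set ℂ) (Q : ℕ → Set (C(unitInterval, ℂ) × ℂ)) (e : ℝ) (f : C(unitInterval, ℂ)) :
    Set ℂ :=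
  {z | z ∈ K ∧ ∀ k : ℕ, e ≤ 1 / ((k : ℝ) + 1) → (f, z) ∈ Q k}

theorem AA_mono {K : Set ℂ} {Q : ℕ → Set (C(unitInterval, ℂ) × ℂ)} {e e' : ℝ} (h : e ≤ e')
    (f : C(unitInterval, ℂ)) : AA K Q e f ⊆ AA K Q e' f := by
  rintro z ⟨hz, h1⟩
  exact ⟨hz, fun k hk => h1 k (h.trans hk)⟩

/-- The closed condition. -/
def Cnd (K : Set ℂ) (Q : ℕ → Set (C(unitInterval, ℂ) × ℂ)) (e : ℝ) :
    Set (C(unitInterval, ℂ) × K) :=
  {p | ∀ k : ℕ, e ≤ 1 / ((k : ℝ) + 1) → (p.1, (p.2 : ℂ)) ∈ Q k}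

theorem closed_cnd {K : Set ℂ} {Q : ℕ → Set (C(unitInterval, ℂ) × ℂ)}
    (hQ : ∀ k, IsClosed (Q k)) (e : ℝ) : IsClosed (Cnd K Q e) := by
  have h : Cnd K Q e = ⋂ (k : ℕ) (_ : e ≤ 1 / ((k : ℝ) + 1)),
      (fun p : C(unitInterval, ℂ) × K => (p.1, (p.2 : ℂ))) ⁻¹' Q k := by
    ext p
    simp only [Cnd, mem_ofPred_eq, mem_iInter, mem_preimage]
  rw [h]
  refine isClosed_iInter fun k => isClosed_iInter fun _ => (hQ k).preimage ?_
  exact continuous_fst.prodMk (continuous_subtype_val.comp continuous_snd)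

/-- Upper semicontinuity. -/
theorem isOpen_AA_sub {K O : Set ℂ} {Q : ℕ → Set (C(unitInterval, ℂ) × ℂ)}
    (hQ : ∀ k, IsClosed (Q k)) {e : ℝ} (hK : IsCompact K) (hO : IsOpen O) :
    IsOpen {f : C(unitInterval, ℂ) | AA K Q e f ⊆ O} := by
  have hK' : IsCompact (K \ O) := hK.diff hO
  have : CompactSpace ↥(K \ O) := isCompact_iff_compactSpace.1 hK'
  have h1 := closed_cnd (K := K \ O) hQ e
  have h2 := isClosedMap_fst_of_compactSpace _ h1
  have h3 : {f : C(unitInterval, ℂ) | AA K Q e f ⊆ O}ᶜ = Prod.fst '' Cnd (K \ O) Q e := by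
    ext f
    simp only [mem_compl_iff, mem_ofPred_eq, not_subset, mem_image, Prod.exists]
    constructor
    · rintro ⟨z, ⟨hz, h4⟩, hzO⟩
      exact ⟨f, ⟨z, hz, hzO⟩, h4, rfl⟩
    · rintro ⟨g, ⟨z, hz, hzO⟩, h4, rfl⟩
      exact ⟨z, ⟨hz, h4⟩, hzO⟩
  rw [← isClosed_compl_iff, h3]
  exact h2

theorem isClosed_good_AA {t δ c e : ℝ} {K : Set ℂ} {Q : ℕ → Set (C(unitInterval, ℂ) × ℂ)}
    (hQ : ∀ k, IsClosed (Q k)) (hK : IsCompact K) :
    IsClosed {f : C(unitInterval, ℂ) | Good t δ c (AA K Q e f)} := by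
  have h : {f : C(unitInterval, ℂ) | Good t δ c (AA K Q e f)} =
      ⋂ s : Finset (ℂ × ℝ), {f : C(unitInterval, ℂ) | (∀ p ∈ s, δ ≤ p.2) →
        AA K Q e f ⊆ ⋃ p ∈ s, ball p.1 p.2 → c ≤ ∑ p ∈ s, p.2 ^ t} := by
    ext K; simp [Good]
  rw [h]
  apply isClosed_iInter
  intro s
  by_cases h1 : (∀ p ∈ s, δ ≤ p.2) ∧ ¬ c ≤ ∑ p ∈ s, p.2 ^ t
  · have h2 : {f : C(unitInterval, ℂ) | (∀ p ∈ s, δ ≤ p.2) →
        AA K Q e f ⊆ ⋃ p ∈ s, ball p.1 p.2 → c ≤ ∑ p ∈ s, p.2 ^ t} =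
        {f : C(unitInterval, ℂ) | AA K Q e f ⊆ ⋃ p ∈ s, ball p.1 p.2}ᶜ := by
      ext K
      simp only [Set.mem_ofPred_eq, Set.mem_compl_iff]
      constructor
      · intro h3 h4; exact h1.2 (h3 h1.1 h4)
      · intro h3 _ h4; exact absurd h4 h3
    rw [h2]
    exact (isOpen_AA_sub hQ hK (isOpen_biUnion fun p _ => isOpen_ball)).isClosed_compl
  · have h2 : {f : C(unitInterval, ℂ) | (∀ p ∈ s, δ ≤ p.2) →
        AA K Q e f ⊆ ⋃ p ∈ s, ball p.1 p.2 → c ≤ ∑ p ∈ s, p.2 ^ t} = univ := by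
      ext K
      simp only [Set.mem_ofPred_eq, Set.mem_univ, iff_true]
      intro h3 _
      by_contra h4
      exact h1 ⟨h3, h4⟩
    rw [h2]; exact isClosed_univ

theorem isCompact_AA {e : ℝ} {K : Set ℂ} {Q : ℕ → Set (C(unitInterval, ℂ) × ℂ)}
    (hQ : ∀ k, IsClosed (Q k)) (hK : IsCompact K) (f : C(unitInterval, ℂ)) :
    IsCompact (AA K Q e f) := by
  have h : AA K Q e f = K ∩ ⋂ (k : ℕ) (_ : e ≤ 1 / ((k : ℝ) + 1)), (fun z : ℂ => (f, z)) ⁻¹' Q k := by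
    ext z
    simp only [AA, mem_ofPred_eq, mem_inter_iff, mem_iInter, mem_preimage]
  rw [h]
  refine hK.inter_right (isClosed_iInter fun k => isClosed_iInter fun _ => (hQ k).preimage ?_)
  exact continuous_const.prodMk continuous_id

/-- Passing to `e = 0`. -/
theorem good_zero {t δ c : ℝ} {K : Set ℂ} {Q : ℕ → Set (C(unitInterval, ℂ) × ℂ)}
    (hQ : ∀ k, IsClosed (Q k)) (hK : IsCompact K) (f : C(unitInterval, ℂ))
    (h : ∀ n : ℕ, Good t δ c (AA K Q (1 / ((n : ℝ) + 1)) f)) : Good t δ c (AA K Q 0 f) := by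
  intro s hs hcov
  set O : Set ℂ := ⋃ p ∈ s, ball p.1 p.2 with hOdef
  have hO : IsOpen O := isOpen_biUnion fun p _ => isOpen_ball
  by_contra hcon
  have hne : ∀ n : ℕ, (AA (K \ O) Q (1 / ((n : ℝ) + 1)) f).Nonempty := by
    intro n
    by_contra hemp
    apply hcon
    apply h n s hs
    rintro z ⟨hz, hh⟩
    by_contra hzO
    exact hemp ⟨z, ⟨hz, hzO⟩, hh⟩
  have hK' : IsCompact (K \ O) := hK.diff hO
  have hle : ∀ n : ℕ, 1 / (((n + 1 : ℕ) : ℝ) + 1) ≤ 1 / ((n : ℝ) + 1) := fun n =>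
    Nat.one_div_le_one_div (Nat.le_succ n)
  obtain ⟨z, hz⟩ := IsCompact.nonempty_iInter_of_sequence_nonempty_isCompact_isClosed
    (fun n : ℕ => AA (K \ O) Q (1 / ((n : ℝ) + 1)) f)
    (fun n => AA_mono (hle n) f) hne (isCompact_AA hQ hK' f)
    (fun n => (isCompact_AA hQ hK' f).isClosed)
  rw [mem_iInter] at hz
  have hz0 : z ∈ AA K Q 0 f := by
    refine ⟨(hz 0).1.1, fun k _ => ?_⟩
    exact (hz k).2 k le_rfl
  exact (hz 0).1.2 (hcov hz0)

/-- **LG.** -/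
theorem t_LG : S_LG := by
  intro μs μ hμ t ht T h
  rw [ae_iff, ← nonpos_iff_eq_zero]
  apply ENNReal.le_of_forall_pos_le_add
  intro ε hε _
  obtain ⟨c, K, Q, hc, hK, hQ, hT, h1⟩ := h ε (by exact_mod_cast hε)
  have h1 : ∀ ε' : ℝ, 0 < ε' → ∀ᶠ i in atTop,
      (μs i : Measure X) {γ : X | ¬ Good t ε' c (AA K Q ε' γ.1)} ≤ ε := h1
  have hT0 : ∀ f, AA K Q 0 f ⊆ T f := by
    rintro f z ⟨hz, hh⟩
    exact hT f z hz (fun k => hh k (by positivity))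
  have hopen : ∀ ε' : ℝ, IsOpen {p : X | ¬ Good t ε' c (AA K Q ε' p.1)} := by
    intro ε'
    exact ((isClosed_good_AA (t := t) (δ := ε') (c := c) (e := ε') hQ hK).preimage
      continuous_fst).isOpen_compl
  have h2 : ∀ ε' : ℝ, 0 < ε' →
      (μ : Measure X) {p : X | ¬ Good t ε' c (AA K Q ε' p.1)} ≤ ε := by
    intro ε' hε'
    refine (ProbabilityMeasure.le_liminf_measure_open_of_tendsto hμ (hopen ε')).trans ?_
    exact liminf_le_of_frequently_le (h1 ε' hε').frequently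
  set Bd : ℕ → Set X := fun n =>
    {p : X | ¬ Good t (1 / ((n : ℝ) + 1)) c (AA K Q (1 / ((n : ℝ) + 1)) p.1)} with hBd
  have hmono : Monotone Bd := by
    intro n n' hnn p hp hG
    apply hp
    have h3 := hG.anti (Nat.one_div_le_one_div (α := ℝ) hnn)
    exact h3.mono (AA_mono (Nat.one_div_le_one_div hnn) p.1)
  have h3 : {p : X | ¬ ENNReal.ofReal t ≤ dimH (T p.1)} ⊆ ⋃ n : ℕ, Bd n := by
    intro p hp
    by_contra hcon
    simp only [hBd, Set.mem_iUnion, Set.mem_ofPred_eq, not_exists, not_not] at hcon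
    apply hp
    have h4 : ∀ δ' : ℝ, 0 < δ' → Good t δ' c (AA K Q 0 p.1) := by
      intro δ' hδ'
      apply good_zero hQ hK
      intro n
      obtain ⟨m, hm⟩ := exists_nat_one_div_lt hδ'
      have h5 := hcon (max n m)
      have h6 : (1 : ℝ) / (((max n m : ℕ) : ℝ) + 1) ≤ 1 / ((n : ℝ) + 1) :=
        Nat.one_div_le_one_div (le_max_left _ _)
      have h7 : (1 : ℝ) / (((max n m : ℕ) : ℝ) + 1) ≤ 1 / ((m : ℝ) + 1) :=
        Nat.one_div_le_one_div (le_max_right _ _)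
      exact (h5.mono (AA_mono h6 p.1)).anti (h7.trans hm.le)
    exact (le_dimH_of_good ht hc (isCompact_AA hQ hK p.1) h4).trans (dimH_mono (hT0 p.1))
  refine le_trans (measure_mono h3) ?_
  rw [zero_add, hmono.measure_iUnion]
  exact iSup_le fun n => h2 _ (by positivity)

end Pool.Agent.Y989.FR.LG
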