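import Pool.Agent.Y989.FR.StmD
import Pool.Agent.TH966.DP.LimL

/-!
# Frontiers: the lower bound for the limits
-/

set_option autoImplicit false

namespace Pool.Agent.Y989.FR.LIM3

open H974 H12S Finset H389NS H984P H984N MeasureTheory Filter Topology
open Pool.Agent.W92.DP (DTB DLR HA SA)
open Pool.Agent.H389R2.Dim Pool.Agent.Y989.FR
open Pool.Agent.TH966.DP (zp dist_pos_zp zp_dist zp_inj pl_node nt nt_mul SA_sub dm_big)
open scoped ENNReal NNReal

/-! ### Measurability -/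

/-- The approximate sets. -/
def AA (K : Set ℂ) (Q : ℕ → Set (C(unitInterval, ℂ) × ℂ)) (e : ℝ) (f : C(unitInterval, ℂ)) :
    Set ℂ := {z | z ∈ K ∧ ∀ k : ℕ, e ≤ 1 / ((k : ℝ) + 1) → (f, z) ∈ Q k}

theorem isOpen_sub {K O : Set ℂ} {Q : ℕ → Set (C(unitInterval, ℂ) × ℂ)} (hK : IsCompact K)
    (hQ : ∀ k, IsClosed (Q k)) (hO : IsOpen O) (e : ℝ) :
    IsOpen {f : C(unitInterval, ℂ) | AA K Q e f ⊆ O} := by
  have hK' : IsCompact (K \ O) := hK.diff hO
  have : CompactSpace ↥(K \ O) := isCompact_iff_compactSpace.1 hK'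
  let Z : Set (C(unitInterval, ℂ) × ↥(K \ O)) :=
    {p | ∀ k : ℕ, e ≤ 1 / ((k : ℝ) + 1) → (p.1, (p.2 : ℂ)) ∈ Q k}
  have hZ : IsClosed Z := by
    have h1 : Z = ⋂ k : ℕ, ⋂ _ : e ≤ 1 / ((k : ℝ) + 1),
        (fun p : C(unitInterval, ℂ) × ↥(K \ O) => (p.1, (p.2 : ℂ))) ⁻¹' Q k := by
      ext p; simp [Z]
    rw [h1]
    refine isClosed_iInter fun k => isClosed_iInter fun _ => ?_
    exact (hQ k).preimage (by fun_prop)
  have h2 := isClosedMap_fst_of_compactSpace _ hZ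
  have h3 : {f : C(unitInterval, ℂ) | AA K Q e f ⊆ O}ᶜ = Prod.fst '' Z := by
    ext f
    simp only [Set.mem_compl_iff, Set.mem_ofPred_eq, Set.not_subset, Set.mem_image, Prod.exists]
    constructor
    · rintro ⟨z, ⟨hz, h⟩, hzO⟩
      exact ⟨f, ⟨z, hz, hzO⟩, h, rfl⟩
    · rintro ⟨g, ⟨z, hz, hzO⟩, h, rfl⟩
      exact ⟨z, ⟨hz, h⟩, hzO⟩
  rw [← isClosed_compl_iff, h3]
  exact h2

theorem isClosed_good {t δ c e : ℝ} {K : Set ℂ} {Q : ℕ → Set (C(unitInterval, ℂ) × ℂ)}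
    (hK : IsCompact K) (hQ : ∀ k, IsClosed (Q k)) :
    IsClosed {f : C(unitInterval, ℂ) | Good t δ c (AA K Q e f)} := by
  have h : {f : C(unitInterval, ℂ) | Good t δ c (AA K Q e f)} =
      ⋂ s : Finset (ℂ × ℝ), {f : C(unitInterval, ℂ) | (∀ p ∈ s, δ ≤ p.2) →
        AA K Q e f ⊆ ⋃ p ∈ s, Metric.ball p.1 p.2 → c ≤ ∑ p ∈ s, p.2 ^ t} := by
    ext K; simp [Good]
  rw [h]
  apply isClosed_iInter
  intro s
  by_cases h1 : (∀ p ∈ s, δ ≤ p.2) ∧ ¬ c ≤ ∑ p ∈ s, p.2 ^ t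
  · have h2 : {f : C(unitInterval, ℂ) | (∀ p ∈ s, δ ≤ p.2) →
        AA K Q e f ⊆ ⋃ p ∈ s, Metric.ball p.1 p.2 → c ≤ ∑ p ∈ s, p.2 ^ t} =
        {f : C(unitInterval, ℂ) | AA K Q e f ⊆ ⋃ p ∈ s, Metric.ball p.1 p.2}ᶜ := by
      ext K
      simp only [Set.mem_ofPred_eq, Set.mem_compl_iff]
      constructor
      · intro h3 h4; exact h1.2 (h3 h1.1 h4)
      · intro h3 _ h4; exact absurd h4 h3
    rw [h2]
    exact (isOpen_sub hK hQ (isOpen_biUnion fun p _ => Metric.isOpen_ball) e).isClosed_compl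
  · have h2 : {f : C(unitInterval, ℂ) | (∀ p ∈ s, δ ≤ p.2) →
        AA K Q e f ⊆ ⋃ p ∈ s, Metric.ball p.1 p.2 → c ≤ ∑ p ∈ s, p.2 ^ t} = Set.univ := by
      ext K
      simp only [Set.mem_ofPred_eq, Set.mem_univ, iff_true]
      intro h3 _
      by_contra h4
      exact h1 ⟨h3, h4⟩
    rw [h2]; exact isClosed_univ

/-! ### Distances -/

theorem zp_le {δ : ℝ} (hδ : 0 ≤ δ) (v w : Vtx) :
    dist (zp δ v) (zp δ w) ≤ 2 * (δ * ((sd v w : ℤ) : ℝ)) := by
  have h1 : |(zp δ v).re - (zp δ w).re| ≤ δ * ((sd v w : ℤ) : ℝ) := by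
    have e : (zp δ v).re - (zp δ w).re = δ * ((v.1 - w.1 : ℤ) : ℝ) := by
      simp only [zp]; push_cast; ring
    rw [e, abs_mul, abs_of_nonneg hδ]
    refine mul_le_mul_of_nonneg_left ?_ hδ
    rw [← Int.cast_abs]
    exact_mod_cast le_max_left _ _
  have h2 : |(zp δ v).im - (zp δ w).im| ≤ δ * ((sd v w : ℤ) : ℝ) := by
    have e : (zp δ v).im - (zp δ w).im = δ * ((v.2 - w.2 : ℤ) : ℝ) := by
      simp only [zp]; push_cast; ring
    rw [e, abs_mul, abs_of_nonneg hδ]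
    refine mul_le_mul_of_nonneg_left ?_ hδ
    rw [← Int.cast_abs]
    exact_mod_cast le_max_right _ _
  refine (ML.dist_le_of h1 h2).trans ?_
  linarith

theorem zp_adj {δ : ℝ} (hδ : 0 ≤ δ) (e : Edg) : dist (zp δ (src e)) (zp δ (tgt e)) ≤ δ := by
  obtain ⟨x, y, _ | _⟩ := e
  · have h1 : |(zp δ (src (x, y, false))).re - (zp δ (tgt (x, y, false))).re| ≤ 0 := by
      simp [zp]
    have h2 : |(zp δ (src (x, y, false))).im - (zp δ (tgt (x, y, false))).im| ≤ δ := by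
      have e : (zp δ (src (x, y, false))).im - (zp δ (tgt (x, y, false))).im = -δ := by
        simp only [zp, src_mk, tgt_false]; push_cast; ring
      rw [e, abs_neg, abs_of_nonneg hδ]
    refine (ML.dist_le_of h1 h2).trans ?_
    linarith
  · have h1 : |(zp δ (src (x, y, true))).re - (zp δ (tgt (x, y, true))).re| ≤ δ := by
      have e : (zp δ (src (x, y, true))).re - (zp δ (tgt (x, y, true))).re = -δ := by
        simp only [zp, src_mk, tgt_true]; push_cast; ring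
      rw [e, abs_neg, abs_of_nonneg hδ]
    have h2 : |(zp δ (src (x, y, true))).im - (zp δ (tgt (x, y, true))).im| ≤ 0 := by
      simp [zp]
    refine (ML.dist_le_of h1 h2).trans ?_
    linarith

theorem mem_AE_sd {v : Vtx} {d k : ℕ} {e : Edg} (h : e ∈ AE v d k) :
    sd (src e) v ≤ k ∧ sd (tgt e) v ≤ k := by
  unfold AE at h
  rw [Finset.mem_coe, Finset.mem_sdiff] at h
  have h1 := h.1
  unfold blk at h1
  obtain ⟨x, y, _ | _⟩ := e
  · rw [mem_RE_false] at h1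
    unfold sd
    simp only [src_mk, tgt_false]
    refine ⟨max_le ?_ ?_, max_le ?_ ?_⟩ <;> rw [abs_le] <;> constructor <;> omega
  · rw [mem_RE_true] at h1
    unfold sd
    simp only [src_mk, tgt_true]
    refine ⟨max_le ?_ ?_, max_le ?_ ?_⟩ <;> rw [abs_le] <;> constructor <;> omega

theorem sd_bdB {v x : Vtx} {n : ℕ} (h : x ∈ bdB v n) : sd x v = n := by
  unfold bdB at h
  obtain ⟨h1, h2, h3⟩ := h
  unfold sd
  rcases h3 with h3 | h3
  · rw [h3]; exact max_eq_left h2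
  · rw [h3]; exact max_eq_right h1

theorem curve_node (R : Rect) {δ : ℝ} (hδ : 0 ≤ δ) (F : Finset Edg) (s : unitInterval) :
    ∃ i ≤ (R.dm δ).len F, dist (R.curve δ F s) (pos δ ((R.dm δ).walk F i)) ≤ δ / 2 := by
  obtain ⟨k, hk, h⟩ := pl_close (N := (R.dm δ).len F)
    (p := fun k => pos δ ((R.dm δ).walk F k)) (δ := δ / 2) (by linarith) (by
      intro k _
      have := pos_nxt hδ ((R.dm δ).cfg F) ((R.dm δ).walk F k)
      rw [show (R.dm δ).walk F (k + 1) = nxt ((R.dm δ).cfg F) ((R.dm δ).walk F k) from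
        orb_succ _ _ _]
      exact this) s
  exact ⟨k, hk, h⟩

/-- The points of the thick path. -/
def SP (R : Rect) (δ : ℝ) (F : Finset Edg) (M B k : ℕ) (v : Vtx) : Set ℂ :=
  {z | ∃ x, sd x v ≤ k ∧ AwD (R.dm δ) F M B k v x ∧ z = zp δ x}

theorem chain {R : Rect} {δ e : ℝ} (hδ : 0 ≤ δ) (he : δ ≤ e) {F : Finset Edg} {M B k : ℕ}
    {v x y : Vtx} (h : Reach {e | e ∈ AE v 2 k ∧ AwD (R.dm δ) F M B k v (src e) ∧
        AwD (R.dm δ) F M B k v (tgt e)} x y) :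
    Relation.ReflTransGen (fun a b => b ∈ SP R δ F M B k v ∧ dist a b ≤ e) (zp δ x) (zp δ y) := by
  induction h with
  | refl => exact Relation.ReflTransGen.refl
  | tail _ hs ih =>
    obtain ⟨g, ⟨h1, h2, h3⟩, h4⟩ := hs
    have h5 := mem_AE_sd h1
    rcases h4 with ⟨h6, h7⟩ | ⟨h6, h7⟩
    · refine ih.tail ⟨⟨tgt g, h5.2, h3, by rw [h7]⟩, ?_⟩
      rw [← h6, ← h7]
      exact (zp_adj hδ g).trans he
    · refine ih.tail ⟨⟨src g, h5.1, h2, by rw [h6]⟩, ?_⟩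
      rw [← h6, ← h7, dist_comm]
      exact (zp_adj hδ g).trans he

theorem start_mem {R : Rect} {δ : ℝ} {F : Finset Edg} {M B k : ℕ} {v x y : Vtx}
    (h : Reach {e | e ∈ AE v 2 k ∧ AwD (R.dm δ) F M B k v (src e) ∧
        AwD (R.dm δ) F M B k v (tgt e)} x y) (hxy : x ≠ y) :
    zp δ x ∈ SP R δ F M B k v := by
  rcases Relation.ReflTransGen.cases_head h with h | ⟨c, ⟨g, ⟨h1, h2, h3⟩, h4⟩, -⟩
  · exact absurd h hxy
  · have h5 := mem_AE_sd h1
    rcases h4 with ⟨h6, h7⟩ | ⟨h6, h7⟩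
    · exact ⟨src g, h5.1, h2, by rw [h6]⟩
    · exact ⟨tgt g, h5.2, h3, by rw [h7]⟩

theorem away {R : Rect} {δ : ℝ} (hδ : 0 < δ) {F : Finset Edg} {M B k : ℕ} (hB : 1 ≤ B)
    {v x : Vtx} (hx : AwD (R.dm δ) F M B k v x) {M' : ℝ} (hM' : 0 ≤ M')
    (h : 2 ^ B * M * (δ * (8 * k)) ^ (B - 1) ≤ M') (s : unitInterval) :
    dist (zp δ x) (zp δ v) ^ B ≤ M' * dist (zp δ x) (R.curve δ F s) + M' * δ := by
  obtain ⟨i, hi, hd⟩ := curve_node R hδ.le F s
  have h1 := hx i hi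
  have h1' : (((sd x v : ℤ) : ℝ)) ^ B ≤ (M : ℝ) * ((8 * k : ℕ) : ℝ) ^ (B - 1) *
      ((sd x ((R.dm δ).walk F i).1 : ℤ) : ℝ) := by exact_mod_cast h1
  have h0 : (0:ℝ) ≤ ((sd x v : ℤ) : ℝ) := by
    have : 0 ≤ sd x v := le_trans (abs_nonneg _) (le_max_left _ _)
    exact_mod_cast this
  have h2 : dist (zp δ x) (zp δ v) ^ B ≤ (2 * (δ * ((sd x v : ℤ) : ℝ))) ^ B :=
    pow_le_pow_left₀ dist_nonneg (zp_le hδ.le _ _) B
  have h3 : δ * ((sd x ((R.dm δ).walk F i).1 : ℤ) : ℝ) ≤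
      dist (zp δ x) (R.curve δ F s) + δ := by
    have e1 := zp_dist hδ.le x ((R.dm δ).walk F i).1
    have e2 := dist_pos_zp hδ.le ((R.dm δ).walk F i)
    have e3 := dist_triangle (zp δ x) (R.curve δ F s) (zp δ ((R.dm δ).walk F i).1)
    have e4 := dist_triangle (R.curve δ F s) (pos δ ((R.dm δ).walk F i))
      (zp δ ((R.dm δ).walk F i).1)
    linarith
  obtain ⟨b, rfl⟩ : ∃ b, B = b + 1 := ⟨B - 1, by omega⟩
  simp only [Nat.add_sub_cancel] at h h1'
  have h4 : (2 * (δ * ((sd x v : ℤ) : ℝ))) ^ (b + 1) =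
      2 ^ (b + 1) * δ ^ (b + 1) * ((sd x v : ℤ) : ℝ) ^ (b + 1) := by
    rw [mul_pow, mul_pow]; ring
  have h5 : 2 ^ (b + 1) * δ ^ (b + 1) * ((sd x v : ℤ) : ℝ) ^ (b + 1) ≤
      2 ^ (b + 1) * δ ^ (b + 1) * ((M : ℝ) * ((8 * k : ℕ) : ℝ) ^ b *
      ((sd x ((R.dm δ).walk F i).1 : ℤ) : ℝ)) := by
    refine mul_le_mul_of_nonneg_left h1' (by positivity)
  have h6 : 2 ^ (b + 1) * δ ^ (b + 1) * ((M : ℝ) * ((8 * k : ℕ) : ℝ) ^ b *
      ((sd x ((R.dm δ).walk F i).1 : ℤ) : ℝ)) = (2 ^ (b + 1) * M * (δ * (8 * k)) ^ b) *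
        (δ * ((sd x ((R.dm δ).walk F i).1 : ℤ) : ℝ)) := by
    rw [mul_pow δ]; push_cast; ring
  have h7 : 0 ≤ δ * ((sd x ((R.dm δ).walk F i).1 : ℤ) : ℝ) := by
    have : 0 ≤ sd x ((R.dm δ).walk F i).1 := le_trans (abs_nonneg _) (le_max_left _ _)
    have : (0:ℝ) ≤ ((sd x ((R.dm δ).walk F i).1 : ℤ) : ℝ) := by exact_mod_cast this
    positivity
  calc dist (zp δ x) (zp δ v) ^ (b + 1) ≤ _ := h2
    _ = _ := h4
    _ ≤ _ := h5
    _ = _ := h6
    _ ≤ M' * (δ * ((sd x ((R.dm δ).walk F i).1 : ℤ) : ℝ)) := mul_le_mul_of_nonneg_right h h7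
    _ ≤ M' * (dist (zp δ x) (R.curve δ F s) + δ) := mul_le_mul_of_nonneg_left h3 hM'
    _ = _ := by ring

/-- Vertices with a thick path give points of the approximate set. -/
theorem mem_Qc {R : Rect} {δ e : ℝ} (hδ : 0 < δ) {F : Finset Edg} {M B k : ℕ} (hB : 1 ≤ B)
    (hk : 3 ≤ k) {v : Vtx} (hvis : ∃ i ≤ (R.dm δ).len F, ((R.dm δ).walk F i).1 = v)
    (hth : ∃ x ∈ bdB v 2, ∃ y ∈ bdB v k,
      Reach {e | e ∈ AE v 2 k ∧ AwD (R.dm δ) F M B k v (src e) ∧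
        AwD (R.dm δ) F M B k v (tgt e)} x y) {M' κ R0 : ℝ} (hM' : 0 ≤ M')
    (h : 2 ^ B * M * (δ * (8 * k)) ^ (B - 1) ≤ M') (he : 4 * δ ≤ e) (he' : M' * δ ≤ e)
    (hκ : κ ≤ δ * k) (hR : ‖zp δ v‖ + 2 * (δ * k) ≤ R0) {N : ℕ}
    (hN : ∀ (S : Set ℂ) (a b : ℂ), (∀ x ∈ S, ‖x‖ ≤ R0) →
      a ∈ S → Relation.ReflTransGen (fun x y => y ∈ S ∧ dist x y ≤ e) a b →
      ∃ x : Fin (N + 1) → ℂ, (∀ i, x i ∈ S) ∧ x 0 = a ∧ x (Fin.last N) = b ∧
      ∀ i : Fin N, dist (x i.castSucc) (x i.succ) ≤ e) :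
    (R.curve δ F, zp δ v) ∈ Qc M' κ R0 e B N := by
  obtain ⟨x, hx, y, hy, hr⟩ := hth
  have hx' := sd_bdB hx
  have hy' := sd_bdB hy
  have hxy : x ≠ y := by
    rintro rfl
    rw [hx'] at hy'
    have : (2:ℕ) = k := by exact_mod_cast hy'
    omega
  have hbd : ∀ z ∈ SP R δ F M B k v, ‖z‖ ≤ R0 := by
    rintro z ⟨u, hu, -, rfl⟩
    have h1 := zp_le hδ.le u v
    have h2 : δ * ((sd u v : ℤ) : ℝ) ≤ δ * k :=
      mul_le_mul_of_nonneg_left (by exact_mod_cast hu) hδ.le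
    have h3 : ‖zp δ u‖ ≤ ‖zp δ v‖ + dist (zp δ u) (zp δ v) := by
      rw [dist_eq_norm]
      have := norm_add_le (zp δ v) (zp δ u - zp δ v)
      rwa [add_sub_cancel] at this
    linarith
  obtain ⟨X, h1, h2, h3, h4⟩ := hN (SP R δ F M B k v) (zp δ x) (zp δ y) hbd
    (start_mem hr hxy) (chain hδ.le (by linarith) hr)
  refine ⟨?_, ?_, X, fun i => hbd _ (h1 i), ?_, ?_, h4, ?_⟩
  · have : 0 ≤ 2 * (δ * k) := by positivity
    show ‖zp δ v‖ ≤ R0
    linarith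
  · obtain ⟨i, hi, hv⟩ := hvis
    show ∃ s, dist (R.curve δ F s) (zp δ v) ≤ e
    have h5 : dist (pos δ ((R.dm δ).walk F i)) (zp δ v) ≤ e := by
      rw [← hv]
      refine (dist_pos_zp hδ.le _).trans ?_
      linarith
    rcases Nat.eq_zero_or_pos ((R.dm δ).len F) with h0 | h0
    · refine ⟨0, ?_⟩
      have hi0 : i = 0 := by omega
      have : R.curve δ F 0 = pos δ ((R.dm δ).walk F i) := by
        rw [hi0]
        exact pl_zero _ _
      rw [this]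
      exact h5
    · refine ⟨nt _ i hi, ?_⟩
      have : R.curve δ F (nt _ i hi) = pos δ ((R.dm δ).walk F i) :=
        pl_node (fun k => pos δ ((R.dm δ).walk F k)) h0 hi (nt_mul h0 hi)
      rw [this]
      exact h5
  · show dist (X 0) (zp δ v) ≤ e
    rw [h2]
    have := zp_le hδ.le x v
    rw [hx'] at this
    push_cast at this
    linarith
  · show κ ≤ dist (X (Fin.last N)) (zp δ v) + e
    rw [h3]
    have := zp_dist hδ.le y v
    rw [hy'] at this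
    push_cast at this
    linarith
  · intro i s
    show dist (X i) (zp δ v) ^ B ≤ M' * dist (X i) (R.curve δ F s) + e
    obtain ⟨u, -, hu, hz⟩ := h1 i
    rw [hz]
    have := away hδ hB hu hM' h s
    linarith

theorem mem_V3 {M B a : ℕ} {v : Vtx} {F : Finset Edg} (hv : v ∈ V3 M B a F) :
    v ∈ core3 (a : ℤ) ∧ E3 M B a v F := by
  classical
  unfold V3 at hv
  exact Finset.mem_filter.1 hv

/-- The good event makes the approximate set good. -/
theorem good_of_Gd {δ : ℝ} (hδ : 0 < δ) {F : Finset Edg} {M B a : ℕ} (ha : 1 ≤ a)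
    {c0 E0 t : ℝ} (h : Gd3 c0 E0 t M B a F) (hc0 : 0 < c0)
    (hE0 : 0 < E0) (ht : 0 < t) {ε' : ℝ} {T : Set ℂ}
    (hT : ∀ v ∈ V3 M B a F, zp δ v ∈ T) (hε : δ ≤ ε')
    {κ : ℝ} (hκ : 0 < κ) (hκ' : κ ≤ δ * a) :
    Good t ε' (2 ^ (-t) / (E0 / c0 ^ 2 * κ ^ (-t))) T := by
  classical
  obtain ⟨-, hcard, hEn⟩ := h
  have hm' : (0:ℝ) < a := by exact_mod_cast ha
  have hcpos : (0 : ℝ) < ((V3 M B a F).card : ℝ) := lt_of_lt_of_le (by positivity) hcard
  have hne : (V3 M B a F).Nonempty := by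
    rw [← Finset.card_pos]; exact_mod_cast hcpos
  have hε0 : 0 < ε' := hδ.trans_le hε
  refine good_of_energy hε0 ht.le (by positivity) ((V3 M B a F).image (zp δ)) (hne.image _) ?_ ?_
  · intro z hz
    rw [Finset.mem_coe, Finset.mem_image] at hz
    obtain ⟨v, hv, rfl⟩ := hz
    exact hT v hv
  · rw [Finset.sum_image (fun a _ b _ hab => zp_inj hδ hab),
      Finset.card_image_of_injective _ (zp_inj hδ)]
    have e1 : ∀ v ∈ V3 M B a F, ∑ y ∈ (V3 M B a F).image (zp δ), (max (dist (zp δ v) y) ε') ^ (-t) ≤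
        ∑ w ∈ V3 M B a F, δ ^ (-t) * ((max (sd v w) 1 : ℤ) : ℝ) ^ (-t) := by
      intro v _
      rw [Finset.sum_image (fun a _ b _ hab => zp_inj hδ hab)]
      refine Finset.sum_le_sum fun w _ => ?_
      have hm : (1 : ℝ) ≤ ((max (sd v w) 1 : ℤ) : ℝ) := by
        exact_mod_cast le_max_right (sd v w) 1
      rw [← Real.mul_rpow (by positivity) (by linarith)]
      refine Real.rpow_le_rpow_of_nonpos (by positivity) ?_ (by linarith)
      have h6 := zp_dist hδ.le v w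
      rcases max_cases (sd v w) 1 with h | h
      · rw [h.1]; exact h6.trans (le_max_left _ _)
      · rw [h.1]; push_cast; rw [mul_one]
        exact hε.trans (le_max_right _ _)
    refine (Finset.sum_le_sum e1).trans ?_
    have e2 : ∑ v ∈ V3 M B a F, ∑ w ∈ V3 M B a F, δ ^ (-t) * ((max (sd v w) 1 : ℤ) : ℝ) ^ (-t)
        = δ ^ (-t) * En3 t M B a F := by
      unfold En3
      rw [Finset.mul_sum]
      refine Finset.sum_congr rfl fun v _ => ?_
      rw [Finset.mul_sum]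
    rw [e2]
    have e3 : (c0 * (a : ℝ) ^ (4/3 : ℝ)) ^ 2 ≤ ((V3 M B a F).card : ℝ) ^ 2 :=
      pow_le_pow_left₀ (by positivity) hcard 2
    have e4 : (c0 * (a : ℝ) ^ (4/3 : ℝ)) ^ 2 = c0 ^ 2 * (a : ℝ) ^ (8/3 : ℝ) := by
      rw [mul_pow, ← Real.rpow_natCast ((a : ℝ) ^ (4/3 : ℝ)) 2, ← Real.rpow_mul hm'.le]
      norm_num
    rw [e4] at e3
    have e6 : (δ * a) ^ (-t) ≤ κ ^ (-t) :=
      Real.rpow_le_rpow_of_nonpos hκ hκ' (by linarith)
    calc δ ^ (-t) * En3 t M B a F ≤ δ ^ (-t) * (E0 * (a : ℝ) ^ (8/3 - t)) :=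
          mul_le_mul_of_nonneg_left hEn (by positivity)
      _ = E0 / c0 ^ 2 * (δ * a) ^ (-t) * (c0 ^ 2 * (a : ℝ) ^ (8/3 : ℝ)) := by
          have : (a : ℝ) ^ (8/3 - t) = (a:ℝ) ^ (-t) * (a : ℝ) ^ (8/3 : ℝ) := by
            rw [← Real.rpow_add hm']
            congr 1
            ring
          rw [this, Real.mul_rpow hδ.le hm'.le]
          field_simp
      _ ≤ E0 / c0 ^ 2 * κ ^ (-t) * (c0 ^ 2 * (a : ℝ) ^ (8/3 : ℝ)) := by
          refine mul_le_mul_of_nonneg_right ?_ (by positivity)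
          exact mul_le_mul_of_nonneg_left e6 (by positivity)
      _ ≤ E0 / c0 ^ 2 * κ ^ (-t) * ((V3 M B a F).card : ℝ) ^ 2 :=
          mul_le_mul_of_nonneg_left e3 (by positivity)

theorem okh : Ok (fun _ : Edg => (1/2:ℝ)) := fun _ => ⟨by norm_num, by norm_num⟩

/-- Lower bound for the limits, near the end point `0`. -/
def S_LIM3' : Prop := ∀ (R : Rect) (δ : ℕ → ℝ), (∀ i, 0 < δ i) → Tendsto δ atTop (𝓝 0) →
  ∀ μ : ProbabilityMeasure X, Tendsto (fun i => R.law (δ i)) atTop (𝓝 μ) → ∀ t : ℝ, 0 < t →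
    t < 4 / 3 → ∀ ρ : ℝ, 0 < ρ → ∀ᵐ p : X ∂(μ : Measure X),
      ENNReal.ofReal t ≤ dimH (Fro (Set.range p.1) ∩ (R.D ∩ Metric.ball 0 ρ))

theorem t_LIM3' : S_GOOD3 → S_IND3 → S_DET3 → S_QC → S_GEO → S_CHN → S_LG → S_LIM3' := by
  intro hgood hind hdet hqc hgeo hchn hlg R δ hδ hlim μ hμ t ht ht1 ρ hρ
  refine hlg (fun i => R.law (δ i)) μ hμ t ht
    (fun f => Fro (Set.range f) ∩ (R.D ∩ Metric.ball 0 ρ)) ?_
  intro ε hε
  obtain ⟨δ', hδ', hδε⟩ : ∃ δ : ℝ, 0 < δ ∧ ENNReal.ofReal δ ≤ ε := by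
    rcases eq_or_ne ε ∞ with h | h
    · exact ⟨1, one_pos, by rw [h]; exact le_top⟩
    · exact ⟨ε.toReal, ENNReal.toReal_pos hε.ne' h, by rw [ENNReal.ofReal_toReal h]⟩
  obtain ⟨M, B, a0, c0, E0, p, hM, hB, ha0, hc0, hE0, hp, hp1, hg⟩ := hgood t ht ht1
  obtain ⟨J, hJ⟩ := exists_pow_lt_of_lt_one hδ' (show 1 - p < 1 by linarith)
  have hA := R.hA
  have hB' := R.hB
  have hH := R.hH
  obtain ⟨ν, hν⟩ : ∃ ν, ν = min R.A (min R.B (min R.H ρ)) := ⟨_, rfl⟩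
  have hν0 : 0 < ν := by
    rw [hν]; exact lt_min hA (lt_min hB' (lt_min hH hρ))
  have hνA : ν ≤ R.A := by rw [hν]; exact min_le_left _ _
  have hνB : ν ≤ R.B := by rw [hν]; exact (min_le_right _ _).trans (min_le_left _ _)
  have hνH : ν ≤ R.H := by
    rw [hν]; exact (min_le_right _ _).trans ((min_le_right _ _).trans (min_le_left _ _))
  have hνρ : ν ≤ ρ := by
    rw [hν]; exact (min_le_right _ _).trans ((min_le_right _ _).trans (min_le_right _ _))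
  -- the sizes
  obtain ⟨Q, hQ⟩ : ∃ Q : ℝ, Q = 64 ^ J := ⟨_, rfl⟩
  have hQ1 : 1 ≤ Q := by
    rw [hQ]; exact one_le_pow₀ (by norm_num)
  obtain ⟨s, hs⟩ : ∃ s : ℝ, s = ν / (320 * Q) := ⟨_, rfl⟩
  have hs0 : 0 < s := by rw [hs]; positivity
  have hQs : 320 * (Q * s) = ν := by
    rw [hs]; field_simp
  have hQs0 : 0 < Q * s := by positivity
  have hsQ : s ≤ Q * s := le_mul_of_one_le_left hs0.le hQ1
  set K : Set ℂ := Set.Icc (-(60 * (Q * s))) 0 ×ℂ Set.Icc (10 * s) (24 * (Q * s)) with hKdef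
  have hKc : IsCompact K := isCompact_Icc.reProdIm isCompact_Icc
  obtain ⟨M', hM'⟩ : ∃ M' : ℝ, M' = 2 ^ B * M * (Q * s) ^ (B - 1) := ⟨_, rfl⟩
  have hMr : (0:ℝ) < M := by
    have : 0 < M := by omega
    exact_mod_cast this
  have hM'0 : 0 < M' := by rw [hM']; positivity
  obtain ⟨NN, hNN⟩ := Classical.axiomOfChoice (fun k : ℕ =>
    hchn (100 * (Q * s)) (1 / ((k : ℝ) + 1)) (by positivity))
  refine ⟨2 ^ (-t) / (E0 / c0 ^ 2 * (s / 2) ^ (-t)), K,
    fun k => Qc M' (s / 256) (100 * (Q * s)) (1 / ((k : ℝ) + 1)) B (NN k),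
    by positivity, hKc, fun k => hqc _ _ _ _ _ _, ?_, ?_⟩
  · intro f z hzK hz
    refine ⟨hgeo M' (s / 256) (100 * (Q * s)) B NN f z hM'0 (by positivity) hB hz, ?_⟩
    rw [hKdef, Complex.mem_reProdIm, Set.mem_Icc, Set.mem_Icc] at hzK
    obtain ⟨⟨b1, b2⟩, b3, b4⟩ := hzK
    refine ⟨⟨by linarith, by linarith, by linarith, by linarith⟩, ?_⟩
    rw [Metric.mem_ball]
    have h3 : dist z 0 ≤ 60 * (Q * s) + 24 * (Q * s) := by
      apply ML.dist_le_of
      · simp only [Complex.zero_re, sub_zero]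
        rw [abs_le]; constructor <;> linarith
      · simp only [Complex.zero_im, sub_zero]
        rw [abs_le]; constructor <;> linarith
    linarith
  · intro ε' hε'
    obtain ⟨κ, S, δ0, hκ, hS, hδ0, hδ1, hsh⟩ := R.shape
    obtain ⟨δm, hδm⟩ : ∃ δm : ℝ, δm = min (min δ0 (ε' / 4)) (min (min (s / 2) (ν / 8))
      (min (ε' / M') (s / ((a0 : ℝ) + 1)))) := ⟨_, rfl⟩
    have hδm0 : 0 < δm := by
      rw [hδm]
      refine lt_min (lt_min hδ0 (by positivity)) (lt_min (lt_min (by positivity) (by positivity))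
        (lt_min (by positivity) (by positivity)))
    have hev : ∀ᶠ i in atTop, δ i < δm := (tendsto_order.1 hlim).2 _ hδm0
    filter_upwards [hev] with i hi
    have hi0 : δ i ≤ δ0 := hi.le.trans (by
      rw [hδm]; exact (min_le_left _ _).trans (min_le_left _ _))
    have hi1 : δ i ≤ ε' / 4 := hi.le.trans (by
      rw [hδm]; exact (min_le_left _ _).trans (min_le_right _ _))
    have hi2 : δ i ≤ s / 2 := hi.le.trans (by
      rw [hδm]; exact (min_le_right _ _).trans ((min_le_left _ _).trans (min_le_left _ _)))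
    have hi3 : δ i ≤ ν / 8 := hi.le.trans (by
      rw [hδm]; exact (min_le_right _ _).trans ((min_le_left _ _).trans (min_le_right _ _)))
    have hi4 : δ i ≤ ε' / M' := hi.le.trans (by
      rw [hδm]; exact (min_le_right _ _).trans ((min_le_right _ _).trans (min_le_left _ _)))
    have hi5 : δ i ≤ s / ((a0 : ℝ) + 1) := hi.le.trans (by
      rw [hδm]; exact (min_le_right _ _).trans ((min_le_right _ _).trans (min_le_right _ _)))
    have hδi := hδ i
    set d : ℝ := δ i with hd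
    have hopen : IsOpen {γ : X | ¬ Good t ε' (2 ^ (-t) / (E0 / c0 ^ 2 * (s / 2) ^ (-t)))
        (AA K (fun k => Qc M' (s / 256) (100 * (Q * s)) (1 / ((k : ℝ) + 1)) B (NN k)) ε' γ.1)} :=
      ((isClosed_good hKc fun k => hqc _ _ _ _ _ _).preimage continuous_fst).isOpen_compl
    change (R.law d : Measure X) {γ : X | ¬ Good t ε' (2 ^ (-t) / (E0 / c0 ^ 2 * (s / 2) ^ (-t)))
        (AA K (fun k => Qc M' (s / 256) (100 * (Q * s)) (1 / ((k : ℝ) + 1)) B (NN k)) ε' γ.1)} ≤ ε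
    rw [R.law_apply d hopen.measurableSet]
    refine le_trans (ENNReal.ofReal_le_ofReal ?_) hδε
    -- the lattice scale
    obtain ⟨r, hr⟩ : ∃ r : ℕ, r = ⌊s / d⌋₊ := ⟨_, rfl⟩
    have hr1 : d * r ≤ s := by
      have := Nat.floor_le (show 0 ≤ s / d by positivity)
      rw [← hr, le_div_iff₀ hδi] at this
      linarith
    have hr2 : s / 2 ≤ d * r := by
      have := Nat.lt_floor_add_one (s / d)
      rw [← hr, div_lt_iff₀ hδi] at this
      nlinarith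
    have hr3 : a0 ≤ r := by
      rw [hr]
      apply Nat.le_floor
      rw [le_div_iff₀ hδi]
      rw [le_div_iff₀ (by positivity)] at hi5
      nlinarith
    have hscale : ∀ j < J, ((64 ^ j * r : ℕ) : ℝ) ≤ Q * r := by
      intro j hj
      push_cast
      have h1 : (64 : ℝ) ^ j ≤ 64 ^ J := pow_le_pow_right₀ (by norm_num) hj.le
      rw [hQ]
      exact mul_le_mul_of_nonneg_right h1 (Nat.cast_nonneg r)
    have hscale2 : ∀ j : ℕ, (r : ℝ) ≤ ((64 ^ j * r : ℕ) : ℝ) := by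
      intro j
      push_cast
      have h1 : (1 : ℝ) ≤ 64 ^ j := one_le_pow₀ (by norm_num)
      exact le_mul_of_one_le_left (Nat.cast_nonneg r) h1
    have hdQ : d * (Q * r) ≤ Q * s := by
      calc d * (Q * r) = Q * (d * r) := by ring
        _ ≤ Q * s := mul_le_mul_of_nonneg_left hr1 (by linarith)
    have hdom : ∀ j < J, (R.dm d).l < -(27 * ((4 * (64 ^ j * r) : ℕ) : ℤ)) ∧
        27 * ((4 * (64 ^ j * r) : ℕ) : ℤ) < (R.dm d).r ∧
        39 * ((4 * (64 ^ j * r) : ℕ) : ℤ) < (R.dm d).h := by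
      intro j hj
      refine dm_big R hδi hνA hνB hνH ?_
      have h1 := mul_le_mul_of_nonneg_left (hscale j hj) hδi.le
      push_cast at h1 ⊢
      nlinarith
    have hsub : ∀ j < J, SA (4 * (64 ^ j * r : ℕ)) ⊆ (R.dm d).edges := by
      intro j hj
      obtain ⟨h1, h2, h3⟩ := hdom j hj
      push_cast at h1 h2 h3 ⊢
      exact SA_sub h1.le h2.le h3.le
    have hI := hind p c0 E0 t M B a0 hp1 ha0 hg J r (R.dm d).edges hr3 hsub
    refine le_trans ?_ (hI.trans hJ.le)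
    have hok := (hsh d hδi hi0).ok
    apply Pr_mono okh
    intro F hF hbad j hj hG
    apply hbad
    obtain ⟨h1, h2, h3⟩ := hdom j hj
    obtain ⟨a, ha⟩ : ∃ a : ℕ, a = 64 ^ j * r := ⟨_, rfl⟩
    rw [← ha] at hG h1 h2 h3
    have haa : 192 ≤ a := by
      have h4 : 1 ≤ 64 ^ j := Nat.one_le_iff_ne_zero.mpr (by positivity)
      rw [ha]
      nlinarith
    have hδU : d * (a : ℝ) ≤ Q * s := by
      have h4 := mul_le_mul_of_nonneg_left (hscale j hj) hδi.le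
      rw [ha]
      linarith
    have hδU2 : s / 2 ≤ d * (a : ℝ) := by
      have h4 := mul_le_mul_of_nonneg_left (hscale2 j) hδi.le
      rw [ha]
      linarith
    have hk64 : 64 * (a / 64) ≤ a := Nat.mul_div_le a 64
    have hk128 : a ≤ 128 * (a / 64) := by omega
    have hk64' : 64 * ((a / 64 : ℕ) : ℝ) ≤ a := by exact_mod_cast hk64
    have hk128' : (a : ℝ) ≤ 128 * ((a / 64 : ℕ) : ℝ) := by exact_mod_cast hk128
    have hk0 : (0:ℝ) ≤ ((a / 64 : ℕ) : ℝ) := Nat.cast_nonneg _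
    refine good_of_Gd hδi (by omega) hG hc0 hE0 ht ?_ (by linarith) (by positivity) hδU2
    intro v hv
    have hv0 := mem_V3 hv
    clear hv
    obtain ⟨hv, hE⟩ := hv0
    obtain ⟨hvis, hth⟩ := hdet (R.dm d) F hok hF M B a hM hB haa h1 h2 h3 hG.1.1 hG.1.2 v hv hE
    have hv' := hv
    unfold core3 at hv
    rw [Finset.mem_product, Finset.mem_Icc, Finset.mem_Icc] at hv
    obtain ⟨⟨v1, v2⟩, v3, v4⟩ := hv
    have hU0 : (0:ℝ) ≤ a := Nat.cast_nonneg a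
    have v1' : -(60 * (a : ℝ)) ≤ v.1 := by exact_mod_cast v1
    have v2' : (v.1 : ℝ) ≤ -(58 * (a : ℝ)) := by exact_mod_cast v2
    have v3' : 20 * (a : ℝ) ≤ v.2 := by exact_mod_cast v3
    have v4' : (v.2 : ℝ) ≤ 22 * (a : ℝ) := by exact_mod_cast v4
    have w1 := mul_le_mul_of_nonneg_left v1' hδi.le
    have w2 := mul_le_mul_of_nonneg_left v2' hδi.le
    have w3 := mul_le_mul_of_nonneg_left v3' hδi.le
    have w4 := mul_le_mul_of_nonneg_left v4' hδi.le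
    have w0 : 0 ≤ d * (a : ℝ) := by positivity
    have er : (zp d v).re = d * v.1 := rfl
    have ei : (zp d v).im = d * v.2 + d := by
      show d * ((v.2 : ℝ) + 1) = d * v.2 + d
      ring
    refine ⟨?_, ?_⟩
    · rw [hKdef, Complex.mem_reProdIm, Set.mem_Icc, Set.mem_Icc, er, ei]
      refine ⟨⟨by linarith, by linarith⟩, by linarith, by linarith⟩
    · intro k hk
      refine mem_Qc hδi hB (by omega) hvis hth hM'0.le ?_ (by linarith) ?_ ?_ ?_ (hNN k)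
      · rw [hM']
        refine mul_le_mul_of_nonneg_left ?_ (by positivity)
        refine pow_le_pow_left₀ (by positivity) ?_ _
        have := mul_le_mul_of_nonneg_left hk64' hδi.le
        nlinarith
      · rw [le_div_iff₀ hM'0] at hi4
        linarith
      · have := mul_le_mul_of_nonneg_left hk128' hδi.le
        linarith
      · have e1 : ‖zp d v‖ ≤ |(zp d v).re| + |(zp d v).im| := Complex.norm_le_abs_re_add_abs_im _
        rw [er, ei] at e1
        have e2 : |d * (v.1 : ℝ)| ≤ 60 * (Q * s) := by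
          rw [abs_le]; constructor <;> linarith
        have e3 : |d * (v.2 : ℝ) + d| ≤ 24 * (Q * s) := by
          rw [abs_le]; constructor <;> linarith
        have := mul_le_mul_of_nonneg_left hk64' hδi.le
        nlinarith

theorem t_LIM3 : S_GOOD3 → S_IND3 → S_DET3 → S_QC → S_GEO → S_CHN → S_LG → S_LIM3 := by
  intro h1 h2 h3 h4 h5 h6 h7 R δ hδ hlim μ hμ t ht ht1
  filter_upwards [t_LIM3' h1 h2 h3 h4 h5 h6 h7 R δ hδ hlim μ hμ t ht ht1 1 one_pos] with p hp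
  exact hp.trans (dimH_mono Set.inter_subset_left)

end Pool.Agent.Y989.FR.LIM3
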