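import Pool.Agent.Y989.FR.StmD
import Pool.Agent.W52.DPOne

/-!
# FR-ONE3: one-point lower bound, with the crossings
-/

set_option autoImplicit false

namespace Pool.Agent.Y989.FR.ONE3

open Pool.Agent.Y989.FR H974 H973 H12S Finset H389NS H984P H984N
open Pool.Agent.W92.DP (DTB DLR HA SA)
open Pool.Agent.W52.DPInd (RE_sub DTB_local DLR_local)
open Pool.Agent.W52.DPOne (DTB_of DLR_of DTB_decr DLR_decr)

theorem mem_core3 {a : ℤ} {v : Vtx} : v ∈ core3 a ↔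
    (-(60 * a) ≤ v.1 ∧ v.1 ≤ -(58 * a)) ∧ (20 * a ≤ v.2 ∧ v.2 ≤ 22 * a) := by
  unfold core3
  rw [Finset.mem_product, Finset.mem_Icc, Finset.mem_Icc]

/-! ### Translation -/

theorem dl_trl (s t : ℤ) (e : Edg) : (trl s t).φ (dl e) = dl ((trl s t).φ e) := by
  obtain ⟨x, y, _ | _⟩ := e
  · rw [dl_f, trl_φ, trl_φ, dl_f]
    congr 1
    ring
  · rw [dl_t, trl_φ, trl_φ, dl_t]
    congr 2
    ring

theorem src_trl (s t : ℤ) (e : Edg) : src ((trl s t).φ e) = (trl s t).ψ (src e) := by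
  obtain ⟨x, y, b⟩ := e
  rw [trl_φ, src_mk, src_mk, trl_ψ]

theorem tgt_trl (s t : ℤ) (e : Edg) : tgt ((trl s t).φ e) = (trl s t).ψ (tgt e) := by
  obtain ⟨x, y, _ | _⟩ := e
  · rw [trl_φ, tgt_false, tgt_false, trl_ψ]
    congr 1
    ring
  · rw [trl_φ, tgt_true, tgt_true, trl_ψ]
    congr 1
    ring

theorem reach_sh {s t : ℤ} {G F : Set Edg} (h : ∀ e ∈ G, (trl s t).φ e ∈ F) {x y : Vtx}
    (hr : Reach G x y) : Reach F ((trl s t).ψ x) ((trl s t).ψ y) :=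
  ((trl s t).reach hr).mono (by rintro _ ⟨e, he, rfl⟩; exact h e he)

theorem dreach_sh {s t : ℤ} {G F : Set Edg} (h : ∀ e ∈ G, (trl s t).φ e ∈ F) {x y : Vtx}
    (hr : DReach G x y) : DReach F ((trl s t).ψ x) ((trl s t).ψ y) := by
  rw [← reach_dl] at hr ⊢
  refine reach_sh ?_ hr
  rintro _ ⟨e, he, rfl⟩
  rw [dl_trl]
  exact Set.mem_image_of_mem _ (h e he)

theorem RA_sh {v : Vtx} {a : ℕ} {G : Finset Edg} (h : RA (0, 0) a ↑G) :
    RA v a ↑((trl v.1 v.2).mp G) := by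
  have e0 : (trl v.1 v.2).ψ (0, 0) = v := by rw [trl_ψ, zero_add, zero_add]
  have hm : ∀ e, e ∈ G → (trl v.1 v.2).φ e ∈ (trl v.1 v.2).mp G := by
    intro e he
    rw [LSym.mem_mp, Equiv.symm_apply_apply]
    exact he
  have hm' : ∀ e, e ∉ G → (trl v.1 v.2).φ e ∉ (trl v.1 v.2).mp G := by
    intro e he
    rw [LSym.mem_mp, Equiv.symm_apply_apply]
    exact he
  obtain ⟨⟨w, hw, hr⟩, ⟨g, hg, hd⟩⟩ := h
  refine ⟨⟨(trl v.1 v.2).ψ w, ?_, ?_⟩, ⟨(trl v.1 v.2).ψ g, ?_, ?_⟩⟩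
  · obtain ⟨w1, w2⟩ := w
    simp only at hw
    rw [trl_ψ]
    simp only
    omega
  · have := reach_sh (s := v.1) (t := v.2)
      (F := (↑((trl v.1 v.2).mp G) : Set Edg) ∩ ↑(PR v a)) ?_ hr
    · rwa [e0] at this
    · rintro e ⟨h1, h2⟩
      refine ⟨Finset.mem_coe.2 (hm e (Finset.mem_coe.1 h1)), ?_⟩
      rw [Finset.mem_coe] at h2 ⊢
      unfold PR at h2 ⊢
      obtain ⟨x, y, _ | _⟩ := e
      · rw [trl_φ]
        rw [mem_RE_false] at h2 ⊢
        simp only at h2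
        omega
      · rw [trl_φ]
        rw [mem_RE_true] at h2 ⊢
        simp only at h2
        omega
  · obtain ⟨w1, w2⟩ := g
    simp only at hg
    rw [trl_ψ]
    simp only
    omega
  · have := dreach_sh (s := v.1) (t := v.2)
      (F := dE (DR v a) \ (↑((trl v.1 v.2).mp G) : Set Edg)) ?_ hd
    · rwa [e0] at this
    · rintro e ⟨h1, h2⟩
      refine ⟨?_, fun h3 => hm' e (fun h4 => h2 (Finset.mem_coe.2 h4)) (Finset.mem_coe.1 h3)⟩
      unfold dE DR at h1 ⊢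
      rw [Set.mem_setOf_eq] at h1 ⊢
      obtain ⟨x, y, _ | _⟩ := e
      · rw [trl_φ]
        rw [dl_f, mem_RE_true] at h1 ⊢
        simp only at h1
        omega
      · rw [trl_φ]
        rw [dl_t, mem_RE_false] at h1 ⊢
        simp only at h1
        omega

theorem bdB_sh {v : Vtx} {k : ℕ} {x : Vtx} : (trl v.1 v.2).ψ x ∈ bdB v k ↔ x ∈ bdB (0, 0) k := by
  obtain ⟨x1, x2⟩ := x
  rw [trl_ψ]
  unfold bdB
  simp only [Set.mem_setOf_eq, add_sub_cancel_right, sub_zero]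

theorem blk_sh {v : Vtx} {k : ℕ} {e : Edg} : (trl v.1 v.2).φ e ∈ H12S.blk v k ↔ e ∈ H12S.blk (0, 0) k := by
  unfold H12S.blk
  obtain ⟨x, y, _ | _⟩ := e
  · rw [trl_φ, mem_RE_false, mem_RE_false]
    simp only
    omega
  · rw [trl_φ, mem_RE_true, mem_RE_true]
    simp only
    omega

theorem sd_sh (s t : ℤ) (x y : Vtx) : sd ((trl s t).ψ x) ((trl s t).ψ y) = sd x y := by
  obtain ⟨x1, x2⟩ := x
  obtain ⟨y1, y2⟩ := y
  rw [trl_ψ, trl_ψ]
  unfold sd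
  simp only [add_sub_add_right_eq_sub]

theorem BB_sh {v : Vtx} {k : ℕ} {G : Finset Edg} {c : Vtx}
    (hc : c ∈ BB k v ↑((trl v.1 v.2).mp G)) : (trl v.1 v.2).ψ.symm c ∈ BB k (0, 0) ↑G := by
  obtain ⟨w, hw, hr⟩ := hc
  refine ⟨(trl v.1 v.2).ψ.symm w, ?_, ?_⟩
  · rw [← bdB_sh (v := v), Equiv.apply_symm_apply]
    exact hw
  · have h1 := (trl v.1 v.2).inv.reach hr
    refine h1.mono ?_
    rintro _ ⟨e, ⟨h2, h3⟩, rfl⟩
    refine ⟨?_, ?_⟩
    · rw [Finset.mem_coe, LSym.mem_mp] at h2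
      exact h2
    · rw [Finset.mem_coe] at h3 ⊢
      rw [← blk_sh (v := v)]
      show (trl v.1 v.2).φ ((trl v.1 v.2).φ.symm e) ∈ _
      rw [Equiv.apply_symm_apply]
      exact h3

theorem Tk_sh {v : Vtx} {M B k : ℕ} {G : Finset Edg} (h : Tk M B k (0, 0) ↑G) :
    Tk M B k v ↑((trl v.1 v.2).mp G) := by
  have e0 : (trl v.1 v.2).ψ (0, 0) = v := by rw [trl_ψ, zero_add, zero_add]
  have key : ∀ x : Vtx, (∀ c ∈ BB k (0, 0) (↑G : Set Edg), Awy M B k (0, 0) c x) →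
      ∀ c ∈ BB k v (↑((trl v.1 v.2).mp G) : Set Edg), Awy M B k v c ((trl v.1 v.2).ψ x) := by
    intro x hx c hc
    have h1 := hx _ (BB_sh hc)
    unfold Awy at h1 ⊢
    have h2 : sd ((trl v.1 v.2).ψ x) v = sd x (0, 0) := by
      have h4 := sd_sh v.1 v.2 x (0, 0)
      rwa [e0] at h4
    have h3 : sd ((trl v.1 v.2).ψ x) c = sd x ((trl v.1 v.2).ψ.symm c) := by
      have h4 := sd_sh v.1 v.2 x ((trl v.1 v.2).ψ.symm c)
      rwa [Equiv.apply_symm_apply] at h4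
    rw [h2, h3]
    exact h1
  obtain ⟨x, hx, y, hy, hr⟩ := h
  refine ⟨(trl v.1 v.2).ψ x, bdB_sh.2 hx, (trl v.1 v.2).ψ y, bdB_sh.2 hy, reach_sh ?_ hr⟩
  rintro e ⟨h1, h2, h3⟩
  refine ⟨?_, ?_, ?_⟩
  · unfold AE at h1 ⊢
    rw [Finset.mem_coe, Finset.mem_sdiff] at h1 ⊢
    rw [blk_sh, blk_sh]
    exact h1
  · rw [src_trl]
    exact key _ h2
  · rw [tgt_trl]
    exact key _ h3

theorem pr_E3 {M B a : ℕ} {c : ℝ} (h : ∀ S : Finset Edg, SB a ⊆ S →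
    c ≤ PQ (1 / 2) S (fun F => RA (0, 0) a ↑F ∧ Tk M B (a / 64) (0, 0) ↑F)) {v : Vtx}
    (hv : v ∈ core3 a) {S : Finset Edg} (hS : SA (4 * a) ⊆ S) :
    c ≤ PQ (1 / 2) S (fun F => E3 M B a v F) := by
  obtain ⟨S', hSS⟩ : ∃ S' : Finset Edg, (trl v.1 v.2).mp S' = S := by
    refine ⟨(trl v.1 v.2).inv.mp S, ?_⟩
    ext e
    rw [LSym.mem_mp, LSym.mem_mp]
    show (trl v.1 v.2).φ ((trl v.1 v.2).φ.symm e) ∈ S ↔ _
    rw [Equiv.apply_symm_apply]
  have hmem : ∀ e, e ∈ S' ↔ (trl v.1 v.2).φ e ∈ S := by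
    intro e
    rw [← hSS, LSym.mem_mp, Equiv.symm_apply_apply]
  have hsub : SB a ⊆ S' := by
    intro e he
    rw [hmem]
    apply hS
    rw [mem_core3] at hv
    have h1 : RE (v.1 - 13 * a) (v.1 + 14 * a) (v.2 - 13 * a) (v.2 + 14 * a) ⊆
        SA (4 * a) := RE_sub (by omega) (by omega) (by omega) (by omega) (by omega)
    apply h1
    unfold SB at he
    obtain ⟨x, y, _ | _⟩ := e
    · rw [trl_φ]
      rw [mem_RE_false] at he ⊢
      push_cast at he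
      omega
    · rw [trl_φ]
      rw [mem_RE_true] at he ⊢
      push_cast at he
      omega
  refine (h S' hsub).trans ?_
  rw [← hSS]
  unfold PQ
  rw [LSym.pr]
  apply Pr_mono H973.okhalf
  rintro F _ ⟨h1, h2⟩
  exact ⟨RA_sh h1, Tk_sh h2⟩

/-! ### Monotonicity -/

theorem Tk_congr {M B k : ℕ} {v : Vtx} {F G : Finset Edg}
    (h : ∀ e ∈ H12S.blk v (8 * k), e ∈ F ↔ e ∈ G) (hF : Tk M B k v ↑F) : Tk M B k v ↑G := by
  have h1 : (↑F : Set Edg) ∩ ↑(H12S.blk v (8 * k)) = ↑G ∩ ↑(H12S.blk v (8 * k)) := by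
    ext e
    simp only [Set.mem_inter_iff, Finset.mem_coe]
    constructor
    · rintro ⟨h2, h3⟩
      exact ⟨(h e h3).1 h2, h3⟩
    · rintro ⟨h2, h3⟩
      exact ⟨(h e h3).2 h2, h3⟩
  have h2 : BB k v (↑F : Set Edg) = BB k v ↑G := by
    unfold BB
    rw [h1]
  unfold Tk at hF ⊢
  rw [← h2]
  exact hF

theorem E3_mono {M B a : ℕ} {v : Vtx} {F G : Finset Edg}
    (h1 : ∀ e ∈ PR v a, e ∈ F → e ∈ G) (h2 : ∀ e ∈ dE (DR v a), e ∈ G → e ∈ F)
    (h3 : ∀ e ∈ H12S.blk v (8 * (a / 64)), e ∈ F ↔ e ∈ G) (h : E3 M B a v F) : E3 M B a v G := by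
  obtain ⟨⟨⟨w, hw, hr⟩, ⟨g, hg, hd⟩⟩, ht⟩ := h
  refine ⟨⟨⟨w, hw, hr.mono ?_⟩, ⟨g, hg, hd.mono ?_⟩⟩, Tk_congr h3 ht⟩
  · rintro e ⟨h4, h5⟩
    exact ⟨Finset.mem_coe.2 (h1 e (Finset.mem_coe.1 h5) (Finset.mem_coe.1 h4)), h5⟩
  · rintro e ⟨h4, h5⟩
    exact ⟨h4, fun h6 => h5 (Finset.mem_coe.2 (h2 e h4 (Finset.mem_coe.1 h6)))⟩

/-- the region of the open crossings -/
noncomputable def R0 (a : ℤ) : Finset Edg := RE (-(80 * a)) (-(40 * a)) 0 (14 * a)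

/-- the region of the dual crossings -/
noncomputable def R1 (a : ℤ) : Finset Edg :=
  RE (-(80 * a)) (8 * a) (28 * a) (32 * a) ∪ RE (4 * a) (8 * a) 0 (32 * a)

theorem PR_R1 {a : ℕ} (ha : 1 ≤ a) {v : Vtx} (hv : v ∈ core3 a) {e : Edg} (he : e ∈ PR v a) :
    e ∉ R1 a := by
  rw [mem_core3] at hv
  unfold PR at he
  unfold R1
  obtain ⟨x, y, _ | _⟩ := e
  · simp only [Finset.mem_union, mem_RE_false] at he ⊢
    omega
  · simp only [Finset.mem_union, mem_RE_true] at he ⊢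
    omega

theorem DR_R0 {a : ℕ} (ha : 1 ≤ a) {v : Vtx} (hv : v ∈ core3 a) {e : Edg}
    (he : e ∈ dE (DR v a)) : e ∉ R0 a := by
  rw [mem_core3] at hv
  unfold dE DR at he
  rw [Set.mem_setOf_eq] at he
  unfold R0
  obtain ⟨x, y, _ | _⟩ := e
  · rw [dl_f, mem_RE_true] at he
    rw [mem_RE_false]
    omega
  · rw [dl_t, mem_RE_false] at he
    rw [mem_RE_true]
    omega

theorem blk_R01 {a : ℕ} (ha : 1 ≤ a) {v : Vtx} (hv : v ∈ core3 a) {e : Edg}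
    (he : e ∈ H12S.blk v (8 * (a / 64))) : e ∉ R0 a ∧ e ∉ R1 a := by
  rw [mem_core3] at hv
  have hk : 8 * (8 * (a / 64)) ≤ a := by omega
  set k := 8 * (a / 64) with hkd
  unfold H12S.blk at he
  unfold R0 R1
  obtain ⟨x, y, _ | _⟩ := e
  · simp only [Finset.mem_union, mem_RE_false] at he ⊢
    omega
  · simp only [Finset.mem_union, mem_RE_true] at he ⊢
    omega

theorem R0_R1 {a : ℕ} (ha : 1 ≤ a) {e : Edg} (he : e ∈ R0 a) : e ∉ R1 a := by
  unfold R0 at he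
  unfold R1
  obtain ⟨x, y, _ | _⟩ := e
  · simp only [Finset.mem_union, mem_RE_false] at he ⊢
    omega
  · simp only [Finset.mem_union, mem_RE_true] at he ⊢
    omega

theorem R0_sub {a : ℕ} (ha : 1 ≤ a) : R0 a ⊆ SA (4 * a) :=
  RE_sub (by omega) (by omega) (by omega) (by omega) (by omega)

theorem R1_sub {a : ℕ} (ha : 1 ≤ a) : R1 a ⊆ SA (4 * a) :=
  Finset.union_subset (RE_sub (by omega) (by omega) (by omega) (by omega) (by omega))
    (RE_sub (by omega) (by omega) (by omega) (by omega) (by omega))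

theorem GO_R0 {a : ℤ} (ha : 1 ≤ a) (F : Finset Edg) : GO3 a F ↔ GO3 a (F ∩ R0 a) := by
  unfold GO3 R0
  rw [← LRc_local (LRE_subset_RE.trans (RE_subset (by omega) (by omega) (by omega) (by omega))),
    ← TBc_local (TBE_subset_RE.trans (RE_subset (by omega) (by omega) (by omega) (by omega)))]

theorem GD_R1 {a : ℤ} (F : Finset Edg) : GD3 a F ↔ GD3 a (F ∩ R1 a) := by
  unfold GD3
  rw [← DLR_local (S := R1 a) (TBE_subset_RE.trans Finset.subset_union_left),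
    ← DTB_local (S := R1 a) (LRE_subset_RE.trans Finset.subset_union_right)]

/-! ### Probabilities of the crossings -/

theorem pr_GO {a : ℤ} (ha : 2 ≤ a) {S : Finset Edg} (hS : SA (4 * a) ⊆ S) :
    dlt * dlt ≤ PQ (1/2) S (GO3 a) := by
  have hd0 := dlt_pos
  have s1 : LRE (-(80 * a)) (-(40 * a)) (10 * a) (14 * a) ⊆ S :=
    (LRE_subset_RE.trans (RE_sub (by omega) (by omega) (by omega) (by omega) (by omega))).trans hS
  have s2 : TBE (-(80 * a)) (-(76 * a)) 0 (14 * a) ⊆ S :=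
    (TBE_subset_RE.trans (RE_sub (by omega) (by omega) (by omega) (by omega) (by omega))).trans hS
  have p1 : dlt ≤ PQ (1/2) S (LRc (-(80 * a)) (-(40 * a)) (10 * a) (14 * a)) := by
    have e : PQ (1/2) S (LRc (-(80 * a)) (-(40 * a)) (10 * a) (14 * a)) =
      hh (1/2) (-(40 * a) - -(80 * a)) (14 * a - 10 * a) := pr_LRc (1/2) s1
    rw [e]
    exact rswL (m := a) (by omega) (by omega) (by omega) (by omega)
  have p2 : dlt ≤ PQ (1/2) S (TBc (-(80 * a)) (-(76 * a)) 0 (14 * a)) := by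
    have e : PQ (1/2) S (TBc (-(80 * a)) (-(76 * a)) 0 (14 * a)) =
      hh (1/2) (14 * a - 0) (-(76 * a) - -(80 * a)) := pr_TBc (1/2) s2
    rw [e]
    exact rswL (m := a) (by omega) (by omega) (by omega) (by omega)
  have p3 : PQ (1/2) S (LRc (-(80 * a)) (-(40 * a)) (10 * a) (14 * a)) *
      PQ (1/2) S (TBc (-(80 * a)) (-(76 * a)) 0 (14 * a)) ≤ PQ (1/2) S (GO3 a) :=
    Pr_harris H973.okhalf (LRc_incr _ _ _ _ _) (TBc_incr _ _ _ _ _)
  refine le_trans ?_ p3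
  exact mul_le_mul p1 p2 hd0.le (hd0.le.trans p1)

theorem pr_GD {a : ℤ} (ha : 2 ≤ a) {S : Finset Edg} (hS : SA (4 * a) ⊆ S) :
    dlt * dlt ≤ PQ (1/2) S (GD3 a) := by
  have hd0 := dlt_pos
  have e3 : (1:ℝ) - 1/2 = 1/2 := by norm_num
  have s1 : LRE (4 * a) (8 * a) 0 (32 * a) ⊆ S :=
    (LRE_subset_RE.trans (RE_sub (by omega) (by omega) (by omega) (by omega) (by omega))).trans hS
  have s2 : TBE (-(80 * a)) (8 * a) (28 * a) (32 * a) ⊆ S :=
    (TBE_subset_RE.trans (RE_sub (by omega) (by omega) (by omega) (by omega) (by omega))).trans hS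
  have p1 : dlt ≤ 1 - PQ (1/2) S (LRc (4 * a) (8 * a) 0 (32 * a)) := by
    have e : PQ (1/2) S (LRc (4 * a) (8 * a) 0 (32 * a)) =
      hh (1/2) (8 * a - 4 * a) (32 * a - 0) := pr_LRc (1/2) s1
    have e2 := hh_dual (q := 1/2) (w := 8 * a - 4 * a) (h := 32 * a - 0) (by omega) (by omega)
    rw [e3] at e2
    have e4 := rswL (m := a) (w := 32 * a - 0 + 1) (h := 8 * a - 4 * a - 1)
      (by omega) (by omega) (by omega) (by omega)
    rw [e, e2]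
    linarith
  have p2 : dlt ≤ 1 - PQ (1/2) S (TBc (-(80 * a)) (8 * a) (28 * a) (32 * a)) := by
    have e : PQ (1/2) S (TBc (-(80 * a)) (8 * a) (28 * a) (32 * a)) =
      hh (1/2) (32 * a - 28 * a) (8 * a - -(80 * a)) := pr_TBc (1/2) s2
    have e2 := hh_dual (q := 1/2) (w := 32 * a - 28 * a) (h := 8 * a - -(80 * a)) (by omega)
      (by omega)
    rw [e3] at e2
    have e4 := rswL (m := a) (w := 8 * a - -(80 * a) + 1) (h := 32 * a - 28 * a - 1)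
      (by omega) (by omega) (by omega) (by omega)
    rw [e, e2]
    linarith
  have q1 : (1 - PQ (1/2) S (TBc (-(80 * a)) (8 * a) (28 * a) (32 * a))) *
      (1 - PQ (1/2) S (LRc (4 * a) (8 * a) 0 (32 * a))) ≤
      PQ (1/2) S (fun F => ¬ TBc (-(80 * a)) (8 * a) (28 * a) (32 * a) F ∧
        ¬ LRc (4 * a) (8 * a) 0 (32 * a) F) :=
    Pr_harris_dd H973.okhalf (TBc_incr _ _ _ _ _) (LRc_incr _ _ _ _ _)
  have q4 : PQ (1/2) S (fun F => ¬ TBc (-(80 * a)) (8 * a) (28 * a) (32 * a) F ∧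
        ¬ LRc (4 * a) (8 * a) 0 (32 * a) F) ≤ PQ (1/2) S (GD3 a) := by
    apply Pr_mono H973.okhalf
    rintro F _ ⟨h1, h2⟩
    exact ⟨DLR_of (by omega) (by omega) h1, DTB_of (by omega) (by omega) h2⟩
  refine le_trans ?_ (q1.trans q4)
  exact mul_le_mul p2 p1 hd0.le (hd0.le.trans p2)

/-! ### The theorem -/

theorem t_ONE3 : S_P3 → S_ONE3 := by
  rintro ⟨M, B, a0, c, hM, hB, ha0, hc, hP⟩
  have hd0 := dlt_pos
  refine ⟨M, B, a0, c * (dlt * dlt) * (dlt * dlt), hM, hB, ha0, by positivity, ?_⟩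
  intro a ha v hv S hS
  have ha1 : 1 ≤ a := by omega
  have hE : c * (a : ℝ) ^ (-(2 / 3 : ℝ)) ≤ PQ (1/2) S (fun F => E3 M B a v F) :=
    pr_E3 (hP a ha) hv hS
  have hGO := pr_GO (a := a) (by omega) hS
  have hGD := pr_GD (a := a) (by omega) hS
  have hR0S : R0 a ⊆ S := (R0_sub ha1).trans hS
  have hR1S : R1 a ⊆ S := (R1_sub ha1).trans hS
  -- first gluing
  have g1 : PQ (1/2) S (fun F => E3 M B a v F) * PQ (1/2) S (GO3 a) ≤
      PQ (1/2) S (fun F => E3 M B a v F ∧ GO3 a F) := by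
    apply H934F.t1a S (R0 a) (fun F => E3 M B a v F) (GO3 a) hR0S
    · intro F G _ hFG hGF hF
      have hout : ∀ e, e ∉ R0 (a : ℤ) → e ∈ G → e ∈ F := by
        intro e h1 h2
        rcases Finset.mem_union.1 (hGF h2) with h3 | h3
        · exact h3
        · exact absurd h3 h1
      refine E3_mono (fun e _ h => hFG h) (fun e he h => hout e (DR_R0 ha1 hv he) h)
        (fun e he => ⟨fun h => hFG h, fun h => hout e (blk_R01 ha1 hv he).1 h⟩) hF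
    · intro F G hFG hF
      exact ⟨hF.1.mono hFG, hF.2.mono hFG⟩
    · intro F
      exact GO_R0 (by omega) F
  have g2 : PQ (1/2) S (fun F => E3 M B a v F ∧ GO3 a F) * PQ (1/2) S (GD3 a) ≤
      PQ (1/2) S (fun F => (E3 M B a v F ∧ GO3 a F) ∧ GD3 a F) := by
    apply H934F.t1b S (R1 a) (fun F => E3 M B a v F ∧ GO3 a F) (GD3 a) hR1S
    · rintro F G _ hGF hFG ⟨h1, h2⟩
      have hout : ∀ e, e ∉ R1 (a : ℤ) → e ∈ F → e ∈ G := by
        intro e h3 h4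
        rcases Finset.mem_union.1 (hFG h4) with h5 | h5
        · exact h5
        · exact absurd h5 h3
      refine ⟨E3_mono (fun e he h => hout e (PR_R1 ha1 hv he) h) (fun e _ h => hGF h)
        (fun e he => ⟨fun h => hout e (blk_R01 ha1 hv he).2 h, fun h => hGF h⟩) h1, ?_⟩
      rw [GO_R0 (by omega)] at h2 ⊢
      have h3 : F ∩ R0 a ⊆ G ∩ R0 a := by
        intro g hg
        rw [Finset.mem_inter] at hg ⊢
        exact ⟨hout g (R0_R1 ha1 hg.2) hg.1, hg.2⟩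
      exact ⟨h2.1.mono h3, h2.2.mono h3⟩
    · rintro F G hFG ⟨h1, h2⟩
      exact ⟨DLR_decr hFG h1, DTB_decr hFG h2⟩
    · intro F
      exact GD_R1 F
  have q0 : 0 ≤ PQ (1/2) S (fun F => E3 M B a v F) := Pr_nonneg H973.okhalf _ _
  have q1 : 0 ≤ PQ (1/2) S (fun F => E3 M B a v F ∧ GO3 a F) := Pr_nonneg H973.okhalf _ _
  calc c * (dlt * dlt) * (dlt * dlt) * (a : ℝ) ^ (-(2 / 3 : ℝ))
      = ((c * (a : ℝ) ^ (-(2 / 3 : ℝ))) * (dlt * dlt)) * (dlt * dlt) := by ring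
    _ ≤ (PQ (1/2) S (fun F => E3 M B a v F) * PQ (1/2) S (GO3 a)) * (dlt * dlt) := by
        apply mul_le_mul_of_nonneg_right _ (by positivity)
        exact mul_le_mul hE hGO (by positivity) q0
    _ ≤ PQ (1/2) S (fun F => E3 M B a v F ∧ GO3 a F) * PQ (1/2) S (GD3 a) :=
        mul_le_mul g1 hGD (by positivity) q1
    _ ≤ PQ (1/2) S (fun F => (E3 M B a v F ∧ GO3 a F) ∧ GD3 a F) := g2
    _ ≤ PQ (1/2) S (fun F => E3 M B a v F ∧ GO3 a F ∧ GD3 a F) :=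
        Pr_mono H973.okhalf (fun F _ hF => ⟨hF.1.1, hF.1.2, hF.2⟩)

end Pool.Agent.Y989.FR.ONE3
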