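import Pool.Agent.Y989.FR.StmD

/-!
# Project FR: two-point upper bound (written by helper496)
-/

set_option autoImplicit false

namespace Pool.Agent.Y989.FR.TWO3

open H974 H12S Finset H389NS H984P H984N
open Pool.Agent.W92.DP (DTB DLR HA SA)
open Pool.Agent.Y989.FR

/-! ### Crossings of annuli (copies of the lemmas of `Pool.Agent.W424.OD.Ann`) -/

/-- The box. -/
def BX (c : ℤ × ℤ) (d : ℕ) (v : Vtx) : Prop := inR (c.1 - d) (c.1 + d) (c.2 - d) (c.2 + d) v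

theorem re_ends {a b c d : ℤ} {e : Edg} (he : e ∈ RE a b c d) :
    inR a b c d (src e) ∧ inR a b c d (tgt e) := by
  obtain ⟨x, y, t⟩ := e
  unfold RE at he
  rw [Finset.mem_filter, Finset.mem_product, Finset.mem_product, Finset.mem_Icc,
    Finset.mem_Icc] at he
  unfold inR src tgt
  cases t <;> simp_all <;> omega

theorem re_of_ends {a b c d : ℤ} {e : Edg} (h1 : inR a b c d (src e))
    (h2 : inR a b c d (tgt e)) : e ∈ RE a b c d := by
  obtain ⟨x, y, t⟩ := e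
  unfold RE
  rw [Finset.mem_filter, Finset.mem_product, Finset.mem_product, Finset.mem_Icc,
    Finset.mem_Icc]
  unfold inR src tgt at *
  cases t <;> simp_all <;> omega

theorem adj_near {G : Set Edg} {u v : Vtx} (h : Adj G u v) :
    (v.1 = u.1 ∧ (v.2 = u.2 + 1 ∨ v.2 = u.2 - 1)) ∨ (v.2 = u.2 ∧ (v.1 = u.1 + 1 ∨ v.1 = u.1 - 1)) := by
  obtain ⟨⟨x, y, b⟩, _, h⟩ := h
  obtain ⟨u1, u2⟩ := u
  obtain ⟨v1, v2⟩ := v
  cases b
  · simp only [src_mk, tgt_false, Prod.mk.injEq] at h ⊢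
    omega
  · simp only [src_mk, tgt_true, Prod.mk.injEq] at h ⊢
    omega

theorem mem_bdB_iff {c : ℤ × ℤ} {d : ℕ} {u : Vtx} : u ∈ bdB c d ↔ BX c d u ∧
    (u.1 = c.1 - d ∨ u.1 = c.1 + d ∨ u.2 = c.2 - d ∨ u.2 = c.2 + d) := by
  have key : ∀ a : ℤ, (|a| ≤ (d : ℤ) ↔ (-(d : ℤ) ≤ a ∧ a ≤ d)) ∧
      (|a| = (d : ℤ) ↔ (a = d ∨ a = -(d : ℤ))) := fun a =>
    ⟨abs_le, abs_eq (Int.natCast_nonneg d)⟩
  unfold bdB BX inR
  rw [Set.mem_ofPred_eq, (key _).1, (key _).1, (key _).2, (key _).2]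
  omega

theorem bdB_of_step {c : ℤ × ℤ} {d : ℕ} {G : Set Edg} {u v : Vtx} (h : Adj G u v)
    (hu : BX c d u) (hv : ¬ BX c d v) : u ∈ bdB c d := by
  have h1 := adj_near h
  rw [mem_bdB_iff]
  refine ⟨hu, ?_⟩
  unfold BX inR at hu hv
  omega

/-- last exit -/
theorem lastX {G : Set Edg} {c : ℤ × ℤ} {d : ℕ} {x w : Vtx} (hx : BX c d x) (h : Reach G x w) :
    BX c d w ∨ ∃ u ∈ bdB c d, Reach G x u ∧ Reach (G \ ↑(blk c d)) u w := by
  induction h with
  | refl => exact Or.inl hx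
  | @tail w w' hw hs ih =>
    by_cases hw' : BX c d w'
    · exact Or.inl hw'
    right
    have hne : Adj (G \ ↑(blk c d)) w w' := by
      obtain ⟨e, he, hc⟩ := hs
      refine ⟨e, ⟨he, fun hm => hw' ?_⟩, hc⟩
      have h2 := re_ends (Finset.mem_coe.1 hm)
      rcases hc with ⟨h3, h4⟩ | ⟨h3, h4⟩
      · rw [← h4]; exact h2.2
      · rw [← h3]; exact h2.1
    by_cases hwB : BX c d w
    · exact ⟨w, bdB_of_step hs hwB hw', hw, Adj.reach hne⟩
    · rcases ih with ih | ⟨u, hu, h1, h2⟩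
      · exact absurd ih hwB
      · exact ⟨u, hu, h1, h2.trans (Adj.reach hne)⟩

/-- first exit -/
theorem firstX {G : Set Edg} {c : ℤ × ℤ} {k : ℕ} {u w : Vtx} (hu : BX c k u) (h : Reach G u w) :
    (BX c k w ∧ Reach (G ∩ ↑(blk c k)) u w) ∨ ∃ y ∈ bdB c k, Reach (G ∩ ↑(blk c k)) u y := by
  induction h with
  | refl => exact Or.inl ⟨hu, Reach.refl _ _⟩
  | @tail w w' _ hs ih =>
    rcases ih with ⟨h1, h2⟩ | ih
    · by_cases hw' : BX c k w'
      · left
        refine ⟨hw', h2.trans (Adj.reach ?_)⟩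
        obtain ⟨e, he, hc⟩ := hs
        refine ⟨e, ⟨he, Finset.mem_coe.2 ?_⟩, hc⟩
        rcases hc with ⟨h3, h4⟩ | ⟨h3, h4⟩
        · exact re_of_ends (by rw [h3]; exact h1) (by rw [h4]; exact hw')
        · exact re_of_ends (by rw [h3]; exact hw') (by rw [h4]; exact h1)
      · right
        exact ⟨w, bdB_of_step hs h1 hw', h2⟩
    · exact Or.inr ih

theorem bdB_BX {c : ℤ × ℤ} {d k : ℕ} (hdk : d ≤ k) {u : Vtx} (h : u ∈ bdB c d) : BX c k u := by
  have h1 := (mem_bdB_iff.1 h).1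
  unfold BX inR at h1 ⊢
  omega

/-- crossing of an annulus -/
theorem annX {G : Set Edg} {c : ℤ × ℤ} {d k : ℕ} (hdk : d ≤ k) {x w : Vtx} (hx : BX c d x)
    (hw : ¬ BX c k w) (h : Reach G x w) :
    ∃ u ∈ bdB c d, ∃ y ∈ bdB c k, Reach (G ∩ AE c d k) u y := by
  rcases lastX hx h with h1 | ⟨u, hu, h1, h2⟩
  · exfalso
    apply hw
    unfold BX inR at h1 ⊢
    omega
  · rcases firstX (bdB_BX hdk hu) h2 with h3 | ⟨y, hy, h3⟩
    · exact absurd h3.1 hw
    · refine ⟨u, hu, y, hy, h3.mono ?_⟩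
      rintro e ⟨⟨h4, h5⟩, h6⟩
      refine ⟨h4, ?_⟩
      show e ∈ (↑(blk c k \ blk c d) : Set Edg)
      rw [Finset.coe_sdiff]
      exact ⟨h6, h5⟩

theorem sd_nonneg (u v : Vtx) : 0 ≤ sd u v := le_max_of_le_left (abs_nonneg _)

theorem sd_self (u : Vtx) : sd u u = 0 := by simp [sd]

/-- The event at `v` contains three arms. -/
theorem E3_A3v {M B a : ℕ} {v : Vtx} {F : Finset Edg} (h : E3 M B a v F) {d j : ℕ} (hd : 2 ≤ d)
    (hdj : d ≤ j) (hj : j < a / 64) : A3v v d j (↑F : Set Edg) := by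
  obtain ⟨⟨⟨w, hw, hvw⟩, -⟩, x, hx, y, hy, hxy⟩ := h
  have hvF : Reach (↑F : Set Edg) v w := hvw.mono Set.inter_subset_left
  have hvv : BX v d v := by
    unfold BX inR
    omega
  have ha8 : 8 * (a / 64) ≤ a := by omega
  rcases lastX hvv hvF with h1 | ⟨u, hu, -, h2⟩
  · exfalso
    unfold BX inR at h1
    omega
  have hwk : ¬ BX v (8 * (a / 64)) w := by
    unfold BX inR
    push_cast
    omega
  have hwj : ¬ BX v j w := by
    unfold BX inR
    omega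
  obtain ⟨y8, hy8, h8⟩ : ∃ y8 ∈ bdB v (8 * (a / 64)),
      Reach ((↑F : Set Edg) ∩ ↑(blk v (8 * (a / 64)))) u y8 := by
    rcases firstX (k := 8 * (a / 64)) (bdB_BX (by omega) hu) h2 with h3 | ⟨y8, hy8, h3⟩
    · exact absurd h3.1 hwk
    · exact ⟨y8, hy8, h3.mono (Set.inter_subset_inter_left _ Set.sdiff_subset)⟩
  obtain ⟨yj, hyj, hj1⟩ : ∃ yj ∈ bdB v j, Reach ((↑F : Set Edg) ∩ AE v d j) u yj := by
    rcases firstX (k := j) (bdB_BX hdj hu) h2 with h3 | ⟨yj, hyj, h3⟩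
    · exact absurd h3.1 hwj
    · refine ⟨yj, hyj, h3.mono ?_⟩
      rintro e ⟨⟨h4, h5⟩, h6⟩
      refine ⟨h4, ?_⟩
      show e ∈ (↑(blk v j \ blk v d) : Set Edg)
      rw [Finset.coe_sdiff]
      exact ⟨h6, h5⟩
  have hblk : (AE v d j : Set Edg) ⊆ ↑(blk v (8 * (a / 64))) := by
    intro e he
    have he' : e ∈ blk v j \ blk v d := Finset.mem_coe.1 he
    rw [Finset.mem_sdiff] at he'
    apply Finset.mem_coe.2
    have : blk v j ⊆ blk v (8 * (a / 64)) := by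
      unfold blk
      apply RE_subset <;> push_cast <;> omega
    exact this he'.1
  have hsub : ∀ t, t ∈ Clu v d j (↑F : Set Edg) u → t ∈ BB (a / 64) v (↑F : Set Edg) := by
    intro t ht
    refine ⟨y8, hy8, ?_⟩
    have h3 : Reach ((↑F : Set Edg) ∩ ↑(blk v (8 * (a / 64)))) u t :=
      Reach.mono (Set.inter_subset_inter_right _ hblk) ht
    exact h3.symm.trans h8
  have hx2 : BX v d x := bdB_BX hd hx
  have hyj2 : ¬ BX v j y := by
    have h3 := (mem_bdB_iff.1 hy).2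
    unfold BX inR
    omega
  obtain ⟨p, hp, q, hq, hpq⟩ := annX hdj hx2 hyj2 hxy
  refine ⟨u, hu, ⟨yj, hyj, hj1⟩, p, hp, q, hq, hpq.mono ?_⟩
  rintro e ⟨⟨-, h6, h7⟩, h8⟩
  have key : ∀ t, t ∈ BB (a / 64) v (↑F : Set Edg) → ¬ Awy M B (a / 64) v t t := by
    intro t _ h9
    unfold Awy at h9
    rw [sd_self, mul_zero] at h9
    exact absurd h9 (not_lt.2 (pow_nonneg (sd_nonneg _ _) _))
  exact ⟨h8, fun h => key _ (hsub _ h) (h6 _ (hsub _ h)), fun h => key _ (hsub _ h) (h7 _ (hsub _ h))⟩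

/-! ### Locality -/

theorem loc {c : ℤ × ℤ} {d k : ℕ} {G G' : Set Edg} (h : G ∩ AE c d k = G' ∩ AE c d k) :
    A3v c d k G ↔ A3v c d k G' := by
  have h1 : ∀ u, Clu c d k G u = Clu c d k G' u := by
    intro u
    unfold Clu
    rw [h]
  unfold A3v
  simp only [h1]

theorem locF {c : ℤ × ℤ} {d k : ℕ} {T : Finset Edg} (hT : blk c k \ blk c d ⊆ T)
    (F : Finset Edg) :
    A3v c d k (↑F : Set Edg) ↔ A3v c d k (↑(F ∩ T) : Set Edg) := by
  apply loc
  unfold AE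
  rw [Finset.coe_inter, Set.inter_assoc]
  congr 1
  symm
  exact Set.inter_eq_right.2 (Finset.coe_subset.2 hT)

theorem core_bd {a : ℕ} {v : Vtx} (hv : v ∈ core3 a) : (-(60 * (a : ℤ)) ≤ v.1 ∧
    v.1 ≤ -(58 * (a : ℤ))) ∧ 20 * (a : ℤ) ≤ v.2 ∧ v.2 ≤ 22 * a := by
  unfold core3 at hv
  rw [Finset.mem_product, Finset.mem_Icc, Finset.mem_Icc] at hv
  exact hv

theorem sup_bd {r : ℕ} {v w : ℤ × ℤ} (h : (r : ℤ) = max |v.1 - w.1| |v.2 - w.2|) :
    (-(r : ℤ) ≤ v.1 - w.1 ∧ v.1 - w.1 ≤ r ∧ -(r : ℤ) ≤ v.2 - w.2 ∧ v.2 - w.2 ≤ r) ∧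
    (v.1 - w.1 = r ∨ v.1 - w.1 = -r ∨ v.2 - w.2 = r ∨ v.2 - w.2 = -r) := by
  have h1 : |v.1 - w.1| ≤ (r : ℤ) := by rw [h]; exact le_max_left _ _
  have h2 : |v.2 - w.2| ≤ (r : ℤ) := by rw [h]; exact le_max_right _ _
  have b1 := abs_le.1 h1
  have b2 := abs_le.1 h2
  refine ⟨⟨b1.1, b1.2, b2.1, b2.2⟩, ?_⟩
  rcases max_choice |v.1 - w.1| |v.2 - w.2| with h3 | h3
  · rw [h3] at h
    rcases abs_choice (v.1 - w.1) with h4 | h4
    · rw [h4] at h; left; exact h.symm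
    · rw [h4] at h; right; left; linarith
  · rw [h3] at h
    rcases abs_choice (v.2 - w.2) with h4 | h4
    · rw [h4] at h; right; right; left; exact h.symm
    · rw [h4] at h; right; right; right; linarith

theorem blk_SA {a : ℕ} {c : ℤ × ℤ} {k : ℕ} (hk : k ≤ a) (hc : c ∈ core3 a) :
    blk c k ⊆ SA (4 * (a : ℤ)) := by
  obtain ⟨⟨h1, h2⟩, h3, h4⟩ := core_bd hc
  intro e he
  obtain ⟨e1, e2⟩ := re_ends he
  unfold SA
  rw [H973.mem_ES]
  unfold inR at e1 e2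
  unfold HA
  rw [Finset.mem_filter, Finset.mem_filter, Finset.mem_product, Finset.mem_product,
    Finset.mem_Icc, Finset.mem_Icc, Finset.mem_Icc, Finset.mem_Icc]
  omega

theorem disj_blk {v w : ℤ × ℤ} {k r : ℕ} (hk : 2 * k < r)
    (h : v.1 - w.1 = r ∨ v.1 - w.1 = -r ∨ v.2 - w.2 = r ∨ v.2 - w.2 = -r) :
    Disjoint (blk v k) (blk w k) := by
  rw [Finset.disjoint_left]
  intro e h1 h2
  have e1 := (re_ends h1).1
  have e2 := (re_ends h2).1
  unfold inR at e1 e2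
  omega

/-- numerical form -/
theorem num {r n x : ℝ} (hr : 0 < r) (hn : 0 < n) (hx0 : 0 ≤ x) (hx : x ≤ 131072 / (r * n)) :
    x ^ (2 / 3 : ℝ) ≤ 131072 * (r ^ (-(2 / 3) : ℝ) * n ^ (-(2 / 3) : ℝ)) := by
  have h1 : x ^ (2 / 3 : ℝ) ≤ (131072 / (r * n)) ^ (2 / 3 : ℝ) :=
    Real.rpow_le_rpow hx0 hx (by norm_num)
  refine h1.trans ?_
  have h2 : (131072 / (r * n)) ^ (2 / 3 : ℝ) =
      (131072 : ℝ) ^ (2 / 3 : ℝ) * (r ^ (-(2 / 3) : ℝ) * n ^ (-(2 / 3) : ℝ)) := by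
    rw [Real.div_rpow (by norm_num) (by positivity), Real.mul_rpow hr.le hn.le,
      Real.rpow_neg hr.le, Real.rpow_neg hn.le]
    field_simp
  rw [h2]
  have h3 : (131072 : ℝ) ^ (2 / 3 : ℝ) ≤ 131072 := by
    calc (131072 : ℝ) ^ (2 / 3 : ℝ) ≤ (131072 : ℝ) ^ (1 : ℝ) :=
          Real.rpow_le_rpow_of_exponent_le (by norm_num) (by norm_num)
      _ = 131072 := Real.rpow_one _
  have h4 : 0 ≤ r ^ (-(2 / 3) : ℝ) * n ^ (-(2 / 3) : ℝ) := by positivity
  exact mul_le_mul_of_nonneg_right h3 h4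

theorem hok : Ok (fun _ : Edg => (1 / 2 : ℝ)) := fun _ => ⟨by norm_num, by norm_num⟩

theorem t_TWO3 : S_U3 → S_TWO3 := by
  rintro ⟨C, hC, hU⟩ M B
  refine ⟨131072 * (1 + C) ^ 3, by positivity, ?_⟩
  intro a ha v hv w hw S hS
  obtain ⟨⟨v1, v2⟩, v3, v4⟩ := core_bd hv
  obtain ⟨⟨w1, w2⟩, w3, w4⟩ := core_bd hw
  obtain ⟨r, hr⟩ : ∃ r : ℕ, (r : ℤ) = sd v w := ⟨(sd v w).toNat, Int.toNat_of_nonneg (sd_nonneg _ _)⟩
  obtain ⟨⟨s1, s2, s3, s4⟩, s5⟩ := sup_bd (v := v) (w := w) (r := r) (by rw [hr]; rfl)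
  have hra : (r : ℤ) ≤ 2 * a := by omega
  obtain ⟨K, hK⟩ : ∃ K : ℕ, K + 1 = a / 64 := ⟨a / 64 - 1, by omega⟩
  have hK2 : 2 ≤ K := by omega
  have haK : a ≤ 128 * K := by omega
  have ha0 : (0 : ℝ) < a := by exact_mod_cast (by omega : 0 < a)
  have hK0 : (0 : ℝ) < K := by exact_mod_cast (by omega : 0 < K)
  have haKR : (a : ℝ) ≤ 128 * K := by exact_mod_cast haK
  set R : ℝ := ((max (sd v w) 1 : ℤ) : ℝ) with hR
  have hR1 : (1 : ℝ) ≤ R := by
    rw [hR]
    exact_mod_cast le_max_right _ _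
  have hR0 : (0 : ℝ) < R := by linarith
  have hD : 0 ≤ R ^ (-(2 / 3) : ℝ) * (a : ℝ) ^ (-(2 / 3) : ℝ) := by positivity
  have hC1 : C ≤ (1 + C) ^ 3 := by nlinarith [mul_pos hC hC, mul_pos (mul_pos hC hC) hC]
  have hC2 : C ^ 2 ≤ (1 + C) ^ 3 := by nlinarith [mul_pos hC hC, mul_pos (mul_pos hC hC) hC]
  have hC3 : C ^ 3 ≤ (1 + C) ^ 3 := by
    apply pow_le_pow_left₀ hC.le
    linarith
  rw [mul_assoc]
  by_cases hr16 : r ≤ 16
  · -- one event
    have hsub : blk v K ⊆ S := (blk_SA (by omega) hv).trans hS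
    have h1 := hU v 2 K (by omega) hK2 S hsub
    have h2 : Pr (fun _ => (1 / 2 : ℝ)) S (fun F => E3 M B a v F ∧ E3 M B a w F) ≤
        PQ (1 / 2) S (fun F => A3v v 2 K (↑F : Set Edg)) := by
      apply Pr_mono hok
      rintro F _ ⟨hF, -⟩
      exact E3_A3v hF le_rfl hK2 (by omega)
    have hR16 : R ≤ 16 := by
      rw [hR]
      have : max (sd v w) 1 ≤ 16 := by
        rw [← hr]
        omega
      exact_mod_cast this
    have h3 := num (x := ((2 : ℕ) : ℝ) / K) hR0 ha0 (by positivity) (by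
      rw [div_le_div_iff₀ hK0 (by positivity)]
      push_cast
      have h5 : R * a ≤ 16 * (128 * K) := by gcongr
      nlinarith)
    refine (h2.trans h1).trans ?_
    calc C * (((2 : ℕ) : ℝ) / K) ^ (2 / 3 : ℝ)
        ≤ (1 + C) ^ 3 * (131072 * (R ^ (-(2 / 3) : ℝ) * (a : ℝ) ^ (-(2 / 3) : ℝ))) := by
          apply mul_le_mul hC1 h3 (by positivity) (by positivity)
      _ = _ := by ring
  · have hRr : R = r := by
      rw [hR, ← hr]
      have : max (r : ℤ) 1 = r := by omega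
      rw [this]
      norm_num
    have hr0 : (0 : ℝ) < r := by exact_mod_cast (by omega : 0 < r)
    obtain ⟨j, hj⟩ : ∃ j : ℕ, j = min (r / 3) K := ⟨_, rfl⟩
    have hj2 : 2 ≤ j := by omega
    have hjK : j ≤ K := by omega
    have hjr : 2 * j < r := by omega
    have hj0 : (0 : ℝ) < j := by exact_mod_cast (by omega : 0 < j)
    have hs1 : blk v j ⊆ S := (blk_SA (by omega) hv).trans hS
    have hs2 : blk w j ⊆ S := (blk_SA (by omega) hw).trans hS
    have hd12 : Disjoint (blk v j) (blk w j) := disj_blk hjr s5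
    have h1 := hU v 2 j (by omega) hj2 S hs1
    have h1' := hU w 2 j (by omega) hj2 S hs2
    have hA1 : ∀ F, F ⊆ S → (A3v v 2 j (↑F : Set Edg) ↔
        A3v v 2 j (↑(F ∩ blk v j) : Set Edg)) := fun F _ => locF Finset.sdiff_subset F
    have hA2 : ∀ F, F ⊆ S → (A3v w 2 j (↑F : Set Edg) ↔
        A3v w 2 j (↑(F ∩ blk w j) : Set Edg)) := fun F _ => locF Finset.sdiff_subset F
    have hp0 : 0 ≤ (((2 : ℕ) : ℝ) / j) ^ (2 / 3 : ℝ) := by positivity
    by_cases hrK : 2 * r ≤ K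
    · -- three events
      have hs3 : blk v K ⊆ S := (blk_SA (by omega) hv).trans hS
      have h3 := hU v (2 * r) K (by omega) hrK S hs3
      have hT3 : blk v K \ blk v (2 * r) ⊆ S := Finset.sdiff_subset.trans hs3
      have sub1 : blk v j ⊆ blk v (2 * r) := by
        unfold blk
        apply RE_subset <;> push_cast <;> omega
      have sub2 : blk w j ⊆ blk v (2 * r) := by
        unfold blk
        apply RE_subset <;> push_cast <;> omega
      have hd13 : Disjoint (blk v j) (blk v K \ blk v (2 * r)) :=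
        Finset.disjoint_of_subset_left sub1 Finset.disjoint_sdiff
      have hd23 : Disjoint (blk w j) (blk v K \ blk v (2 * r)) :=
        Finset.disjoint_of_subset_left sub2 Finset.disjoint_sdiff
      have hA3 : ∀ F, F ⊆ S → (A3v v (2 * r) K (↑F : Set Edg) ↔
          A3v v (2 * r) K (↑(F ∩ (blk v K \ blk v (2 * r))) : Set Edg)) := fun F _ =>
        locF (Finset.Subset.refl _) F
      have i2 := Pr_indep (p := fun _ => (1 / 2 : ℝ)) hs2 hT3 hd23
        (A := fun F => A3v w 2 j (↑F : Set Edg)) (B := fun F => A3v v (2 * r) K (↑F : Set Edg))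
        hA2 hA3
      have hA23 : ∀ F, F ⊆ S →
          ((A3v w 2 j (↑F : Set Edg) ∧ A3v v (2 * r) K (↑F : Set Edg)) ↔
          (A3v w 2 j (↑(F ∩ (blk w j ∪ (blk v K \ blk v (2 * r)))) : Set Edg) ∧
            A3v v (2 * r) K (↑(F ∩ (blk w j ∪ (blk v K \ blk v (2 * r)))) : Set Edg))) := by
        intro F _
        exact and_congr
          (locF (Finset.sdiff_subset.trans Finset.subset_union_left) F)
          (locF Finset.subset_union_right F)
      have i1 := Pr_indep (p := fun _ => (1 / 2 : ℝ)) hs1 (Finset.union_subset hs2 hT3)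
        (Finset.disjoint_union_right.2 ⟨hd12, hd13⟩)
        (A := fun F => A3v v 2 j (↑F : Set Edg))
        (B := fun F => A3v w 2 j (↑F : Set Edg) ∧ A3v v (2 * r) K (↑F : Set Edg))
        hA1 hA23
      have h2 : Pr (fun _ => (1 / 2 : ℝ)) S (fun F => E3 M B a v F ∧ E3 M B a w F) ≤
          Pr (fun _ => (1 / 2 : ℝ)) S (fun F => A3v v 2 j (↑F : Set Edg) ∧
            (A3v w 2 j (↑F : Set Edg) ∧ A3v v (2 * r) K (↑F : Set Edg))) := by
        apply Pr_mono hok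
        rintro F _ ⟨hF, hF'⟩
        exact ⟨E3_A3v hF le_rfl hj2 (by omega), E3_A3v hF' le_rfl hj2 (by omega),
          E3_A3v hF (by omega) hrK (by omega)⟩
      rw [i1, i2] at h2
      have hq0 : 0 ≤ (((2 * r : ℕ) : ℝ) / K) ^ (2 / 3 : ℝ) := by positivity
      have hjr5 : (r : ℝ) ≤ 5 * j := by
        have : r ≤ 5 * j := by omega
        exact_mod_cast this
      have h4 := num (x := (((2 : ℕ) : ℝ) / j) * ((((2 : ℕ) : ℝ) / j) *
        (((2 * r : ℕ) : ℝ) / K))) hr0 ha0 (by positivity) (by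
          push_cast
          have e1 : (2 : ℝ) / j ≤ 10 / r := by
            rw [div_le_div_iff₀ hj0 hr0]; linarith
          have e2 : (2 * (r : ℝ)) / K ≤ 256 * r / a := by
            rw [div_le_div_iff₀ hK0 ha0]
            nlinarith
          have e3 : (2 : ℝ) / j * (2 / j * (2 * r / K)) ≤ 10 / r * (10 / r * (256 * r / a)) := by
            gcongr
          refine e3.trans ?_
          rw [div_mul_div_comm, div_mul_div_comm, div_le_div_iff₀ (by positivity) (by positivity)]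
          have : 0 ≤ (r : ℝ) * r * a := by positivity
          nlinarith)
      rw [Real.mul_rpow (by positivity) (by positivity),
        Real.mul_rpow (by positivity) (by positivity)] at h4
      refine h2.trans ?_
      have h5 : Pr (fun _ => (1 / 2 : ℝ)) S (fun F => A3v v 2 j (↑F : Set Edg)) *
          (Pr (fun _ => (1 / 2 : ℝ)) S (fun F => A3v w 2 j (↑F : Set Edg)) *
          Pr (fun _ => (1 / 2 : ℝ)) S (fun F => A3v v (2 * r) K (↑F : Set Edg))) ≤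
          (C * (((2 : ℕ) : ℝ) / j) ^ (2 / 3 : ℝ)) * ((C * (((2 : ℕ) : ℝ) / j) ^ (2 / 3 : ℝ)) *
          (C * (((2 * r : ℕ) : ℝ) / K) ^ (2 / 3 : ℝ))) := by
        refine mul_le_mul h1 (mul_le_mul h1' h3 (Pr_nonneg hok _ _) (by positivity))
          (mul_nonneg (Pr_nonneg hok _ _) (Pr_nonneg hok _ _)) (by positivity)
      refine h5.trans ?_
      rw [hRr]
      calc (C * (((2 : ℕ) : ℝ) / j) ^ (2 / 3 : ℝ)) * ((C * (((2 : ℕ) : ℝ) / j) ^ (2 / 3 : ℝ)) *
          (C * (((2 * r : ℕ) : ℝ) / K) ^ (2 / 3 : ℝ)))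
          = C ^ 3 * ((((2 : ℕ) : ℝ) / j) ^ (2 / 3 : ℝ) * ((((2 : ℕ) : ℝ) / j) ^ (2 / 3 : ℝ) *
            (((2 * r : ℕ) : ℝ) / K) ^ (2 / 3 : ℝ))) := by ring
        _ ≤ (1 + C) ^ 3 * (131072 * ((r : ℝ) ^ (-(2 / 3) : ℝ) * (a : ℝ) ^ (-(2 / 3) : ℝ))) := by
          apply mul_le_mul hC3 h4 (by positivity) (by positivity)
        _ = _ := by ring
    · -- two events
      have i1 := Pr_indep (p := fun _ => (1 / 2 : ℝ)) hs1 hs2 hd12
        (A := fun F => A3v v 2 j (↑F : Set Edg))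
        (B := fun F => A3v w 2 j (↑F : Set Edg)) hA1 hA2
      have h2 : Pr (fun _ => (1 / 2 : ℝ)) S (fun F => E3 M B a v F ∧ E3 M B a w F) ≤
          Pr (fun _ => (1 / 2 : ℝ)) S (fun F => A3v v 2 j (↑F : Set Edg) ∧
            A3v w 2 j (↑F : Set Edg)) := by
        apply Pr_mono hok
        rintro F _ ⟨hF, hF'⟩
        exact ⟨E3_A3v hF le_rfl hj2 (by omega), E3_A3v hF' le_rfl hj2 (by omega)⟩
      rw [i1] at h2
      have hraR : (r : ℝ) ≤ 2 * a := by exact_mod_cast hra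
      have hjj : (r : ℝ) * a ≤ 32768 * (j * j) := by
        rcases le_total (r / 3) K with h6 | h6
        · have e1 : r ≤ 5 * j := by omega
          have e2 : a ≤ 256 * r := by omega
          have e3 : (r : ℝ) ≤ 5 * j := by exact_mod_cast e1
          have e4 : (a : ℝ) ≤ 256 * r := by exact_mod_cast e2
          have e5 : (a : ℝ) ≤ 1280 * j := by linarith
          calc (r : ℝ) * a ≤ (5 * j) * (1280 * j) := by gcongr
            _ ≤ _ := by nlinarith
        · have e1 : j = K := by omega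
          rw [e1]
          calc (r : ℝ) * a ≤ (2 * a) * a := by gcongr
            _ ≤ (2 * (128 * K)) * (128 * K) := by gcongr
            _ = _ := by ring
      have h4 := num (x := (((2 : ℕ) : ℝ) / j) * (((2 : ℕ) : ℝ) / j)) hr0 ha0
        (by positivity) (by
          push_cast
          rw [div_mul_div_comm, div_le_div_iff₀ (by positivity) (by positivity)]
          nlinarith)
      rw [Real.mul_rpow (by positivity) (by positivity)] at h4
      refine h2.trans ?_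
      have h5 : Pr (fun _ => (1 / 2 : ℝ)) S (fun F => A3v v 2 j (↑F : Set Edg)) *
          Pr (fun _ => (1 / 2 : ℝ)) S (fun F => A3v w 2 j (↑F : Set Edg)) ≤
          (C * (((2 : ℕ) : ℝ) / j) ^ (2 / 3 : ℝ)) *
            (C * (((2 : ℕ) : ℝ) / j) ^ (2 / 3 : ℝ)) :=
        mul_le_mul h1 h1' (Pr_nonneg hok _ _) (by positivity)
      refine h5.trans ?_
      rw [hRr]
      calc (C * (((2 : ℕ) : ℝ) / j) ^ (2 / 3 : ℝ)) * (C * (((2 : ℕ) : ℝ) / j) ^ (2 / 3 : ℝ))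
          = C ^ 2 * ((((2 : ℕ) : ℝ) / j) ^ (2 / 3 : ℝ) * (((2 : ℕ) : ℝ) / j) ^ (2 / 3 : ℝ)) := by
            ring
        _ ≤ (1 + C) ^ 3 * (131072 * ((r : ℝ) ^ (-(2 / 3) : ℝ) * (a : ℝ) ^ (-(2 / 3) : ℝ))) := by
          apply mul_le_mul hC2 h4 (by positivity) (by positivity)
        _ = _ := by ring

end Pool.Agent.Y989.FR.TWO3
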