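import Pool.Agent.TH990.FU.Ex3
import Pool.Agent.TH990.FU.CovF
import Pool.Agent.W424.KI.Fin
import Pool.Agent.H984R4.NP.Limit

/-!
Boundaries of the components of the complement of the limits of the exploration path: upper bounds.
-/

set_option autoImplicit false

namespace Pool.Agent.Y989.FR.Up

open H974 H973 H12S Finset H389NS H984P H984N H342P H443B
open MeasureTheory Filter Topology Measure Pool.Agent.W92.DP Pool.Agent.W462.DPL
open Pool.Agent.W424.OD Pool.Agent.TH990.FU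
open scoped ENNReal NNReal

/-- the bound for the limit -/
theorem limE (hU : U3) (R : Rect) {δ : ℕ → ℝ} (hδ : ∀ i, 0 < δ i) (hlim : Tendsto δ atTop (𝓝 0))
    {μ : ProbabilityMeasure X} (hμ : Tendsto (fun i => R.law (δ i)) atTop (𝓝 μ)) :
    ∃ C : ℝ, 0 < C ∧ ∀ (z : ℂ) (r d : ℝ), 0 < r → r ≤ d → Metric.ball z d ⊆ R.D →
        (μ : Measure X) ((fun p : X => p.1) ⁻¹' E3U z r (d / 2)) ≤
          ENNReal.ofReal (C * (r / d) ^ (2 / 3 : ℝ)) := by
  obtain ⟨C, hC, δ0, hδ0, hP⟩ := probE hU R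
  refine ⟨C, hC, fun z r d hr hrd hball => ?_⟩
  have hmono : Monotone (fun j : ℕ => (fun p : X => p.1) ⁻¹' Ev3 z r (d / 2) (1 / ((j:ℝ) + 1))) :=
    fun i j hij c hc => Ev3_anti (Nat.one_div_le_one_div hij) hc
  have h : (fun p : X => p.1) ⁻¹' E3U z r (d / 2) =
      ⋃ j : ℕ, (fun p : X => p.1) ⁻¹' Ev3 z r (d / 2) (1 / ((j:ℝ) + 1)) := by
    unfold E3U
    rw [Set.preimage_iUnion]
  rw [h, hmono.measure_iUnion]
  refine iSup_le fun j => ?_
  refine (ProbabilityMeasure.le_liminf_measure_open_of_tendsto hμ (preE_open _ _ _ _)).trans ?_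
  refine liminf_le_of_frequently_le (Eventually.frequently ?_)
  have hpos : 0 < min (min r δ0) (1 / ((j:ℝ) + 1) / 8) :=
    lt_min (lt_min hr hδ0) (by positivity)
  filter_upwards [hlim.eventually (gt_mem_nhds hpos)] with i hi
  have k1 := hi.le.trans ((min_le_left _ _).trans (min_le_left _ _))
  have k2 := hi.le.trans ((min_le_left _ _).trans (min_le_right _ _))
  have k3 := hi.le.trans (min_le_right _ _)
  exact hP z r d (δ i) _ hr hrd hball (hδ i) k1 k2 (by linarith)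

/-- **Accessible points in a fixed set.** -/
theorem acc_fixed (hU : U3) (R : Rect) {δ : ℕ → ℝ} (hδ : ∀ i, 0 < δ i)
    (hlim : Tendsto δ atTop (𝓝 0))
    {μ : ProbabilityMeasure X} (hμ : Tendsto (fun i => R.law (δ i)) atTop (𝓝 μ)) (A : Set ℂ) :
    ∀ᵐ p ∂(μ : Measure X),
      dimH ((⋃ i : ℕ, Acc (1 / ((i:ℝ) + 1)) p.1) ∩ A ∩ R.D) ≤ dimH A - ENNReal.ofReal (2 / 3) ∧
      (μH[2 / 3] A = 0 → (⋃ i : ℕ, Acc (1 / ((i:ℝ) + 1)) p.1) ∩ A ∩ R.D = ∅) := by
  obtain ⟨C, hC, hP⟩ := limE hU R hδ hlim hμ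
  have hO : ∀ z r ρ, IsOpen ((fun p : X => p.1) ⁻¹' E3U z r ρ) := by
    intro z r ρ
    exact (isOpen_iUnion fun j => Ev3_open _ _ _ _).preimage continuous_fst
  refine fixed_dim (E := fun d z r => (fun p : X => p.1) ⁻¹' E3U z r (d / 2))
    (fun d z r => (hO _ _ _).measurableSet)
    (S := fun η p => Acc η p.1) ?_ (Pool.Agent.TH990.FU.D_open R) hC.le (by norm_num)
    (fun z r d hr hrd hb => hP z r d hr hrd hb) A
  intro η d z r w p hdη hrd hw hwz
  exact E3U_of hw hwz (by linarith)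

/-- The limits are not constant. -/
theorem nonconst (R : Rect) {δ : ℕ → ℝ} (hδ : ∀ i, 0 < δ i)
    (hlim : Tendsto δ atTop (𝓝 0))
    {μ : ProbabilityMeasure X} (hμ : Tendsto (fun i => R.law (δ i)) atTop (𝓝 μ)) :
    ∀ᵐ p ∂(μ : Measure X), ∃ s t, p.1 s ≠ p.1 t := by
  filter_upwards [limit_ends R hδ hlim hμ] with p hp
  refine ⟨0, 1, ?_⟩
  rw [hp.1, hp.2]
  intro h
  have h1 := congrArg Complex.im h
  have h2 : R.a.im = R.H := rfl
  rw [h2, Complex.zero_im] at h1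
  exact R.hH.ne' h1

/-- The closure of the domain outside of the domain. -/
theorem bd_dim (R : Rect) : dimH (closure R.D \ R.D) ≤ 1 := by
  have hsub : closure R.D \ R.D ⊆
      (({z : ℂ | z.re = -R.A} ∪ {z : ℂ | z.re = R.B}) ∪ ({z : ℂ | z.im = 0} ∪ {z : ℂ | z.im = R.H})) := by
    rintro z ⟨hz, hz2⟩
    have hcl : closure R.D ⊆ {z : ℂ | -R.A ≤ z.re ∧ z.re ≤ R.B ∧ 0 ≤ z.im ∧ z.im ≤ R.H} := by
      apply closure_minimal
      · rintro w ⟨h1, h2, h3, h4⟩
        exact ⟨h1.le, h2.le, h3.le, h4.le⟩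
      · exact ((isClosed_le continuous_const Complex.continuous_re).inter
          ((isClosed_le Complex.continuous_re continuous_const).inter
          ((isClosed_le continuous_const Complex.continuous_im).inter
          (isClosed_le Complex.continuous_im continuous_const))))
    obtain ⟨h1, h2, h3, h4⟩ := hcl hz
    by_contra hcon
    simp only [Set.mem_union, Set.mem_ofPred_eq, not_or] at hcon
    obtain ⟨⟨c1, c2⟩, c3, c4⟩ := hcon
    exact hz2 ⟨lt_of_le_of_ne h1 (Ne.symm c1), lt_of_le_of_ne h2 c2,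
      lt_of_le_of_ne h3 (Ne.symm c3), lt_of_le_of_ne h4 c4⟩
  have hre : ∀ a : ℝ, dimH {z : ℂ | z.re = a} ≤ 1 := by
    intro a
    have h1 : {z : ℂ | z.re = a} ⊆ Set.range (fun y : ℝ => (⟨a, y⟩ : ℂ)) := by
      intro z hz
      exact ⟨z.im, Complex.ext (Eq.symm hz) rfl⟩
    have hL : LipschitzWith 1 (fun y : ℝ => (⟨a, y⟩ : ℂ)) := by
      refine LipschitzWith.of_dist_le_mul fun x y => ?_
      have e : (⟨a, x⟩ : ℂ) - ⟨a, y⟩ = ((x - y : ℝ) : ℂ) * Complex.I := by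
        apply Complex.ext <;> simp
      rw [dist_eq_norm, e, norm_mul, Complex.norm_I, mul_one, Complex.norm_real,
        NNReal.coe_one, one_mul, Real.dist_eq, Real.norm_eq_abs]
    refine (dimH_mono h1).trans ?_
    refine hL.dimH_range_le.trans ?_
    rw [Real.dimH_univ]
  have him : ∀ a : ℝ, dimH {z : ℂ | z.im = a} ≤ 1 := by
    intro a
    have h1 : {z : ℂ | z.im = a} ⊆ Set.range (fun y : ℝ => (⟨y, a⟩ : ℂ)) := by
      intro z hz
      exact ⟨z.re, Complex.ext rfl (Eq.symm hz)⟩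
    have hL : LipschitzWith 1 (fun y : ℝ => (⟨y, a⟩ : ℂ)) := by
      refine LipschitzWith.of_dist_le_mul fun x y => ?_
      have e : (⟨x, a⟩ : ℂ) - ⟨y, a⟩ = ((x - y : ℝ) : ℂ) := by
        apply Complex.ext <;> simp
      rw [dist_eq_norm, e, Complex.norm_real,
        NNReal.coe_one, one_mul, Real.dist_eq, Real.norm_eq_abs]
    refine (dimH_mono h1).trans ?_
    refine hL.dimH_range_le.trans ?_
    rw [Real.dimH_univ]
  refine (dimH_mono hsub).trans ?_
  rw [dimH_union, dimH_union, dimH_union]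
  exact max_le (max_le (hre _) (hre _)) (max_le (him _) (him _))

theorem univ_dim : dimH (Set.univ : Set ℂ) - ENNReal.ofReal (2 / 3) = 4 / 3 := by
  rw [Real.dimH_univ_eq_finrank, Complex.finrank_real_complex, Nat.cast_ofNat]
  have h : (2 : ℝ≥0∞) = ENNReal.ofReal 2 := by norm_num
  have h43 : (4 / 3 : ℝ≥0∞) = ENNReal.ofReal (4 / 3) := by
    rw [ENNReal.ofReal_div_of_pos (by norm_num)]; norm_num
  rw [h, ← ENNReal.ofReal_sub _ (by norm_num), h43]
  norm_num

/-- **Boundaries of components: upper bounds.** -/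
theorem main (R : Rect) {δ : ℕ → ℝ} (hδ : ∀ i, 0 < δ i) (hlim : Tendsto δ atTop (𝓝 0))
    {μ : ProbabilityMeasure X} (hμ : Tendsto (fun i => R.law (δ i)) atTop (𝓝 μ)) :
    (∀ᵐ p ∂(μ : Measure X),
      dimH (⋃ x : ℂ, frontier (connectedComponentIn (Set.range p.1)ᶜ x)) ≤ 4/3) ∧
    ∀ T : Set ℂ, ∀ᵐ p ∂(μ : Measure X),
      dimH ((⋃ x : ℂ, frontier (connectedComponentIn (Set.range p.1)ᶜ x)) ∩ R.D ∩ T) ≤
          dimH T - 2 / 3 ∧
      (μH[2 / 3] T = 0 →
        (⋃ x : ℂ, frontier (connectedComponentIn (Set.range p.1)ᶜ x)) ∩ R.D ∩ T = ∅) := by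
  have e23 : ENNReal.ofReal (2 / 3) = 2 / 3 := by
    rw [ENNReal.ofReal_div_of_pos (by norm_num)]; norm_num
  have hU := Pool.Agent.W424.KI.u3
  constructor
  · filter_upwards [acc_fixed hU R hδ hlim hμ Set.univ, nonconst R hδ hlim hμ,
      limit_closure R hδ hlim hμ] with p h1 h2 h3
    have h4 : (⋃ x : ℂ, frontier (connectedComponentIn (Set.range p.1)ᶜ x)) ⊆
        ((⋃ i : ℕ, Acc (1 / ((i:ℝ) + 1)) p.1) ∩ Set.univ ∩ R.D) ∪ (closure R.D \ R.D) := by
      intro w hw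
      have h5 := frontiers_acc h2 hw
      by_cases hwS : w ∈ R.D
      · exact Or.inl ⟨⟨h5, Set.mem_univ _⟩, hwS⟩
      · obtain ⟨i, hi⟩ := Set.mem_iUnion.1 h5
        obtain ⟨s, hs⟩ := hi.1
        exact Or.inr ⟨hs ▸ h3 s, hwS⟩
    refine (dimH_mono h4).trans ?_
    rw [dimH_union]
    refine max_le (h1.1.trans (le_of_eq univ_dim)) ((bd_dim R).trans ?_)
    have h43 : (4 / 3 : ℝ≥0∞) = ENNReal.ofReal (4 / 3) := by
      rw [ENNReal.ofReal_div_of_pos (by norm_num)]; norm_num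
    rw [h43, ← ENNReal.ofReal_one]
    exact ENNReal.ofReal_le_ofReal (by norm_num)
  · intro T
    filter_upwards [acc_fixed hU R hδ hlim hμ T, nonconst R hδ hlim hμ] with p h1 h2
    have key : (⋃ x : ℂ, frontier (connectedComponentIn (Set.range p.1)ᶜ x)) ∩ R.D ∩ T ⊆
        (⋃ i : ℕ, Acc (1 / ((i:ℝ) + 1)) p.1) ∩ T ∩ R.D := by
      rintro w ⟨⟨hw1, hw2⟩, hw3⟩
      exact ⟨⟨frontiers_acc h2 hw1, hw3⟩, hw2⟩
    constructor
    · rw [← e23]
      exact (dimH_mono key).trans h1.1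
    · intro hT0
      rw [h1.2 hT0] at key
      exact Set.subset_empty_iff.1 key

end Pool.Agent.Y989.FR.Up
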