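import Pool.Agent.Y989.FR.AllA
import Pool.Agent.Y989.FR.T_ONE3
import Pool.Agent.Y989.FR.T_TWO3
import Pool.Agent.Y989.FR.T_GOOD3
import Pool.Agent.Y989.FR.T_IND3
import Pool.Agent.Y989.FR.T_DET3
import Pool.Agent.Y989.FR.T_QC
import Pool.Agent.Y989.FR.T_GEO
import Pool.Agent.Y989.FR.T_CHN
import Pool.Agent.Y989.FR.T_LG
import Pool.Agent.Y989.FR.T_LIM3
import Pool.Agent.Y989.FR.Up
import Pool.Agent.W808.TA.RSAll

/-!
# Frontiers of the complementary components of the limits of the exploration path: all the steps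
-/

set_option autoImplicit false

namespace Pool.Agent.Y989.FR

open H974 H12S Finset H984P H984N MeasureTheory Filter Topology
open scoped ENNReal

/-- upper bound for three arms -/
theorem a_U3 : S_U3 := Pool.Agent.W424.KI.u3

/-- lower bound for three arms -/
theorem a_L3 : S_L3 := Pool.Agent.W808.TA.RSA.a_LOWB

theorem sd_zero (v : Vtx) : sd v (0, 0) = Pool.Agent.H160R2.ML.nm v := by
  unfold sd Pool.Agent.H160R2.ML.nm
  simp

/-- discrete Jordan theorem -/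
theorem a_JR : S_JR := by
  intro W μ d k hd hdk h
  refine Pool.Agent.W801.RS.t_JOR W μ d k hd hdk ?_
  intro v w hv hw h1 h2 h3 h4
  rw [← sd_zero] at h3 h4
  exact h v w hv hw h1 h2 h3 h4

theorem a_P3' : S_P3 := a_P3 a_JR a_U3 a_L3

theorem a_GOOD3 : S_GOOD3 := GOOD3.t_GOOD3 (ONE3.t_ONE3 a_P3') (TWO3.t_TWO3 a_U3)

/-- **the lower bound for the limits** -/
theorem a_LIM3 : LIM3.S_LIM3' :=
  LIM3.t_LIM3' a_GOOD3 IND3.t_IND3 DET3.t_DET3 QC.t_QC GEO.t_GEO CHN.t_CHN LG.t_LG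

theorem e43 : (4 / 3 : ℝ≥0∞) = ENNReal.ofReal (4 / 3) := by
  rw [ENNReal.ofReal_div_of_pos (by norm_num)]; norm_num

/-- **Boundaries of the complementary components: the dimension.** -/
theorem main (R : Rect) {δ : ℕ → ℝ} (hδ : ∀ i, 0 < δ i) (hlim : Tendsto δ atTop (𝓝 0))
    {μ : ProbabilityMeasure X} (hμ : Tendsto (fun i => R.law (δ i)) atTop (𝓝 μ)) :
    (∀ᵐ p ∂(μ : Measure X),
      dimH (⋃ x : ℂ, frontier (connectedComponentIn (Set.range p.1)ᶜ x)) = 4/3 ∧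
      ∀ ρ : ℝ, 0 < ρ →
        dimH ((⋃ x : ℂ, frontier (connectedComponentIn (Set.range p.1)ᶜ x)) ∩
          (R.D ∩ Metric.ball 0 ρ)) = 4/3) ∧
    ∀ T : Set ℂ, ∀ᵐ p ∂(μ : Measure X),
      dimH ((⋃ x : ℂ, frontier (connectedComponentIn (Set.range p.1)ᶜ x)) ∩ R.D ∩ T) ≤
          dimH T - 2 / 3 ∧
      (Measure.hausdorffMeasure (2 / 3) T = 0 →
        (⋃ x : ℂ, frontier (connectedComponentIn (Set.range p.1)ᶜ x)) ∩ R.D ∩ T = ∅) := by
  obtain ⟨hup, hfix⟩ := Up.main R hδ hlim hμ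
  refine ⟨?_, hfix⟩
  have hlow : ∀ᵐ p ∂(μ : Measure X), ∀ n m : ℕ,
      ENNReal.ofReal (4 / 3 - 1 / ((n : ℝ) + 2)) ≤
        dimH (Fro (Set.range p.1) ∩ (R.D ∩ Metric.ball 0 (1 / ((m : ℝ) + 1)))) := by
    rw [ae_all_iff]
    intro n
    rw [ae_all_iff]
    intro m
    have hn : (0 : ℝ) ≤ n := Nat.cast_nonneg n
    have h1 : 1 / ((n : ℝ) + 2) ≤ 1 / 2 := one_div_le_one_div_of_le (by norm_num) (by linarith)
    have h2 : 0 < 1 / ((n : ℝ) + 2) := by positivity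
    exact a_LIM3 R δ hδ hlim μ hμ (4 / 3 - 1 / ((n : ℝ) + 2)) (by linarith) (by linarith) _
      (by positivity)
  filter_upwards [hup, hlow] with p hp hq
  have key : ∀ ρ : ℝ, 0 < ρ → 4 / 3 ≤ dimH (Fro (Set.range p.1) ∩ (R.D ∩ Metric.ball 0 ρ)) := by
    intro ρ hρ
    obtain ⟨m, hm⟩ := exists_nat_one_div_lt hρ
    have hsub : Fro (Set.range p.1) ∩ (R.D ∩ Metric.ball 0 (1 / ((m : ℝ) + 1))) ⊆
        Fro (Set.range p.1) ∩ (R.D ∩ Metric.ball 0 ρ) :=
      Set.inter_subset_inter_right _ (Set.inter_subset_inter_right _ (Metric.ball_subset_ball hm.le))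
    have h1 : ∀ n : ℕ, ENNReal.ofReal (4 / 3 - 1 / ((n : ℝ) + 2)) ≤
        dimH (Fro (Set.range p.1) ∩ (R.D ∩ Metric.ball 0 ρ)) :=
      fun n => (hq n m).trans (dimH_mono hsub)
    have h2 : Tendsto (fun n : ℕ => ENNReal.ofReal (4 / 3 - 1 / ((n : ℝ) + 2))) atTop
        (𝓝 (ENNReal.ofReal (4 / 3 - 0))) := by
      refine ENNReal.tendsto_ofReal (tendsto_const_nhds.sub ?_)
      have h3 : Tendsto (fun n : ℕ => (n : ℝ) + 2) atTop atTop :=
        tendsto_atTop_add_const_right _ _ tendsto_natCast_atTop_atTop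
      exact (tendsto_const_nhds (x := (1 : ℝ))).div_atTop h3
    rw [sub_zero, ← e43] at h2
    exact le_of_tendsto' h2 h1
  refine ⟨le_antisymm hp ?_, fun ρ hρ => le_antisymm ((dimH_mono Set.inter_subset_left).trans hp)
    (key ρ hρ)⟩
  exact (key 1 one_pos).trans (dimH_mono Set.inter_subset_left)

end Pool.Agent.Y989.FR
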