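import Pool.Agent.Y989.FR.Stm

/-! # FR-ACC: one-point lower bound for the accessibility of the origin -/

set_option autoImplicit false

namespace Pool.Agent.Y989.FR.ACC

open Pool.Agent.Y989.FR H974 H12S Finset H984P H984N

theorem okh : Ok (fun _ : Edg => (1 / 2 : ℝ)) := fun _ => ⟨by norm_num, by norm_num⟩

/-! ### Accessibility of a vertex through a neighbour -/

/-- the cluster of `v` in the box of radius `m` around `v` -/
def clv (m : ℕ) (v : Vtx) (F : Set Edg) : Set Vtx := {x | Reach (F ∩ ↑(blk v m)) v x}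

/-- accessibility of `v` through `y0` -/
def AccV (m : ℕ) (v y0 : Vtx) (F : Set Edg) : Prop :=
  (∃ w ∈ bdB v m, w ∈ clv m v F) ∧ y0 ∉ clv m v F ∧
    ∃ y ∈ bdB v m, Reach {e | e ∈ blk v m ∧ src e ∉ clv m v F ∧ tgt e ∉ clv m v F} y0 y

theorem boxE_eq (m : ℕ) : boxE m = blk (0, 0) m := by
  unfold boxE blk
  simp only [zero_sub, zero_add]

theorem acc_iff (m : ℕ) (F : Set Edg) : AccV m (0, 0) (1, 0) F ↔ Acc m F := by
  unfold AccV Acc clv cl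
  rw [boxE_eq]

theorem accV_local (m : ℕ) (v y0 : Vtx) (F : Finset Edg) :
    AccV m v y0 (↑F : Set Edg) ↔ AccV m v y0 (↑(F ∩ blk v m) : Set Edg) := by
  have h : clv m v (↑(F ∩ blk v m) : Set Edg) = clv m v (↑F : Set Edg) := by
    unfold clv
    have h1 : (↑(F ∩ blk v m) : Set Edg) ∩ ↑(blk v m) = (↑F : Set Edg) ∩ ↑(blk v m) := by
      rw [Finset.coe_inter, Set.inter_assoc, Set.inter_self]
    rw [h1]
  unfold AccV
  rw [h]

/-- symmetries -/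
theorem acc_sym (g : LSym) {m : ℕ} {v v' y y' : Vtx} (hv : g.ψ v = v') (hy : g.ψ y = y')
    (hE : g.mp (blk v m) = blk v' m) (hB : ∀ x ∈ bdB v m, g.ψ x ∈ bdB v' m) {F : Finset Edg}
    (h : AccV m v y ↑F) : AccV m v' y' ↑(g.mp F) := by
  have hC : ∀ x, g.ψ x ∈ clv m v' (↑(g.mp F) : Set Edg) ↔ x ∈ clv m v (↑F : Set Edg) := by
    intro x
    show Reach ((↑(g.mp F) : Set Edg) ∩ ↑(blk v' m)) v' (g.ψ x) ↔
      Reach ((↑F : Set Edg) ∩ ↑(blk v m)) v x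
    rw [← hE, ← hv, LSym.coe_mp, LSym.coe_mp, ← Set.image_inter g.φ.injective, LSym.reach_iff]
  obtain ⟨⟨w, hw, hwC⟩, hyC, z, hz, hzr⟩ := h
  refine ⟨⟨g.ψ w, hB w hw, (hC w).2 hwC⟩, ?_, g.ψ z, hB z hz, ?_⟩
  · rw [← hy]
    exact fun h => hyC ((hC y).1 h)
  · rw [← hy]
    refine (g.reach hzr).mono ?_
    rintro _ ⟨e, ⟨he, h1, h2⟩, rfl⟩
    refine ⟨?_, ?_, ?_⟩
    · rw [← hE, LSym.mem_mp, Equiv.symm_apply_apply]
      exact he
    · rcases g.compat e with ⟨h3, h4⟩ | ⟨h3, h4⟩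
      · rw [h3]; exact fun h => h1 ((hC _).1 h)
      · rw [h3]; exact fun h => h2 ((hC _).1 h)
    · rcases g.compat e with ⟨h3, h4⟩ | ⟨h3, h4⟩
      · rw [h4]; exact fun h => h2 ((hC _).1 h)
      · rw [h4]; exact fun h => h1 ((hC _).1 h)

theorem pr_sym (g : LSym) {m : ℕ} {v v' y y' : Vtx} (hv : g.ψ v = v') (hy : g.ψ y = y')
    (hE : g.mp (blk v m) = blk v' m) (hB : ∀ x ∈ bdB v m, g.ψ x ∈ bdB v' m) :
    PQ (1 / 2) (blk v m) (fun F => AccV m v y ↑F) ≤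
      PQ (1 / 2) (blk v' m) (fun F => AccV m v' y' ↑F) := by
  have h1 : PQ (1 / 2) (blk v' m) (fun F => AccV m v' y' ↑F) =
      Pr (fun _ => (1 / 2 : ℝ)) (blk v m) (fun F => AccV m v' y' ↑(g.mp F)) := by
    rw [← hE]
    exact g.pr (1 / 2) (blk v m) (fun F => AccV m v' y' ↑F)
  rw [h1]
  exact Pr_mono okh fun F _ h => acc_sym g hv hy hE hB h

theorem pr_trl (m : ℕ) (v y : Vtx) :
    PQ (1 / 2) (blk v m) (fun F => AccV m v y ↑F) ≤
      PQ (1 / 2) (blk (0, 0) m) (fun F => AccV m (0, 0) (y.1 - v.1, y.2 - v.2) ↑F) := by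
  obtain ⟨v1, v2⟩ := v
  obtain ⟨y1, y2⟩ := y
  refine pr_sym (trl (-v1) (-v2)) ?_ ?_ ?_ ?_
  · simp
  · simp [sub_eq_add_neg]
  · unfold blk
    rw [trl_RE]
    congr 1 <;> simp <;> ring
  · rintro ⟨x1, x2⟩ h
    simp only [bdB, Set.mem_ofPred_eq, trl_ψ] at h ⊢
    have e1 : x1 + -v1 - 0 = x1 - v1 := by ring
    have e2 : x2 + -v2 - 0 = x2 - v2 := by ring
    rw [e1, e2]
    exact h

theorem pr_rfx (m : ℕ) (a b a' : ℤ) (h : a' = 0 - a) :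
    PQ (1 / 2) (blk (0, 0) m) (fun F => AccV m (0, 0) (a, b) ↑F) ≤
      PQ (1 / 2) (blk (0, 0) m) (fun F => AccV m (0, 0) (a', b) ↑F) := by
  refine pr_sym (rfx 0) ?_ ?_ ?_ ?_
  · simp
  · rw [rfx_ψ, h]
  · unfold blk
    rw [rfx_RE]
    congr 1 <;> ring
  · rintro ⟨x1, x2⟩ h
    simp only [bdB, Set.mem_ofPred_eq, rfx_ψ] at h ⊢
    have e1 : |0 - x1 - 0| = |x1 - 0| := by rw [sub_zero, sub_zero, zero_sub, abs_neg]
    rw [e1]
    exact h

theorem pr_rfy (m : ℕ) (a b b' : ℤ) (h : b' = 0 - b) :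
    PQ (1 / 2) (blk (0, 0) m) (fun F => AccV m (0, 0) (a, b) ↑F) ≤
      PQ (1 / 2) (blk (0, 0) m) (fun F => AccV m (0, 0) (a, b') ↑F) := by
  refine pr_sym (rfy 0) ?_ ?_ ?_ ?_
  · simp
  · rw [rfy_ψ, h]
  · unfold blk
    rw [rfy_RE]
    congr 1 <;> ring
  · rintro ⟨x1, x2⟩ h
    simp only [bdB, Set.mem_ofPred_eq, rfy_ψ] at h ⊢
    have e1 : |0 - x2 - 0| = |x2 - 0| := by rw [sub_zero, sub_zero, zero_sub, abs_neg]
    rw [e1]
    exact h

theorem pr_tps (m : ℕ) (a b : ℤ) :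
    PQ (1 / 2) (blk (0, 0) m) (fun F => AccV m (0, 0) (a, b) ↑F) ≤
      PQ (1 / 2) (blk (0, 0) m) (fun F => AccV m (0, 0) (b, a) ↑F) := by
  refine pr_sym tps ?_ ?_ ?_ ?_
  · simp
  · rw [tps_ψ]
  · unfold blk
    rw [tps_RE]
  · rintro ⟨x1, x2⟩ h
    simp only [bdB, Set.mem_ofPred_eq, tps_ψ] at h ⊢
    exact ⟨h.2.1, h.1, h.2.2.symm⟩

/-- the four directions -/
def dirs : Finset (ℤ × ℤ) := {(1, 0), (-1, 0), (0, 1), (0, -1)}

theorem pr_dir (m : ℕ) (d : ℤ × ℤ) (hd : d ∈ dirs) :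
    PQ (1 / 2) (blk (0, 0) m) (fun F => AccV m (0, 0) d ↑F) ≤
      PQ (1 / 2) (boxE m) (fun F => Acc m ↑F) := by
  have h0 : PQ (1 / 2) (blk (0, 0) m) (fun F => AccV m (0, 0) (1, 0) ↑F) =
      PQ (1 / 2) (boxE m) (fun F => Acc m ↑F) := by
    rw [boxE_eq]
    exact Pr_congr fun F _ => acc_iff m _
  rw [← h0]
  simp only [dirs, Finset.mem_insert, Finset.mem_singleton] at hd
  rcases hd with rfl | rfl | rfl | rfl
  · exact le_rfl
  · exact pr_rfx m (-1) 0 1 (by norm_num)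
  · exact pr_tps m 0 1
  · exact (pr_rfy m 0 (-1) 1 (by norm_num)).trans (pr_tps m 0 1)

/-! ### Deterministic part -/

theorem mem_bd {c : ℤ × ℤ} {s : ℕ} {x : Vtx} : x ∈ bdB c s ↔
    (c.1 - s ≤ x.1 ∧ x.1 ≤ c.1 + s) ∧ (c.2 - s ≤ x.2 ∧ x.2 ≤ c.2 + s) ∧
      (x.1 = c.1 - s ∨ x.1 = c.1 + s ∨ x.2 = c.2 - s ∨ x.2 = c.2 + s) := by
  simp only [bdB, Set.mem_ofPred_eq]
  rcases abs_cases (x.1 - c.1) with ⟨h1, h2⟩ | ⟨h1, h2⟩ <;>
    rcases abs_cases (x.2 - c.2) with ⟨h3, h4⟩ | ⟨h3, h4⟩ <;> rw [h1, h3] <;> omega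

theorem exit_box {G : Set Edg} {v u z : Vtx} {m : ℕ}
    (hu : (v.1 - m ≤ u.1 ∧ u.1 ≤ v.1 + m) ∧ (v.2 - m ≤ u.2 ∧ u.2 ≤ v.2 + m)) (h : Reach G u z)
    (hz : z.1 ≤ v.1 - m ∨ v.1 + m ≤ z.1 ∨ z.2 ≤ v.2 - m ∨ v.2 + m ≤ z.2) :
    ∃ w ∈ bdB v m, Reach (G ∩ ↑(blk v m)) u w := by
  obtain ⟨w, h1, h2, h3⟩ := first_exit (a := v.1 - m) (b := v.1 + m) (c := v.2 - m)
    (d := v.2 + m) hu h hz
  exact ⟨w, mem_bd.2 ⟨h1.1, h1.2, h2⟩, h3⟩

/-- last exit from a set of vertices, for a relation -/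
theorem lastW {R : Vtx → Vtx → Prop} {W : Set Vtx} {u x : Vtx} (hu : u ∈ W)
    (h : Relation.ReflTransGen R u x) :
    x ∈ W ∨ ∃ w p, w ∈ W ∧ p ∉ W ∧ R w p ∧
      Relation.ReflTransGen (fun a b => R a b ∧ a ∉ W ∧ b ∉ W) p x := by
  induction h with
  | refl => exact Or.inl hu
  | @tail b c _ hs ih =>
    by_cases hc : c ∈ W
    · exact Or.inl hc
    right
    by_cases hb : b ∈ W
    · exact ⟨b, c, hb, hc, hs, Relation.ReflTransGen.refl⟩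
    · rcases ih with ih | ⟨w, p, hw, hp, hwp, hr⟩
      · exact absurd ih hb
      · exact ⟨w, p, hw, hp, hwp, Relation.ReflTransGen.tail hr ⟨hs, hb, hc⟩⟩

/-- the edges of the ring of radius one -/
def Rg : Set Edg := {e | src e ∈ bdB (0, 0) 1 ∧ tgt e ∈ bdB (0, 0) 1}

theorem inring (x y : ℤ) (h : -1 ≤ x ∧ x ≤ 1 ∧ -1 ≤ y ∧ y ≤ 1)
    (h' : x = -1 ∨ x = 1 ∨ y = -1 ∨ y = 1) : (x, y) ∈ bdB (0, 0) 1 := by
  rw [mem_bd]
  simp only [Nat.cast_one]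
  omega

theorem stepH (x y x' : ℤ) (hx : x' = x + 1) (h1 : (x, y) ∈ bdB (0, 0) 1)
    (h2 : (x', y) ∈ bdB (0, 0) 1) : Reach Rg (x, y) (x', y) := by
  subst hx
  exact Adj.reach ⟨(x, y, true), ⟨h1, h2⟩, Or.inl ⟨rfl, rfl⟩⟩

theorem stepV (x y y' : ℤ) (hy : y' = y + 1) (h1 : (x, y) ∈ bdB (0, 0) 1)
    (h2 : (x, y') ∈ bdB (0, 0) 1) : Reach Rg (x, y) (x, y') := by
  subst hy
  exact Adj.reach ⟨(x, y, false), ⟨h1, h2⟩, Or.inl ⟨rfl, rfl⟩⟩

theorem ring_reach (u : Vtx) (hu : u ∈ bdB (0, 0) 1) : Reach Rg (1, 0) u := by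
  obtain ⟨u1, u2⟩ := u
  rw [mem_bd] at hu
  simp only [Nat.cast_one] at hu
  have r1 : Reach Rg (1, 0) (1, 1) :=
    stepV 1 0 1 (by norm_num) (inring _ _ (by omega) (by omega)) (inring _ _ (by omega) (by omega))
  have r2 : Reach Rg (1, 1) (0, 1) :=
    (stepH 0 1 1 (by norm_num) (inring _ _ (by omega) (by omega))
      (inring _ _ (by omega) (by omega))).symm
  have r3 : Reach Rg (0, 1) (-1, 1) :=
    (stepH (-1) 1 0 (by norm_num) (inring _ _ (by omega) (by omega))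
      (inring _ _ (by omega) (by omega))).symm
  have r4 : Reach Rg (-1, 1) (-1, 0) :=
    (stepV (-1) 0 1 (by norm_num) (inring _ _ (by omega) (by omega))
      (inring _ _ (by omega) (by omega))).symm
  have r5 : Reach Rg (-1, 0) (-1, -1) :=
    (stepV (-1) (-1) 0 (by norm_num) (inring _ _ (by omega) (by omega))
      (inring _ _ (by omega) (by omega))).symm
  have r6 : Reach Rg (-1, -1) (0, -1) :=
    stepH (-1) (-1) 0 (by norm_num) (inring _ _ (by omega) (by omega))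
      (inring _ _ (by omega) (by omega))
  have r7 : Reach Rg (0, -1) (1, -1) :=
    stepH 0 (-1) 1 (by norm_num) (inring _ _ (by omega) (by omega))
      (inring _ _ (by omega) (by omega))
  have hcases : (u1 = 1 ∧ u2 = 0) ∨ (u1 = 1 ∧ u2 = 1) ∨ (u1 = 0 ∧ u2 = 1) ∨
      (u1 = -1 ∧ u2 = 1) ∨ (u1 = -1 ∧ u2 = 0) ∨ (u1 = -1 ∧ u2 = -1) ∨
      (u1 = 0 ∧ u2 = -1) ∨ (u1 = 1 ∧ u2 = -1) := by omega
  rcases hcases with ⟨h1, h2⟩ | ⟨h1, h2⟩ | ⟨h1, h2⟩ | ⟨h1, h2⟩ | ⟨h1, h2⟩ | ⟨h1, h2⟩ | ⟨h1, h2⟩ |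
    ⟨h1, h2⟩ <;> rw [h1, h2]
  · exact Reach.refl _ _
  · exact r1
  · exact r1.trans r2
  · exact (r1.trans r2).trans r3
  · exact ((r1.trans r2).trans r3).trans r4
  · exact (((r1.trans r2).trans r3).trans r4).trans r5
  · exact ((((r1.trans r2).trans r3).trans r4).trans r5).trans r6
  · exact (((((r1.trans r2).trans r3).trans r4).trans r5).trans r6).trans r7

/-- the two ends of an edge differ by a direction -/
theorem ends_dir {w p : Vtx} {e : Edg} (h : (src e = w ∧ tgt e = p) ∨ (src e = p ∧ tgt e = w)) :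
    (p.1 - w.1, p.2 - w.2) ∈ dirs := by
  obtain ⟨x, y, b⟩ := e
  simp only [dirs, Finset.mem_insert, Finset.mem_singleton, Prod.mk.injEq]
  cases b
  · rcases h with ⟨h1, h2⟩ | ⟨h1, h2⟩
    · rw [← h1, ← h2]; simp
    · rw [← h1, ← h2]; simp
  · rcases h with ⟨h1, h2⟩ | ⟨h1, h2⟩
    · rw [← h1, ← h2]; simp
    · rw [← h1, ← h2]; simp

theorem det {m : ℕ} (hm : 1 ≤ m) {F : Set Edg} (hA : A3v (0, 0) 1 (m + 1) F)
    (hcl : ∀ e ∈ blk (0, 0) 1, e ∉ F) :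
    ∃ v ∈ bdB (0, 0) 1, ∃ y : Vtx, (y.1 - v.1, y.2 - v.2) ∈ dirs ∧ AccV m v y F := by
  obtain ⟨u, hu, ⟨z0, hz0, hz0W⟩, x, hx, y, hy, hxy⟩ := hA
  set W : Set Vtx := Clu (0, 0) 1 (m + 1) F u with hW
  have hWdef : ∀ a : Vtx, a ∈ W ↔ Reach (F ∩ AE (0, 0) 1 (m + 1)) u a := fun a => Iff.rfl
  have hz0' := mem_bd.1 hz0
  have hy' := mem_bd.1 hy
  have hx' := mem_bd.1 hx
  simp only [Nat.cast_add, Nat.cast_one] at hz0' hy' hx'
  have hsub : F ∩ ↑(blk (0, 0) (m + 1)) ⊆ F ∩ AE (0, 0) 1 (m + 1) := by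
    rintro e ⟨h1, h2⟩
    refine ⟨h1, ?_⟩
    show e ∈ (↑(blk (0, 0) (m + 1) \ blk (0, 0) 1) : Set Edg)
    rw [Finset.coe_sdiff]
    exact ⟨h2, fun h3 => hcl e (Finset.mem_coe.1 h3) h1⟩
  have hWst : ∀ a b : Vtx, a ∈ W → Reach (F ∩ ↑(blk (0, 0) (m + 1))) a b → b ∈ W := by
    intro a b ha hab
    exact (hWdef b).2 (((hWdef a).1 ha).trans (hab.mono hsub))
  have huW : u ∈ W := (hWdef u).2 (Reach.refl _ _)
  have hxW : x ∉ W := by
    rcases Relation.ReflTransGen.cases_head hxy with h | ⟨t, ht, -⟩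
    · exfalso
      rw [h] at hx'
      omega
    · obtain ⟨e, ⟨-, h1, h2⟩, h3⟩ := ht
      rcases h3 with ⟨h4, h5⟩ | ⟨h4, h5⟩
      · rw [← h4]; exact h1
      · rw [← h5]; exact h2
  have hring : Reach Rg u x := (ring_reach u hu).symm.trans (ring_reach x hx)
  rcases lastW huW hring with h | ⟨w, p, hw, hp, hwp, hpx⟩
  · exact absurd h hxW
  obtain ⟨e, ⟨he1, he2⟩, he3⟩ := hwp
  have hwb : w ∈ bdB (0, 0) 1 := by
    rcases he3 with ⟨h1, h2⟩ | ⟨h1, h2⟩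
    · rw [← h1]; exact he1
    · rw [← h2]; exact he2
  have hpb : p ∈ bdB (0, 0) 1 := by
    rcases he3 with ⟨h1, h2⟩ | ⟨h1, h2⟩
    · rw [← h2]; exact he2
    · rw [← h1]; exact he1
  have hwb' := mem_bd.1 hwb
  have hpb' := mem_bd.1 hpb
  simp only [Nat.cast_one] at hwb' hpb'
  have hdir := ends_dir he3
  have hdir' := hdir
  simp only [dirs, Finset.mem_insert, Finset.mem_singleton, Prod.mk.injEq] at hdir'
  have hmz : (1 : ℤ) ≤ (m : ℤ) := by exact_mod_cast hm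
  have hblk : blk w m ⊆ blk (0, 0) (m + 1) := by
    unfold blk
    simp only [Nat.cast_add, Nat.cast_one]
    exact RE_subset (by omega) (by omega) (by omega) (by omega)
  have hCW : ∀ a, a ∈ clv m w F → a ∈ W := by
    intro a ha
    have ha' : Reach (F ∩ ↑(blk w m)) w a := ha
    refine hWst w a hw (ha'.mono (Set.inter_subset_inter_right _ ?_))
    exact_mod_cast hblk
  refine ⟨w, hwb, p, hdir, ?_, fun h => hp (hCW p h), ?_⟩
  · have hwz : Reach (F ∩ AE (0, 0) 1 (m + 1)) w z0 :=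
      ((hWdef w).1 hw).symm.trans ((hWdef z0).1 hz0W)
    obtain ⟨w', h1, h2⟩ := exit_box (v := w) (u := w) (m := m) (by omega) hwz (by omega)
    refine ⟨w', h1, ?_⟩
    show Reach (F ∩ ↑(blk w m)) w w'
    refine h2.mono ?_
    rintro e' ⟨⟨h3, -⟩, h4⟩
    exact ⟨h3, h4⟩
  · have g1 : Reach {e | src e ∉ W ∧ tgt e ∉ W} p x := by
      refine Relation.ReflTransGen.mono ?_ _ _ hpx
      rintro a b ⟨⟨e', -, h3⟩, ha, hb⟩
      rcases h3 with ⟨h4, h5⟩ | ⟨h4, h5⟩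
      · exact ⟨e', ⟨by rw [h4]; exact ha, by rw [h5]; exact hb⟩, Or.inl ⟨h4, h5⟩⟩
      · exact ⟨e', ⟨by rw [h4]; exact hb, by rw [h5]; exact ha⟩, Or.inr ⟨h4, h5⟩⟩
    have g2 : Reach {e | src e ∉ W ∧ tgt e ∉ W} p y :=
      g1.trans (hxy.mono (G := {e | src e ∉ W ∧ tgt e ∉ W}) (by
        rintro e' ⟨-, h1, h2⟩
        exact ⟨h1, h2⟩))
    obtain ⟨w', h1, h2⟩ := exit_box (v := w) (u := p) (m := m) (by omega) g2 (by omega)
    refine ⟨w', h1, h2.mono ?_⟩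
    rintro e' ⟨⟨h3, h4⟩, h5⟩
    exact ⟨Finset.mem_coe.1 h5, fun h => h3 (hCW _ h), fun h => h4 (hCW _ h)⟩

/-! ### Probability -/

/-- probability of one configuration -/
theorem pr_eq (T σ : Finset Edg) (hσ : σ ⊆ T) :
    Pr (fun _ => (1 / 2 : ℝ)) T (fun F => F = σ) = (1 / 2 : ℝ) ^ T.card := by
  unfold Pr Ex
  rw [Finset.sum_eq_single σ]
  · simp only [Finset.prod_const, ind_of, mul_one]
    rw [Finset.card_sdiff_of_subset hσ]
    have h := Finset.card_le_card hσ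
    rw [show (1 - 1 / 2 : ℝ) = 1 / 2 by norm_num, ← pow_add]
    congr 1
    omega
  · intro F _ hF
    simp only [ind_not_of hF, mul_zero]
  · intro h
    exact absurd (Finset.mem_powerset.2 hσ) h

theorem a3v_local (c : ℤ × ℤ) (d k : ℕ) (F : Finset Edg) :
    A3v c d k (↑F : Set Edg) ↔ A3v c d k (↑(F ∩ (blk c k \ blk c d)) : Set Edg) := by
  have h : ∀ u, Clu c d k (↑(F ∩ (blk c k \ blk c d)) : Set Edg) u =
      Clu c d k (↑F : Set Edg) u := by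
    intro u
    unfold Clu
    have h1 : (↑(F ∩ (blk c k \ blk c d)) : Set Edg) ∩ AE c d k = (↑F : Set Edg) ∩ AE c d k := by
      unfold AE
      rw [Finset.coe_inter, Set.inter_assoc, Set.inter_self]
    rw [h1]
  unfold A3v
  simp only [h]

theorem card_blk (c : ℤ × ℤ) : (blk c 1).card ≤ 18 := by
  unfold blk RE
  refine (Finset.card_filter_le _ _).trans ?_
  rw [Finset.card_product, Finset.card_product, Int.card_Icc, Int.card_Icc]
  have h1 : (c.1 + (1 : ℕ) + 1 - (c.1 - (1 : ℕ))).toNat = 3 := by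
    have : c.1 + (1 : ℕ) + 1 - (c.1 - (1 : ℕ)) = 3 := by push_cast; ring
    rw [this]; rfl
  have h2 : (c.2 + (1 : ℕ) + 1 - (c.2 - (1 : ℕ))).toNat = 3 := by
    have : c.2 + (1 : ℕ) + 1 - (c.2 - (1 : ℕ)) = 3 := by push_cast; ring
    rw [this]; rfl
  rw [h1, h2]
  simp

theorem pr_closed (U D : Finset Edg) (hD : D ⊆ U) :
    Pr (fun _ => (1 / 2 : ℝ)) U (fun F => ∀ e ∈ D, e ∉ F) = (1 / 2 : ℝ) ^ D.card := by
  rw [Pr_local hD (A := fun F => ∀ e ∈ D, e ∉ F) (fun F _ => ?_)]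
  · rw [← pr_eq D ∅ (Finset.empty_subset _)]
    apply Pr_congr
    intro F hF
    constructor
    · intro h
      rw [Finset.eq_empty_iff_forall_notMem]
      intro e he
      exact h e (hF he) he
    · intro h e _ he
      rw [h] at he
      exact absurd he (Finset.notMem_empty e)
  · constructor
    · intro h e he he2
      exact h e he (Finset.mem_inter.1 he2).1
    · intro h e he he2
      exact h e he (Finset.mem_inter.2 ⟨he2, he⟩)

/-- vertices near the origin, with a direction -/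
noncomputable def JJ : Finset (Vtx × (ℤ × ℤ)) := (Finset.Icc (-1) 1 ×ˢ Finset.Icc (-1) 1) ×ˢ dirs

theorem card_JJ : JJ.card = 36 := by
  unfold JJ
  rw [Finset.card_product, Finset.card_product, Int.card_Icc]
  rfl

theorem num {m : ℕ} (hm : 1 ≤ m) :
    (1 / 2 : ℝ) * (m : ℝ) ^ (-(2 / 3 : ℝ)) ≤ (((1 : ℕ) : ℝ) / ((m + 1 : ℕ) : ℝ)) ^ (2 / 3 : ℝ) := by
  have hmR : (1 : ℝ) ≤ m := by exact_mod_cast hm
  have hm0 : (0 : ℝ) < m := by linarith
  have h1 : (1 / 2 : ℝ) * (1 / m) ≤ ((1 : ℕ) : ℝ) / ((m + 1 : ℕ) : ℝ) := by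
    push_cast
    rw [div_mul_div_comm, div_le_div_iff₀ (by positivity) (by positivity)]
    linarith
  have h2 : ((1 / 2 : ℝ) * (1 / m)) ^ (2 / 3 : ℝ) ≤
      (((1 : ℕ) : ℝ) / ((m + 1 : ℕ) : ℝ)) ^ (2 / 3 : ℝ) :=
    Real.rpow_le_rpow (by positivity) h1 (by norm_num)
  refine le_trans ?_ h2
  rw [Real.mul_rpow (by norm_num) (by positivity), one_div (m : ℝ), Real.inv_rpow hm0.le,
    Real.rpow_neg hm0.le]
  refine mul_le_mul_of_nonneg_right ?_ (by positivity)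
  have h3 := Real.rpow_le_rpow_of_exponent_ge (x := (1 / 2 : ℝ)) (by norm_num) (by norm_num)
    (show (2 / 3 : ℝ) ≤ 1 by norm_num)
  rwa [Real.rpow_one] at h3

theorem t_ACC : S_L3 → S_ACC := by
  rintro ⟨c1, hc1, h1⟩
  refine ⟨c1 * (1 / 2) ^ 18 * (1 / 72), by positivity, ?_⟩
  intro m hm
  set P : ℝ := PQ (1 / 2) (boxE m) (fun F => Acc m ↑F) with hP
  have hsub : blk (0, 0) 1 ⊆ blk (0, 0) (m + 1) := by
    unfold blk
    refine RE_subset ?_ ?_ ?_ ?_ <;> push_cast <;> omega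
  have hA := h1 (0, 0) 1 (m + 1) le_rfl (by omega) (blk (0, 0) (m + 1)) (Finset.Subset.refl _)
  have hind : Pr (fun _ => (1 / 2 : ℝ)) (blk (0, 0) (m + 1))
      (fun F => A3v (0, 0) 1 (m + 1) (↑F : Set Edg) ∧ ∀ e ∈ blk (0, 0) 1, e ∉ F) =
      Pr (fun _ => (1 / 2 : ℝ)) (blk (0, 0) (m + 1))
        (fun F => A3v (0, 0) 1 (m + 1) (↑F : Set Edg)) *
        Pr (fun _ => (1 / 2 : ℝ)) (blk (0, 0) (m + 1)) (fun F => ∀ e ∈ blk (0, 0) 1, e ∉ F) := by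
    apply Pr_indep (S := blk (0, 0) (m + 1) \ blk (0, 0) 1) (T := blk (0, 0) 1)
      Finset.sdiff_subset hsub Finset.sdiff_disjoint
    · intro F _
      exact a3v_local (0, 0) 1 (m + 1) F
    · intro F _
      constructor
      · intro h e he he2
        exact h e he (Finset.mem_inter.1 he2).1
      · intro h e he he2
        exact h e he (Finset.mem_inter.2 ⟨he2, he⟩)
  have hup : Pr (fun _ => (1 / 2 : ℝ)) (blk (0, 0) (m + 1))
      (fun F => A3v (0, 0) 1 (m + 1) (↑F : Set Edg) ∧ ∀ e ∈ blk (0, 0) 1, e ∉ F) ≤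
      Pr (fun _ => (1 / 2 : ℝ)) (blk (0, 0) (m + 1))
        (fun F => ∃ j ∈ JJ, AccV m j.1 (j.1.1 + j.2.1, j.1.2 + j.2.2) ↑F) := by
    refine Pr_mono okh fun F _ h => ?_
    obtain ⟨v, hv, y, hd, hacc⟩ := det hm h.1 (fun e he => fun h' => h.2 e he (Finset.mem_coe.1 h'))
    refine ⟨(v, (y.1 - v.1, y.2 - v.2)), ?_, ?_⟩
    · unfold JJ
      rw [Finset.mem_product, Finset.mem_product, Finset.mem_Icc, Finset.mem_Icc]
      have hv' := mem_bd.1 hv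
      simp only [Nat.cast_one] at hv'
      refine ⟨⟨⟨?_, ?_⟩, ⟨?_, ?_⟩⟩, hd⟩ <;> simp only <;> omega
    · have e1 : ((v.1 + (y.1 - v.1), v.2 + (y.2 - v.2)) : Vtx) = y := by
        ext
        · simp
        · simp
      simp only [e1]
      exact hacc
  have hJ : ∀ j ∈ JJ, Pr (fun _ => (1 / 2 : ℝ)) (blk (0, 0) (m + 1))
      (fun F => AccV m j.1 (j.1.1 + j.2.1, j.1.2 + j.2.2) ↑F) ≤ P := by
    rintro ⟨v, d⟩ hj
    unfold JJ at hj
    rw [Finset.mem_product, Finset.mem_product, Finset.mem_Icc, Finset.mem_Icc] at hj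
    obtain ⟨⟨⟨a1, a2⟩, a3, a4⟩, hd⟩ := hj
    simp only at a1 a2 a3 a4 hd
    have hb : blk v m ⊆ blk (0, 0) (m + 1) := by
      unfold blk
      simp only [Nat.cast_add, Nat.cast_one]
      exact RE_subset (by omega) (by omega) (by omega) (by omega)
    have e0 : Pr (fun _ => (1 / 2 : ℝ)) (blk (0, 0) (m + 1))
        (fun F => AccV m v (v.1 + d.1, v.2 + d.2) ↑F) =
        Pr (fun _ => (1 / 2 : ℝ)) (blk v m) (fun F => AccV m v (v.1 + d.1, v.2 + d.2) ↑F) :=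
      Pr_local hb (A := fun F => AccV m v (v.1 + d.1, v.2 + d.2) ↑F)
        fun F _ => accV_local m v _ F
    show Pr (fun _ => (1 / 2 : ℝ)) (blk (0, 0) (m + 1))
        (fun F => AccV m v (v.1 + d.1, v.2 + d.2) ↑F) ≤ P
    rw [e0]
    refine (pr_trl m v (v.1 + d.1, v.2 + d.2)).trans ?_
    have e1 : (((v.1 + d.1, v.2 + d.2) : Vtx).1 - v.1, ((v.1 + d.1, v.2 + d.2) : Vtx).2 - v.2) = d := by
      ext
      · simp
      · simp
    rw [e1]
    exact pr_dir m d hd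
  have hsum := Pr_exists_le okh (blk (0, 0) (m + 1)) JJ
    (fun j F => AccV m j.1 (j.1.1 + j.2.1, j.1.2 + j.2.2) ↑F)
  have hsum2 := Finset.sum_le_card_nsmul JJ _ P hJ
  rw [card_JJ, nsmul_eq_mul] at hsum2
  rw [hind, pr_closed _ _ hsub] at hup
  have h3 : (1 / 2 : ℝ) ^ 18 ≤ (1 / 2 : ℝ) ^ (blk (0, 0) 1).card :=
    pow_le_pow_of_le_one (by norm_num) (by norm_num) (card_blk (0, 0))
  have h4 := num hm
  have h5 : (c1 * ((1 / 2 : ℝ) * (m : ℝ) ^ (-(2 / 3 : ℝ)))) * (1 / 2) ^ 18 ≤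
      Pr (fun _ => (1 / 2 : ℝ)) (blk (0, 0) (m + 1))
        (fun F => A3v (0, 0) 1 (m + 1) (↑F : Set Edg)) * (1 / 2 : ℝ) ^ (blk (0, 0) 1).card := by
    refine mul_le_mul (le_trans ?_ hA) h3 (by positivity) (Pr_nonneg okh _ _)
    exact mul_le_mul_of_nonneg_left h4 hc1.le
  have h6 := h5.trans (hup.trans (hsum.trans hsum2))
  push_cast at h6
  linarith

end Pool.Agent.Y989.FR.ACC
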