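import Pool.Agent.Y989.FR.Stm

/-!
# Project FR: one-point upper bound for the accessibility of the origin
-/

set_option autoImplicit false

namespace Pool.Agent.Y989.FR.ACU

open Pool.Agent.Y989.FR H974 H12S Finset H984P H984N

theorem ends {a b c d : ℤ} {e : Edg} (he : e ∈ RE a b c d) :
    inR a b c d (src e) ∧ inR a b c d (tgt e) := by
  obtain ⟨x, y, _ | _⟩ := e
  · rw [mem_RE_false] at he
    simp only [src_mk, tgt_false, inR]
    omega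
  · rw [mem_RE_true] at he
    simp only [src_mk, tgt_true, inR]
    omega

/-- The box. -/
def BX (c : ℤ × ℤ) (d : ℕ) (v : Vtx) : Prop := inR (c.1 - d) (c.1 + d) (c.2 - d) (c.2 + d) v

theorem adj_near {G : Set Edg} {u v : Vtx} (h : Adj G u v) :
    (v.1 = u.1 ∧ (v.2 = u.2 + 1 ∨ v.2 = u.2 - 1)) ∨
      (v.2 = u.2 ∧ (v.1 = u.1 + 1 ∨ v.1 = u.1 - 1)) := by
  obtain ⟨⟨x, y, b⟩, _, h⟩ := h
  obtain ⟨u1, u2⟩ := u
  obtain ⟨v1, v2⟩ := v
  cases b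
  · simp only [src_mk, tgt_false, Prod.mk.injEq] at h ⊢
    omega
  · simp only [src_mk, tgt_true, Prod.mk.injEq] at h ⊢
    omega

theorem bd_iff {c : ℤ × ℤ} {d : ℕ} {u : Vtx} : u ∈ bdB c d ↔ BX c d u ∧
    (u.1 = c.1 - d ∨ u.1 = c.1 + d ∨ u.2 = c.2 - d ∨ u.2 = c.2 + d) := by
  have key : ∀ a : ℤ, (|a| ≤ (d : ℤ) ↔ (-(d : ℤ) ≤ a ∧ a ≤ d)) ∧
      (|a| = (d : ℤ) ↔ (a = d ∨ a = -(d : ℤ))) := fun a =>
    ⟨abs_le, abs_eq (Int.natCast_nonneg d)⟩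
  unfold bdB BX inR
  rw [Set.mem_ofPred_eq, (key _).1, (key _).1, (key _).2, (key _).2]
  omega

theorem bd_step {c : ℤ × ℤ} {d : ℕ} {G : Set Edg} {u v : Vtx} (h : Adj G u v)
    (hu : BX c d u) (hv : ¬ BX c d v) : u ∈ bdB c d := by
  have h1 := adj_near h
  rw [bd_iff]
  refine ⟨hu, ?_⟩
  unfold BX inR at hu hv
  omega

theorem adj_reach {G : Set Edg} {u v : Vtx} (h : Adj G u v) : Reach G u v :=
  Relation.ReflTransGen.single h

/-- last exit -/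
theorem lastX {G : Set Edg} {c : ℤ × ℤ} {d : ℕ} {x w : Vtx} (hx : BX c d x) (h : Reach G x w) :
    BX c d w ∨ ∃ u ∈ bdB c d, Reach G x u ∧ Reach (G \ ↑(blk c d)) u w := by
  induction h with
  | refl => exact Or.inl hx
  | @tail w w' hw hs ih =>
    by_cases hw' : BX c d w'
    · exact Or.inl hw'
    right
    have hne : Adj (G \ ↑(blk c d)) w w' := by
      obtain ⟨e, he, hc⟩ := hs
      refine ⟨e, ⟨he, fun hm => hw' ?_⟩, hc⟩
      have h2 := ends (Finset.mem_coe.1 hm)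
      rcases hc with ⟨h3, h4⟩ | ⟨h3, h4⟩
      · rw [← h4]; exact h2.2
      · rw [← h3]; exact h2.1
    by_cases hwB : BX c d w
    · exact ⟨w, bd_step hs hwB hw', hw, adj_reach hne⟩
    · rcases ih with ih | ⟨u, hu, h1, h2⟩
      · exact absurd ih hwB
      · exact ⟨u, hu, h1, h2.trans (adj_reach hne)⟩

theorem box_blk (m : ℕ) : boxE m = blk (0, 0) m := by
  unfold boxE blk
  simp only [zero_sub, zero_add]

/-- last exit of the unit box by a path in the box of radius `m` -/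
theorem lst {G : Set Edg} {m : ℕ} (hm : 1 ≤ m) (hG : G ⊆ ↑(boxE m)) {x w : Vtx}
    (hx : BX (0, 0) 1 x) (hw : w ∈ bdB (0, 0) m) (h : Reach G x w) :
    ∃ u ∈ bdB (0, 0) 1, Reach G x u ∧ Reach (G ∩ AE (0, 0) 1 m) u w := by
  rcases lastX hx h with h1 | ⟨u, hu, h1, h2⟩
  · have hm1 : w ∈ bdB (0, 0) 1 := by
      rw [bd_iff] at hw ⊢
      refine ⟨h1, ?_⟩
      unfold BX inR at h1
      obtain ⟨-, h3⟩ := hw
      simp only at h1 h3 ⊢
      omega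
    exact ⟨w, hm1, h, Reach.refl _ _⟩
  · refine ⟨u, hu, h1, h2.mono ?_⟩
    rintro e ⟨he1, he2⟩
    refine ⟨he1, ?_⟩
    show e ∈ (↑(blk (0, 0) m \ blk (0, 0) 1) : Set Edg)
    rw [Finset.coe_sdiff, ← box_blk m]
    exact ⟨hG he1, he2⟩

theorem AE_sub (m : ℕ) : AE (0, 0) 1 m ⊆ (↑(boxE m) : Set Edg) := by
  unfold AE
  rw [box_blk, Finset.coe_sdiff]
  exact Set.sdiff_subset

theorem acc_A3v {m : ℕ} (hm : 1 ≤ m) {F : Set Edg} (h : Acc m F) : A3v (0, 0) 1 m F := by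
  obtain ⟨⟨w, hw, hwc⟩, hx, y, hy, hr⟩ := h
  have hO : BX (0, 0) 1 (0, 0) := by
    unfold BX inR
    simp only
    omega
  have hO' : BX (0, 0) 1 (1, 0) := by
    unfold BX inR
    simp only
    omega
  obtain ⟨u, hu, h1, h2⟩ := lst hm Set.inter_subset_right hO hw hwc
  have hsub : ∀ t, t ∈ Clu (0, 0) 1 m F u → t ∈ cl m F := by
    intro t ht
    refine Reach.trans h1 (Reach.mono ?_ ht)
    rintro e ⟨he1, he2⟩
    exact ⟨he1, AE_sub m he2⟩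
  obtain ⟨a, ha, -, h4⟩ := lst hm (by rintro e ⟨he, -, -⟩; exact he) hO' hy hr
  refine ⟨u, hu, ⟨w, hw, Reach.mono ?_ h2⟩, a, ha, y, hy, h4.mono ?_⟩
  · rintro e ⟨⟨he1, -⟩, he2⟩
    exact ⟨he1, he2⟩
  · rintro e ⟨⟨-, he1, he2⟩, he3⟩
    exact ⟨he3, fun h => he1 (hsub _ h), fun h => he2 (hsub _ h)⟩

theorem hok : Ok (fun _ : Edg => (1 / 2 : ℝ)) := fun _ => ⟨by norm_num, by norm_num⟩

theorem t_ACU : S_U3 → S_ACU := by
  rintro ⟨C, hC, hU⟩
  refine ⟨C, hC, fun m hm S hS => ?_⟩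
  have h1 := hU (0, 0) 1 m le_rfl hm S (by rw [← box_blk]; exact hS)
  have h2 : PQ (1 / 2) S (fun F => Acc m ↑F) ≤ PQ (1 / 2) S (fun F => A3v (0, 0) 1 m ↑F) :=
    Pr_mono hok fun F _ hF => acc_A3v hm hF
  refine (h2.trans h1).trans (le_of_eq ?_)
  have hm0 : (0 : ℝ) ≤ (m : ℝ) := by positivity
  rw [Nat.cast_one, one_div, Real.inv_rpow hm0, Real.rpow_neg hm0]

end Pool.Agent.Y989.FR.ACU
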