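import Pool.Agent.Y989.FR.Stm

/-!
# DIAG: the potential of two opposite corners of a face
-/

set_option autoImplicit false

namespace Pool.Agent.Y989.FR.DIAG

open Pool.Agent.Y989.FR H974 H12S Finset H984P H984N

/-- The vertices of the cluster are in the box. -/
theorem cl_box {m : ℕ} {F : Set Edg} {x : Vtx} (h : x ∈ cl m F) :
    -(m : ℤ) ≤ x.1 ∧ x.1 ≤ m ∧ -(m : ℤ) ≤ x.2 ∧ x.2 ≤ m := by
  unfold cl at h
  simp only [Set.mem_ofPred_eq] at h
  induction h with
  | refl => simp
  | @tail w w' _ hs _ =>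
    obtain ⟨⟨x0, y0, bo⟩, ⟨_, heR⟩, hcase⟩ := hs
    cases bo
    · have hm : -(m : ℤ) ≤ x0 ∧ x0 ≤ m ∧ -(m : ℤ) ≤ y0 ∧ y0 < m := by simpa [boxE] using heR
      simp only [src_mk, tgt_false] at hcase
      rcases hcase with ⟨_, h4⟩ | ⟨h4, _⟩
      · rw [← h4]; simp only; omega
      · rw [← h4]; simp only; omega
    · have hm : -(m : ℤ) ≤ x0 ∧ x0 < m ∧ -(m : ℤ) ≤ y0 ∧ y0 ≤ m := by simpa [boxE] using heR
      simp only [src_mk, tgt_true] at hcase
      rcases hcase with ⟨_, h4⟩ | ⟨h4, _⟩
      · rw [← h4]; simp only; omega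
      · rw [← h4]; simp only; omega

theorem cl_inter (m : ℕ) (F : Set Edg) : cl m (F ∩ ↑(boxE m)) = cl m F := by
  unfold cl
  rw [Set.inter_assoc, Set.inter_self]

/-- Edges with both ends in the box. -/
theorem mem_box {m : ℕ} (e : Edg) (h1 : -(m : ℤ) ≤ (src e).1 ∧ (src e).1 ≤ m ∧
    -(m : ℤ) ≤ (src e).2 ∧ (src e).2 ≤ m) (h2 : -(m : ℤ) ≤ (tgt e).1 ∧ (tgt e).1 ≤ m ∧
    -(m : ℤ) ≤ (tgt e).2 ∧ (tgt e).2 ≤ m) : e ∈ boxE m := by
  obtain ⟨x, y, bo⟩ := e
  cases bo
  · simp only [src_mk, tgt_false] at h1 h2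
    simp only [boxE, mem_RE_false]; omega
  · simp only [src_mk, tgt_true] at h1 h2
    simp only [boxE, mem_RE_true]; omega

/-- The vertices of the short path between opposite corners. -/
theorem Lp_corner {a b x : Vtx} (h1 : |a.1 - b.1| = 1) (h2 : |a.2 - b.2| = 1) (hx : x ∈ Lp a b) :
    x = a ∨ x = b ∨ x = (b.1, a.2) := by
  obtain ⟨a1, a2⟩ := a
  obtain ⟨b1, b2⟩ := b
  obtain ⟨x1, x2⟩ := x
  simp only [Lp, Set.mem_ofPred_eq] at hx h1 h2
  simp only [Prod.mk.injEq]
  rcases abs_eq (by norm_num : (0 : ℤ) ≤ 1) |>.mp h1 with h3 | h3 <;>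
    rcases abs_eq (by norm_num : (0 : ℤ) ≤ 1) |>.mp h2 with h4 | h4 <;> omega

theorem t_DIAG : S_W1 → S_W2 → S_WKA → S_LX → S_DIAG := by
  intro hW1 hW2 hWKA hLX m F μ a b hm hacc hpot ha hb h1 h2 hda hdb
  obtain ⟨wk1, wk2, wk3, wk4, wk5⟩ := hWKA
  obtain ⟨lx1, -, -, -⟩ := hLX
  have hLW := lx1 a b
  by_cases hc : ((b.1, a.2) : Vtx) ∈ cl m F
  · have hsub : Inn2 (Lp a b) ⊆ Inn2 (cl m F) := by
      have hL : ∀ x ∈ Lp a b, x ∈ cl m F := by
        intro x hx
        rcases Lp_corner h1 h2 hx with h | h | h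
        · rw [h]; exact ha
        · rw [h]; exact hb
        · rw [h]; exact hc
      rintro e ⟨he1, he2⟩
      exact ⟨hL _ he1, hL _ he2⟩
    exact hpot _ _ _ (wk3 _ _ _ _ _ hsub hLW)
  · -- the walk in the cluster
    have hr : Reach (F ∩ ↑(boxE m)) a b := (Reach.symm ha).trans hb
    obtain ⟨φ, hφ⟩ := wk4 _ _ _ hr
    have ha' : a ∈ cl m (F ∩ ↑(boxE m)) := by rw [cl_inter]; exact ha
    obtain ⟨-, hφ2⟩ := wk5 m _ a b φ Set.inter_subset_right ha' hφ
    rw [cl_inter] at hφ2
    have hmu : μ b - μ a = φ (0, 0) := hpot _ _ _ (wk3 _ _ _ _ _ Set.inter_subset_right hφ2)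
    set G : Set Edg := ((F ∩ ↑(boxE m)) ∩ Inn2 (cl m F)) ∪ Inn2 (Lp a b) with hG
    set N : Vtx → ℤ := fun f => φ f + - lx f a b with hN
    have hcl : Wk G a a N :=
      wk1 _ _ _ _ _ _ (wk3 _ _ _ _ _ Set.subset_union_left hφ2)
        (wk3 _ _ _ _ _ Set.subset_union_right (wk2 _ _ _ _ hLW))
    have hab := cl_box ha
    have hbb := cl_box hb
    have hout : ∀ f, ¬ InF m f → N f = 0 := by
      intro f hf
      refine hW2 m G a N f hcl ?_ hf
      rintro e (⟨⟨-, he⟩, -⟩ | ⟨he1, he2⟩)
      · exact he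
      · have hL : ∀ x ∈ Lp a b, -(m : ℤ) ≤ x.1 ∧ x.1 ≤ m ∧ -(m : ℤ) ≤ x.2 ∧ x.2 ≤ m := by
          intro x hx
          rcases Lp_corner h1 h2 hx with h | h | h
          · rw [h]; exact hab
          · rw [h]; exact hbb
          · rw [h]; exact ⟨hbb.1, hbb.2.1, hab.2.2⟩
        exact mem_box e (hL _ he1) (hL _ he2)
    have hedge : ∀ e, e ∉ G → N (dsrc e) = N (dtgt e) := by
      intro e he
      have := hW1 G a a N e hcl he
      omega
    obtain ⟨-, h10, y, hy, hreach⟩ := hacc
    -- edges at a vertex outside of the cluster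
    have hnG : ∀ e : Edg, ∀ x : Vtx, (src e = x ∨ tgt e = x) → x ∉ cl m F →
        (x = (b.1, a.2) → ¬ ((src e = x ∧ tgt e = a) ∨ (src e = x ∧ tgt e = b) ∨
          (tgt e = x ∧ src e = a) ∨ (tgt e = x ∧ src e = b))) → e ∉ G := by
      rintro e x hx hxC hxc (⟨-, he1, he2⟩ | ⟨he1, he2⟩)
      · rcases hx with hx | hx
        · exact hxC (hx ▸ he1)
        · exact hxC (hx ▸ he2)
      · have hne : src e ≠ tgt e := by
          obtain ⟨x0, y0, bo⟩ := e
          cases bo <;> simp [Prod.ext_iff]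
        have hxa : x ≠ a := fun h => hxC (h ▸ ha)
        have hxb : x ≠ b := fun h => hxC (h ▸ hb)
        rcases Lp_corner h1 h2 he1 with h3 | h3 | h3 <;>
          rcases Lp_corner h1 h2 he2 with h4 | h4 | h4 <;> rcases hx with hx | hx
        · exact hxa (hx ▸ h3)
        · exact hxa (hx ▸ h4)
        · exact hxa (hx ▸ h3)
        · exact hxb (hx ▸ h4)
        · exact hxa (hx ▸ h3)
        · exact hxc (hx ▸ h4) (Or.inr (Or.inr (Or.inl ⟨hx, h3⟩)))
        · exact hxb (hx ▸ h3)
        · exact hxa (hx ▸ h4)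
        · exact hxb (hx ▸ h3)
        · exact hxb (hx ▸ h4)
        · exact hxb (hx ▸ h3)
        · exact hxc (hx ▸ h4) (Or.inr (Or.inr (Or.inr ⟨hx, h3⟩)))
        · exact hxc (hx ▸ h3) (Or.inl ⟨hx, h4⟩)
        · exact hxa (hx ▸ h4)
        · exact hxc (hx ▸ h3) (Or.inr (Or.inl ⟨hx, h4⟩))
        · exact hxb (hx ▸ h4)
        · exact hne (h3.trans h4.symm)
        · exact hne (h3.trans h4.symm)
    -- the faces around a vertex
    have hloc : ∀ x : Vtx, x ∉ cl m F → ∀ f f' : Vtx,
        (f.1 = x.1 ∨ f.1 = x.1 - 1) → (f.2 = x.2 ∨ f.2 = x.2 - 1) →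
        (f'.1 = x.1 ∨ f'.1 = x.1 - 1) → (f'.2 = x.2 ∨ f'.2 = x.2 - 1) →
        (x = (b.1, a.2) → f ≠ (min a.1 b.1, min a.2 b.2) ∧ f' ≠ (min a.1 b.1, min a.2 b.2)) →
        N f = N f' := by
      rintro ⟨x1, x2⟩ hxC ⟨f1, f2⟩ ⟨g1, g2⟩ hf1 hf2 hg1 hg2 hxc
      obtain ⟨a1, a2⟩ := a
      obtain ⟨b1, b2⟩ := b
      simp only at hf1 hf2 hg1 hg2 h1 h2 hnG hxc
      have hR : (((x1, x2) : Vtx) = (b1, a2) → a1 = b1 - 1) →
          N (x1, x2 - 1) = N (x1, x2) := by
        intro h
        have := hedge (x1, x2, true) (hnG _ (x1, x2) (Or.inl rfl) hxC (by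
          intro h3
          have h4 := h h3
          simp only [src_mk, tgt_true, Prod.mk.injEq] at h3 ⊢
          omega))
        simpa using this
      have hL : (((x1, x2) : Vtx) = (b1, a2) → a1 = b1 + 1) →
          N (x1 - 1, x2 - 1) = N (x1 - 1, x2) := by
        intro h
        have := hedge (x1 - 1, x2, true) (hnG _ (x1, x2) (Or.inr (by simp)) hxC (by
          intro h3
          have h4 := h h3
          simp only [src_mk, tgt_true, Prod.mk.injEq] at h3 ⊢
          omega))
        simpa using this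
      have hU : (((x1, x2) : Vtx) = (b1, a2) → b2 = a2 - 1) →
          N (x1 - 1, x2) = N (x1, x2) := by
        intro h
        have := hedge (x1, x2, false) (hnG _ (x1, x2) (Or.inl rfl) hxC (by
          intro h3
          have h4 := h h3
          simp only [src_mk, tgt_false, Prod.mk.injEq] at h3 ⊢
          omega))
        simpa using this
      have hD : (((x1, x2) : Vtx) = (b1, a2) → b2 = a2 + 1) →
          N (x1 - 1, x2 - 1) = N (x1, x2 - 1) := by
        intro h
        have := hedge (x1, x2 - 1, false) (hnG _ (x1, x2) (Or.inr (by simp)) hxC (by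
          intro h3
          have h4 := h h3
          simp only [src_mk, tgt_false, Prod.mk.injEq] at h3 ⊢
          omega))
        simpa using this
      by_cases hx : ((x1, x2) : Vtx) = (b1, a2)
      · obtain ⟨hx1, hx2⟩ := hxc hx
        have hx' := hx
        simp only [Prod.mk.injEq] at hx'
        obtain ⟨hb1, ha2⟩ := hx'
        rcases abs_eq (by norm_num : (0 : ℤ) ≤ 1) |>.mp h1 with h3 | h3 <;>
          rcases abs_eq (by norm_num : (0 : ℤ) ≤ 1) |>.mp h2 with h4 | h4
        · have e1 := hL (fun _ => by omega)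
          have e2 := hU (fun _ => by omega)
          have e3 : min a1 b1 = x1 := by omega
          have e4 : min a2 b2 = x2 - 1 := by omega
          rw [e3, e4] at hx1 hx2
          rcases hf1 with rfl | rfl <;> rcases hf2 with rfl | rfl <;>
            rcases hg1 with rfl | rfl <;> rcases hg2 with rfl | rfl <;>
            first | rfl | exact absurd rfl hx1 | exact absurd rfl hx2 | omega
        · have e1 := hL (fun _ => by omega)
          have e2 := hD (fun _ => by omega)
          have e3 : min a1 b1 = x1 := by omega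
          have e4 : min a2 b2 = x2 := by omega
          rw [e3, e4] at hx1 hx2
          rcases hf1 with rfl | rfl <;> rcases hf2 with rfl | rfl <;>
            rcases hg1 with rfl | rfl <;> rcases hg2 with rfl | rfl <;>
            first | rfl | exact absurd rfl hx1 | exact absurd rfl hx2 | omega
        · have e1 := hR (fun _ => by omega)
          have e2 := hU (fun _ => by omega)
          have e3 : min a1 b1 = x1 - 1 := by omega
          have e4 : min a2 b2 = x2 - 1 := by omega
          rw [e3, e4] at hx1 hx2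
          rcases hf1 with rfl | rfl <;> rcases hf2 with rfl | rfl <;>
            rcases hg1 with rfl | rfl <;> rcases hg2 with rfl | rfl <;>
            first | rfl | exact absurd rfl hx1 | exact absurd rfl hx2 | omega
        · have e1 := hR (fun _ => by omega)
          have e2 := hD (fun _ => by omega)
          have e3 : min a1 b1 = x1 - 1 := by omega
          have e4 : min a2 b2 = x2 := by omega
          rw [e3, e4] at hx1 hx2
          rcases hf1 with rfl | rfl <;> rcases hf2 with rfl | rfl <;>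
            rcases hg1 with rfl | rfl <;> rcases hg2 with rfl | rfl <;>
            first | rfl | exact absurd rfl hx1 | exact absurd rfl hx2 | omega
      · have e1 := hR (fun h => absurd h hx)
        have e2 := hL (fun h => absurd h hx)
        have e3 := hU (fun h => absurd h hx)
        have e4 := hD (fun h => absurd h hx)
        rcases hf1 with rfl | rfl <;> rcases hf2 with rfl | rfl <;>
          rcases hg1 with rfl | rfl <;> rcases hg2 with rfl | rfl <;>
          first | rfl | omega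
    have key : ∀ x : Vtx, Reach {e | e ∈ boxE m ∧ src e ∉ cl m F ∧ tgt e ∉ cl m F} (1, 0) x →
        x ∉ cl m F ∧ ∀ f : Vtx, (f.1 = x.1 ∨ f.1 = x.1 - 1) → (f.2 = x.2 ∨ f.2 = x.2 - 1) →
          (x = (b.1, a.2) → f ≠ (min a.1 b.1, min a.2 b.2)) → N f = N (0, 0) := by
      intro x hx
      induction hx with
      | refl =>
        refine ⟨h10, fun f hf1 hf2 hfc => ?_⟩
        have hcc : ((1, 0) : Vtx) ≠ (b.1, a.2) := by
          intro h
          simp only [Prod.mk.injEq] at h
          unfold sd at hdb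
          rw [← h.2] at h2
          rw [← h.1] at hdb
          rcases abs_eq (by norm_num : (0 : ℤ) ≤ 1) |>.mp h2 with h4 | h4
          · have h5 : b.2 = -1 := by omega
            rw [h5] at hdb; norm_num at hdb
          · have h5 : b.2 = 1 := by omega
            rw [h5] at hdb; norm_num at hdb
        exact hloc (1, 0) h10 f (0, 0) hf1 hf2 (by simp) (by simp) (fun h => absurd h hcc)
      | @tail w w' _ hs ih =>
        obtain ⟨ihC, ihN⟩ := ih
        obtain ⟨e, ⟨-, he1, he2⟩, hcase⟩ := hs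
        have hw' : w' ∉ cl m F := by
          rcases hcase with ⟨_, h4⟩ | ⟨h4, _⟩
          · rw [← h4]; exact he2
          · rw [← h4]; exact he1
        refine ⟨hw', fun f hf1 hf2 hfc => ?_⟩
        -- the face `dtgt e` is around both ends
        have hg : (w = (b.1, a.2) ∨ w' = (b.1, a.2)) →
            dtgt e ≠ (min a.1 b.1, min a.2 b.2) := by
          intro hor hd
          have hca : ∀ v : Vtx, v ∉ cl m F → v ≠ a ∧ v ≠ b := fun v hv =>
            ⟨fun h => hv (h ▸ ha), fun h => hv (h ▸ hb)⟩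
          obtain ⟨n1, n2⟩ := hca _ he1
          obtain ⟨n3, n4⟩ := hca _ he2
          have hor' : src e = (b.1, a.2) ∨ tgt e = (b.1, a.2) := by
            rcases hcase with ⟨h3, h4⟩ | ⟨h3, h4⟩ <;> rw [h3, h4]
            · exact hor
            · exact hor.symm
          obtain ⟨x0, y0, bo⟩ := e
          obtain ⟨a1, a2⟩ := a
          obtain ⟨b1, b2⟩ := b
          simp only at h1 h2
          rcases abs_eq (by norm_num : (0 : ℤ) ≤ 1) |>.mp h1 with h3 | h3 <;>
            rcases abs_eq (by norm_num : (0 : ℤ) ≤ 1) |>.mp h2 with h4 | h4 <;>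
            cases bo <;> simp only [src_mk, tgt_true, tgt_false, dtgt_mk, Prod.mk.injEq, ne_eq]
              at hd n1 n2 n3 n4 hor' <;> omega
        have e1 : N (dtgt e) = N (0, 0) := by
          apply ihN
          · obtain ⟨x0, y0, bo⟩ := e
            rcases hcase with ⟨h3, h4⟩ | ⟨h3, h4⟩ <;> cases bo <;>
              simp only [src_mk, tgt_true, tgt_false] at h3 h4 <;> (first | rw [← h3] | skip) <;>
              (first | rw [← h4] | skip) <;> simp
          · obtain ⟨x0, y0, bo⟩ := e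
            rcases hcase with ⟨h3, h4⟩ | ⟨h3, h4⟩ <;> cases bo <;>
              simp only [src_mk, tgt_true, tgt_false] at h3 h4 <;> (first | rw [← h3] | skip) <;>
              (first | rw [← h4] | skip) <;> simp
          · intro h; exact hg (Or.inl h)
        rw [← e1]
        apply hloc w' hw' f (dtgt e) hf1 hf2
        · obtain ⟨x0, y0, bo⟩ := e
          rcases hcase with ⟨h3, h4⟩ | ⟨h3, h4⟩ <;> cases bo <;>
            simp only [src_mk, tgt_true, tgt_false] at h3 h4 <;> (first | rw [← h3] | skip) <;>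
            (first | rw [← h4] | skip) <;> simp
        · obtain ⟨x0, y0, bo⟩ := e
          rcases hcase with ⟨h3, h4⟩ | ⟨h3, h4⟩ <;> cases bo <;>
            simp only [src_mk, tgt_true, tgt_false] at h3 h4 <;> (first | rw [← h3] | skip) <;>
            (first | rw [← h4] | skip) <;> simp
        · intro h; exact ⟨hfc h, hg (Or.inr h)⟩
    obtain ⟨hyC, hyN⟩ := key y hreach
    -- the outer face at the end
    have hfin : ∃ f : Vtx, (f.1 = y.1 ∨ f.1 = y.1 - 1) ∧ (f.2 = y.2 ∨ f.2 = y.2 - 1) ∧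
        ¬ InF m f := by
      obtain ⟨y1, y2⟩ := y
      simp only [bdB, Set.mem_ofPred_eq, sub_zero] at hy
      obtain ⟨-, -, hy | hy⟩ := hy
      · rcases abs_eq (by positivity : (0 : ℤ) ≤ m) |>.mp hy with h3 | h3
        · exact ⟨(y1, y2), Or.inl rfl, Or.inl rfl, fun h => by
            have := h.1.2; simp only at this; omega⟩
        · exact ⟨(y1 - 1, y2), Or.inr rfl, Or.inl rfl, fun h => by
            have := h.1.1; simp only at this; omega⟩
      · rcases abs_eq (by positivity : (0 : ℤ) ≤ m) |>.mp hy with h3 | h3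
        · exact ⟨(y1, y2), Or.inl rfl, Or.inl rfl, fun h => by
            have := h.2.2; simp only at this; omega⟩
        · exact ⟨(y1, y2 - 1), Or.inl rfl, Or.inr rfl, fun h => by
            have := h.2.1; simp only at this; omega⟩
    obtain ⟨f, hf1, hf2, hfo⟩ := hfin
    have hfg : f ≠ (min a.1 b.1, min a.2 b.2) := by
      rintro rfl
      apply hfo
      rcases abs_eq (by norm_num : (0 : ℤ) ≤ 1) |>.mp h1 with h3 | h3 <;>
        rcases abs_eq (by norm_num : (0 : ℤ) ≤ 1) |>.mp h2 with h4 | h4 <;>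
        refine ⟨⟨?_, ?_⟩, ?_, ?_⟩ <;> simp only <;> omega
    have e1 := hyN f hf1 hf2 (fun _ => hfg)
    rw [hout f hfo] at e1
    have e2 : N (0, 0) = φ (0, 0) + - lx (0, 0) a b := rfl
    rw [hmu]
    omega

end Pool.Agent.Y989.FR.DIAG
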