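import Pool.Agent.Y989.FR.Stm
import Pool.Agent.H984R3.Per.Basic

/-!
# FR: fresh dual path after the first gate time
-/

set_option autoImplicit false

namespace Pool.Agent.Y989.FR.DK

open Pool.Agent.Y989.FR H974 H12S Finset H984P H984N

theorem fst_end (σ : St) : src (ae σ) = σ.1 ∨ tgt (ae σ) = σ.1 := by
  rcases p2_ends σ with h | h
  · exact Or.inl h.1
  · exact Or.inr h.2

/-- The face and the vertex of a state are near each other. -/
theorem face_near (σ : St) : (face σ).1 ≤ σ.1.1 ∧ σ.1.1 ≤ (face σ).1 + 1 ∧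
    (face σ).2 ≤ σ.1.2 ∧ σ.1.2 ≤ (face σ).2 + 1 := by
  obtain ⟨⟨x, y⟩, k⟩ := σ
  cases k <;> simp

/-- The face and the examined edge of a state are near each other. -/
theorem edge_near (σ : St) : (face σ).1 ≤ (ae σ).1 ∧ (ae σ).1 ≤ (face σ).1 + 1 ∧
    (face σ).2 ≤ (ae σ).2.1 ∧ (ae σ).2.1 ≤ (face σ).2 + 1 := by
  obtain ⟨⟨x, y⟩, k⟩ := σ
  cases k <;> simp

theorem boxE_bd {n : ℕ} {e : Edg} (h : e ∈ boxE n) :
    (-(n : ℤ) ≤ e.1 ∧ e.1 ≤ n) ∧ (-(n : ℤ) ≤ e.2.1 ∧ e.2.1 ≤ n) := by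
  unfold boxE RE at h
  simp only [mem_filter, mem_product, mem_Icc] at h
  exact ⟨h.1.1, h.1.2.1⟩

theorem t_DK : S_K1 → S_K2 → S_RUN → S_DK := by
  classical
  intro hK1 hK2 hRUN m u w F ρ t0 T τ hF hw hwu hum hacc hrun ht0 hτT hg hfirst
  have hm : 1 ≤ m := by omega
  obtain ⟨-, -, hR3, hR4⟩ := hRUN m F ρ t0 T hF hm hrun
  obtain ⟨N, hN1, hN2, hN3⟩ := hK2 m u w F ρ t0 T τ hF hw hwu hum hacc hrun ht0 hτT hg hfirst
  obtain ⟨z, hz⟩ : ∃ z, z = (orb (↑F : Set Edg) ρ τ).1 := ⟨_, rfl⟩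
  rw [← hz] at hN2 ⊢
  -- the position of `z`
  have hzO : (u : ℤ) ≤ sd z (0, 0) ∧ sd z (0, 0) ≤ (8 * u : ℕ) := by
    obtain ⟨s, -, -, hfr, -⟩ := hg
    rw [← hz] at hfr
    exact hfr z ⟨min_le_right _ _, le_max_right _ _⟩ ⟨min_le_right _ _, le_max_right _ _⟩
  unfold sd at hzO
  simp only [sub_zero, Nat.cast_mul, Nat.cast_ofNat] at hzO
  obtain ⟨hzlo, hzhi⟩ := hzO
  rw [le_max_iff] at hzlo
  rw [max_le_iff, abs_le, abs_le] at hzhi
  obtain ⟨⟨hz1, hz2⟩, hz3, hz4⟩ := hzhi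
  have hzlo' : (z.1 ≤ -(u : ℤ) ∨ (u : ℤ) ≤ z.1) ∨ (z.2 ≤ -(u : ℤ) ∨ (u : ℤ) ≤ z.2) := by
    rcases hzlo with h | h
    · left
      rcases le_abs.1 h with h | h
      · right; exact h
      · left; linarith
    · right
      rcases le_abs.1 h with h | h
      · right; exact h
      · left; linarith
  have hwu' : 16 * (w : ℤ) + 16 ≤ u := by exact_mod_cast hwu
  have hum' : 16 * (u : ℤ) ≤ m := by exact_mod_cast hum
  have hw' : (1 : ℤ) ≤ w := by exact_mod_cast hw
  obtain ⟨fc, hfc⟩ : ∃ fc : ℕ → Vtx, fc = fun t => face (orb (↑F : Set Edg) ρ t) := ⟨_, rfl⟩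
  obtain ⟨Bx, hBx⟩ : ∃ Bx : Vtx → Prop, Bx = fun f =>
    (z.1 - (2 * w + 2) ≤ f.1 ∧ f.1 ≤ z.1 + (2 * w + 2)) ∧
      (z.2 - (2 * w + 2) ≤ f.2 ∧ f.2 ≤ z.2 + (2 * w + 2)) := ⟨_, rfl⟩
  have hBτ : Bx (fc τ) := by
    have h1 := face_near (orb (↑F : Set Edg) ρ τ)
    rw [← hz] at h1
    rw [hBx, hfc]
    simp only
    constructor <;> constructor <;> linarith [h1.1, h1.2.1, h1.2.2.1, h1.2.2.2]
  -- the exterior of the box
  have hTout : ¬ InF m (fc T) := by
    rw [hfc]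
    exact hrun.outT
  have hTout' : ((fc T).1 < -(m : ℤ) ∨ (m : ℤ) ≤ (fc T).1) ∨
      ((fc T).2 < -(m : ℤ) ∨ (m : ℤ) ≤ (fc T).2) := by
    by_contra hcon
    push Not at hcon
    exact hTout ⟨⟨hcon.1.1, hcon.1.2⟩, ⟨hcon.2.1, hcon.2.2⟩⟩
  have hBT : ¬ Bx (fc T) := by
    rw [hBx]
    rintro ⟨⟨h1, h2⟩, h3, h4⟩
    rcases hTout' with (h | h) | (h | h) <;> linarith
  -- the last time in the small box
  obtain ⟨lam, hlam⟩ : ∃ lam, lam = Nat.findGreatest (fun t => τ ≤ t ∧ Bx (fc t)) T := ⟨_, rfl⟩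
  have hlamP : τ ≤ lam ∧ Bx (fc lam) := by
    rw [hlam]
    exact Nat.findGreatest_spec (P := fun t => τ ≤ t ∧ Bx (fc t)) hτT.le ⟨le_rfl, hBτ⟩
  have hlamT : lam ≤ T := by
    rw [hlam]
    exact Nat.findGreatest_le T
  have hlamN : ∀ t, lam < t → t ≤ T → ¬ Bx (fc t) := by
    intro t h1 h2 h3
    rw [hlam] at h1
    exact Nat.findGreatest_is_greatest h1 h2 ⟨by rw [← hlam] at h1; omega, h3⟩
  have hlamlt : lam < T := by
    rcases lt_or_eq_of_le hlamT with h | h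
    · exact h
    · exfalso
      apply hBT
      rw [← h]
      exact hlamP.2
  -- the potential does not change after `lam`
  have hstep : ∀ t, lam ≤ t → t < T → N (fc t) = N (fc (t + 1)) := by
    intro t h1 h2
    have hout := hlamN (t + 1) (by omega) (by omega)
    rw [hfc] at hout ⊢
    simp only at hout ⊢
    rw [orb_succ] at hout ⊢
    by_cases hop : ae (orb (↑F : Set Edg) ρ t) ∈ (↑F : Set Edg)
    · rw [nxt_open hop, p2_face_mv]
    · rw [nxt_closed hop] at hout ⊢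
      have h3 := face_near (rt (orb (↑F : Set Edg) ρ t))
      rw [p2_rt_fst] at h3
      have hsd : (w : ℤ) < sd (orb (↑F : Set Edg) ρ t).1 z := by
        by_contra hcon
        rw [not_lt] at hcon
        unfold sd at hcon
        rw [max_le_iff, abs_le, abs_le] at hcon
        apply hout
        rw [hBx]
        constructor <;> constructor <;>
          linarith [h3.1, h3.2.1, h3.2.2.1, h3.2.2.2, hcon.1.1, hcon.1.2, hcon.2.1, hcon.2.2]
      have h4 : N (dsrc (ae (orb (↑F : Set Edg) ρ t))) = N (dtgt (ae (orb (↑F : Set Edg) ρ t))) := by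
        apply hN2 _ (fun h => hop (by exact_mod_cast h))
        rcases fst_end (orb (↑F : Set Edg) ρ t) with h | h
        · left; rw [h]; exact hsd
        · right; rw [h]; exact hsd
      rcases p2_dends (orb (↑F : Set Edg) ρ t) with ⟨g1, g2⟩ | ⟨g1, g2⟩
      · rw [g1, g2] at h4
        exact h4
      · rw [g1, g2] at h4
        exact h4.symm
  have hzero : ∀ s, ∀ t, lam ≤ t → t + s = T → N (fc t) = 0 := by
    intro s
    induction s with
    | zero =>
      intro t _ h2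
      rw [show t = T by omega]
      exact hN3 _ hTout
    | succ s ih =>
      intro t h1 h2
      rw [hstep t h1 (by omega)]
      exact ih (t + 1) (by omega) (by omega)
  have hzero' : ∀ t, lam ≤ t → t ≤ T → N (fc t) = 0 := fun t h1 h2 =>
    hzero (T - t) t h1 (by omega)
  -- the first time far from `z`
  obtain ⟨Far, hFar⟩ : ∃ Far : Vtx → Prop, Far = fun y =>
    (y.1 ≤ z.1 - ((u / 4 : ℕ) : ℤ) ∨ z.1 + ((u / 4 : ℕ) : ℤ) ≤ y.1 ∨
      y.2 ≤ z.2 - ((u / 4 : ℕ) : ℤ) ∨ z.2 + ((u / 4 : ℕ) : ℤ) ≤ y.2) := ⟨_, rfl⟩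
  have hq : ((u / 4 : ℕ) : ℤ) ≤ u := by
    have : u / 4 ≤ u := Nat.div_le_self _ _
    exact_mod_cast this
  have hq4 : 4 * ((u / 4 : ℕ) : ℤ) ≤ u := by
    have : 4 * (u / 4) ≤ u := Nat.mul_div_le _ _
    exact_mod_cast this
  have hq2 : 2 * ((u / 2 : ℕ) : ℤ) ≤ u := by
    have : 2 * (u / 2) ≤ u := Nat.mul_div_le _ _
    exact_mod_cast this
  have hexT : ∃ t, lam ≤ t ∧ Far (fc t) := by
    refine ⟨T, hlamT, ?_⟩
    rw [hFar]
    rcases hTout' with (h | h) | (h | h)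
    · left; linarith
    · right; left; linarith
    · right; right; left; linarith
    · right; right; right; linarith
  obtain ⟨j1, hj1⟩ : ∃ j1, j1 = Nat.find hexT := ⟨_, rfl⟩
  have hj1P : lam ≤ j1 ∧ Far (fc j1) := by rw [hj1]; exact Nat.find_spec hexT
  have hj1N : ∀ t, lam ≤ t → t < j1 → ¬ Far (fc t) := by
    intro t h1 h2 h3
    rw [hj1] at h2
    exact Nat.find_min hexT h2 ⟨h1, h3⟩
  have hj1T : j1 ≤ T := by
    rw [hj1]
    apply Nat.find_min'
    refine ⟨hlamT, ?_⟩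
    rw [hFar]
    rcases hTout' with (h | h) | (h | h)
    · left; linarith
    · right; left; linarith
    · right; right; left; linarith
    · right; right; right; linarith
  obtain ⟨H, hH⟩ : ∃ H : Set Edg, H = {e | e ∈ boxE m ∧ e ∉ F ∧ e ∉ Exm (↑F : Set Edg) ρ τ ∧
    e ∉ boxE (u / 2)} := ⟨_, rfl⟩
  have hmemH : ∀ t, lam ≤ t → t < j1 → ae (orb (↑F : Set Edg) ρ t) ∉ (↑F : Set Edg) →
      ae (orb (↑F : Set Edg) ρ t) ∈ H := by
    intro t h1 h2 hcl
    have hclF : ae (orb (↑F : Set Edg) ρ t) ∉ F := fun h => hcl (by exact_mod_cast h)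
    have hnf := hj1N t h1 h2
    rw [hFar, hfc] at hnf
    simp only at hnf
    push Not at hnf
    obtain ⟨n1, n2, n3, n4⟩ := hnf
    have hen := edge_near (orb (↑F : Set Edg) ρ t)
    have hfarO : ∀ e : Edg, e ∈ boxE (u / 2) → e ≠ ae (orb (↑F : Set Edg) ρ t) := by
      rintro e he rfl
      obtain ⟨⟨b1, b2⟩, b3, b4⟩ := boxE_bd he
      rcases hzlo' with (h | h) | (h | h) <;>
        linarith [hen.1, hen.2.1, hen.2.2.1, hen.2.2.2]
    rw [hH]
    refine ⟨hR3 t (by omega), hclF, ?_, fun h => hfarO _ h rfl⟩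
    intro hex
    obtain ⟨i, hi, hie⟩ := mem_Exm.1 hex
    rcases lt_trichotomy i t0 with hit | hit | hit
    · exact hclF (hK1 m F ρ t0 T i t hF hm hacc hrun hit (by omega) (by omega) hie)
    · rw [hit, hrun.mid] at hie
      apply hfarO (ae s0) _ hie
      unfold s0 boxE RE
      simp only [ae_ne, mem_filter, mem_product, mem_Icc, mem_univ, if_true]
      have hu2 : 0 < u / 2 := by omega
      have hu2' : (0 : ℤ) < ((u / 2 : ℕ) : ℤ) := by exact_mod_cast hu2
      refine ⟨⟨⟨by linarith, by linarith⟩, ⟨by linarith, by linarith⟩, trivial⟩, hu2'⟩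
    · have h5 := (hR4 i t (by omega) (by omega) hie hclF).2.2
      have h6 := hzero' (t + 1) (by omega) (by omega)
      rw [hfc] at h6
      simp only at h6
      rw [h5] at h6
      exact hN1 i hit.le hi.le h6
  have hdr : ∀ s, lam + s ≤ j1 → DReach H (fc lam) (fc (lam + s)) := by
    intro s
    induction s with
    | zero => intro _; exact DReach.refl _ _
    | succ s ih =>
      intro h1
      have ih' := ih (by omega)
      rw [hfc] at ih' ⊢
      simp only at ih' ⊢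
      rw [show lam + (s + 1) = (lam + s) + 1 by ring, orb_succ]
      by_cases hop : ae (orb (↑F : Set Edg) ρ (lam + s)) ∈ (↑F : Set Edg)
      · rw [nxt_open hop, p2_face_mv]
        exact ih'
      · rw [nxt_closed hop]
        refine ih'.trans (DAdj.reach ⟨ae (orb (↑F : Set Edg) ρ (lam + s)),
          hmemH (lam + s) (by omega) (by omega) hop, ?_⟩)
        exact p2_dends _
  refine ⟨fc lam, fc j1, ?_, ?_, ?_⟩
  · have h1 := hlamP.2
    rw [hBx] at h1
    unfold inR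
    push_cast
    exact h1
  · have h1 := hj1P.2
    rw [hFar] at h1
    exact h1
  · have h1 := hdr (j1 - lam) (by omega)
    rw [show lam + (j1 - lam) = j1 by omega, hH] at h1
    exact h1

end Pool.Agent.Y989.FR.DK
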