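import Pool.Agent.Y989.FR.Stm
import Pool.Agent.H984R3.Per.SideL

/-!
# EXIT: the interface at an accessible vertex reaches the outside of the box in both directions
(helper70, for the project FR of helper989)
-/

set_option autoImplicit false

namespace Pool.Agent.Y989.FR.EXIT

open Pool.Agent.Y989.FR H974 H12S Finset H984P H984N

/-! ### Outer faces -/

theorem drow (m : ℕ) (y : ℤ) (hy : (m : ℤ) ≤ y ∨ y < -(m : ℤ)) (a b : ℤ) :
    DReach ((↑(boxE m) : Set Edg)ᶜ) (a, y) (b, y) := by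
  have step : ∀ x : ℤ, DReach ((↑(boxE m) : Set Edg)ᶜ) (x, y) (x + 1, y) := by
    intro x
    refine DAdj.reach ⟨(x + 1, y, false), ?_, Or.inl ⟨by simp, by simp⟩⟩
    simp only [Set.mem_compl_iff, Finset.mem_coe, boxE, mem_RE_false]
    omega
  have key : ∀ (n : ℕ) (a : ℤ), DReach ((↑(boxE m) : Set Edg)ᶜ) (a, y) (a + n, y) := by
    intro n
    induction n with
    | zero => intro a; simp only [Nat.cast_zero, add_zero]; exact DReach.refl _ _
    | succ n ih =>
      intro a
      have h := (ih a).trans (step (a + n))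
      rwa [show a + ((n + 1 : ℕ) : ℤ) = a + n + 1 by push_cast; ring]
  rcases le_total a b with h | h
  · have := key (b - a).toNat a
    rwa [Int.toNat_of_nonneg (by omega), show a + (b - a) = b by ring] at this
  · have := key (a - b).toNat b
    rw [Int.toNat_of_nonneg (by omega), show b + (a - b) = a by ring] at this
    exact this.symm

theorem dcol (m : ℕ) (x : ℤ) (hx : (m : ℤ) ≤ x ∨ x < -(m : ℤ)) (a b : ℤ) :
    DReach ((↑(boxE m) : Set Edg)ᶜ) (x, a) (x, b) := by
  have step : ∀ y : ℤ, DReach ((↑(boxE m) : Set Edg)ᶜ) (x, y) (x, y + 1) := by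
    intro y
    refine DAdj.reach ⟨(x, y + 1, true), ?_, Or.inl ⟨by simp, by simp⟩⟩
    simp only [Set.mem_compl_iff, Finset.mem_coe, boxE, mem_RE_true]
    omega
  have key : ∀ (n : ℕ) (a : ℤ), DReach ((↑(boxE m) : Set Edg)ᶜ) (x, a) (x, a + n) := by
    intro n
    induction n with
    | zero => intro a; simp only [Nat.cast_zero, add_zero]; exact DReach.refl _ _
    | succ n ih =>
      intro a
      have h := (ih a).trans (step (a + n))
      rwa [show a + ((n + 1 : ℕ) : ℤ) = a + n + 1 by push_cast; ring]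
  rcases le_total a b with h | h
  · have := key (b - a).toNat a
    rwa [Int.toNat_of_nonneg (by omega), show a + (b - a) = b by ring] at this
  · have := key (a - b).toNat b
    rw [Int.toNat_of_nonneg (by omega), show b + (a - b) = a by ring] at this
    exact this.symm

/-- every outer face is joined to the face `(m, m)` outside of the box -/
theorem out_corner (m : ℕ) (f : Vtx) (hf : ¬ InF m f) :
    DReach ((↑(boxE m) : Set Edg)ᶜ) f (m, m) := by
  obtain ⟨x, y⟩ := f
  by_cases hy : (m : ℤ) ≤ y ∨ y < -(m : ℤ)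
  · exact (drow m y hy x m).trans (dcol m m (Or.inl le_rfl) y m)
  · have hx : (m : ℤ) ≤ x ∨ x < -(m : ℤ) := by
      unfold InF at hf
      simp only at hf
      omega
    exact (dcol m x hx y m).trans (drow m m (Or.inl le_rfl) x m)

theorem out_out (m : ℕ) {f g : Vtx} (hf : ¬ InF m f) (hg : ¬ InF m g) :
    DReach ((↑(boxE m) : Set Edg)ᶜ) f g := (out_corner m f hf).trans (out_corner m g hg).symm

/-- a boundary vertex has an outer face -/
theorem bd_out {m : ℕ} {y : Vtx} (hy : y ∈ bdB (0, 0) m) : ∃ q : Q4, ¬ InF m (face (y, q)) := by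
  obtain ⟨a, b⟩ := y
  unfold bdB at hy
  simp only [Set.mem_ofPred_eq, sub_zero] at hy
  obtain ⟨_, _, h⟩ := hy
  have h' : a = m ∨ a = -(m : ℤ) ∨ b = m ∨ b = -(m : ℤ) := by
    rcases h with h | h
    · rcases abs_eq (by positivity : (0 : ℤ) ≤ m) |>.1 h with h | h
      · exact Or.inl h
      · exact Or.inr (Or.inl h)
    · rcases abs_eq (by positivity : (0 : ℤ) ≤ m) |>.1 h with h | h
      · exact Or.inr (Or.inr (Or.inl h))
      · exact Or.inr (Or.inr (Or.inr h))
  unfold InF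
  rcases h' with h | h | h | h
  · refine ⟨.ne, ?_⟩; simp only [face_ne]; omega
  · refine ⟨.nw, ?_⟩; simp only [face_nw]; omega
  · refine ⟨.ne, ?_⟩; simp only [face_ne]; omega
  · refine ⟨.se, ?_⟩; simp only [face_se]; omega

/-! ### Faces around vertices outside of the cluster -/

/-- the faces around a vertex all of whose edges are closed are joined -/
theorem around {G : Set Edg} {v : Vtx} (h : ∀ e ∈ G, src e ≠ v ∧ tgt e ≠ v) (q q' : Q4) :
    DReach Gᶜ (face (v, q)) (face (v, q')) := by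
  obtain ⟨x, y⟩ := v
  have h1 : DReach Gᶜ (x, y) (x, y - 1) := by
    refine DAdj.reach ⟨(x, y, true), ?_, Or.inr ⟨by simp, by simp⟩⟩
    intro he
    exact (h _ he).1 (by simp)
  have h2 : DReach Gᶜ (x, y) (x - 1, y) := by
    refine DAdj.reach ⟨(x, y, false), ?_, Or.inr ⟨by simp, by simp⟩⟩
    intro he
    exact (h _ he).1 (by simp)
  have h3 : DReach Gᶜ (x - 1, y) (x - 1, y - 1) := by
    refine DAdj.reach ⟨(x - 1, y, true), ?_, Or.inr ⟨by simp, by simp⟩⟩
    intro he
    exact (h _ he).2 (by simp)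
  have key : ∀ q : Q4, DReach Gᶜ (x, y) (face ((x, y), q)) := by
    intro q
    cases q
    · exact DReach.refl _ _
    · exact h2
    · exact h2.trans h3
    · exact h1
  exact (key q).symm.trans (key q')

/-- two adjacent vertices have a common face -/
theorem common {u v : Vtx} {G : Set Edg} (h : Adj G u v) :
    ∃ q q' : Q4, face (u, q) = face (v, q') := by
  obtain ⟨⟨x, y, b⟩, _, h⟩ := h
  cases b
  · rw [src_mk, tgt_false] at h
    rcases h with ⟨rfl, rfl⟩ | ⟨rfl, rfl⟩
    · exact ⟨.ne, .se, by simp⟩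
    · exact ⟨.se, .ne, by simp⟩
  · rw [src_mk, tgt_true] at h
    rcases h with ⟨rfl, rfl⟩ | ⟨rfl, rfl⟩
    · exact ⟨.ne, .nw, by simp⟩
    · exact ⟨.nw, .ne, by simp⟩

theorem walk_around {G H : Set Edg} {C : Set Vtx} (hG : ∀ e ∈ G, src e ∈ C ∧ tgt e ∈ C)
    (hH : ∀ e ∈ H, src e ∉ C ∧ tgt e ∉ C) {u v : Vtx} (hu : u ∉ C) (h : Reach H u v) :
    v ∉ C ∧ ∀ q q' : Q4, DReach Gᶜ (face (u, q)) (face (v, q')) := by
  have ar : ∀ w : Vtx, w ∉ C → ∀ q q' : Q4, DReach Gᶜ (face (w, q)) (face (w, q')) := by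
    intro w hw q q'
    refine around (fun e he => ⟨?_, ?_⟩) q q'
    · rintro rfl; exact hw (hG e he).1
    · rintro rfl; exact hw (hG e he).2
  induction h with
  | refl => exact ⟨hu, fun q q' => ar u hu q q'⟩
  | @tail b c hb hbc ih =>
    have hc : c ∉ C := by
      obtain ⟨e, he, h⟩ := hbc
      rcases h with ⟨_, rfl⟩ | ⟨rfl, _⟩
      · exact (hH e he).2
      · exact (hH e he).1
    refine ⟨hc, fun q q' => ?_⟩
    obtain ⟨p, p', hp⟩ := common hbc
    have h1 := ih.2 q p
    rw [hp] at h1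
    exact h1.trans (ar c hc p' q')

/-! ### The orbit of `s0` -/

/-- The open edges of the cluster. -/
def FA (m : ℕ) (F : Set Edg) : Set Edg := {e | e ∈ F ∧ src e ∈ cl m F}

theorem cl_step {m : ℕ} {F : Set Edg} (hF : F ⊆ ↑(boxE m)) {e : Edg} (he : e ∈ F) :
    src e ∈ cl m F ↔ tgt e ∈ cl m F := by
  unfold cl
  simp only [Set.mem_ofPred_eq]
  have h : Adj (F ∩ ↑(boxE m)) (src e) (tgt e) := ⟨e, ⟨he, hF he⟩, Or.inl ⟨rfl, rfl⟩⟩
  exact ⟨fun h' => h'.trans h.reach, fun h' => h'.trans h.symm.reach⟩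

theorem cl_zero (m : ℕ) (F : Set Edg) : ((0, 0) : Vtx) ∈ cl m F := Reach.refl _ _

theorem ae_FA {m : ℕ} {F : Set Edg} (hF : F ⊆ ↑(boxE m)) {σ : St} (hσ : σ.1 ∈ cl m F) :
    ae σ ∈ F ↔ ae σ ∈ FA m F := by
  constructor
  · intro h
    refine ⟨h, ?_⟩
    rcases p2_ends σ with ⟨h1, _⟩ | ⟨_, h1⟩
    · rw [h1]; exact hσ
    · rw [cl_step hF h, h1]; exact hσ
  · intro h
    exact h.1

theorem orb_cl {m : ℕ} {F : Set Edg} (hF : F ⊆ ↑(boxE m)) {σ : St} (hσ : σ.1 ∈ cl m F) (t : ℕ) :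
    (orb F σ t).1 ∈ cl m F := by
  induction t with
  | zero => exact hσ
  | succ t ih =>
    rw [orb_succ]
    by_cases h : ae (orb F σ t) ∈ F
    · rw [nxt_open h]
      rcases p2_ends (orb F σ t) with ⟨h1, h2⟩ | ⟨h1, h2⟩
      · rw [← h2, ← cl_step hF h, h1]; exact ih
      · rw [← h1, cl_step hF h, h2]; exact ih
    · rw [nxt_closed h, p2_rt_fst]; exact ih

theorem orb_FA {m : ℕ} {F : Set Edg} (hF : F ⊆ ↑(boxE m)) {σ : St} (hσ : σ.1 ∈ cl m F) (t : ℕ) :
    orb (FA m F) σ t = orb F σ t := by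
  induction t with
  | zero => rfl
  | succ t ih =>
    rw [orb_succ, orb_succ, ih]
    have h1 := ae_FA hF (orb_cl hF hσ t)
    by_cases h : ae (orb F σ t) ∈ F
    · rw [nxt_open h, nxt_open (h1.1 h)]
    · rw [nxt_closed h, nxt_closed (fun h' => h (h1.2 h'))]

/-- the vertices of the cluster lie in the box -/
theorem cl_box {m : ℕ} {F : Set Edg} {v : Vtx} (hv : v ∈ cl m F) :
    v ∈ (Finset.Icc (-(m : ℤ)) m ×ˢ Finset.Icc (-(m : ℤ)) m : Finset Vtx) := by
  have hv' : Reach (F ∩ ↑(boxE m)) (0, 0) v := hv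
  clear hv
  induction hv' with
  | refl => simp
  | @tail b c _ hbc _ =>
    obtain ⟨⟨x, y, k⟩, ⟨_, he⟩, h⟩ := hbc
    cases k
    · rw [Finset.mem_coe, boxE, mem_RE_false] at he
      rw [src_mk, tgt_false] at h
      rcases h with ⟨_, rfl⟩ | ⟨rfl, _⟩ <;>
        simp only [Finset.mem_product, Finset.mem_Icc] <;> omega
    · rw [Finset.mem_coe, boxE, mem_RE_true] at he
      rw [src_mk, tgt_true] at h
      rcases h with ⟨_, rfl⟩ | ⟨rfl, _⟩ <;>
        simp only [Finset.mem_product, Finset.mem_Icc] <;> omega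

theorem orb_inj_back {F : Set Edg} {σ : St} {i j : ℕ} (h : orb F σ i = orb F σ (i + j)) :
    orb F σ j = σ := by
  have hinj : Function.Injective ((nxt F)^[i]) := (nxt_bij F).1.iterate i
  rw [orb_add] at h
  exact (hinj (by
    have h' : (nxt F)^[i] σ = (nxt F)^[i] (orb F σ j) := h
    exact h')).symm

theorem periodic {m : ℕ} {F : Set Edg} (hF : F ⊆ ↑(boxE m)) :
    ∃ P, 1 ≤ P ∧ orb F s0 P = s0 := by
  have hfin : Set.Finite {σ : St | σ.1 ∈ cl m F} := by
    refine Set.Finite.subset (Finset.finite_toSet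
      ((Finset.Icc (-(m : ℤ)) m ×ˢ Finset.Icc (-(m : ℤ)) m : Finset Vtx) ×ˢ
        (Finset.univ : Finset Q4))) ?_
    intro σ hσ
    rw [Finset.mem_coe, Finset.mem_product]
    exact ⟨cl_box hσ, Finset.mem_univ _⟩
  have hmaps : ∀ t : ℕ, orb F s0 t ∈ {σ : St | σ.1 ∈ cl m F} := fun t =>
    orb_cl hF (cl_zero m F) t
  have : ¬ Function.Injective (fun t : ℕ => orb F s0 t) := by
    intro hinj
    exact Set.infinite_of_injective_forall_mem hinj hmaps hfin
  unfold Function.Injective at this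
  push Not at this
  obtain ⟨i, j, hij, hne⟩ := this
  rcases lt_or_gt_of_ne hne with h | h
  · refine ⟨j - i, by omega, orb_inj_back (i := i) ?_⟩
    rw [show i + (j - i) = j by omega]; exact hij
  · refine ⟨i - j, by omega, orb_inj_back (i := j) ?_⟩
    rw [show j + (i - j) = i by omega]; exact hij.symm

theorem orb_per {F : Set Edg} {σ : St} {P : ℕ} (h : orb F σ P = σ) (t : ℕ) :
    orb F σ (t + P) = orb F σ t := by
  rw [orb_add, h]

theorem orb_mod {F : Set Edg} {σ : St} {P : ℕ} (h : orb F σ P = σ) (t : ℕ) :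
    orb F σ t = orb F σ (t % P) := by
  have key : ∀ k r : ℕ, orb F σ (r + P * k) = orb F σ r := by
    intro k
    induction k with
    | zero => intro r; simp
    | succ k ih =>
      intro r
      rw [show r + P * (k + 1) = (r + P * k) + P by ring, orb_per h, ih]
  conv_lhs => rw [← Nat.mod_add_div t P]
  rw [key]

/-- the orbit of `s0` contains a state with an outer face -/
theorem exists_out {m : ℕ} {F : Set Edg} (hF : F ⊆ ↑(boxE m)) (hA : Acc m F) {P : ℕ}
    (hP : 1 ≤ P) (hper : orb F s0 P = s0) : ∃ t, ¬ InF m (face (orb F s0 t)) := by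
  obtain ⟨⟨w, hw, hwC⟩, h10, y, hy, hry⟩ := hA
  have hFA : ∀ t, orb (FA m F) s0 t = orb F s0 t := fun t => orb_FA hF (cl_zero m F) t
  set A : Set St := {σ | ∃ t, orb (FA m F) s0 t = σ} with hAdef
  have hper' : orb (FA m F) s0 P = s0 := by rw [hFA, hper]
  have hinv : ∀ σ, σ ∈ A ↔ nxt (FA m F) σ ∈ A := by
    intro σ
    constructor
    · rintro ⟨t, rfl⟩
      exact ⟨t + 1, orb_succ _ _ _⟩
    · rintro ⟨t, ht⟩
      rcases t with _ | t
      · refine ⟨P - 1, (nxt_bij (FA m F)).1 ?_⟩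
        rw [← ht, ← orb_succ, show P - 1 + 1 = P by omega, hper', orb_zero]
      · exact ⟨t, (nxt_bij (FA m F)).1 (by rw [← orb_succ, ht])⟩
  obtain ⟨hv, hf, hA1, hA2, hA3⟩ := pot_of_inv (FA m F) A hinv
  have h0 : s0 ∈ A := ⟨0, rfl⟩
  have e0 := hA1 s0
  rw [b2_of h0] at e0
  -- `hv` is constant on the cluster
  have hvC : ∀ v, v ∈ cl m F → hv v = hv (0, 0) := by
    intro v hv'
    have hv'' : Reach (F ∩ ↑(boxE m)) (0, 0) v := hv'
    clear hv'
    induction hv'' with
    | refl => rfl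
    | @tail b c hb hbc ih =>
      obtain ⟨e, he, h⟩ := hbc
      have hbC : b ∈ cl m F := hb
      have heA : e ∈ FA m F := by
        refine ⟨he.1, ?_⟩
        rcases h with ⟨h, _⟩ | ⟨_, h⟩
        · rw [h]; exact hbC
        · rw [cl_step hF he.1, h]; exact hbC
      have h2 := hA2 e heA
      rcases h with ⟨h, h'⟩ | ⟨h, h'⟩
      · rw [h, h'] at h2; rw [← h2]; exact ih
      · rw [h, h'] at h2; rw [h2]; exact ih
  -- `hf` is constant on the classes
  have hfD : ∀ f g, DReach (FA m F)ᶜ f g → hf f = hf g := by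
    intro f g h
    induction h with
    | refl => rfl
    | @tail b c _ hbc ih =>
      obtain ⟨e, he, h⟩ := hbc
      have h2 := hA3 e he
      rcases h with ⟨h, h'⟩ | ⟨h, h'⟩
      · rw [h, h'] at h2; rw [ih, h2]
      · rw [h, h'] at h2; rw [ih, h2]
  have hG : ∀ e ∈ FA m F, src e ∈ cl m F ∧ tgt e ∈ cl m F := fun e he =>
    ⟨he.2, (cl_step hF he.1).1 he.2⟩
  have hwalk := walk_around (G := FA m F) (C := cl m F) hG
    (fun e he => ⟨he.2.1, he.2.2⟩) h10 hry
  obtain ⟨qy, hqy⟩ := bd_out hy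
  obtain ⟨qw, hqw⟩ := bd_out hw
  have d1 := hwalk.2 .nw qy
  have d2 : DReach (FA m F)ᶜ (face (y, qy)) (face (w, qw)) := by
    refine (out_out m hqy hqw).mono ?_
    intro e he he'
    exact he (hF he'.1)
  have d3 := hfD _ _ (d1.trans d2)
  have d4 : face (((1, 0) : Vtx), Q4.nw) = face s0 := rfl
  rw [d4] at d3
  have hmem : ((w, qw) : St) ∈ A := by
    by_contra hcon
    have e1 := hA1 (w, qw)
    rw [b2_not_of hcon] at e1
    have e2 := hvC w hwC
    have e3 : hv w + hf (face s0) = 0 := by rw [d3]; exact e1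
    rw [e2] at e3
    have e4 : hv s0.1 = hv (0, 0) := rfl
    rw [e4, e3] at e0
    exact zero_ne_one e0
  obtain ⟨t, ht⟩ := hmem
  refine ⟨t, ?_⟩
  rw [← hFA, ht]
  exact hqw

theorem t_EXIT : S_EXIT := by
  intro m F hFm hm hA
  have hF : (↑F : Set Edg) ⊆ ↑(boxE m) := by exact_mod_cast hFm
  obtain ⟨P, hP, hper⟩ := periodic (m := m) hF
  obtain ⟨t, ht⟩ := exists_out hF hA hP hper
  rw [orb_mod hper t] at ht
  have hin0 : InF m (face s0) := by
    unfold InF s0
    simp only [face_ne]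
    omega
  classical
  set S : Finset ℕ := (Finset.range P).filter (fun t => ¬ InF m (face (orb (↑F) s0 t))) with hS
  have hne : S.Nonempty := by
    refine ⟨t % P, ?_⟩
    rw [hS, Finset.mem_filter, Finset.mem_range]
    exact ⟨Nat.mod_lt _ (by omega), ht⟩
  obtain ⟨j, hj⟩ : ∃ j, j = S.max' hne := ⟨_, rfl⟩
  obtain ⟨j1, hj1⟩ : ∃ j1, j1 = S.min' hne := ⟨_, rfl⟩
  have hjS : j ∈ S := by rw [hj]; exact S.max'_mem hne
  have hj1S : j1 ∈ S := by rw [hj1]; exact S.min'_mem hne
  have hjmax : ∀ s ∈ S, s ≤ j := fun s hs => by rw [hj]; exact S.le_max' s hs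
  have hj1min : ∀ s ∈ S, j1 ≤ s := fun s hs => by rw [hj1]; exact S.min'_le s hs
  have memS : ∀ s, s ∈ S ↔ s < P ∧ ¬ InF m (face (orb (↑F) s0 s)) := by
    intro s; rw [hS, Finset.mem_filter, Finset.mem_range]
  have hjP := (memS j).1 hjS
  have hj1P := (memS j1).1 hj1S
  have hj1pos : 1 ≤ j1 := by
    rcases Nat.eq_zero_or_pos j1 with h | h
    · exfalso
      rw [h, orb_zero] at hj1P
      exact hj1P.2 hin0
    · exact h
  have horb : ∀ t, orb (↑F) (orb (↑F) s0 j) t = orb (↑F) s0 (t + j) := fun t =>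
    (orb_add _ _ _ _).symm
  refine ⟨orb (↑F) s0 j, P - j, P - j + j1, ⟨hjP.2, ?_, ?_, by omega, by omega, ?_⟩⟩
  · intro t ht1 ht2
    rw [horb]
    rcases lt_trichotomy (t + j) P with h | h | h
    · by_contra hcon
      have := hjmax (t + j) ((memS _).2 ⟨h, hcon⟩)
      omega
    · rw [h, hper]; exact hin0
    · have h1 : orb (↑F) s0 (t + j) = orb (↑F) s0 (t + j - P) := by
        conv_lhs => rw [show t + j = (t + j - P) + P by omega]
        exact orb_per hper _
      rw [h1]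
      by_contra hcon
      have := hj1min (t + j - P) ((memS _).2 ⟨by omega, hcon⟩)
      omega
  · rw [horb, show P - j + j = P by omega, hper]
  · rw [horb, show P - j + j1 + j = j1 + P by omega, orb_per hper]
    exact hj1P.2

theorem t_A2 : S_EXIT → S_RUN → S_A2 := by
  intro hE hR m F hFm hm hA
  obtain ⟨ρ, t0, T, hrun⟩ := hE m F hFm hm hA
  have hrun' := hR m F ρ t0 T hFm hm hrun
  constructor
  · obtain ⟨⟨w, hw, hwC⟩, _, _⟩ := hA
    refine ⟨w, ?_, hwC⟩
    obtain ⟨a, b⟩ := w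
    unfold bdB at hw
    unfold onB inR
    simp only [Set.mem_ofPred_eq, sub_zero] at hw
    obtain ⟨h1, h2, h3⟩ := hw
    rw [abs_le] at h1 h2
    simp only
    refine ⟨by omega, ?_⟩
    rcases h3 with h | h
    · rcases abs_eq (by positivity : (0 : ℤ) ≤ m) |>.1 h with h | h <;> omega
    · rcases abs_eq (by positivity : (0 : ℤ) ≤ m) |>.1 h with h | h <;> omega
  · have h0 : orb (↑F) ρ t0 = s0 := hrun.mid
    have hlt := hrun.lt2
    have hd := orb_dreach (F := (↑F : Set Edg)) (W := ↑(boxE m)) (σ := s0) (T := T - t0) (by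
      intro s hs
      have h1 := hrun'.2.2.1 (s + t0) (by omega)
      rw [orb_add, h0] at h1
      exact_mod_cast h1) (s := T - t0) le_rfl
    refine ⟨face (orb (↑F) s0 (T - t0)), ?_, hd⟩
    have h2 := hrun.outT
    rw [show T = (T - t0) + t0 by omega, orb_add, h0] at h2
    unfold InF at h2
    unfold outF
    simp only [Set.mem_ofPred_eq]
    omega

end Pool.Agent.Y989.FR.EXIT
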