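import Pool.Agent.Y989.FR.Stm

/-!
# Step INN: the thick path is an inner event
-/

set_option autoImplicit false

namespace Pool.Agent.Y989.FR.INN

open Pool.Agent.Y989.FR H974 H12S Finset H984P H984N

/-- Symmetries of the square lattice which preserve the sup distance and fix the origin. -/
structure Good (g : LSym) : Prop where
  dist : ∀ a b : Vtx, sd (g.ψ a) (g.ψ b) = sd a b
  orig : g.ψ (0, 0) = (0, 0)

theorem Good.inv {g : LSym} (h : Good g) : Good g.inv := by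
  refine ⟨fun a b => ?_, ?_⟩
  · have := h.dist (g.inv.ψ a) (g.inv.ψ b)
    simpa [LSym.inv] using this.symm
  · have : g.inv.ψ (g.ψ (0, 0)) = (0, 0) := by simp [LSym.inv]
    rwa [h.orig] at this

theorem Good.dist0 {g : LSym} (h : Good g) (a : Vtx) : sd (g.ψ a) (0, 0) = sd a (0, 0) := by
  have := h.dist a (0, 0)
  rwa [h.orig] at this

theorem mem_bdB0 (x : Vtx) (n : ℕ) : x ∈ bdB (0, 0) n ↔ sd x (0, 0) = n := by
  obtain ⟨a, b⟩ := x
  simp only [bdB, sd, Set.mem_ofPred_eq, sub_zero]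
  constructor
  · rintro ⟨h1, h2, h3⟩
    rcases h3 with h3 | h3
    · rw [max_eq_left] <;> omega
    · rw [max_eq_right] <;> omega
  · intro h
    have h1 := le_max_left |a| |b|
    have h2 := le_max_right |a| |b|
    have h3 := max_choice |a| |b|
    omega

theorem mem_blk0 (e : Edg) (n : ℕ) :
    e ∈ blk (0, 0) n ↔ sd (src e) (0, 0) ≤ n ∧ sd (tgt e) (0, 0) ≤ n := by
  obtain ⟨x, y, _ | _⟩ := e
  · simp only [blk, sd, mem_RE_false, src, tgt, max_le_iff, abs_le, sub_zero]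
    simp
    omega
  · simp only [blk, sd, mem_RE_true, src, tgt, max_le_iff, abs_le, sub_zero]
    simp
    omega

theorem Good.blk {g : LSym} (h : Good g) (e : Edg) (n : ℕ) :
    g.φ e ∈ blk (0, 0) n ↔ e ∈ blk (0, 0) n := by
  rw [mem_blk0, mem_blk0]
  rcases g.compat e with ⟨h1, h2⟩ | ⟨h1, h2⟩
  · rw [h1, h2, h.dist0, h.dist0]
  · rw [h1, h2, h.dist0, h.dist0, and_comm]

theorem Good.bdB {g : LSym} (h : Good g) (x : Vtx) (n : ℕ) :
    g.ψ x ∈ bdB (0, 0) n ↔ x ∈ bdB (0, 0) n := by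
  rw [mem_bdB0, mem_bdB0, h.dist0]

theorem Good.BBm {g : LSym} (h : Good g) {k : ℕ} {F : Set Edg} {c : Vtx}
    (hc : c ∈ BB k (0, 0) F) : g.ψ c ∈ BB k (0, 0) (g.φ '' F) := by
  obtain ⟨w, hw, hr⟩ := hc
  refine ⟨g.ψ w, (h.bdB _ _).2 hw, ?_⟩
  refine (g.reach hr).mono ?_
  rintro _ ⟨e, ⟨he1, he2⟩, rfl⟩
  exact ⟨Set.mem_image_of_mem _ he1, Finset.mem_coe.2 ((h.blk _ _).2 (Finset.mem_coe.1 he2))⟩

theorem image_inv (g : LSym) (F : Set Edg) : g.inv.φ '' (g.φ '' F) = F := by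
  simp [LSym.inv, Set.image_image]

theorem Good.BBi {g : LSym} (h : Good g) {k : ℕ} {F : Set Edg} {c : Vtx}
    (hc : g.ψ c ∈ BB k (0, 0) (g.φ '' F)) : c ∈ BB k (0, 0) F := by
  have := h.inv.BBm hc
  rw [image_inv] at this
  simpa [LSym.inv] using this

theorem Good.Awy {g : LSym} (h : Good g) {M B k : ℕ} {c x : Vtx} :
    Awy M B k (0, 0) (g.ψ c) (g.ψ x) ↔ Awy M B k (0, 0) c x := by
  unfold FR.Awy
  rw [h.dist0, h.dist]

theorem Good.AwyAll {g : LSym} (h : Good g) {M B k : ℕ} {F : Set Edg} {x : Vtx}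
    (hx : ∀ c ∈ BB k (0, 0) F, FR.Awy M B k (0, 0) c x) :
    ∀ c ∈ BB k (0, 0) (g.φ '' F), FR.Awy M B k (0, 0) c (g.ψ x) := by
  intro c hc
  obtain ⟨c', rfl⟩ := g.ψ.surjective c
  exact h.Awy.2 (hx c' (h.BBi hc))

theorem Good.Tk_of {g : LSym} (h : Good g) {M B k : ℕ} {F : Set Edg}
    (hT : Tk M B k (0, 0) F) : Tk M B k (0, 0) (g.φ '' F) := by
  obtain ⟨x, hx, y, hy, hr⟩ := hT
  refine ⟨g.ψ x, (h.bdB _ _).2 hx, g.ψ y, (h.bdB _ _).2 hy, ?_⟩
  refine (g.reach hr).mono ?_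
  rintro _ ⟨e, ⟨he, h1, h2⟩, rfl⟩
  have hA : g.φ e ∈ AE (0, 0) 2 k := by
    unfold AE at he ⊢
    rw [Finset.mem_coe, Finset.mem_sdiff] at he ⊢
    rw [h.blk, h.blk]
    exact he
  rcases g.compat e with ⟨c1, c2⟩ | ⟨c1, c2⟩
  · refine ⟨hA, ?_, ?_⟩
    · rw [c1]; exact h.AwyAll h1
    · rw [c2]; exact h.AwyAll h2
  · refine ⟨hA, ?_, ?_⟩
    · rw [c1]; exact h.AwyAll h2
    · rw [c2]; exact h.AwyAll h1

theorem Good.Tk_iff {g : LSym} (h : Good g) {M B k : ℕ} (F : Finset Edg) :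
    Tk M B k (0, 0) ↑(g.mp F) ↔ Tk M B k (0, 0) ↑F := by
  rw [LSym.coe_mp]
  constructor
  · intro hT
    have := h.inv.Tk_of hT
    rwa [image_inv] at this
  · exact h.Tk_of

theorem good_sy (s : Fin 4) : Good (H985T.sy s).toLSym := by
  refine ⟨?_, ?_⟩
  · rintro ⟨a, b⟩ ⟨c, d⟩
    fin_cases s
    · rfl
    · show max |b - d| |a - c| = max |a - c| |b - d|
      exact max_comm _ _
    · show max |-a - -c| |-b - -d| = max |a - c| |b - d|
      rw [show -a - -c = -(a - c) by ring, show -b - -d = -(b - d) by ring, abs_neg, abs_neg]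
    · show max |-b - -d| |-a - -c| = max |a - c| |b - d|
      rw [show -a - -c = -(a - c) by ring, show -b - -d = -(b - d) by ring, abs_neg, abs_neg,
        max_comm]
  · fin_cases s <;> rfl

theorem good_rfx : Good (rfx 0) := by
  refine ⟨?_, rfl⟩
  rintro ⟨a, b⟩ ⟨c, d⟩
  show max |0 - a - (0 - c)| |b - d| = max |a - c| |b - d|
  rw [show 0 - a - (0 - c) = -(a - c) by ring, abs_neg]

theorem good_rfy : Good (rfy 0) := by
  refine ⟨?_, rfl⟩
  rintro ⟨a, b⟩ ⟨c, d⟩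
  show max |a - c| |0 - b - (0 - d)| = max |a - c| |b - d|
  rw [show 0 - b - (0 - d) = -(b - d) by ring, abs_neg]

theorem BB_loc {k n : ℕ} (h : 8 * k ≤ n) (F : Finset Edg) :
    BB k (0, 0) (↑(F ∩ boxE n) : Set Edg) = BB k (0, 0) (↑F : Set Edg) := by
  have hs : (blk (0, 0) (8 * k)) ⊆ boxE n := by
    unfold H12S.blk boxE
    apply RE_subset <;> push_cast <;> omega
  have he : (↑(F ∩ boxE n) : Set Edg) ∩ ↑(blk (0, 0) (8 * k)) = ↑F ∩ ↑(blk (0, 0) (8 * k)) := by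
    ext e
    simp only [Finset.coe_inter, Set.mem_inter_iff, Finset.mem_coe]
    constructor
    · rintro ⟨⟨h1, _⟩, h3⟩; exact ⟨h1, h3⟩
    · rintro ⟨h1, h3⟩; exact ⟨⟨h1, hs h3⟩, h3⟩
  unfold BB
  rw [he]

theorem t_INN : S_INN := by
  intro M B m
  refine ⟨fun F => ?_, fun s F => (good_sy s).Tk_iff F, fun F => good_rfx.Tk_iff F,
    fun F => good_rfy.Tk_iff F⟩
  have h : 8 * (m / 64) ≤ m / 8 := by omega
  show Tk M B (m / 64) (0, 0) (↑F : Set Edg) ↔ Tk M B (m / 64) (0, 0) (↑(F ∩ boxE (m / 8)) : Set Edg)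
  unfold Tk
  rw [BB_loc h]

end Pool.Agent.Y989.FR.INN
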