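import Pool.Agent.Y989.FR.Stm
import Pool.Agent.H984R3.Per.Basic

/-!
# FR: a closed edge is not crossed before and after the time `t0`
-/

set_option autoImplicit false

namespace Pool.Agent.Y989.FR.K1

open Pool.Agent.Y989.FR H974 H12S Finset H984P H984N

/-- The two sides of an edge which is traversed. -/
theorem side_diff (e : Edg) (a b : Vtx)
    (h : (src e = b ∧ tgt e = a) ∨ (src e = a ∧ tgt e = b)) :
    (Gd e b - Gd e a) + (cx (dsrc e) b a - cx (dtgt e) b a) = 1 ∨
      (Gd e b - Gd e a) + (cx (dsrc e) b a - cx (dtgt e) b a) = -1 := by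
  obtain ⟨x, y, s⟩ := e
  cases s
  · rcases h with ⟨h1, h2⟩ | ⟨h1, h2⟩
    · simp only [src_mk, tgt_false] at h1 h2
      subst h1 h2
      simp [Gd, cx, dsrc]
    · simp only [src_mk, tgt_false] at h1 h2
      subst h1 h2
      simp [Gd, cx, dsrc]
  · rcases h with ⟨h1, h2⟩ | ⟨h1, h2⟩
    · simp only [src_mk, tgt_true] at h1 h2
      subst h1 h2
      simp [Gd, cx, dsrc]
    · simp only [src_mk, tgt_true] at h1 h2
      subst h1 h2
      simp [Gd, cx, dsrc]

/-- The vertex of a state is an end of the examined edge. -/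
theorem fst_end (σ : St) : src (ae σ) = σ.1 ∨ tgt (ae σ) = σ.1 := by
  rcases p2_ends σ with h | h
  · exact Or.inl h.1
  · exact Or.inr h.2

theorem t_K1 : S_W1 → S_WKA → S_PI → S_W2 → S_OXW → S_RUN → S_K1 := by
  intro hW1 hWKA hPI hW2 hOXW hRUN m F ρ t0 T i j hF hm hacc hrun hi hj hjT hae
  by_contra hnF
  obtain ⟨-, hR2, hR3, hR4⟩ := hRUN m F ρ t0 T hF hm hrun
  obtain ⟨e, he⟩ : ∃ e, e = ae (orb ↑F ρ j) := ⟨_, rfl⟩
  have hei : ae (orb ↑F ρ i) = e := by rw [hae, he]
  have hej : ae (orb ↑F ρ j) = e := he.symm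
  have heF : e ∉ F := by rw [he]; exact hnF
  have hij : i < j := hi.trans hj
  obtain ⟨hne, hf1, hf2⟩ := hR4 i j hij hjT hae hnF
  obtain ⟨a, ha⟩ : ∃ a, a = (orb (↑F : Set Edg) ρ i).1 := ⟨_, rfl⟩
  obtain ⟨b, hb⟩ : ∃ b, b = (orb (↑F : Set Edg) ρ j).1 := ⟨_, rfl⟩
  rw [← ha, ← hb] at hne
  have hea : src e = a ∨ tgt e = a := by
    have := fst_end (orb (↑F : Set Edg) ρ i)
    rw [hei, ← ha] at this
    exact this
  have heb : src e = b ∨ tgt e = b := by
    have := fst_end (orb (↑F : Set Edg) ρ j)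
    rw [hej, ← hb] at this
    exact this
  have hends : (src e = b ∧ tgt e = a) ∨ (src e = a ∧ tgt e = b) := by
    rcases hea with h | h <;> rcases heb with h' | h'
    · exact absurd (h.symm.trans h') hne
    · exact Or.inr ⟨h, h'⟩
    · exact Or.inl ⟨h', h⟩
    · exact absurd (h.symm.trans h') hne
  obtain ⟨φ0, hφ0⟩ : ∃ φ0 : Vtx → ℤ, φ0 = fun f => ox (↑F : Set Edg) ρ f i j := ⟨_, rfl⟩
  have hwF : Wk (↑F : Set Edg) a b φ0 := by
    rw [ha, hb, hφ0]
    exact hOXW (↑F : Set Edg) ρ i j hij.le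
  obtain ⟨N, hN⟩ : ∃ N : Vtx → ℤ, N = fun f => φ0 f + cx f b a := ⟨_, rfl⟩
  have hac : a ∈ cl m (↑F : Set Edg) := by rw [ha]; exact hR2 i
  have hbc : b ∈ cl m (↑F : Set Edg) := by rw [hb]; exact hR2 j
  have hebox : e ∈ boxE m := by rw [he]; exact hR3 j hjT
  -- the closed walk in `F ∪ {e}`
  obtain ⟨G, hG⟩ : ∃ G : Set Edg, G = (↑F : Set Edg) ∪ {e} := ⟨_, rfl⟩
  have hGm : ∀ x : Edg, x ∈ G ↔ x ∈ F ∨ x = e := by
    intro x
    rw [hG, Set.mem_union, Set.mem_singleton_iff, Finset.mem_coe]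
  have hwG : Wk G a a N := by
    rw [hN]
    refine Wk.cons a b a φ0 e ?_ ((hGm e).2 (Or.inr rfl)) ?_
    · exact hWKA.2.2.1 (↑F : Set Edg) G a b φ0 (fun x hx => (hGm x).2 (Or.inl hx)) hwF
    · rcases hends with h | h
      · exact Or.inl h
      · exact Or.inr h
  -- the value at the face `(0, 0)`
  have hN0 : N (0, 0) = 0 := by
    have hw1 := (hWKA.2.2.2.2 m (↑F : Set Edg) a b φ0 (by exact_mod_cast hF) hac hwF).2
    have hw2 : Wk (Inn2 (cl m (↑F : Set Edg))) a b φ0 :=
      hWKA.2.2.1 _ _ a b φ0 Set.inter_subset_right hw1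
    have hein : e ∈ Inn2 (cl m (↑F : Set Edg)) := by
      rcases hends with h | h
      · exact ⟨by rw [h.1]; exact hbc, by rw [h.2]; exact hac⟩
      · exact ⟨by rw [h.1]; exact hac, by rw [h.2]; exact hbc⟩
    have hw3 : Wk (Inn2 (cl m (↑F : Set Edg))) a a N := by
      rw [hN]
      refine Wk.cons a b a φ0 e hw2 hein ?_
      rcases hends with h | h
      · exact Or.inl h
      · exact Or.inr h
    exact hPI m (↑F : Set Edg) a N hm hacc hw3
  -- one step
  have hstep : ∀ t, i < t → t < T → t ≠ j →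
      N (face (orb (↑F : Set Edg) ρ t)) = N (face (orb (↑F : Set Edg) ρ (t + 1))) := by
    intro t hit htT htj
    rw [orb_succ]
    by_cases hop : ae (orb (↑F : Set Edg) ρ t) ∈ (↑F : Set Edg)
    · rw [nxt_open hop, p2_face_mv]
    · rw [nxt_closed hop]
      have hne' : ae (orb (↑F : Set Edg) ρ t) ≠ e := by
        intro heq
        have hopF : ae (orb (↑F : Set Edg) ρ t) ∉ F := fun h => hop (by exact_mod_cast h)
        have h1 := (hR4 i t hit htT (by rw [hei, heq]) hopF).1
        rw [← ha] at h1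
        have h2 : b ≠ (orb (↑F : Set Edg) ρ t).1 := by
          rcases lt_or_gt_of_ne htj with h | h
          · have := (hR4 t j h hjT (by rw [hej, heq]) hnF).1
            rw [← hb] at this
            exact this.symm
          · have := (hR4 j t h htT (by rw [hej, heq]) hopF).1
            rw [← hb] at this
            exact this
        have h3 := fst_end (orb (↑F : Set Edg) ρ t)
        rw [heq] at h3
        rcases hends with ⟨g1, g2⟩ | ⟨g1, g2⟩
        · rw [g1, g2] at h3
          rcases h3 with h3 | h3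
          · exact h2 h3
          · exact h1 h3
        · rw [g1, g2] at h3
          rcases h3 with h3 | h3
          · exact h1 h3
          · exact h2 h3
      have hG' : ae (orb (↑F : Set Edg) ρ t) ∉ G := by
        rw [hGm]
        rintro (h | h)
        · exact hop (by exact_mod_cast h)
        · exact hne' h
      have h1 := hW1 G a a N _ hwG hG'
      rw [sub_self] at h1
      rcases p2_dends (orb (↑F : Set Edg) ρ t) with ⟨g1, g2⟩ | ⟨g1, g2⟩
      · rw [g1, g2] at h1
        linarith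
      · rw [g1, g2] at h1
        linarith
  have hchain1 : ∀ s, ∀ t, i < t → t + s ≤ j →
      N (face (orb (↑F : Set Edg) ρ t)) = N (face (orb (↑F : Set Edg) ρ (t + s))) := by
    intro s
    induction s with
    | zero => intro t _ _; rfl
    | succ s ih =>
      intro t ht hts
      rw [ih t ht (by omega), hstep (t + s) (by omega) (by omega) (by omega)]
      rfl
  have hchain2 : ∀ s, j + 1 + s ≤ T →
      N (face (orb (↑F : Set Edg) ρ (j + 1))) = N (face (orb (↑F : Set Edg) ρ (j + 1 + s))) := by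
    intro s
    induction s with
    | zero => intro _; rfl
    | succ s ih =>
      intro hs
      rw [ih (by omega), hstep (j + 1 + s) (by omega) (by omega) (by omega)]
      rfl
  have hmid : N (face (orb (↑F : Set Edg) ρ t0)) = 0 := by
    rw [hrun.mid]
    exact hN0
  have hj0 : N (face (orb (↑F : Set Edg) ρ j)) = 0 := by
    have h1 := hchain1 (j - t0) t0 hi (by omega)
    rw [show t0 + (j - t0) = j by omega, hmid] at h1
    exact h1.symm
  have hj1 : N (face (orb (↑F : Set Edg) ρ (j + 1))) = 0 := by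
    have h1 := hchain2 (T - (j + 1)) (by omega)
    rw [show j + 1 + (T - (j + 1)) = T by omega] at h1
    rw [h1]
    refine hW2 m G a N _ hwG ?_ hrun.outT
    intro x hx
    rcases (hGm x).1 hx with h | h
    · exact hF h
    · rw [h]
      exact hebox
  -- the two sides of `e`
  have hside : N (dsrc e) - N (dtgt e) = 1 ∨ N (dsrc e) - N (dtgt e) = -1 := by
    have h1 := hW1 (↑F : Set Edg) a b φ0 e hwF (fun h => heF (by exact_mod_cast h))
    have h2 := side_diff e a b hends
    have h3 : N (dsrc e) - N (dtgt e) =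
        (φ0 (dsrc e) - φ0 (dtgt e)) + (cx (dsrc e) b a - cx (dtgt e) b a) := by
      rw [hN]
      ring
    rw [h3, h1]
    exact h2
  have hcl : ae (orb (↑F : Set Edg) ρ j) ∉ (↑F : Set Edg) := fun h => hnF (by exact_mod_cast h)
  rw [orb_succ, nxt_closed hcl] at hj1
  have h5 := p2_dends (orb (↑F : Set Edg) ρ j)
  rw [hej] at h5
  rcases h5 with ⟨g1, g2⟩ | ⟨g1, g2⟩
  · rw [g1, g2, hj0, hj1] at hside
    norm_num at hside
  · rw [g1, g2, hj0, hj1] at hside
    norm_num at hside

end Pool.Agent.Y989.FR.K1
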