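import Pool.Agent.Y989.FR.Stm
import Pool.Agent.H984R3.Per.Basic
import Pool.Agent.H984R3.Per.SideL

/-!
Frontiers, step K2: the winding number of the closed curve at the first gate time (helper448).
-/

set_option autoImplicit false

namespace Pool.Agent.Y989.FR.K2

open H974 H12S Finset H984P H984N Pool.Agent.Y989.FR

theorem mem_boxE' {m : ℕ} {e : Edg} (h1 : sd (src e) (0, 0) ≤ m) (h2 : sd (tgt e) (0, 0) ≤ m) :
    e ∈ boxE m := by
  obtain ⟨x, y, b⟩ := e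
  unfold sd at h1 h2
  rw [max_le_iff, abs_le, abs_le] at h1 h2
  unfold boxE
  cases b
  · simp only [src_mk, tgt_false] at h1 h2
    rw [mem_RE_false]
    simp only [sub_zero] at h1 h2
    omega
  · simp only [src_mk, tgt_true] at h1 h2
    rw [mem_RE_true]
    simp only [sub_zero] at h1 h2
    omega

theorem lp_left (p q : Vtx) : p ∈ Lp p q := by
  left
  exact ⟨rfl, min_le_left _ _, le_max_left _ _⟩

theorem lp_right (p q : Vtx) : q ∈ Lp p q := by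
  right
  exact ⟨rfl, min_le_right _ _, le_max_right _ _⟩

/-- A state is determined by its vertex and its edge. -/
theorem st_eq {σ σ' : St} (h1 : σ.1 = σ'.1) (h2 : ae σ = ae σ') : σ = σ' := by
  obtain ⟨⟨x, y⟩, q⟩ := σ
  obtain ⟨⟨x', y'⟩, q'⟩ := σ'
  simp only [Prod.mk.injEq] at h1
  obtain ⟨rfl, rfl⟩ := h1
  cases q <;> cases q' <;> simp at h2 ⊢ <;> omega

/-- The edges of `Lp p q` at an end point are unique. -/
theorem lp_uniq {p q : Vtx} {σ σ' : St} (hpq : p ≠ q) (h : σ.1 = p ∨ σ.1 = q)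
    (h0 : σ.1 = σ'.1) (h1 : (mv σ).1 ∈ Lp p q) (h2 : (mv σ').1 ∈ Lp p q) : σ = σ' := by
  obtain ⟨p1, p2⟩ := p
  obtain ⟨q1, q2⟩ := q
  obtain ⟨⟨x, y⟩, c⟩ := σ
  obtain ⟨⟨x', y'⟩, c'⟩ := σ'
  simp only [Prod.mk.injEq] at h0
  obtain ⟨rfl, rfl⟩ := h0
  simp only [Prod.mk.injEq] at h
  have hpq' : p1 ≠ q1 ∨ p2 ≠ q2 := by
    by_contra hc
    push Not at hc
    exact hpq (by rw [hc.1, hc.2])
  simp only [Lp, Set.mem_ofPred_eq, min_le_iff, le_max_iff] at h1 h2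
  cases c <;> cases c' <;> simp only [mv_ne, mv_nw, mv_sw, mv_se] at h1 h2 <;>
    first
    | rfl
    | (exfalso; omega)

/-- A state over a point of the path whose edge belongs to the path. -/
theorem st_inn {p q : Vtx} {σ : St} (h : ae σ ∈ Inn2 (Lp p q)) :
    σ.1 ∈ Lp p q ∧ (mv σ).1 ∈ Lp p q := by
  rcases p2_ends σ with ⟨h1, h2⟩ | ⟨h1, h2⟩
  · exact ⟨h1 ▸ h.1, h2 ▸ h.2⟩
  · exact ⟨h2 ▸ h.2, h1 ▸ h.1⟩

/-- The closed walk formed by a walk from `p` to `q` and the short path. -/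
theorem core (hW1 : S_W1) (hW2 : S_W2) (hWKA : S_WKA) (hLX : S_LX) {m : ℕ} {F : Finset Edg}
    (hF : F ⊆ boxE m) {V : Set Vtx} {p q : Vtx} {φ : Vtx → ℤ}
    (hφ : Wk (↑F) p q φ) (hmin : ∀ x ∈ Lp p q, x ∈ V → x = p ∨ x = q) (hpq : p ≠ q)
    (hbox : ∀ x ∈ Lp p q, sd x (0, 0) ≤ m) :
    (∀ f, ¬ InF m f → φ f + -lx f p q = 0) ∧
    (∀ e, e ∉ F → e ∉ Inn2 (Lp p q) →
      φ (dsrc e) + -lx (dsrc e) p q = φ (dtgt e) + -lx (dtgt e) p q) ∧
    (∀ σ σ' : St, σ.1 ∈ V → σ'.1 ∈ V →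
      φ (face (nxt (↑F) σ)) + -lx (face (nxt (↑F) σ)) p q ≠ φ (face σ) + -lx (face σ) p q →
      φ (face (nxt (↑F) σ')) + -lx (face (nxt (↑F) σ')) p q ≠ φ (face σ') + -lx (face σ') p q →
      (σ.1 = p ∨ σ.1 = q) ∧ (σ.1 = σ'.1 → σ = σ')) := by
  obtain ⟨hK1, hK2, hK3, hK4, hK5⟩ := hWKA
  set G : Set Edg := ↑F ∪ Inn2 (Lp p q) with hG
  have hw : Wk G p p (fun f => φ f + -lx f p q) :=
    hK1 G p q p φ (fun f => - lx f p q) (hK3 _ G p q φ Set.subset_union_left hφ)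
      (hK2 G p q _ (hK3 _ G p q _ Set.subset_union_right (hLX.1 p q)))
  have hGb : ∀ e ∈ G, e ∈ boxE m := by
    rintro e (he | he)
    · exact hF he
    · exact mem_boxE' (hbox _ he.1) (hbox _ he.2)
  have hB : ∀ e, e ∉ F → e ∉ Inn2 (Lp p q) →
      φ (dsrc e) + -lx (dsrc e) p q = φ (dtgt e) + -lx (dtgt e) p q := by
    intro e he1 he2
    have h1 := hW1 G p p _ e hw (by rintro (h | h); exacts [he1 h, he2 h])
    linarith
  have hC : ∀ σ : St, φ (face (nxt (↑F) σ)) + -lx (face (nxt (↑F) σ)) p q ≠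
      φ (face σ) + -lx (face σ) p q → ae σ ∈ Inn2 (Lp p q) := by
    intro σ hσ
    by_contra hc
    by_cases h : ae σ ∈ (↑F : Set Edg)
    · rw [nxt_open h, p2_face_mv] at hσ
      exact hσ rfl
    · rw [nxt_closed h] at hσ
      have h1 := hB _ h hc
      rcases p2_dends σ with ⟨h2, h3⟩ | ⟨h2, h3⟩
      · rw [h2, h3] at h1
        exact hσ h1.symm
      · rw [h2, h3] at h1
        exact hσ h1
  refine ⟨fun f hf => hW2 m G p _ f hw hGb hf, hB, fun σ σ' h1 h2 h3 h4 => ?_⟩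
  have h5 := st_inn (hC _ h3)
  have h6 := st_inn (hC _ h4)
  have h7 := hmin _ h5.1 h1
  exact ⟨h7, fun h8 => lp_uniq hpq h7 h8 h5.2 h6.2⟩

/-- Reversal of a short path which keeps away from the face `(0, 0)`. -/
theorem lx_symm {u U : ℕ} {p q : Vtx} (hu : 1 ≤ u) (h : Fr u U p q) :
    lx (0, 0) q p = - lx (0, 0) p q := by
  have h1 := h (0, 0)
  have h0 : sd ((0, 0) : Vtx) (0, 0) = 0 := by simp [sd]
  rw [h0] at h1
  obtain ⟨p1, p2⟩ := p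
  obtain ⟨q1, q2⟩ := q
  simp only [min_le_iff, le_max_iff] at h1
  unfold lx
  simp only
  by_contra hc
  have h2 : ¬ ((p1 ≤ 0 ∨ q1 ≤ 0) ∧ (0 ≤ p1 ∨ 0 ≤ q1)) ∨ ¬ ((p2 ≤ 0 ∨ q2 ≤ 0) ∧ (0 ≤ p2 ∨ 0 ≤ q2)) := by
    by_contra hd
    push Not at hd
    have := (h1 hd.1 hd.2).1
    omega
  apply hc
  split_ifs <;> omega

/-- Crossing numbers of an orbit and the potential. -/
theorem ox_pot (hWKA : S_WKA) (hOXW : S_OXW) {m : ℕ} {F : Finset Edg} (hF : F ⊆ boxE m)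
    {μ : Vtx → ℤ} (hμ : IsPot m ↑F μ) {ρ : St} {i j : ℕ} (hij : i ≤ j)
    (hi : (orb ↑F ρ i).1 ∈ cl m ↑F) :
    ox ↑F ρ (0, 0) i j = μ (orb ↑F ρ j).1 - μ (orb ↑F ρ i).1 := by
  obtain ⟨hK1, hK2, hK3, hK4, hK5⟩ := hWKA
  have h1 := hOXW ↑F ρ i j hij
  have h2 := (hK5 m ↑F _ _ _ (by exact_mod_cast hF) hi h1).2
  have h3 := hK3 _ (Inn2 (cl m ↑F)) _ _ _ Set.inter_subset_right h2
  exact (hμ _ _ _ h3).symm

/-- A new gate time. -/
theorem gte_of {u U w : ℕ} {F : Finset Edg} {ρ : St} {t0 : ℕ} {μ : Vtx → ℤ} {p q : Vtx}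
    (hu : 1 ≤ u) (hFr : Fr u U p q) (hw : sd p q ≤ w) (hne : μ q - μ p ≠ lx (0, 0) p q)
    {c1 c2 : ℕ} (hc1 : c1 < t0)
    (hox : ox ↑F ρ (0, 0) c1 c2 = μ (orb ↑F ρ c2).1 - μ (orb ↑F ρ c1).1)
    (h : ((orb ↑F ρ c1).1 = p ∧ (orb ↑F ρ c2).1 = q) ∨
      ((orb ↑F ρ c1).1 = q ∧ (orb ↑F ρ c2).1 = p)) : Gte u U w ↑F ρ t0 c2 := by
  rcases h with ⟨h1, h2⟩ | ⟨h1, h2⟩
  · refine ⟨c1, hc1, ?_, ?_, ?_⟩
    · rw [h1, h2]; exact hw
    · rw [h1, h2]; exact hFr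
    · rw [hox, h1, h2]; exact hne
  · refine ⟨c1, hc1, ?_, ?_, ?_⟩
    · rw [h1, h2]
      unfold sd at hw ⊢
      rw [abs_sub_comm q.1, abs_sub_comm q.2]
      exact hw
    · rw [h1, h2]
      intro x hx hy
      rw [min_comm q.1, max_comm q.1] at hx
      rw [min_comm q.2, max_comm q.2] at hy
      exact hFr x hx hy
    · rw [hox, h1, h2, lx_symm hu hFr]
      omega

/-- A function which changes along a sequence changes at some step. -/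
theorem step_ne (f : ℕ → ℤ) {a b : ℕ} (hab : a ≤ b) (h : f a ≠ f b) :
    ∃ c, a ≤ c ∧ c < b ∧ f (c + 1) ≠ f c := by
  by_contra hc
  push Not at hc
  apply h
  have key : ∀ d, a + d ≤ b → f (a + d) = f a := by
    intro d
    induction d with
    | zero => intro _; rfl
    | succ d ih =>
      intro hd
      rw [← ih (by omega)]
      exact hc (a + d) (by omega) (by omega)
  obtain ⟨d, rfl⟩ := Nat.exists_eq_add_of_le hab
  exact (key d le_rfl).symm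

theorem sd_le {p q x : Vtx} {w : ℤ} (h : sd p q ≤ w) (hx : x ∈ Lp p q) : sd x q ≤ w := by
  obtain ⟨p1, p2⟩ := p
  obtain ⟨q1, q2⟩ := q
  obtain ⟨x1, x2⟩ := x
  unfold sd at h ⊢
  simp only [max_le_iff, abs_le] at h ⊢
  simp only [Lp, Set.mem_ofPred_eq, min_le_iff, le_max_iff] at hx
  omega

/-- Points of the path are points of the rectangle. -/
theorem lp_rect {p q x : Vtx} (hx : x ∈ Lp p q) :
    (min p.1 q.1 ≤ x.1 ∧ x.1 ≤ max p.1 q.1) ∧ (min p.2 q.2 ≤ x.2 ∧ x.2 ≤ max p.2 q.2) := by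
  rcases hx with ⟨h1, h2, h3⟩ | ⟨h1, h2, h3⟩
  · exact ⟨⟨h2, h3⟩, by rw [h1]; exact ⟨min_le_left _ _, le_max_left _ _⟩⟩
  · exact ⟨by rw [h1]; exact ⟨min_le_right _ _, le_max_right _ _⟩, ⟨h2, h3⟩⟩

theorem fr_sub {u U : ℕ} {p q p1 q1 : Vtx} (h : Fr u U p q) (h1 : Lp p1 q1 ⊆ Lp p q) :
    Fr u U p1 q1 := by
  have hp := lp_rect (h1 (lp_left p1 q1))
  have hq := lp_rect (h1 (lp_right p1 q1))
  intro x hx hy
  apply h x
  · exact ⟨(le_min hp.1.1 hq.1.1).trans hx.1, hx.2.trans (max_le hp.1.2 hq.1.2)⟩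
  · exact ⟨(le_min hp.2.1 hq.2.1).trans hy.1, hy.2.trans (max_le hp.2.2 hq.2.2)⟩

theorem t_K2 : S_W1 → S_W2 → S_WKA → S_LX → S_SUBX → S_POT → S_OXW → S_RUN → S_K2 := by
  intro hW1 hW2 hWKA hLX hSUB hPOT hOXW hRUN m u w F ρ t0 T τ hF hw1 hwu hum hA hR ht hτ hG hfirst
  have hK := hWKA
  obtain ⟨hK1, hK2, hK3, hK4, hK5⟩ := hK
  have hm : 1 ≤ m := by omega
  obtain ⟨μ, hμ⟩ := hPOT m ↑F hm hA
  obtain ⟨hr1, hr2, hr3, hr4⟩ := hRUN m F ρ t0 T hF hm hR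
  obtain ⟨s, hs, hg1, hg2, hg3⟩ := hG
  rw [ox_pot hWKA hOXW hF hμ (by omega) (hr2 s)] at hg3
  set z := (orb (↑F) ρ τ).1 with hz
  set V : Set Vtx := {x | ∃ t ≤ τ, (orb (↑F) ρ t).1 = x} with hV
  obtain ⟨p, hp, q, hq, hs1, hs2, hs3⟩ := hSUB V μ (0, 0) (orb (↑F) ρ s).1 z
    ⟨s, by omega, rfl⟩ ⟨τ, le_rfl, rfl⟩ hg3
  have hpq : p ≠ q := by
    rintro rfl
    apply hs2
    rw [hLX.2.2.1, sub_self]
  have hfr : Fr u (8 * u) p q := fr_sub hg2 hs1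
  have hd : ∀ x ∈ Lp p q, sd x z ≤ w := fun x hx => sd_le hg1 (hs1 hx)
  have hbox : ∀ x ∈ Lp p q, sd x (0, 0) ≤ m := by
    intro x hx
    have h1 := lp_rect hx
    have h2 := (hfr x h1.1 h1.2).2
    push_cast at h2
    have : (16 * (u : ℤ)) ≤ m := by exact_mod_cast hum
    omega
  have hpqw : sd p q ≤ w := by
    have h1 := lp_rect (hs1 (lp_left p q))
    have h2 := lp_rect (hs1 (lp_right p q))
    obtain ⟨p1, p2⟩ := p
    obtain ⟨q1, q2⟩ := q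
    generalize (orb (↑F) ρ s).1 = a at *
    obtain ⟨a1, a2⟩ := a
    generalize z = b at *
    obtain ⟨b1, b2⟩ := b
    simp only [min_le_iff, le_max_iff] at h1 h2
    unfold sd at hg1 ⊢
    simp only [max_le_iff, abs_le] at hg1 ⊢
    omega
  obtain ⟨i1, hi1, hi1'⟩ := hp
  obtain ⟨i2, hi2, hi2'⟩ := hq
  obtain ⟨φ, hφ⟩ : ∃ φ, Wk (↑F) p q φ := by
    rcases le_total i1 i2 with h | h
    · have := hOXW ↑F ρ i1 i2 h
      rw [hi1', hi2'] at this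
      exact ⟨_, this⟩
    · have := hOXW ↑F ρ i2 i1 h
      rw [hi1', hi2'] at this
      exact ⟨_, hK2 _ _ _ _ this⟩
  obtain ⟨hc1, hc2, hc3⟩ := core hW1 hW2 hWKA hLX hF hφ hs3 hpq hbox
  have hpC : p ∈ cl m ↑F := hi1' ▸ hr2 i1
  have hN0 : φ (0, 0) + -lx (0, 0) p q ≠ 0 := by
    have h1 := hμ _ _ _ (hK3 _ (Inn2 (cl m ↑F)) _ _ _ Set.inter_subset_right
      (hK5 m ↑F _ _ _ (by exact_mod_cast hF) hpC hφ).2)
    rw [← h1]
    intro h2
    apply hs2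
    omega
  set N : Vtx → ℤ := fun f => φ f + -lx f p q with hN
  have hNo : N (face (orb (↑F) ρ 0)) = 0 := hc1 _ hR.out0
  have hNt : N (face (orb (↑F) ρ t0)) ≠ 0 := by
    rw [hR.mid]
    exact hN0
  obtain ⟨c1, -, hc1t, hch1⟩ := step_ne (fun t => N (face (orb (↑F) ρ t))) (Nat.zero_le t0)
    (by intro h; exact hNt (h ▸ hNo))
  refine ⟨N, ?_, ?_, hc1⟩
  · intro j hj1 hj2 hj0
    obtain ⟨c2, hc2a, hc2b, hch2⟩ := step_ne (fun t => N (face (orb (↑F) ρ t))) hj1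
      (by intro h; exact hNt (h.trans hj0))
    have hV1 : (orb (↑F) ρ c1).1 ∈ V := ⟨c1, by omega, rfl⟩
    have hV2 : (orb (↑F) ρ c2).1 ∈ V := ⟨c2, by omega, rfl⟩
    simp only [orb_succ] at hch1 hch2
    obtain ⟨h1, h2⟩ := hc3 _ _ hV1 hV2 hch1 hch2
    obtain ⟨h3, -⟩ := hc3 _ _ hV2 hV1 hch2 hch1
    have h4 : (orb (↑F) ρ c1).1 ≠ (orb (↑F) ρ c2).1 := fun h =>
      hr1 c1 c2 (by omega) (by omega) (h2 h)
    have h5 : ((orb (↑F) ρ c1).1 = p ∧ (orb (↑F) ρ c2).1 = q) ∨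
      ((orb (↑F) ρ c1).1 = q ∧ (orb (↑F) ρ c2).1 = p) := by
      rcases h1 with h1 | h1 <;> rcases h3 with h3 | h3
      · exact absurd (h1.trans h3.symm) h4
      · exact Or.inl ⟨h1, h3⟩
      · exact Or.inr ⟨h1, h3⟩
      · exact absurd (h1.trans h3.symm) h4
    have h6 : c2 ≠ t0 := by
      rintro rfl
      have h7 : (orb (↑F) ρ c2).1 = ((0, 0) : Vtx) := by rw [hR.mid]; rfl
      have h8 : ((0, 0) : Vtx) ∈ Lp p q := by
        rcases h3 with h3 | h3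
        · rw [← h7, h3]; exact lp_left _ _
        · rw [← h7, h3]; exact lp_right _ _
      have h9 := lp_rect h8
      have h10 := (hfr _ h9.1 h9.2).1
      have h11 : sd ((0, 0) : Vtx) (0, 0) = 0 := by simp [sd]
      omega
    refine hfirst c2 (by omega) (by omega) ?_
    exact gte_of (by omega) hfr hpqw hs2 hc1t
      (ox_pot hWKA hOXW hF hμ (by omega) (hr2 c1)) h5
  · intro e he h
    apply hc2 e he
    rintro ⟨h1, h2⟩
    have h3 := hd _ h1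
    have h4 := hd _ h2
    omega

end Pool.Agent.Y989.FR.K2
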