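import Pool.Agent.Y989.FR.Stm

/-!
# The short paths (first horizontal, then vertical): walks, additivity, refinement
-/

set_option autoImplicit false

namespace Pool.Agent.Y989.FR.L

open Pool.Agent.Y989.FR H974 H12S Finset H984P H984N

theorem Wk.congr' {G : Set Edg} {a b : Vtx} {φ ψ : Vtx → ℤ} (h : Wk G a b φ) (hφ : ∀ f, φ f = ψ f) :
    Wk G a b ψ := by
  have : φ = ψ := funext hφ
  rwa [← this]

theorem mem_Lp' {p q x : Vtx} : x ∈ Lp p q ↔ (x.2 = p.2 ∧ min p.1 q.1 ≤ x.1 ∧ x.1 ≤ max p.1 q.1) ∨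
    (x.1 = q.1 ∧ min p.2 q.2 ≤ x.2 ∧ x.2 ≤ max p.2 q.2) := Iff.rfl

theorem mem_Inn2' {C : Set Vtx} {e : Edg} : e ∈ Inn2 C ↔ src e ∈ C ∧ tgt e ∈ C := Iff.rfl

/-- walk to the right -/
theorem wk_right (G : Set Edg) (x y : ℤ) (n : ℕ)
    (h : ∀ k : ℕ, k < n → ((x + k, y, true) : Edg) ∈ G) :
    Wk G (x, y) (x + n, y) (fun _ => 0) := by
  induction n with
  | zero =>
    have := Wk.nil (G := G) (x, y)
    simpa using this
  | succ n ih =>
    have h1 := ih fun k hk => h k (by omega)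
    have h2 := Wk.cons (x, y) (x + n, y) (x + (n + 1 : ℕ), y) _ (x + n, y, true) h1 (h n (by omega))
      (Or.inl ⟨rfl, by rw [tgt_true]; push_cast; rw [add_assoc]⟩)
    refine Wk.congr' h2 fun f => ?_
    simp only [cx]
    split_ifs <;> omega

/-- walk to the left -/
theorem wk_left (G : Set Edg) (x y : ℤ) (n : ℕ)
    (h : ∀ k : ℕ, k < n → ((x - k - 1, y, true) : Edg) ∈ G) :
    Wk G (x, y) (x - n, y) (fun _ => 0) := by
  induction n with
  | zero =>
    have := Wk.nil (G := G) (x, y)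
    simpa using this
  | succ n ih =>
    have h1 := ih fun k hk => h k (by omega)
    have h2 := Wk.cons (x, y) (x - n, y) (x - (n + 1 : ℕ), y) _ (x - n - 1, y, true) h1
      (h n (by omega)) (Or.inr ⟨by rw [src_mk]; push_cast; rw [sub_sub], by
        rw [tgt_true]; rw [sub_add_cancel]⟩)
    refine Wk.congr' h2 fun f => ?_
    simp only [cx]
    split_ifs <;> omega

/-- walk upwards -/
theorem wk_up (G : Set Edg) (a : Vtx) (φ : Vtx → ℤ) (x y : ℤ) (h0 : Wk G a (x, y) φ) (n : ℕ)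
    (h : ∀ k : ℕ, k < n → ((x, y + k, false) : Edg) ∈ G) :
    Wk G a (x, y + n) (fun f => φ f + if y ≤ f.2 ∧ f.2 < y + n ∧ f.1 < x then 1 else 0) := by
  induction n with
  | zero =>
    have e : ((x, y + ((0 : ℕ) : ℤ)) : Vtx) = (x, y) := by simp
    rw [e]
    refine Wk.congr' h0 fun f => ?_
    split_ifs <;> omega
  | succ n ih =>
    have h1 := ih fun k hk => h k (by omega)
    have h2 := Wk.cons a (x, y + n) (x, y + (n + 1 : ℕ)) _ (x, y + n, false) h1 (h n (by omega))
      (Or.inl ⟨rfl, by rw [tgt_false]; push_cast; rw [add_assoc]⟩)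
    refine Wk.congr' h2 fun f => ?_
    simp only [cx]
    split_ifs <;> omega

/-- walk downwards -/
theorem wk_down (G : Set Edg) (a : Vtx) (φ : Vtx → ℤ) (x y : ℤ) (h0 : Wk G a (x, y) φ) (n : ℕ)
    (h : ∀ k : ℕ, k < n → ((x, y - k - 1, false) : Edg) ∈ G) :
    Wk G a (x, y - n) (fun f => φ f - if y - n ≤ f.2 ∧ f.2 < y ∧ f.1 < x then 1 else 0) := by
  induction n with
  | zero =>
    have e : ((x, y - ((0 : ℕ) : ℤ)) : Vtx) = (x, y) := by simp
    rw [e]
    refine Wk.congr' h0 fun f => ?_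
    split_ifs <;> omega
  | succ n ih =>
    have h1 := ih fun k hk => h k (by omega)
    have h2 := Wk.cons a (x, y - n) (x, y - (n + 1 : ℕ)) _ (x, y - n - 1, false) h1
      (h n (by omega)) (Or.inr ⟨by rw [src_mk]; push_cast; rw [sub_sub], by
        rw [tgt_false]; rw [sub_add_cancel]⟩)
    refine Wk.congr' h2 fun f => ?_
    simp only [cx]
    split_ifs <;> omega

theorem lx_walk (a b : Vtx) : Wk (Inn2 (Lp a b)) a b (fun f => lx f a b) := by
  obtain ⟨a1, a2⟩ := a
  obtain ⟨b1, b2⟩ := b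
  have hor : Wk (Inn2 (Lp (a1, a2) (b1, b2))) (a1, a2) (b1, a2) (fun _ => 0) := by
    rcases le_total a1 b1 with h | h
    · have h1 := wk_right (Inn2 (Lp (a1, a2) (b1, b2))) a1 a2 (b1 - a1).toNat (fun k hk => by
        rw [mem_Inn2', src_mk, tgt_true, mem_Lp', mem_Lp']
        dsimp only
        omega)
      have e : a1 + ((b1 - a1).toNat : ℤ) = b1 := by omega
      rwa [e] at h1
    · have h1 := wk_left (Inn2 (Lp (a1, a2) (b1, b2))) a1 a2 (a1 - b1).toNat (fun k hk => by
        rw [mem_Inn2', src_mk, tgt_true, mem_Lp', mem_Lp']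
        dsimp only
        omega)
      have e : a1 - ((a1 - b1).toNat : ℤ) = b1 := by omega
      rwa [e] at h1
  rcases le_total a2 b2 with h | h
  · have h1 := wk_up _ _ _ _ _ hor (b2 - a2).toNat (fun k hk => by
      rw [mem_Inn2', src_mk, tgt_false, mem_Lp', mem_Lp']
      dsimp only
      omega)
    have e : a2 + ((b2 - a2).toNat : ℤ) = b2 := by omega
    rw [e] at h1
    refine Wk.congr' h1 fun f => ?_
    simp only [lx]
    split_ifs <;> omega
  · have h1 := wk_down _ _ _ _ _ hor (a2 - b2).toNat (fun k hk => by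
      rw [mem_Inn2', src_mk, tgt_false, mem_Lp', mem_Lp']
      dsimp only
      omega)
    have e : a2 - ((a2 - b2).toNat : ℤ) = b2 := by omega
    rw [e] at h1
    refine Wk.congr' h1 fun f => ?_
    simp only [lx]
    split_ifs <;> omega

theorem t_LX : S_LX := by
  refine ⟨lx_walk, ?_, ?_, ?_⟩
  · rintro f a b c (h | h | h | h) <;> simp only [lx] <;> split_ifs <;> omega
  · intro f a
    simp only [lx]
    split_ifs <;> omega
  · rintro f a b ⟨x, y, β⟩ (⟨h1, h2⟩ | ⟨h1, h2⟩) <;> subst h1 <;> subst h2 <;> cases β <;>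
      simp only [lx, cx, src_mk, tgt_true, tgt_false] <;> split_ifs <;> omega

theorem subx_aux (V : Set Vtx) (μ : Vtx → ℤ) (f : Vtx) : ∀ (n : ℕ) (p q : Vtx),
    (p.1 - q.1).natAbs + (p.2 - q.2).natAbs ≤ n → p ∈ V → q ∈ V →
    μ q - μ p ≠ lx f p q → ∃ p1 ∈ V, ∃ q1 ∈ V, Lp p1 q1 ⊆ Lp p q ∧ μ q1 - μ p1 ≠ lx f p1 q1 ∧
      ∀ x ∈ Lp p1 q1, x ∈ V → x = p1 ∨ x = q1 := by
  intro n
  induction n with
  | zero =>
    intro p q hn hp hq hne
    refine ⟨p, hp, q, hq, subset_rfl, hne, fun x hx _ => ?_⟩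
    left
    simp only [Lp, Set.mem_ofPred_eq] at hx
    refine Prod.ext ?_ ?_ <;> omega
  | succ n ih =>
    intro p q hn hp hq hne
    by_cases hr : ∃ r ∈ Lp p q, r ∈ V ∧ r ≠ p ∧ r ≠ q
    · obtain ⟨r, hr, hrV, hrp, hrq⟩ := hr
      have hrp' : r.1 ≠ p.1 ∨ r.2 ≠ p.2 := by
        by_contra hcon
        push Not at hcon
        exact hrp (Prod.ext hcon.1 hcon.2)
      have hrq' : r.1 ≠ q.1 ∨ r.2 ≠ q.2 := by
        by_contra hcon
        push Not at hcon
        exact hrq (Prod.ext hcon.1 hcon.2)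
      simp only [Lp, Set.mem_ofPred_eq] at hr
      have hadd : lx f p q = lx f p r + lx f r q := by
        rcases hr with hr | hr <;> simp only [lx] <;> split_ifs <;> omega
      have hs1 : Lp p r ⊆ Lp p q := by
        intro x hx
        simp only [Lp, Set.mem_ofPred_eq] at hx ⊢
        omega
      have hs2 : Lp r q ⊆ Lp p q := by
        intro x hx
        simp only [Lp, Set.mem_ofPred_eq] at hx ⊢
        omega
      by_cases h1 : μ r - μ p = lx f p r
      · have h2 : μ q - μ r ≠ lx f r q := by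
          intro h2
          apply hne
          omega
        obtain ⟨p1, hp1, q1, hq1, hs, h3, h4⟩ := ih r q (by omega) hrV hq h2
        exact ⟨p1, hp1, q1, hq1, hs.trans hs2, h3, h4⟩
      · obtain ⟨p1, hp1, q1, hq1, hs, h3, h4⟩ := ih p r (by omega) hp hrV h1
        exact ⟨p1, hp1, q1, hq1, hs.trans hs1, h3, h4⟩
    · push Not at hr
      refine ⟨p, hp, q, hq, subset_rfl, hne, fun x hx hxV => ?_⟩
      by_cases hxp : x = p
      · exact Or.inl hxp
      · exact Or.inr (hr x hx hxV hxp)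

theorem t_SUBX : S_SUBX := fun V μ f p q hp hq hne => subx_aux V μ f _ p q le_rfl hp hq hne

end Pool.Agent.Y989.FR.L
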