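import Pool.Agent.Y989.FR.Stm

/-! # NOG: no gates imply a thick path -/

set_option autoImplicit false

namespace Pool.Agent.Y989.FR.NOG

open Pool.Agent.Y989.FR H974 H12S Finset H984P H984N

theorem sd_le_iff (u v : Vtx) (t : ℤ) :
    sd u v ≤ t ↔ (u.1 - v.1 ≤ t ∧ v.1 - u.1 ≤ t) ∧ (u.2 - v.2 ≤ t ∧ v.2 - u.2 ≤ t) := by
  unfold sd
  rw [max_le_iff, abs_le, abs_le]
  constructor
  · rintro ⟨⟨h1, h2⟩, h3, h4⟩; refine ⟨⟨?_, ?_⟩, ?_, ?_⟩ <;> omega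
  · rintro ⟨⟨h1, h2⟩, h3, h4⟩; refine ⟨⟨?_, ?_⟩, ?_, ?_⟩ <;> omega

theorem le_sd_iff (u v : Vtx) (t : ℤ) :
    t ≤ sd u v ↔ (t ≤ u.1 - v.1 ∨ t ≤ v.1 - u.1) ∨ (t ≤ u.2 - v.2 ∨ t ≤ v.2 - u.2) := by
  unfold sd
  rw [le_max_iff, le_abs, le_abs]
  constructor
  · rintro ((h | h) | (h | h)) <;> omega
  · rintro ((h | h) | (h | h)) <;> omega

/-- The correction between the two kinds of crossing numbers. -/
def gg (x : Vtx) : ℤ := if 1 ≤ x.2 ∧ x.2 ≤ x.1 then 1 else 0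

theorem fact (v w : Vtx) (h1 : |v.1 - w.1| ≤ 1) (h2 : |v.2 - w.2| ≤ 1)
    (hv : 2 ≤ sd v (0, 0)) (hw : 2 ≤ sd w (0, 0)) :
    lx (0, 0) v w = crv v w + gg w - gg v := by
  obtain ⟨a, b⟩ := v
  obtain ⟨c, d⟩ := w
  rw [le_sd_iff] at hv hw
  rw [abs_le] at h1 h2
  simp only [lx, crv, crd, gg] at *
  split_ifs <;> omega

theorem four (v w c c' : Vtx) (r D1 D2 : ℤ) (h1 : |v.1 - w.1| ≤ 1) (h2 : |v.2 - w.2| ≤ 1)
    (hv : 2 ≤ sd v (0, 0)) (hv' : r - 1 ≤ sd v (0, 0))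
    (hD1 : sd v c ≤ D1) (hD2 : sd w c' ≤ D2) (hr1 : 16 * D1 ≤ r) (hr2 : 16 * D2 ≤ r) :
    ((c.1 ≤ 0 ∧ c'.1 ≤ 0 ∧ v.1 ≤ 0 ∧ w.1 ≤ 0) ∨ (0 < c.1 ∧ 0 < c'.1 ∧ 0 < v.1 ∧ 0 < w.1)) ∨
      (c.2 ≤ 0 ∧ c'.2 ≤ 0 ∧ v.2 ≤ 0 ∧ w.2 ≤ 0) ∨ (0 < c.2 ∧ 0 < c'.2 ∧ 0 < v.2 ∧ 0 < w.2) := by
  obtain ⟨a, b⟩ := v
  obtain ⟨a', b'⟩ := w
  obtain ⟨x, y⟩ := c
  obtain ⟨x', y'⟩ := c'
  rw [sd_le_iff] at hD1 hD2
  rw [abs_le] at h1 h2
  have hm : max 2 (r - 1) ≤ sd (a, b) (0, 0) := max_le hv hv'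
  rw [le_sd_iff] at hm
  simp only at *
  have e1 : 2 ≤ max 2 (r - 1) := le_max_left _ _
  have e2 : r - 1 ≤ max 2 (r - 1) := le_max_right _ _
  generalize max 2 (r - 1) = R at *
  clear hv hv'
  rcases hm with (h | h) | (h | h)
  · left; right; omega
  · left; left; omega
  · right; right; omega
  · right; left; omega

theorem sd_comm (u v : Vtx) : sd u v = sd v u := by
  unfold sd; rw [abs_sub_comm, abs_sub_comm u.2]

theorem sd_nonneg (u v : Vtx) : 0 ≤ sd u v := by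
  unfold sd; exact le_trans (abs_nonneg _) (le_max_left _ _)

theorem sd_tri (u v w : Vtx) : sd u w ≤ sd u v + sd v w := by
  rw [sd_le_iff]
  have h1 := (sd_le_iff u v (sd u v)).1 le_rfl
  have h2 := (sd_le_iff v w (sd v w)).1 le_rfl
  refine ⟨⟨?_, ?_⟩, ?_, ?_⟩ <;> omega

theorem eq_of_sd (u v : Vtx) (h : sd u v ≤ 0) : u = v := by
  rw [sd_le_iff] at h
  ext <;> omega

theorem one_edge (m : ℕ) (F : Set Edg) (μ : Vtx → ℤ) (hLX : S_LX) (hPot : IsPot m F μ)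
    (c c' : Vtx) (hc : c ∈ cl m F) (hc' : c' ∈ cl m F) (e : Edg)
    (he : (src e = c ∧ tgt e = c') ∨ (src e = c' ∧ tgt e = c)) :
    μ c' - μ c = lx (0, 0) c c' := by
  have hw : Wk (Inn2 (cl m F)) c c' (fun f => (fun _ => (0:ℤ)) f + cx f c c') := by
    refine Wk.cons c c c' (fun _ => 0) e (Wk.nil c) ?_ he
    rcases he with ⟨h1, h2⟩ | ⟨h1, h2⟩
    · exact ⟨by rw [h1]; exact hc, by rw [h2]; exact hc'⟩
    · exact ⟨by rw [h1]; exact hc', by rw [h2]; exact hc⟩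
  have h := hPot _ _ _ hw
  rw [hLX.2.2.2 (0, 0) c c' e he, h]
  simp

theorem key (hLX : S_LX) (hDIAG : S_DIAG) (M B k m : ℕ) (F : Set Edg) (μ : Vtx → ℤ)
    (hM : 16 ≤ M) (hB : 1 ≤ B) (hk : 3 ≤ k) (hkm : 4 * k ≤ m) (hAcc : Acc m F)
    (hPot : IsPot m F μ)
    (hG : ∀ a ∈ cl m F, ∀ b ∈ cl m F, 1 ≤ sd a (0, 0) → sd a (0, 0) ≤ 2 * k → 2 ≤ sd a b →
      (M : ℤ) * ((8 * k : ℕ) : ℤ) ^ (B - 1) * sd a b ≤ 4 * (4 * sd a (0, 0)) ^ B →
      μ b - μ a = lx (0, 0) a b)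
    (v w c c' : Vtx) (hc : c ∈ cl m F) (hc' : c' ∈ cl m F)
    (h1 : |v.1 - w.1| ≤ 1) (h2 : |v.2 - w.2| ≤ 1)
    (hv2 : 2 ≤ sd v (0, 0)) (hvk : sd v (0, 0) ≤ k)
    (hw2 : 2 ≤ sd w (0, 0)) (hwk : sd w (0, 0) ≤ k)
    (hvc : (M : ℤ) * ((8 * k : ℕ) : ℤ) ^ (B - 1) * sd v c ≤ sd v (0, 0) ^ B)
    (hwc : (M : ℤ) * ((8 * k : ℕ) : ℤ) ^ (B - 1) * sd w c' ≤ sd w (0, 0) ^ B) :
    (μ c' - μ c = lx (0, 0) c c') ∧ ∃ r : ℤ, r - 1 ≤ sd v (0, 0) ∧ 16 * sd v c ≤ r ∧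
      16 * sd w c' ≤ r := by
  have hvw : sd v w ≤ 1 := by
    rw [sd_le_iff]; rw [abs_le] at h1 h2; refine ⟨⟨?_, ?_⟩, ?_, ?_⟩ <;> omega
  set r : ℤ := max (sd v (0, 0)) (sd w (0, 0)) with hr
  have hrv : sd v (0, 0) ≤ r := le_max_left _ _
  have hrw : sd w (0, 0) ≤ r := le_max_right _ _
  have hrk : r ≤ k := max_le hvk hwk
  have hr1 : r - 1 ≤ sd v (0, 0) := by
    have : r ≤ sd v (0, 0) + 1 := by
      refine max_le (by omega) ?_
      have := sd_tri w v (0, 0)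
      rw [sd_comm w v] at this
      omega
    omega
  have hr1' : r - 1 ≤ sd w (0, 0) := by
    have : r ≤ sd w (0, 0) + 1 := by
      refine max_le ?_ (by omega)
      have := sd_tri v w (0, 0)
      omega
    omega
  have hr2 : 2 ≤ r := le_trans hv2 hrv
  have hr0 : 0 ≤ r := by omega
  obtain ⟨B', rfl⟩ : ∃ B', B = B' + 1 := ⟨B - 1, by omega⟩
  simp only [Nat.add_sub_cancel] at *
  set Q : ℤ := ((8 * k : ℕ) : ℤ) ^ B' with hQ
  have hQpos : 0 < Q := by positivity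
  have hrQ : r ^ (B' + 1) ≤ r * Q := by
    rw [pow_succ, mul_comm]
    refine mul_le_mul_of_nonneg_left ?_ hr0
    refine pow_le_pow_left₀ hr0 ?_ _
    push_cast
    omega
  have hvr : sd v (0, 0) ^ (B' + 1) ≤ r ^ (B' + 1) :=
    pow_le_pow_left₀ (sd_nonneg _ _) hrv _
  have hwr : sd w (0, 0) ^ (B' + 1) ≤ r ^ (B' + 1) :=
    pow_le_pow_left₀ (sd_nonneg _ _) hrw _
  have hMz : (16 : ℤ) ≤ M := by exact_mod_cast hM
  have bnd : ∀ s : ℤ, 0 ≤ s → (M : ℤ) * Q * s ≤ r ^ (B' + 1) → 16 * s ≤ r := by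
    intro s hs h
    have h3 : (M : ℤ) * s * Q ≤ r * Q := by
      calc (M : ℤ) * s * Q = M * Q * s := by ring
        _ ≤ r ^ (B' + 1) := h
        _ ≤ r * Q := hrQ
    have h4 : (M : ℤ) * s ≤ r := le_of_mul_le_mul_right h3 hQpos
    nlinarith
  have hP1 : (M : ℤ) * Q * sd v c ≤ r ^ (B' + 1) := hvc.trans hvr
  have hP2 : (M : ℤ) * Q * sd w c' ≤ r ^ (B' + 1) := hwc.trans hwr
  have hD1 : 16 * sd v c ≤ r := bnd _ (sd_nonneg _ _) hP1
  have hD2 : 16 * sd w c' ≤ r := bnd _ (sd_nonneg _ _) hP2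
  refine ⟨?_, r, hr1, hD1, hD2⟩
  have hPpos : 0 < (M : ℤ) * Q := by positivity
  have n1 := sd_nonneg v c
  have n2 := sd_nonneg w c'
  -- distance of `c` and `c'`
  have hcO : sd v (0, 0) ≤ sd v c + sd c (0, 0) := sd_tri _ _ _
  have hcO' : sd w (0, 0) ≤ sd w c' + sd c' (0, 0) := sd_tri _ _ _
  have hcO2 : sd c (0, 0) ≤ sd v c + sd v (0, 0) := by
    have := sd_tri c v (0, 0); rw [sd_comm c v] at this; exact this
  have hcc : sd c c' ≤ sd v c + 1 + sd w c' := by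
    have t1 := sd_tri c v c'
    have t2 := sd_tri v w c'
    rw [sd_comm c v] at t1
    omega
  by_cases hfar : 2 ≤ sd c c'
  · refine hG c hc c' hc' ?_ ?_ hfar ?_
    · omega
    · omega
    · have hPr : (M : ℤ) * Q ≤ r ^ (B' + 1) := by
        have : 1 ≤ sd v c ∨ 1 ≤ sd w c' := by omega
        rcases this with h | h
        · calc (M : ℤ) * Q = M * Q * 1 := by ring
            _ ≤ M * Q * sd v c := mul_le_mul_of_nonneg_left h hPpos.le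
            _ ≤ _ := hP1
        · calc (M : ℤ) * Q = M * Q * 1 := by ring
            _ ≤ M * Q * sd w c' := mul_le_mul_of_nonneg_left h hPpos.le
            _ ≤ _ := hP2
      have h3 : (M : ℤ) * Q * sd c c' ≤ 3 * r ^ (B' + 1) := by
        calc (M : ℤ) * Q * sd c c' ≤ M * Q * (sd v c + 1 + sd w c') :=
              mul_le_mul_of_nonneg_left hcc hPpos.le
          _ = M * Q * sd v c + M * Q + M * Q * sd w c' := by ring
          _ ≤ 3 * r ^ (B' + 1) := by linarith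
      have h4 : r ^ (B' + 1) ≤ (4 * sd c (0, 0)) ^ (B' + 1) :=
        pow_le_pow_left₀ hr0 (by omega) _
      have h5 : 0 ≤ r ^ (B' + 1) := by positivity
      linarith
  · have hnear : sd c c' ≤ 1 := by omega
    have big : ∀ (x y : Vtx), 2 ≤ sd x (0, 0) → r - 1 ≤ sd x (0, 0) →
        (M : ℤ) * Q * sd x y ≤ r ^ (B' + 1) → 16 * sd x y ≤ r → 2 ≤ sd y (0, 0) := by
      intro x y hx hx' hxy hxy'
      have := sd_tri x y (0, 0)
      have n := sd_nonneg x y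
      by_cases h0 : sd x y = 0
      · omega
      · omega
    have hnear' := (sd_le_iff _ _ _).1 hnear
    have ac : |c.1 - c'.1| ≤ 1 := by rw [abs_le]; constructor <;> omega
    have ac' : |c.2 - c'.2| ≤ 1 := by rw [abs_le]; constructor <;> omega
    by_cases e1 : c.1 = c'.1
    · by_cases e2 : c.2 = c'.2
      · have : c = c' := Prod.ext e1 e2
        subst this
        rw [hLX.2.2.1]; ring
      · have : c'.2 = c.2 + 1 ∨ c.2 = c'.2 + 1 := by omega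
        rcases this with h | h
        · refine one_edge m F μ hLX hPot c c' hc hc' (c.1, c.2, false) (Or.inl ⟨?_, ?_⟩)
          · simp [src]
          · simp [tgt]; ext <;> simp [h, e1]
        · refine one_edge m F μ hLX hPot c c' hc hc' (c'.1, c'.2, false) (Or.inr ⟨?_, ?_⟩)
          · simp [src]
          · simp [tgt]; ext <;> simp [h, e1]
    · by_cases e2 : c.2 = c'.2
      · have : c'.1 = c.1 + 1 ∨ c.1 = c'.1 + 1 := by omega
        rcases this with h | h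
        · refine one_edge m F μ hLX hPot c c' hc hc' (c.1, c.2, true) (Or.inl ⟨?_, ?_⟩)
          · simp [src]
          · simp [tgt]; ext <;> simp [h, e2]
        · refine one_edge m F μ hLX hPot c c' hc hc' (c'.1, c'.2, true) (Or.inr ⟨?_, ?_⟩)
          · simp [src]
          · simp [tgt]; ext <;> simp [h, e2]
      · refine hDIAG m F μ c c' (by omega) hAcc hPot hc hc' ?_ ?_ ?_ ?_
        · refine le_antisymm ac (Int.one_le_abs (by omega))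
        · refine le_antisymm ac' (Int.one_le_abs (by omega))
        · exact big v c hv2 hr1 hP1 hD1
        · exact big w c' hw2 hr1' hP2 hD2

theorem t_NOG : S_JR → S_LX → S_DIAG → S_NOG := by
  classical
  intro hJR hLX hDIAG M B k m F μ hM hB hk hkm hAcc hPot hG
  set W : Set Vtx := {x | ∃ c ∈ cl m F, ¬ Awy M B k (0, 0) c x} with hW
  have hch : ∀ x : Vtx, ∃ c : Vtx, x ∈ W → c ∈ cl m F ∧
      (M : ℤ) * ((8 * k : ℕ) : ℤ) ^ (B - 1) * sd x c ≤ sd x (0, 0) ^ B := by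
    intro x
    by_cases hx : x ∈ W
    · obtain ⟨c, hc, hcx⟩ := hx
      refine ⟨c, fun _ => ⟨hc, ?_⟩⟩
      unfold Awy at hcx
      exact not_lt.1 hcx
    · exact ⟨x, fun h => absurd h hx⟩
  choose cc hcc using hch
  have hmain := hJR W (fun x => μ (cc x) + lx (0, 0) (cc x) x - gg x) 2 k (by norm_num)
    (by omega) ?_
  · obtain ⟨x, hx, y, hy, hR⟩ := hmain
    refine ⟨x, hx, y, hy, ?_⟩
    have hS : {e | e ∈ AE (0, 0) 2 k ∧ (∀ c ∈ cl m F, Awy M B k (0, 0) c (src e)) ∧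
        ∀ c ∈ cl m F, Awy M B k (0, 0) c (tgt e)} =
        {e | e ∈ AE (0, 0) 2 k ∧ src e ∉ W ∧ tgt e ∉ W} := by
      ext e
      simp only [Set.mem_ofPred_eq, hW]
      push Not
      rfl
    rw [hS]
    exact hR
  · intro v w hv hw h1 h2 hv' hw'
    obtain ⟨hc, hvc⟩ := hcc v hv
    obtain ⟨hc', hwc⟩ := hcc w hw
    have hv2 : (2 : ℤ) ≤ sd v (0, 0) := by exact_mod_cast hv'.1
    have hw2 : (2 : ℤ) ≤ sd w (0, 0) := by exact_mod_cast hw'.1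
    obtain ⟨hk1, r, hr1, hr2, hr3⟩ := key hLX hDIAG M B k m F μ hM hB hk hkm hAcc hPot hG
      v w (cc v) (cc w) hc hc' h1 h2 hv2 hv'.2 hw2 hw'.2 hvc hwc
    have h4 := four v w (cc v) (cc w) r _ _ h1 h2 hv2 hr1 le_rfl le_rfl hr2 hr3
    have hf := fact v w h1 h2 hv2 hw2
    have ha1 : lx (0, 0) (cc v) w = lx (0, 0) (cc v) (cc w) + lx (0, 0) (cc w) w := by
      refine hLX.2.1 (0, 0) _ _ _ ?_
      rcases h4 with (h | h) | (h | h)
      · left; exact ⟨h.1, h.2.1, h.2.2.2⟩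
      · right; left; exact ⟨h.1, h.2.1, h.2.2.2⟩
      · right; right; left; exact ⟨h.1, h.2.1, h.2.2.2⟩
      · right; right; right; exact ⟨h.1, h.2.1, h.2.2.2⟩
    have ha2 : lx (0, 0) (cc v) w = lx (0, 0) (cc v) v + lx (0, 0) v w := by
      refine hLX.2.1 (0, 0) _ _ _ ?_
      rcases h4 with (h | h) | (h | h)
      · left; exact ⟨h.1, h.2.2.1, h.2.2.2⟩
      · right; left; exact ⟨h.1, h.2.2.1, h.2.2.2⟩
      · right; right; left; exact ⟨h.1, h.2.2.1, h.2.2.2⟩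
      · right; right; right; exact ⟨h.1, h.2.2.1, h.2.2.2⟩
    linarith

end Pool.Agent.Y989.FR.NOG
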