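import Pool.Agent.Y989.FR.Stm
import Pool.Agent.H984R3.Per.Basic

/-!
# The interface as a walk; elementary properties of runs
-/

set_option autoImplicit false

namespace Pool.Agent.Y989.FR.OX

open Pool.Agent.Y989.FR H974 H12S Finset H984P H984N

theorem cx_self (f a : Vtx) : cx f a a = 0 := by
  unfold cx
  exact sub_self _

theorem t_OXW : S_OXW := by
  intro F ρ i j hij
  induction j, hij using Nat.le_induction with
  | base =>
    have : (fun f => ox F ρ f i i) = fun _ => 0 := by
      funext f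
      simp [ox]
    rw [this]
    exact Wk.nil _
  | succ j hij ih =>
    have h1 : (fun f => ox F ρ f i (j + 1)) =
        fun f => ox F ρ f i j + cx f (orb F ρ j).1 (orb F ρ (j + 1)).1 := by
      funext f
      unfold ox
      rw [Finset.sum_Ico_succ_top hij]
    rw [h1]
    by_cases h : ae (orb F ρ j) ∈ F
    · refine Wk.cons _ _ (orb F ρ (j + 1)).1 _ (ae (orb F ρ j)) ih h ?_
      rw [orb_succ, nxt_open h]
      exact p2_ends _
    · have h2 : (orb F ρ (j + 1)).1 = (orb F ρ j).1 := by
        rw [orb_succ, nxt_closed h, p2_rt_fst]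
      have h3 : (fun f => ox F ρ f i j + cx f (orb F ρ j).1 (orb F ρ (j + 1)).1) =
          fun f => ox F ρ f i j := by
        funext f
        rw [h2, cx_self, add_zero]
      rw [h3, h2]
      exact ih

theorem orb_inj {F : Set Edg} {σ τ : St} (s : ℕ) (h : orb F σ s = orb F τ s) : σ = τ := by
  unfold orb at h
  exact (nxt_bij F).1.iterate s h

theorem mem_box {m : ℕ} {e : Edg} (h : InF m (dsrc e) ∨ InF m (dtgt e)) : e ∈ boxE m := by
  obtain ⟨x, y, t⟩ := e
  unfold boxE
  cases t
  · simp only [dsrc_false, dtgt_mk, InF] at h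
    rw [mem_RE_false]; omega
  · simp only [dsrc_true, dtgt_mk, InF] at h
    rw [mem_RE_true]; omega

theorem two_states (σ τ : St) (h : ae σ = ae τ) (hne : σ ≠ τ) :
    σ.1 ≠ τ.1 ∧ face (rt σ) = face τ ∧ face (rt τ) = face σ := by
  obtain ⟨⟨x, y⟩, q⟩ := σ
  obtain ⟨⟨x', y'⟩, q'⟩ := τ
  cases q <;> cases q' <;> simp only [ae_ne, ae_nw, ae_sw, ae_se, Prod.mk.injEq, and_true,
    reduceCtorEq, and_false, Bool.true_eq_false, Bool.false_eq_true, ne_eq] at h hne
  all_goals try exact absurd h hne
  all_goals simp only [face_ne, face_nw, face_sw, face_se, rt_ne, rt_nw, rt_sw, rt_se,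
    Prod.mk.injEq, ne_eq]
  all_goals try (exfalso; apply hne; omega)
  all_goals omega

theorem reach_t {m : ℕ} {F : Finset Edg} (hF : F ⊆ boxE m) (σ : St) (s : ℕ) :
    Reach ((F : Set Edg) ∩ ↑(boxE m)) σ.1 (orb ↑F σ s).1 := by
  have h := orb_reach (F := (F : Set Edg)) (W := Set.univ) (σ := σ) (T := s)
    (fun _ _ => Set.mem_univ _) le_rfl
  refine h.mono ?_
  intro e he
  exact ⟨he.1, by exact_mod_cast hF (by exact_mod_cast he.1)⟩

theorem t_RUN : S_RUN := by
  intro m F ρ t0 T hF hm hr
  have h1 : ∀ i j, i < j → j < T → orb ↑F ρ i ≠ orb ↑F ρ j := by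
    intro i j hij hj h
    obtain ⟨d, rfl⟩ := Nat.exists_eq_add_of_lt hij
    have h2 : orb (F : Set Edg) ρ (i + d + 1) = orb ↑F (orb ↑F ρ (d + 1)) i := by
      rw [← orb_add]
      congr 1
    rw [h2] at h
    have h3 := orb_inj i h
    apply hr.out0
    rw [h3]
    exact hr.ins (d + 1) (by omega) (by omega)
  refine ⟨h1, ?_, ?_, ?_⟩
  · intro t
    change Reach ((F : Set Edg) ∩ ↑(boxE m)) (0, 0) (orb ↑F ρ t).1
    have hmid : (orb (F : Set Edg) ρ t0).1 = (0, 0) := by rw [hr.mid]; rfl
    rcases le_total t0 t with h | h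
    · obtain ⟨d, rfl⟩ := Nat.exists_eq_add_of_le h
      have h2 := reach_t hF (orb (F : Set Edg) ρ t0) d
      rw [← orb_add, hmid, add_comm d t0] at h2
      exact h2
    · obtain ⟨d, rfl⟩ := Nat.exists_eq_add_of_le h
      have h2 := reach_t hF (orb (F : Set Edg) ρ t) d
      rw [← orb_add, add_comm d t, hmid] at h2
      exact h2.symm
  · intro t ht
    by_cases he : ae (orb (F : Set Edg) ρ t) ∈ F
    · exact hF he
    · have he' : ae (orb (F : Set Edg) ρ t) ∉ (F : Set Edg) := by exact_mod_cast he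
      apply mem_box
      rcases Nat.eq_zero_or_pos t with h0 | h0
      · subst h0
        have h2 : 1 < T := lt_of_le_of_lt hr.lt1 hr.lt2
        have h3 := hr.ins 1 le_rfl h2
        have h4 : orb (F : Set Edg) ρ 1 = rt (orb ↑F ρ 0) := by
          rw [orb_succ, nxt_closed he']
        rw [h4] at h3
        rcases p2_dends (orb (F : Set Edg) ρ 0) with h5 | h5
        · exact Or.inr (by rw [h5.2]; exact h3)
        · exact Or.inl (by rw [h5.1]; exact h3)
      · have h3 := hr.ins t h0 ht
        rcases p2_dends (orb (F : Set Edg) ρ t) with h5 | h5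
        · exact Or.inl (by rw [h5.1]; exact h3)
        · exact Or.inr (by rw [h5.2]; exact h3)
  · intro i j hij hj hae hc
    have hc' : ae (orb (F : Set Edg) ρ j) ∉ (F : Set Edg) := by exact_mod_cast hc
    have hci : ae (orb (F : Set Edg) ρ i) ∉ (F : Set Edg) := by rw [hae]; exact hc'
    have h2 := two_states _ _ hae (h1 i j hij hj)
    rw [orb_succ, orb_succ, nxt_closed hc', nxt_closed hci]
    exact h2

end Pool.Agent.Y989.FR.OX
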