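import Pool.Agent.Y989.FR.Stm

/-!
# One-point lower bound with separated arms and a thick path
-/

set_option autoImplicit false

namespace Pool.Agent.Y989.FR.P3

open Pool.Agent.Y989.FR H974 H12S Finset H984P H984N

theorem RE_ends {a b c d : ℤ} {e : Edg} (he : e ∈ RE a b c d) :
    inR a b c d (src e) ∧ inR a b c d (tgt e) := by
  obtain ⟨x, y, _ | _⟩ := e
  · rw [mem_RE_false] at he
    simp only [src_mk, tgt_false, inR]
    omega
  · rw [mem_RE_true] at he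
    simp only [src_mk, tgt_true, inR]
    omega

theorem RE_of_ends {a b c d : ℤ} {e : Edg} (h1 : inR a b c d (src e))
    (h2 : inR a b c d (tgt e)) : e ∈ RE a b c d := by
  obtain ⟨x, y, _ | _⟩ := e
  · rw [mem_RE_false]
    simp only [src_mk, tgt_false, inR] at h1 h2
    omega
  · rw [mem_RE_true]
    simp only [src_mk, tgt_true, inR] at h1 h2
    omega

/-- The box. -/
def BX (c : ℤ × ℤ) (d : ℕ) (v : Vtx) : Prop := inR (c.1 - d) (c.1 + d) (c.2 - d) (c.2 + d) v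

theorem adj_near {G : Set Edg} {u v : Vtx} (h : Adj G u v) :
    (v.1 = u.1 ∧ (v.2 = u.2 + 1 ∨ v.2 = u.2 - 1)) ∨ (v.2 = u.2 ∧ (v.1 = u.1 + 1 ∨ v.1 = u.1 - 1)) := by
  obtain ⟨⟨x, y, b⟩, _, h⟩ := h
  obtain ⟨u1, u2⟩ := u
  obtain ⟨v1, v2⟩ := v
  cases b
  · simp only [src_mk, tgt_false, Prod.mk.injEq] at h ⊢
    omega
  · simp only [src_mk, tgt_true, Prod.mk.injEq] at h ⊢
    omega

theorem mem_bdB_iff {c : ℤ × ℤ} {d : ℕ} {u : Vtx} : u ∈ bdB c d ↔ BX c d u ∧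
    (u.1 = c.1 - d ∨ u.1 = c.1 + d ∨ u.2 = c.2 - d ∨ u.2 = c.2 + d) := by
  have key : ∀ a : ℤ, (|a| ≤ (d : ℤ) ↔ (-(d : ℤ) ≤ a ∧ a ≤ d)) ∧
      (|a| = (d : ℤ) ↔ (a = d ∨ a = -(d : ℤ))) := fun a =>
    ⟨abs_le, abs_eq (Int.natCast_nonneg d)⟩
  unfold bdB BX inR
  rw [Set.mem_ofPred_eq, (key _).1, (key _).1, (key _).2, (key _).2]
  omega

theorem bdB_of_step {c : ℤ × ℤ} {d : ℕ} {G : Set Edg} {u v : Vtx} (h : Adj G u v)
    (hu : BX c d u) (hv : ¬ BX c d v) : u ∈ bdB c d := by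
  have h1 := adj_near h
  rw [mem_bdB_iff]
  refine ⟨hu, ?_⟩
  unfold BX inR at hu hv
  omega

/-- last exit -/
theorem lastX {G : Set Edg} {c : ℤ × ℤ} {d : ℕ} {x w : Vtx} (hx : BX c d x) (h : Reach G x w) :
    BX c d w ∨ ∃ u ∈ bdB c d, Reach G x u ∧ Reach (G \ ↑(blk c d)) u w := by
  induction h with
  | refl => exact Or.inl hx
  | @tail w w' hw hs ih =>
    by_cases hw' : BX c d w'
    · exact Or.inl hw'
    right
    have hne : Adj (G \ ↑(blk c d)) w w' := by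
      obtain ⟨e, he, hc⟩ := hs
      refine ⟨e, ⟨he, fun hm => hw' ?_⟩, hc⟩
      have h2 := RE_ends (Finset.mem_coe.1 hm)
      rcases hc with ⟨h3, h4⟩ | ⟨h3, h4⟩
      · rw [← h4]; exact h2.2
      · rw [← h3]; exact h2.1
    by_cases hwB : BX c d w
    · exact ⟨w, bdB_of_step hs hwB hw', hw, Adj.reach hne⟩
    · rcases ih with ih | ⟨u, hu, h1, h2⟩
      · exact absurd ih hwB
      · exact ⟨u, hu, h1, h2.trans (Adj.reach hne)⟩

/-- first exit -/
theorem firstX {G : Set Edg} {c : ℤ × ℤ} {k : ℕ} {u w : Vtx} (hu : BX c k u) (h : Reach G u w) :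
    (BX c k w ∧ Reach (G ∩ ↑(blk c k)) u w) ∨ ∃ y ∈ bdB c k, Reach (G ∩ ↑(blk c k)) u y := by
  induction h with
  | refl => exact Or.inl ⟨hu, Reach.refl _ _⟩
  | @tail w w' _ hs ih =>
    rcases ih with ⟨h1, h2⟩ | ih
    · by_cases hw' : BX c k w'
      · left
        refine ⟨hw', h2.trans (Adj.reach ?_)⟩
        obtain ⟨e, he, hc⟩ := hs
        refine ⟨e, ⟨he, Finset.mem_coe.2 ?_⟩, hc⟩
        rcases hc with ⟨h3, h4⟩ | ⟨h3, h4⟩
        · exact RE_of_ends (by rw [h3]; exact h1) (by rw [h4]; exact hw')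
        · exact RE_of_ends (by rw [h3]; exact hw') (by rw [h4]; exact h1)
      · right
        exact ⟨w, bdB_of_step hs h1 hw', h2⟩
    · exact Or.inr ih

theorem blk_sub {c : ℤ × ℤ} {d k : ℕ} (hdk : d ≤ k) : blk c d ⊆ blk c k := by
  intro e he
  unfold blk at he ⊢
  have h := RE_ends he
  apply RE_of_ends
  · unfold inR at h ⊢
    omega
  · unfold inR at h ⊢
    omega

theorem bx_zero (k : ℕ) : BX (0, 0) k (0, 0) := by
  unfold BX inR
  simp

/-- the deterministic part: two arms and a thick path give three arms -/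
theorem det {M B k n : ℕ} {F : Set Edg} (hk : 3 ≤ k) (hn : 8 * k < n)
    (hA : H985T.A2g n (0, 0) F) (hT : Tk M B k (0, 0) F) : A3v (0, 0) 2 k F := by
  obtain ⟨⟨u0, hu0, hr0⟩, -⟩ := hA
  have hr : Reach F (0, 0) u0 := hr0.mono Set.inter_subset_left
  have hout : ∀ d : ℕ, d < n → ¬ BX (0, 0) d u0 := by
    intro d hd h
    obtain ⟨h1, h2⟩ := hu0
    unfold BX at h
    unfold inR at h h1
    simp only at h
    omega
  obtain ⟨y, hy, hOy⟩ : ∃ y ∈ bdB (0, 0) (8 * k), Reach (F ∩ ↑(blk (0, 0) (8 * k))) (0, 0) y := by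
    rcases firstX (bx_zero (8 * k)) hr with h | h
    · exact absurd h.1 (hout _ hn)
    · exact h
  obtain ⟨w, hw, hOw⟩ : ∃ w ∈ bdB (0, 0) k, Reach (F ∩ ↑(blk (0, 0) k)) (0, 0) w := by
    rcases firstX (bx_zero k) hr with h | h
    · exact absurd h.1 (hout _ (by omega))
    · exact h
  obtain ⟨u, hu, hOu, huw⟩ : ∃ u ∈ bdB (0, 0) 2, Reach (F ∩ ↑(blk (0, 0) k)) (0, 0) u ∧
      Reach ((F ∩ ↑(blk (0, 0) k)) \ ↑(blk (0, 0) 2)) u w := by
    rcases lastX (bx_zero 2) hOw with h | h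
    · exfalso
      rw [mem_bdB_iff] at hw
      obtain ⟨h1, h2⟩ := hw
      unfold BX at h h1
      unfold inR at h h1
      simp only at h h1 h2
      push_cast at h
      omega
    · exact h
  have hsub : blk (0, 0) k ⊆ blk (0, 0) (8 * k) := blk_sub (by omega)
  have hclu : ∀ v, v ∈ Clu (0, 0) 2 k F u → v ∈ BB k (0, 0) F := by
    intro v hv
    refine ⟨y, hy, ?_⟩
    have h1 : Reach (F ∩ ↑(blk (0, 0) (8 * k))) u v := by
      refine Reach.mono ?_ hv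
      rintro e ⟨h1, h2⟩
      refine ⟨h1, ?_⟩
      unfold AE at h2
      rw [Finset.mem_coe, Finset.mem_sdiff] at h2
      exact Finset.mem_coe.2 (hsub h2.1)
    have h2 : Reach (F ∩ ↑(blk (0, 0) (8 * k))) (0, 0) u := by
      refine Reach.mono ?_ hOu
      rintro e ⟨h1, h2⟩
      exact ⟨h1, Finset.mem_coe.2 (hsub (Finset.mem_coe.1 h2))⟩
    exact h1.symm.trans (h2.symm.trans hOy)
  have hself : ∀ v, v ∈ BB k (0, 0) F → ¬ Awy M B k (0, 0) v v := by
    intro v _ h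
    unfold Awy at h
    have h0 : sd v v = 0 := by
      unfold sd
      simp
    have h1 : 0 ≤ sd v (0, 0) := by
      unfold sd
      exact le_max_of_le_left (abs_nonneg _)
    rw [h0, mul_zero] at h
    exact absurd h (not_lt.2 (pow_nonneg h1 B))
  obtain ⟨a, ha, b, hb, hab⟩ := hT
  refine ⟨u, hu, ⟨w, hw, ?_⟩, a, ha, b, hb, ?_⟩
  · refine Reach.mono ?_ huw
    rintro e ⟨⟨h1, h2⟩, h3⟩
    refine ⟨h1, ?_⟩
    unfold AE
    rw [Finset.mem_coe, Finset.mem_sdiff]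
    exact ⟨Finset.mem_coe.1 h2, fun h => h3 (Finset.mem_coe.2 h)⟩
  · refine hab.mono ?_
    rintro e ⟨h1, h2, h3⟩
    refine ⟨h1, fun h => ?_, fun h => ?_⟩
    · exact hself _ (hclu _ h) (h2 _ (hclu _ h))
    · exact hself _ (hclu _ h) (h3 _ (hclu _ h))

/-- `RA` depends on the edges of `SB a`. -/
theorem RA_local {a : ℕ} {F : Finset Edg} :
    RA (0, 0) a (↑F : Set Edg) ↔ RA (0, 0) a (↑(F ∩ SB a) : Set Edg) := by
  unfold RA
  have e1 : (↑F : Set Edg) ∩ ↑(PR (0, 0) a) = ↑(F ∩ SB a) ∩ ↑(PR (0, 0) a) := by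
    rw [coe_inter_eq]
    unfold PR SB
    rintro ⟨x, y, _ | _⟩ h
    · rw [mem_RE_false] at h ⊢; simp only at h; push_cast; omega
    · rw [mem_RE_true] at h ⊢; simp only at h; push_cast; omega
  have e2 : dE (DR (0, 0) a) \ (↑F : Set Edg) = dE (DR (0, 0) a) \ ↑(F ∩ SB a) := by
    ext ⟨x, y, _ | _⟩
    · simp only [Set.mem_sdiff, dE, DR, Set.mem_ofPred_eq, dl_f, mem_RE_true, coe_inter,
        Set.mem_inter_iff, mem_coe, SB, mem_RE_false]
      constructor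
      · rintro ⟨h1, h2⟩
        exact ⟨h1, fun h => h2 h.1⟩
      · rintro ⟨h1, h2⟩
        refine ⟨h1, fun h => h2 ⟨h, ?_⟩⟩
        push_cast
        omega
    · simp only [Set.mem_sdiff, dE, DR, Set.mem_ofPred_eq, dl_t, mem_RE_false, coe_inter,
        Set.mem_inter_iff, mem_coe, SB, mem_RE_true]
      constructor
      · rintro ⟨h1, h2⟩
        exact ⟨h1, fun h => h2 h.1⟩
      · rintro ⟨h1, h2⟩
        refine ⟨h1, fun h => h2 ⟨h, ?_⟩⟩
        push_cast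
        omega
  rw [e1, e2]

theorem box_sub (a : ℕ) : boxE (a / 8) ⊆ SB a := by
  rintro ⟨x, y, _ | _⟩ h
  · unfold boxE at h
    unfold SB
    rw [mem_RE_false] at h ⊢
    push_cast
    omega
  · unfold boxE at h
    unfold SB
    rw [mem_RE_true] at h ⊢
    push_cast
    omega

theorem t_P3 : S_ACC → S_THK → S_RNG → S_A2 → S_U3 → S_INN → S_SEP → S_P3 := by
  intro hACC hTHK hRNG hA2 hU3 hINN hSEP
  obtain ⟨c0, hc0, hacc⟩ := hACC
  obtain ⟨M, B, m1, hM, hB, hthk⟩ := hTHK (c0 / 2) (by positivity)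
  obtain ⟨c', hc', hrng⟩ := hRNG
  obtain ⟨C, hC, hu3⟩ := hU3
  have ok : Ok (fun _ : Edg => (1 / 2 : ℝ)) := okq (by norm_num) (by norm_num)
  obtain ⟨m2, κ, hκ, hsep⟩ := hSEP (c' * (c0 / 2)) (C * (256 : ℝ) ^ (2 / 3 : ℝ)) (by positivity)
    (by positivity)
  refine ⟨M, B, max (max m1 m2) 192, κ, hM, hB, le_max_right _ _, hκ, ?_⟩
  intro m hm S hS
  have hm1 : m1 ≤ m := le_trans (le_trans (le_max_left _ _) (le_max_left _ _)) hm
  have hm2 : m2 ≤ m := le_trans (le_trans (le_max_right _ _) (le_max_left _ _)) hm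
  have hm3 : 192 ≤ m := le_trans (le_max_right _ _) hm
  have hmpos : (0 : ℝ) < m := by exact_mod_cast (by omega : 0 < m)
  have hloc : PQ (1 / 2) S (fun F => RA (0, 0) m ↑F ∧ Tk M B (m / 64) (0, 0) ↑F) =
      PQ (1 / 2) (SB m) (fun F => RA (0, 0) m ↑F ∧ Tk M B (m / 64) (0, 0) ↑F) := by
    apply Pr_local hS
    intro F _
    have hI := (hINN M B m).1
    have h1 : Tk M B (m / 64) (0, 0) (↑F : Set Edg) ↔
        Tk M B (m / 64) (0, 0) (↑(F ∩ SB m) : Set Edg) := by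
      have hI1 : Tk M B (m / 64) (0, 0) (↑F : Set Edg) ↔
          Tk M B (m / 64) (0, 0) (↑(F ∩ boxE (m / 8)) : Set Edg) := hI F
      have hI2 : Tk M B (m / 64) (0, 0) (↑(F ∩ SB m) : Set Edg) ↔
          Tk M B (m / 64) (0, 0) (↑(F ∩ SB m ∩ boxE (m / 8)) : Set Edg) := hI (F ∩ SB m)
      rw [hI1, hI2]
      have : F ∩ SB m ∩ boxE (m / 8) = F ∩ boxE (m / 8) := by
        ext e
        simp only [Finset.mem_inter]
        constructor
        · rintro ⟨⟨h1, _⟩, h2⟩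
          exact ⟨h1, h2⟩
        · rintro ⟨h1, h2⟩
          exact ⟨⟨h1, box_sub m h2⟩, h2⟩
      rw [this]
    rw [← RA_local, ← h1]
  rw [hloc]
  refine hsep m hm2 (fun F => Tk M B (m / 64) (0, 0) ↑F) (hINN M B m) ((m : ℝ) ^ (-(2 / 3 : ℝ)))
    (Real.rpow_pos_of_pos hmpos _) ?_ ?_
  · -- first hypothesis
    have h1 := hacc m (by omega)
    have h2 := hthk m hm1
    have h3 := hrng M B m hM hB hm3
    have h4 : PQ (1 / 2) (boxE m) (fun F => Acc m ↑F) ≤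
        PQ (1 / 2) (boxE m) (fun F => Acc m ↑F ∧ TkA M B (m / 64) m ↑F) +
        PQ (1 / 2) (boxE m) (fun F => Acc m ↑F ∧ ¬ TkA M B (m / 64) m ↑F) := by
      refine le_trans (Pr_mono ok ?_) (Pr_or_le ok (boxE m) _ _)
      intro F _ hF
      by_cases h : TkA M B (m / 64) m ↑F
      · exact Or.inl ⟨hF, h⟩
      · exact Or.inr ⟨hF, h⟩
    have h5 : PQ (1 / 2) (boxE m) (fun F => Acc m ↑F ∧ Tk M B (m / 64) (0, 0) ↑F) ≤
        PQ (1 / 2) (boxE m) (fun F => H985T.A2g m (0, 0) ↑F ∧ Tk M B (m / 64) (0, 0) ↑F) := by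
      refine Pr_mono ok ?_
      rintro F hF ⟨h6, h7⟩
      exact ⟨hA2 m F hF (by omega) h6, h7⟩
    refine le_trans ?_ h5
    refine le_trans ?_ h3
    have h6 : c0 / 2 * (m : ℝ) ^ (-(2 / 3 : ℝ)) ≤
        PQ (1 / 2) (boxE m) (fun F => Acc m ↑F ∧ TkA M B (m / 64) m ↑F) := by linarith
    have h7 := mul_le_mul_of_nonneg_left h6 hc'.le
    linarith
  · -- second hypothesis
    have hk3 : 3 ≤ m / 64 := by omega
    have h1 : PQ (1 / 2) (boxE m)
        (fun F => H985T.A2g (m / 2) (0, 0) ↑F ∧ Tk M B (m / 64) (0, 0) ↑F) ≤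
        PQ (1 / 2) (boxE m) (fun F => A3v (0, 0) 2 (m / 64) ↑F) := by
      refine Pr_mono ok ?_
      rintro F _ ⟨h2, h3⟩
      exact det hk3 (by omega) h2 h3
    refine le_trans h1 ?_
    have hblk : blk (0, 0) (m / 64) ⊆ boxE m := by
      rintro ⟨x, y, _ | _⟩ h
      · unfold blk at h
        unfold boxE
        rw [mem_RE_false] at h ⊢
        simp only at h
        omega
      · unfold blk at h
        unfold boxE
        rw [mem_RE_true] at h ⊢
        simp only at h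
        omega
    refine le_trans (hu3 (0, 0) 2 (m / 64) (by norm_num) (by omega) (boxE m) hblk) ?_
    have hk0 : (0 : ℝ) < ((m / 64 : ℕ) : ℝ) := by exact_mod_cast (by omega : 0 < m / 64)
    have h5 : ((2 : ℕ) : ℝ) / ((m / 64 : ℕ) : ℝ) ≤ 256 / m := by
      rw [div_le_div_iff₀ hk0 hmpos]
      have : 2 * m ≤ 256 * (m / 64) := by omega
      exact_mod_cast this
    have h6 : (((2 : ℕ) : ℝ) / ((m / 64 : ℕ) : ℝ)) ^ (2 / 3 : ℝ) ≤
        (256 / (m : ℝ)) ^ (2 / 3 : ℝ) :=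
      Real.rpow_le_rpow (by positivity) h5 (by norm_num)
    have h7 : (256 / (m : ℝ)) ^ (2 / 3 : ℝ) = (256 : ℝ) ^ (2 / 3 : ℝ) * (m : ℝ) ^ (-(2 / 3 : ℝ)) := by
      rw [Real.div_rpow (by norm_num) hmpos.le, Real.rpow_neg hmpos.le, div_eq_mul_inv]
    rw [h7] at h6
    have h8 := mul_le_mul_of_nonneg_left h6 hC.le
    linarith

end Pool.Agent.Y989.FR.P3
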