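import Pool.Agent.Y989.FR.Stm

/-!
# FR-PI: closed walks in the cluster do not surround the face `(0, 0)`; the potential
-/

set_option autoImplicit false

namespace Pool.Agent.Y989.FR.PI

open Pool.Agent.Y989.FR
open H974 H12S Finset H984P H984N

theorem cl_box {m : ℕ} {F : Set Edg} {x : Vtx} (h : x ∈ cl m F) :
    (-(m : ℤ) ≤ x.1 ∧ x.1 ≤ m) ∧ (-(m : ℤ) ≤ x.2 ∧ x.2 ≤ m) := by
  have h' : Reach (F ∩ ↑(boxE m)) (0, 0) x := h
  induction h' with
  | refl =>
    simp only
    omega
  | tail _ hs _ =>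
    obtain ⟨⟨p, q, s⟩, ⟨_, he⟩, hs⟩ := hs
    rw [Finset.mem_coe] at he
    unfold boxE at he
    cases s
    · rw [mem_RE_false] at he
      rcases hs with ⟨-, rfl⟩ | ⟨rfl, -⟩
      · rw [tgt_false]
        simp only
        omega
      · rw [src_mk]
        simp only
        omega
    · rw [mem_RE_true] at he
      rcases hs with ⟨-, rfl⟩ | ⟨rfl, -⟩
      · rw [tgt_true]
        simp only
        omega
      · rw [src_mk]
        simp only
        omega

theorem inn2_box {m : ℕ} {F : Set Edg} {e : Edg} (h : e ∈ Inn2 (cl m F)) : e ∈ boxE m := by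
  obtain ⟨p, q, s⟩ := e
  have h1 := cl_box h.1
  have h2 := cl_box h.2
  unfold boxE
  cases s
  · rw [src_mk] at h1
    rw [tgt_false] at h2
    simp only at h1 h2
    rw [mem_RE_false]
    omega
  · rw [src_mk] at h1
    rw [tgt_true] at h2
    simp only at h1 h2
    rw [mem_RE_true]
    omega

/-- the four faces around a vertex have the same value -/
def Four (φ : Vtx → ℤ) (x : Vtx) (c : ℤ) : Prop :=
  φ (x.1, x.2) = c ∧ φ (x.1 - 1, x.2) = c ∧ φ (x.1 - 1, x.2 - 1) = c ∧ φ (x.1, x.2 - 1) = c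

theorem four_of {C : Set Vtx} {φ : Vtx → ℤ}
    (hφ : ∀ e : Edg, e ∉ Inn2 C → φ (dsrc e) = φ (dtgt e)) {x : Vtx} (hx : x ∉ C) :
    φ (x.1 - 1, x.2) = φ (x.1, x.2) ∧ φ (x.1 - 1, x.2 - 1) = φ (x.1, x.2) ∧
      φ (x.1, x.2 - 1) = φ (x.1, x.2) := by
  obtain ⟨p, q⟩ := x
  -- the edge going up from `x` separates `(p-1,q)` and `(p,q)`
  have h1 := hφ (p, q, false) (fun h => hx h.1)
  -- the edge going right separates `(p,q-1)` and `(p,q)`
  have h2 := hφ (p, q, true) (fun h => hx h.1)
  -- the edge going left separates `(p-1,q-1)` and `(p-1,q)`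
  have h3 := hφ (p - 1, q, true) (fun h => hx (by
    have := h.2
    rw [tgt_true, sub_add_cancel] at this
    exact this))
  rw [dsrc_false, dtgt_mk] at h1
  rw [dsrc_true, dtgt_mk] at h2 h3
  simp only
  exact ⟨h1, h3.trans h1, h2⟩

theorem t_PI : S_W1 → S_W2 → S_WKA → S_PI := by
  intro hW1 hW2 _ m F a φ hm hacc hw
  obtain ⟨-, h10, y, hy, hr⟩ := hacc
  have hφ : ∀ e : Edg, e ∉ Inn2 (cl m F) → φ (dsrc e) = φ (dtgt e) := by
    intro e he
    have h1 := hW1 _ a a φ e hw he
    linarith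
  have hout : ∀ f, ¬ InF m f → φ f = 0 := fun f hf =>
    hW2 m _ a φ f hw (fun e he => inn2_box he) hf
  -- along the path the value at the vertex is the same
  have key : ∀ z : Vtx, Reach {e | e ∈ boxE m ∧ src e ∉ cl m F ∧ tgt e ∉ cl m F} (1, 0) z →
      z ∉ cl m F ∧ φ (z.1, z.2) = φ (1, 0) := by
    intro z hz
    induction hz with
    | refl => exact ⟨h10, rfl⟩
    | tail _ hs ih =>
      obtain ⟨⟨p, q, s⟩, ⟨-, h1, h2⟩, hs⟩ := hs
      have f1 := four_of hφ h1
      have f2 := four_of hφ h2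
      rw [src_mk] at f1 h1 hs
      cases s
      · rw [tgt_false] at f2 h2 hs
        simp only [add_sub_cancel_right] at f1 f2
        rcases hs with ⟨rfl, rfl⟩ | ⟨rfl, rfl⟩
        · refine ⟨h2, ?_⟩
          have := ih.2
          simp only at this ⊢
          linarith [f1.1, f1.2.1, f1.2.2, f2.1, f2.2.1, f2.2.2]
        · refine ⟨h1, ?_⟩
          have := ih.2
          simp only at this ⊢
          linarith [f1.1, f1.2.1, f1.2.2, f2.1, f2.2.1, f2.2.2]
      · rw [tgt_true] at f2 h2 hs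
        simp only [add_sub_cancel_right] at f1 f2
        rcases hs with ⟨rfl, rfl⟩ | ⟨rfl, rfl⟩
        · refine ⟨h2, ?_⟩
          have := ih.2
          simp only at this ⊢
          linarith [f1.1, f1.2.1, f1.2.2, f2.1, f2.2.1, f2.2.2]
        · refine ⟨h1, ?_⟩
          have := ih.2
          simp only at this ⊢
          linarith [f1.1, f1.2.1, f1.2.2, f2.1, f2.2.1, f2.2.2]
  have f0 := four_of hφ h10
  have fy := four_of hφ (key y hr).1
  have hy2 := (key y hr).2
  simp only [sub_self] at f0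
  rw [f0.1, ← hy2]
  obtain ⟨-, -, hb⟩ := hy
  simp only [sub_zero] at hb
  rcases hb with hb | hb
  · rcases (abs_eq (by positivity)).1 hb with h1 | h1
    · exact hout _ (fun h => by have := h.1.2; simp only at this; omega)
    · rw [← fy.1]
      exact hout _ (fun h => by have := h.1.1; simp only at this; omega)
  · rcases (abs_eq (by positivity)).1 hb with h1 | h1
    · exact hout _ (fun h => by have := h.2.2; simp only at this; omega)
    · rw [← fy.2.2]
      exact hout _ (fun h => by have := h.2.1; simp only at this; omega)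

theorem t_POT : S_WKA → S_PI → S_POT := by
  intro hK hPI m F hm hacc
  classical
  obtain ⟨hcomp, hrev, hmono, hex, hlast⟩ := hK
  set C := cl m F with hC
  have h0 : ((0, 0) : Vtx) ∈ C := Reach.refl _ _
  have hwalk : ∀ x : Vtx, x ∈ C → ∃ φ, Wk (Inn2 C) (0, 0) x φ := by
    intro x hx
    obtain ⟨φ, hφ⟩ := hex (F ∩ ↑(boxE m)) (0, 0) x hx
    have h1 := (hlast m (F ∩ ↑(boxE m)) (0, 0) x φ Set.inter_subset_right (Reach.refl _ _) hφ).2
    refine ⟨φ, hmono _ _ _ _ _ ?_ h1⟩
    have e : cl m (F ∩ ↑(boxE m)) = C := by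
      unfold cl at *
      rw [hC]
      ext z
      simp only [Set.mem_ofPred_eq, Set.inter_assoc, Set.inter_self]
    rw [e]
    exact Set.inter_subset_right
  choose! w hw using hwalk
  refine ⟨fun x => if x ∈ C then w x (0, 0) else 0, fun a b φ h => ?_⟩
  have hends : a = b ∨ (a ∈ C ∧ b ∈ C) := by
    clear hw
    induction h with
    | nil => exact Or.inl rfl
    | cons b c φ e hwk he hs ih =>
      right
      have hbc : b ∈ C ∧ c ∈ C := by
        rcases hs with ⟨h1, h2⟩ | ⟨h1, h2⟩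
        · exact ⟨h1 ▸ he.1, h2 ▸ he.2⟩
        · exact ⟨h2 ▸ he.2, h1 ▸ he.1⟩
      rcases ih with rfl | ih
      · exact hbc
      · exact ⟨ih.1, hbc.2⟩
  by_cases hab : a ∈ C ∧ b ∈ C
  · obtain ⟨ha, hb⟩ := hab
    have h1 := hcomp _ _ _ _ _ _ (hcomp _ _ _ _ _ _ (hw a ha) h) (hrev _ _ _ _ (hw b hb))
    have h2 := hPI m F (0, 0) _ hm hacc h1
    simp only [if_pos ha, if_pos hb] at h2 ⊢
    linarith
  · have hab' : a = b := hends.resolve_right hab
    subst hab'
    have ha : a ∉ C := fun ha => hab ⟨ha, ha⟩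
    -- the walk is nil
    have : φ (0, 0) = 0 := by
      cases h with
      | nil => rfl
      | cons b _ φ e hwk he hs =>
        exfalso
        rcases hs with ⟨h1, h2⟩ | ⟨h1, h2⟩
        · exact ha (h2 ▸ he.2)
        · exact ha (h1 ▸ he.1)
    rw [this]
    ring

end Pool.Agent.Y989.FR.PI
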