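import Pool.Agent.Y989.FR.Stm
import Pool.Agent.H12R2.Sep.Markov
import Pool.Agent.H12R2.Sep.Win1
import Pool.Agent.H12R2.Sep.WinHalf

/-!
# Closed ring outside of the cluster of the origin
-/

set_option autoImplicit false

namespace Pool.Agent.Y989.FR.RNG

open Pool.Agent.Y989.FR H974 H12S Finset H984P H984N

/-- the explored edges: the edges of the box with an end in the cluster of the origin -/
noncomputable def KK (m : ℕ) (F : Finset Edg) : Finset Edg := by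
  classical exact (boxE m).filter (fun e => src e ∈ cl m (↑F : Set Edg) ∨
    tgt e ∈ cl m (↑F : Set Edg))

theorem mem_KK {m : ℕ} {F : Finset Edg} {e : Edg} :
    e ∈ KK m F ↔ e ∈ boxE m ∧ (src e ∈ cl m ↑F ∨ tgt e ∈ cl m ↑F) := by
  classical
  unfold KK
  rw [Finset.mem_filter]

/-- the cluster is determined by the explored edges -/
theorem cl_eq {m : ℕ} {F F' : Finset Edg} (h : F ∩ KK m F = F' ∩ KK m F) :
    cl m (↑F' : Set Edg) = cl m (↑F : Set Edg) := by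
  apply Set.Subset.antisymm
  · intro x hx
    have hx' : Reach ((↑F' : Set Edg) ∩ ↑(boxE m)) (0, 0) x := hx
    clear hx
    induction hx' with
    | refl => exact Reach.refl _ _
    | @tail b c hb hs ih =>
      obtain ⟨e, he, hc⟩ := hs
      have ih' : b ∈ cl m (↑F : Set Edg) := ih
      have heK : e ∈ KK m F := by
        rw [mem_KK]
        refine ⟨Finset.mem_coe.1 he.2, ?_⟩
        rcases hc with ⟨h1, h2⟩ | ⟨h1, h2⟩
        · left; rw [h1]; exact ih'
        · right; rw [h2]; exact ih'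
      have heF : e ∈ F ∩ KK m F := by
        rw [h]
        exact Finset.mem_inter.2 ⟨Finset.mem_coe.1 he.1, heK⟩
      have h3 : Reach ((↑F : Set Edg) ∩ ↑(boxE m)) b c :=
        Adj.reach ⟨e, ⟨Finset.mem_coe.2 (Finset.mem_inter.1 heF).1, he.2⟩, hc⟩
      exact Reach.trans (F := (↑F : Set Edg) ∩ ↑(boxE m)) ih h3
  · intro x hx
    have hx' : Reach ((↑F : Set Edg) ∩ ↑(boxE m)) (0, 0) x := hx
    clear hx
    show Reach ((↑F' : Set Edg) ∩ ↑(boxE m)) (0, 0) x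
    induction hx' with
    | refl => exact Reach.refl _ _
    | @tail b c hb hs ih =>
      obtain ⟨e, he, hc⟩ := hs
      have hb' : b ∈ cl m (↑F : Set Edg) := hb
      have heK : e ∈ KK m F := by
        rw [mem_KK]
        refine ⟨Finset.mem_coe.1 he.2, ?_⟩
        rcases hc with ⟨h1, h2⟩ | ⟨h1, h2⟩
        · left; rw [h1]; exact hb'
        · right; rw [h2]; exact hb'
      have heF : e ∈ F' ∩ KK m F := by
        rw [← h]
        exact Finset.mem_inter.2 ⟨Finset.mem_coe.1 he.1, heK⟩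
      exact ih.trans (Adj.reach ⟨e, ⟨Finset.mem_coe.2 (Finset.mem_inter.1 heF).1, he.2⟩, hc⟩)

theorem stop (m : ℕ) : Stop (boxE m) (KK m) := by
  intro F F' _ _ h
  have h1 := cl_eq h
  unfold KK
  rw [h1]

theorem Acc_congr {m : ℕ} {F F' : Set Edg} (h : cl m F' = cl m F) : Acc m F → Acc m F' := by
  unfold Acc
  rw [h]
  exact id

theorem TkA_congr {M B k m : ℕ} {F F' : Set Edg} (h : cl m F' = cl m F) :
    TkA M B k m F → TkA M B k m F' := by
  unfold TkA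
  rw [h]
  exact id

/-- a path which starts outside of the cluster avoids it -/
theorem off {m : ℕ} {F : Finset Edg} (hF : F ⊆ boxE m) {a b : Vtx} {G : Set Edg}
    (hG : G ⊆ ↑F) (ha : a ∉ cl m (↑F : Set Edg)) (hab : Reach G a b) :
    Reach (↑(F \ KK m F) : Set Edg) a b ∧ b ∉ cl m (↑F : Set Edg) := by
  induction hab with
  | refl => exact ⟨Reach.refl _ _, ha⟩
  | @tail b c hb hs ih =>
    obtain ⟨h1, h2⟩ := ih
    obtain ⟨e, he, hc⟩ := hs
    have heF : e ∈ F := Finset.mem_coe.1 (hG he)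
    have hc' : c ∉ cl m (↑F : Set Edg) := by
      intro hcc
      apply h2
      have h3 : Reach ((↑F : Set Edg) ∩ ↑(boxE m)) b c :=
        Adj.reach ⟨e, ⟨hG he, Finset.mem_coe.2 (hF heF)⟩, hc⟩
      exact Reach.trans (F := (↑F : Set Edg) ∩ ↑(boxE m)) hcc h3.symm
    refine ⟨h1.trans (Adj.reach ⟨e, ?_, hc⟩), hc'⟩
    rw [Finset.mem_coe, Finset.mem_sdiff, mem_KK]
    refine ⟨heF, ?_⟩
    rintro ⟨-, h5⟩
    rcases hc with ⟨h6, h7⟩ | ⟨h6, h7⟩
    · rw [h6, h7] at h5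
      exact h5.elim h2 hc'
    · rw [h6, h7] at h5
      exact h5.elim hc' h2

theorem sd_src {k : ℕ} {e : Edg} (he : e ∈ blk (0, 0) k) :
    sd (src e) (0, 0) ≤ k ∧ sd (tgt e) (0, 0) ≤ k := by
  obtain ⟨x, y, b⟩ := e
  unfold blk at he
  cases b
  · rw [mem_RE_false] at he
    simp only [sd, src_mk, tgt_false, max_le_iff, abs_le]
    simp only [zero_sub, zero_add] at he
    omega
  · rw [mem_RE_true] at he
    simp only [sd, src_mk, tgt_true, max_le_iff, abs_le]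
    simp only [zero_sub, zero_add] at he
    omega

/-- the deterministic part -/
theorem det {M B k m : ℕ} {F : Finset Edg} (hM : 16 ≤ M) (hB : 1 ≤ B) (hk : 1 ≤ k)
    (hF : F ⊆ boxE m) (hT : TkA M B k m ↑F)
    (hR : ¬ Crs 0 0 (2 * k) (8 * k) (↑(F \ KK m F) : Set Edg)) : Tk M B k (0, 0) ↑F := by
  obtain ⟨x, hx, y, hy, hxy⟩ := hT
  -- far vertices of `BB`
  have far : ∀ c ∈ BB k (0, 0) (↑F : Set Edg), c ∉ cl m (↑F : Set Edg) →
      2 * (k : ℤ) < sd c (0, 0) := by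
    intro c hc hcc
    obtain ⟨w, hw, hcw⟩ := hc
    by_contra hlt
    push Not at hlt
    apply hR
    have h1 := (off hF (G := (↑F : Set Edg) ∩ ↑(blk (0, 0) (8 * k))) Set.inter_subset_left hcc
      hcw).1
    refine ⟨c, w, ?_, ?_, h1⟩
    · unfold sd at hlt
      rw [max_le_iff, abs_le, abs_le] at hlt
      unfold inR
      push_cast
      simp only at hlt
      omega
    · obtain ⟨h2, h3, h4⟩ := hw
      push_cast at h2 h3 h4 ⊢
      simp only [sub_zero] at h2 h3 h4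
      rcases h4 with h4 | h4
      · rcases abs_eq (by positivity : (0:ℤ) ≤ 8 * (k:ℤ)) |>.1 h4 with h5 | h5
        · right; left; omega
        · left; omega
      · rcases abs_eq (by positivity : (0:ℤ) ≤ 8 * (k:ℤ)) |>.1 h4 with h5 | h5
        · right; right; right; omega
        · right; right; left; omega
  have key : ∀ z : Vtx, sd z (0, 0) ≤ k → (∀ c ∈ cl m (↑F : Set Edg), Awy M B k (0, 0) c z) →
      ∀ c ∈ BB k (0, 0) (↑F : Set Edg), Awy M B k (0, 0) c z := by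
    intro z hz hA c hc
    by_cases hcc : c ∈ cl m (↑F : Set Edg)
    · exact hA c hcc
    · have h1 := far c hc hcc
      have h2 : (k : ℤ) < sd z c := by
        unfold sd at h1 hz ⊢
        rw [max_le_iff, abs_le, abs_le] at hz
        rw [lt_max_iff, lt_abs, lt_abs] at h1
        rw [lt_max_iff, lt_abs, lt_abs]
        simp only at hz h1
        omega
      unfold Awy
      have h0 : 0 ≤ sd z (0, 0) := le_max_of_le_left (abs_nonneg _)
      have h3 : sd z (0, 0) ^ B ≤ (k : ℤ) ^ B := pow_le_pow_left₀ h0 hz B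
      obtain ⟨b, rfl⟩ : ∃ b, B = b + 1 := ⟨B - 1, by omega⟩
      have h4 : (k : ℤ) ^ b ≤ ((8 * k : ℕ) : ℤ) ^ b := by
        refine pow_le_pow_left₀ (by positivity) ?_ b
        push_cast
        omega
      have hk0 : (0 : ℤ) < k := by exact_mod_cast hk
      have h5 : (0 : ℤ) < ((8 * k : ℕ) : ℤ) ^ b := by
        refine pow_pos ?_ b
        push_cast
        omega
      have hM' : (16 : ℤ) ≤ M := by exact_mod_cast hM
      rw [Nat.add_sub_cancel]
      calc sd z (0, 0) ^ (b + 1) ≤ (k : ℤ) ^ (b + 1) := h3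
        _ = (k : ℤ) ^ b * k := pow_succ _ _
        _ ≤ ((8 * k : ℕ) : ℤ) ^ b * k := mul_le_mul_of_nonneg_right h4 hk0.le
        _ < ((8 * k : ℕ) : ℤ) ^ b * sd z c := mul_lt_mul_of_pos_left h2 h5
        _ = 1 * (((8 * k : ℕ) : ℤ) ^ b * sd z c) := (one_mul _).symm
        _ ≤ (M : ℤ) * (((8 * k : ℕ) : ℤ) ^ b * sd z c) :=
            mul_le_mul_of_nonneg_right (by omega) (mul_nonneg h5.le (by omega))
        _ = (M : ℤ) * ((8 * k : ℕ) : ℤ) ^ b * sd z c := (mul_assoc _ _ _).symm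
  refine ⟨x, hx, y, hy, Reach.mono ?_ hxy⟩
  rintro e ⟨h1, h2, h3⟩
  have h4 : e ∈ blk (0, 0) k := (Finset.mem_sdiff.1 (Finset.mem_coe.1 h1)).1
  exact ⟨h1, key _ (sd_src h4).1 h2, key _ (sd_src h4).2 h3⟩

/-- RNG -/
theorem t_RNG : S_RNG := by
  obtain ⟨κ, hκ, hW⟩ := win_half
  refine ⟨κ ^ 4, pow_pos hκ 4, ?_⟩
  intro M B m hM hB hm
  have ok : Ok (fun _ : Edg => (1 / 2 : ℝ)) := fun _ => ⟨by norm_num, by norm_num⟩
  have hk : 3 ≤ m / 64 := by omega
  have h1 := markov_ge ok (stop m)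
    (A := fun F => Acc m (↑F : Set Edg) ∧ TkA M B (m / 64) m (↑F : Set Edg))
    (B := fun F => ¬ Crs 0 0 (2 * (m / 64)) (8 * (m / 64)) (↑F : Set Edg))
    (fun F F' _ _ h hA => ⟨Acc_congr (cl_eq h) hA.1, TkA_congr (cl_eq h) hA.2⟩)
    (fun F G hFG hG hF => hG (by
      obtain ⟨x, y, a, b, c⟩ := hF
      exact ⟨x, y, a, b, Reach.mono (by exact_mod_cast hFG) c⟩))
  have h2 := (win_blk (hW (2 * (2 * (m / 64)))) (m := 2 * (m / 64)) (by omega) le_rfl 0 0
    (boxE m)).1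
  have h3 : PQ (1 / 2) (boxE m) (fun F => ¬ Crs 0 0 (2 * (m / 64)) (3 * (2 * (m / 64))) ↑F) ≤
      PQ (1 / 2) (boxE m) (fun F => ¬ Crs 0 0 (2 * (m / 64)) (8 * (m / 64)) ↑F) := by
    apply Pr_mono ok
    intro F _ hF hc
    apply hF
    obtain ⟨x, y, a, b, c⟩ := hc
    refine ⟨x, y, a, ?_, c⟩
    push_cast at b ⊢
    omega
  have h4 : PQ (1 / 2) (boxE m) (fun F => (Acc m ↑F ∧ TkA M B (m / 64) m ↑F) ∧
      ¬ Crs 0 0 (2 * (m / 64)) (8 * (m / 64)) (↑(F \ KK m F) : Set Edg)) ≤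
      PQ (1 / 2) (boxE m) (fun F => Acc m ↑F ∧ Tk M B (m / 64) (0, 0) ↑F) := by
    apply Pr_mono ok
    rintro F hF ⟨⟨a1, a2⟩, a3⟩
    exact ⟨a1, det hM hB (by omega) hF a2 a3⟩
  have h5 : 0 ≤ PQ (1 / 2) (boxE m) (fun F => Acc m ↑F ∧ TkA M B (m / 64) m ↑F) :=
    Pr_nonneg ok _ _
  calc κ ^ 4 * PQ (1 / 2) (boxE m) (fun F => Acc m ↑F ∧ TkA M B (m / 64) m ↑F)
      ≤ PQ (1 / 2) (boxE m) (fun F => ¬ Crs 0 0 (2 * (m / 64)) (8 * (m / 64)) ↑F) *
        PQ (1 / 2) (boxE m) (fun F => Acc m ↑F ∧ TkA M B (m / 64) m ↑F) :=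
        mul_le_mul_of_nonneg_right (h2.trans h3) h5
    _ = PQ (1 / 2) (boxE m) (fun F => Acc m ↑F ∧ TkA M B (m / 64) m ↑F) *
        PQ (1 / 2) (boxE m) (fun F => ¬ Crs 0 0 (2 * (m / 64)) (8 * (m / 64)) ↑F) := mul_comm _ _
    _ ≤ _ := h1
    _ ≤ _ := h4

end Pool.Agent.Y989.FR.RNG
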