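import Pool.Agent.Y989.FR.Stm
import Pool.Agent.Y492.SEP.Low

/-!
# Frontiers: S_SEP, separation of the two arms with an inner event (helper492)
-/

set_option autoImplicit false

namespace Pool.Agent.Y989.FR.SEP

open H974 H12S Finset H984P H984N

theorem t_SEP : S_SEP := by
  intro c1 C1 hc1 hC1
  obtain ⟨m0, κ, hκ, h⟩ := H492S.sep_inner c1 C1 hc1 hC1
  refine ⟨m0, κ, hκ, ?_⟩
  intro m hm I hI x hx h1 h2
  obtain ⟨hI1, hI2, hI3, hI4⟩ := hI
  refine h m hm I hI1 hI2 hI3 hI4 x hx h1 ?_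
  refine le_trans (le_of_eq ?_) h2
  have hsub : boxE (m / 8) ⊆ boxE (m / 2) := boxE_mono (by omega)
  symm
  refine Pr_local (boxE_mono (Nat.div_le_self m 2)) fun F _ => ?_
  rw [← H492S.I_loc hI1 hsub F, coe_inter]
  exact and_congr_left fun _ => H985T.IND_loc (m / 2) _ _

end Pool.Agent.Y989.FR.SEP
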