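import Pool.Agent.Y989.FR.Stm
import Pool.Agent.Y681.FR.Num

/-!
# `THK`: the thick path exists with large conditional probability
-/

set_option autoImplicit false

namespace Pool.Agent.Y989.FR.THK

open Pool.Agent.Y989.FR H974 H12S Finset H984P H984N
open Pool.Agent.Y681.FR

/-- without a thick path there is a gate at some scale -/
theorem gate (hpot : S_POT) (hnog : S_NOG) {M B m : ℕ} (hB : 1 ≤ B) (hM : 128 * 16 ^ B ≤ M)
    (hm : 192 ≤ m) {F : Set Edg} (hA : Acc m F) (hT : ¬ TkA M B (m / 64) m F) :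
    ∃ i ∈ JJ M B (m / 64), Acc m F ∧ GtA m (2 ^ i) (ww M B (m / 64) i) F := by
  obtain ⟨μ, hμ⟩ := hpot m F (by omega) hA
  set k := m / 64 with hk
  have hk3 : 3 ≤ k := by omega
  have hk4 : 4 * k ≤ m := by omega
  have h16 : 1 ≤ 16 ^ B := Nat.one_le_pow _ _ (by norm_num)
  have hM16 : 16 ≤ M := by omega
  by_contra hcon
  apply hT
  apply hnog M B k m F μ hM16 hB hk3 hk4 hA hμ
  intro a ha b hb h1 h2 h3 h4
  by_contra hne
  apply hcon
  obtain ⟨r, hr⟩ := Int.eq_ofNat_of_zero_le (by omega : 0 ≤ sd a (0, 0))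
  obtain ⟨s, hs⟩ := Int.eq_ofNat_of_zero_le (by omega : 0 ≤ sd a b)
  rw [hr] at h1 h2 h4
  rw [hs] at h3 h4
  have h4' : M * (8 * k) ^ (B - 1) * s ≤ 4 * (4 * r) ^ B := by exact_mod_cast h4
  have hr1 : 1 ≤ r := by exact_mod_cast h1
  have hr2 : r ≤ 2 * k := by exact_mod_cast h2
  have hs2 : 2 ≤ s := by exact_mod_cast h3
  have hr3 : 2 ≤ r := by
    by_contra h
    have hr' : r = 1 := by omega
    rw [hr'] at h4'
    have e1 : 1 ≤ (8 * k) ^ (B - 1) := Nat.one_le_pow _ _ (by omega)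
    have e2 : M * 1 * 2 ≤ M * (8 * k) ^ (B - 1) * s :=
      Nat.mul_le_mul (Nat.mul_le_mul_left _ e1) hs2
    have e3 : 4 ^ B ≤ 16 ^ B := Nat.pow_le_pow_left (by norm_num) B
    rw [mul_one] at h4'
    omega
  have hl : 1 ≤ Nat.log 2 r := Nat.le_log_of_pow_le (by norm_num) (by simpa using hr3)
  have e5 : 2 ^ (Nat.log 2 r) ≤ r := Nat.pow_log_le_self 2 (by omega)
  have e6 : r < 2 ^ (Nat.log 2 r + 1) := Nat.lt_pow_succ_log_self (by norm_num) r
  obtain ⟨i, hi⟩ : ∃ i, Nat.log 2 r = i + 1 := ⟨Nat.log 2 r - 1, by omega⟩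
  rw [hi, pow_succ] at e5
  rw [hi, pow_succ, pow_succ] at e6
  have hik : 2 ^ i ≤ k := by omega
  have hsw : s ≤ ww M B k i := by
    unfold ww
    rw [Nat.le_div_iff_mul_le (by positivity)]
    calc s * (M * (8 * k) ^ (B - 1)) = M * (8 * k) ^ (B - 1) * s := by ring
      _ ≤ 4 * (4 * r) ^ B := h4'
      _ ≤ 4 * (16 * 2 ^ i) ^ B := Nat.mul_le_mul_left _ (Nat.pow_le_pow_left (by omega) B)
  refine ⟨i, Finset.mem_filter.2 ⟨Finset.mem_range.2 (lt_of_lt_of_le Nat.lt_two_pow_self hik), hik,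
    by omega⟩, hA, μ, hμ, a, ha, b, hb, ?_, ?_, ?_, hne⟩
  · rw [hr]
    exact_mod_cast (by omega : 2 * 2 ^ i ≤ r)
  · rw [hr]
    exact_mod_cast (by omega : r ≤ 4 * 2 ^ i)
  · rw [hs]
    exact_mod_cast hsw

theorem t_THK : S_POT → S_NOG → S_GP → S_THK := by
  intro hpot hnog hgp ε hε
  obtain ⟨C, c, hC, hc, hG⟩ := hgp
  obtain ⟨c1, hc1, hc1c, hc11⟩ : ∃ c1 : ℝ, 0 < c1 ∧ c1 ≤ c ∧ c1 ≤ 1 :=
    ⟨min c 1, lt_min hc one_pos, min_le_left _ _, min_le_right _ _⟩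
  obtain ⟨b, hb⟩ := exists_nat_ge (1 / c1)
  have hcB : 1 ≤ c1 * (((b + 1 : ℕ) : ℝ) - 1) := by
    rw [div_le_iff₀ hc1] at hb
    push_cast
    linarith
  obtain ⟨M0, hM0⟩ := numsum hC hc1 hε (B := b + 1) (by omega) hcB
  have hM1 : 128 * 16 ^ (b + 1) ≤ max M0 (128 * 16 ^ (b + 1)) := le_max_right _ _
  have h16 : 1 ≤ 16 ^ (b + 1) := Nat.one_le_pow _ _ (by norm_num)
  refine ⟨max M0 (128 * 16 ^ (b + 1)), b + 1, 192, by omega, by omega, ?_⟩
  intro m hm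
  have hok := okq (q := (1 / 2 : ℝ)) (by norm_num) (by norm_num)
  have hkey := hM0 _ (le_max_left M0 (128 * 16 ^ (b + 1))) (by omega) m hm
  generalize max M0 (128 * 16 ^ (b + 1)) = M at hM1 hkey
  refine (Pr_mono hok (B := fun F => ∃ i ∈ JJ M (b + 1) (m / 64),
    Acc m ↑F ∧ GtA m (2 ^ i) (ww M (b + 1) (m / 64) i) ↑F) ?_).trans
      ((Pr_exists_le hok _ _ _).trans ?_)
  · rintro F _ ⟨hA, hT⟩
    exact gate hpot hnog (by omega) hM1 hm hA hT
  · refine (Finset.sum_le_sum ?_).trans hkey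
    intro i hi
    have hi' := (Finset.mem_filter.1 hi).2
    have h32 := ww_le (by omega) hM1 hi'.1
    have hw1 := hi'.2
    have hik := hi'.1
    refine (hG m (2 ^ i) (ww M (b + 1) (m / 64) i) hw1 (by omega) (by omega)).trans ?_
    apply mul_le_mul_of_nonneg_left _ (by positivity)
    have hu : (0:ℝ) < ((2 ^ i : ℕ) : ℝ) := by positivity
    have hw0 : (0:ℝ) < (ww M (b + 1) (m / 64) i : ℝ) := by exact_mod_cast hw1
    refine Real.rpow_le_rpow_of_exponent_ge (by positivity) ?_ hc1c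
    rw [div_le_one hu]
    exact_mod_cast (by omega : ww M (b + 1) (m / 64) i ≤ 2 ^ i)

end Pool.Agent.Y989.FR.THK
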