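import Pool.Agent.Y989.FR.Stm
import Pool.Agent.H984R3.Per.Basic

/-!
# A gate implies a gate time
-/

set_option autoImplicit false

namespace Pool.Agent.Y989.FR.XC

open Pool.Agent.Y989.FR H974 H12S Finset H984P H984N

theorem sd_le {x y : Vtx} {c : ℤ} : sd x y ≤ c ↔ |x.1 - y.1| ≤ c ∧ |x.2 - y.2| ≤ c :=
  max_le_iff

theorem le_sd {x y : Vtx} {c : ℤ} : c ≤ sd x y ↔ c ≤ |x.1 - y.1| ∨ c ≤ |x.2 - y.2| :=
  le_max_iff

theorem left_mem (p q : Vtx) : p ∈ Lp p q := Or.inl ⟨rfl, min_le_left _ _, le_max_left _ _⟩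

theorem right_mem (p q : Vtx) : q ∈ Lp p q := Or.inr ⟨rfl, min_le_right _ _, le_max_right _ _⟩

theorem Lp_rect {p q x : Vtx} (h : x ∈ Lp p q) :
    (min p.1 q.1 ≤ x.1 ∧ x.1 ≤ max p.1 q.1) ∧ (min p.2 q.2 ≤ x.2 ∧ x.2 ≤ max p.2 q.2) := by
  rcases h with ⟨h1, h2, h3⟩ | ⟨h1, h2, h3⟩
  · exact ⟨⟨h2, h3⟩, by rw [h1]; exact ⟨min_le_left _ _, le_max_left _ _⟩⟩
  · exact ⟨by rw [h1]; exact ⟨min_le_right _ _, le_max_right _ _⟩, h2, h3⟩

/-- At an end of a short path there is only one edge of this path. -/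
theorem uniq {p q : Vtx} {σ σ' : St} (h : σ.1 = σ'.1) (h1 : σ.1 = p ∨ σ.1 = q)
    (h2 : (mv σ).1 ∈ Lp p q) (h3 : (mv σ').1 ∈ Lp p q) : σ = σ' := by
  obtain ⟨⟨x, y⟩, c⟩ := σ
  obtain ⟨⟨x', y'⟩, c'⟩ := σ'
  obtain ⟨p1, p2⟩ := p
  obtain ⟨q1, q2⟩ := q
  simp only [Prod.mk.injEq] at h h1
  obtain ⟨rfl, rfl⟩ := h
  cases c <;> cases c' <;> simp only [mv_ne, mv_nw, mv_sw, mv_se, Lp, Set.mem_ofPred_eq] at h2 h3 <;>
    first
      | rfl
      | (exfalso; omega)

/-- discrete intermediate values -/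
theorem change {N : ℕ → ℤ} {i j : ℕ} (hij : i ≤ j) (h : N i ≠ N j) :
    ∃ s, i ≤ s ∧ s < j ∧ N s ≠ N (s + 1) := by
  by_contra hcon
  push Not at hcon
  apply h
  have key : ∀ d, i + d ≤ j → N i = N (i + d) := by
    intro d
    induction d with
    | zero => intro _; rfl
    | succ d ih =>
      intro hd
      rw [ih (by omega)]
      exact hcon (i + d) (by omega) (by omega)
  have := key (j - i) (by omega)
  rwa [Nat.add_sub_cancel' hij] at this

theorem t_XC : S_W1 → S_W2 → S_WKA → S_LX → S_SUBX → S_OXW → S_RUN → S_XC := by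
  intro hW1 hW2 hWKA hLX hSUBX hOXW hRUN m u w F ρ t0 T hF hw hwu hum hAcc hRun hG
  obtain ⟨wk1, wk2, wk3, wk4, wk5⟩ := hWKA
  obtain ⟨lx1, lx2, lx3, lx4⟩ := hLX
  obtain ⟨μ, hμ, a, ha, b, hb, h2u, h4u, hab, hne⟩ := hG
  obtain ⟨p, hp, q, hq, hsub, hne', honly⟩ := hSUBX (cl m ↑F) μ (0, 0) a b ha hb hne
  have hm1 : 1 ≤ m := by omega
  obtain ⟨r1, r2, -, -⟩ := hRUN m F ρ t0 T hF hm1 hRun
  have hpab := Lp_rect (hsub (left_mem p q))
  have hqab := Lp_rect (hsub (right_mem p q))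
  rw [sd_le, abs_le, abs_le] at hab
  rw [le_sd, le_abs, le_abs] at h2u
  rw [sd_le, abs_le, abs_le] at h4u
  simp only [sub_zero] at h2u h4u
  have hFr : Fr u (8 * u) p q := by
    intro x hx1 hx2
    rw [le_sd, sd_le, le_abs, le_abs, abs_le, abs_le]
    simp only [sub_zero]
    push_cast
    constructor
    · omega
    · omega
  have hsd : sd p q ≤ w := by
    rw [sd_le, abs_le, abs_le]
    omega
  have hFr' : Fr u (8 * u) q p := by
    intro x hx1 hx2
    rw [min_comm, max_comm] at hx1 hx2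
    exact hFr x hx1 hx2
  have hsd' : sd q p ≤ w := by
    rw [sd_le, abs_le, abs_le] at hsd ⊢
    omega
  -- the potential along walks of open edges
  have hpot : ∀ (x y : Vtx) (φ : Vtx → ℤ), x ∈ cl m ↑F → Wk ↑F x y φ →
      μ y - μ x = φ (0, 0) := by
    intro x y φ hx hwk
    have h1 := (wk5 m ↑F x y φ (by exact_mod_cast hF) hx hwk).2
    exact hμ x y φ (wk3 _ _ _ _ _ Set.inter_subset_right h1)
  obtain ⟨φ, hφ⟩ : ∃ φ, Wk (↑F : Set Edg) p q φ := by
    apply wk4
    have h1 : Reach (↑F ∩ ↑(boxE m)) (0, 0) p := hp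
    have h2 : Reach (↑F ∩ ↑(boxE m)) (0, 0) q := hq
    exact (h1.symm.trans h2).mono Set.inter_subset_left
  have hφ0 := hpot p q φ hp hφ
  let G : Set Edg := ↑F ∪ Inn2 (Lp p q)
  have hN : Wk G p p (fun f => φ f + -lx f p q) :=
    wk1 G p q p φ (fun f => -lx f p q) (wk3 _ G _ _ _ Set.subset_union_left hφ)
      (wk2 G p q (fun f => lx f p q) (wk3 _ G _ _ _ Set.subset_union_right (lx1 p q)))
  let N : Vtx → ℤ := fun f => φ f + -lx f p q
  have hN0 : N (0, 0) ≠ 0 := by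
    intro h
    apply hne'
    have h' : φ (0, 0) + -lx (0, 0) p q = 0 := h
    omega
  have hNout : ∀ f, ¬ InF m f → N f = 0 := by
    intro f hf
    refine hW2 m G p N f hN ?_ hf
    intro e he
    rcases he with he | he
    · exact hF (by exact_mod_cast he)
    · have h1 := Lp_rect he.1
      have h2 := Lp_rect he.2
      have h3 := hFr _ h1.1 h1.2
      have h4 := hFr _ h2.1 h2.2
      have h5 := h3.2
      have h6 := h4.2
      rw [sd_le, abs_le, abs_le] at h5 h6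
      obtain ⟨x, y, c⟩ := e
      simp only [boxE, RE, Finset.mem_filter, Finset.mem_product, Finset.mem_Icc,
        Finset.mem_univ, and_true]
      cases c
      · simp only [src_mk, tgt_false, sub_zero] at h5 h6
        push_cast at h5 h6
        simp only [Bool.false_eq_true, if_false]
        omega
      · simp only [src_mk, tgt_true, sub_zero] at h5 h6
        push_cast at h5 h6
        simp only [if_true]
        omega
  have hNe : ∀ e, e ∉ G → N (dsrc e) = N (dtgt e) := by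
    intro e he
    have := hW1 G p p N e hN he
    omega
  -- where the winding number changes
  have hch : ∀ t, N (face (orb ↑F ρ t)) ≠ N (face (orb ↑F ρ (t + 1))) →
      ((orb ↑F ρ t).1 = p ∨ (orb ↑F ρ t).1 = q) ∧ (mv (orb ↑F ρ t)).1 ∈ Lp p q := by
    intro t ht
    have h1 : ae (orb ↑F ρ t) ∉ (↑F : Set Edg) := by
      intro h
      apply ht
      rw [orb_succ, nxt_open h, p2_face_mv]
    have h2 : ae (orb ↑F ρ t) ∈ G := by
      by_contra h
      apply ht
      rw [orb_succ, nxt_closed h1]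
      have h3 := hNe _ h
      rcases p2_dends (orb ↑F ρ t) with ⟨h4, h5⟩ | ⟨h4, h5⟩
      · rw [← h4, ← h5, h3]
      · rw [← h4, ← h5, h3]
    have h3 : ae (orb ↑F ρ t) ∈ Inn2 (Lp p q) := by
      rcases h2 with h2 | h2
      · exact absurd h2 h1
      · exact h2
    rcases p2_ends (orb ↑F ρ t) with ⟨h4, h5⟩ | ⟨h4, h5⟩
    · have h6 := h3.1
      have h7 := h3.2
      rw [h4] at h6
      rw [h5] at h7
      exact ⟨honly _ h6 (r2 t), h7⟩
    · have h6 := h3.1
      have h7 := h3.2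
      rw [h4] at h6
      rw [h5] at h7
      exact ⟨honly _ h7 (r2 t), h6⟩
  have hmid : N (face (orb ↑F ρ t0)) ≠ 0 := by
    rw [hRun.mid]
    exact hN0
  have hst : N (face (orb ↑F ρ 0)) = 0 := hNout _ hRun.out0
  have hen : N (face (orb ↑F ρ T)) = 0 := hNout _ hRun.outT
  obtain ⟨s, -, hs2, hs3⟩ := change (N := fun t => N (face (orb ↑F ρ t))) (Nat.zero_le t0)
    (by
      rw [hst]; exact fun h => hmid h.symm)
  obtain ⟨τ, hτ1, hτ2, hτ3⟩ := change (N := fun t => N (face (orb ↑F ρ t))) hRun.lt2.le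
    (by
      rw [hen]; exact hmid)
  obtain ⟨cs1, cs2⟩ := hch s hs3
  obtain ⟨ct1, ct2⟩ := hch τ hτ3
  have hneq : orb ↑F ρ s ≠ orb ↑F ρ τ := r1 s τ (lt_of_lt_of_le hs2 hτ1) hτ2
  have hv : (orb ↑F ρ s).1 ≠ (orb ↑F ρ τ).1 := fun h => hneq (uniq h cs1 cs2 ct2)
  have hu4 : (4 : ℤ) ≤ u := by
    have : 4 ≤ u := by omega
    exact_mod_cast this
  have hpO : p ≠ (0, 0) := by
    intro h
    have h1 := (hFr p ⟨min_le_left _ _, le_max_left _ _⟩ ⟨min_le_left _ _, le_max_left _ _⟩).1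
    rw [h] at h1
    simp [sd] at h1
    omega
  have hqO : q ≠ (0, 0) := by
    intro h
    have h1 := (hFr q ⟨min_le_right _ _, le_max_right _ _⟩ ⟨min_le_right _ _, le_max_right _ _⟩).1
    rw [h] at h1
    simp [sd] at h1
    omega
  have hτ0 : t0 < τ := by
    rcases lt_or_eq_of_le hτ1 with h | h
    · exact h
    · exfalso
      rw [← h, hRun.mid] at ct1
      rcases ct1 with h1 | h1
      · exact hpO h1.symm
      · exact hqO h1.symm
  have hox : μ (orb ↑F ρ τ).1 - μ (orb ↑F ρ s).1 = ox ↑F ρ (0, 0) s τ :=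
    hpot _ _ _ (r2 s) (hOXW ↑F ρ s τ (by omega))
  have hrev : lx (0, 0) q p = -lx (0, 0) p q := by
    have h1 := lx2 (0, 0) q p q (by
      by_contra hcon
      have h2 := (hFr (0, 0) (by
        change min p.1 q.1 ≤ 0 ∧ 0 ≤ max p.1 q.1
        simp only at hcon
        omega) (by
        change min p.2 q.2 ≤ 0 ∧ 0 ≤ max p.2 q.2
        simp only at hcon
        omega)).1
      simp [sd] at h2
      omega)
    rw [lx3] at h1
    omega
  refine ⟨τ, hτ0, hτ2, s, hs2, ?_⟩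
  rcases cs1 with hs | hs
  · rcases ct1 with ht | ht
    · exact absurd (hs.trans ht.symm) hv
    · rw [hs, ht] at hox ⊢
      refine ⟨hsd, hFr, ?_⟩
      rw [← hox]
      exact hne'
  · rcases ct1 with ht | ht
    · rw [hs, ht] at hox ⊢
      refine ⟨hsd', hFr', ?_⟩
      rw [← hox, hrev]
      intro h
      apply hne'
      omega
    · exact absurd (hs.trans ht.symm) hv

end Pool.Agent.Y989.FR.XC
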