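import Pool.Agent.Y989.FR.T_W
import Pool.Agent.Y989.FR.T_L
import Pool.Agent.Y989.FR.T_PI
import Pool.Agent.Y989.FR.T_OX
import Pool.Agent.Y989.FR.T_EXIT
import Pool.Agent.Y989.FR.T_DIAG
import Pool.Agent.Y989.FR.T_NOG
import Pool.Agent.Y989.FR.T_XC
import Pool.Agent.Y989.FR.T_K1
import Pool.Agent.Y989.FR.T_K2
import Pool.Agent.Y989.FR.T_DK
import Pool.Agent.Y989.FR.T_ACC
import Pool.Agent.Y989.FR.T_ACU
import Pool.Agent.Y989.FR.T_GP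
import Pool.Agent.Y989.FR.T_THK
import Pool.Agent.Y989.FR.T_RNG
import Pool.Agent.Y989.FR.T_INN
import Pool.Agent.Y989.FR.T_SEP
import Pool.Agent.Y989.FR.T_P3

/-!
# The one-point lower bound: all the steps together
-/

set_option autoImplicit false

namespace Pool.Agent.Y989.FR

theorem a_OXW : S_OXW := OX.t_OXW
theorem a_RUN : S_RUN := OX.t_RUN
theorem a_EXIT : S_EXIT := EXIT.t_EXIT
theorem a_A2 : S_A2 := EXIT.t_A2 a_EXIT a_RUN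
theorem a_PI : S_PI := PI.t_PI W.t_W1 W.t_W2 W.t_WKA
theorem a_POT : S_POT := PI.t_POT W.t_WKA a_PI
theorem a_DIAG : S_DIAG := DIAG.t_DIAG W.t_W1 W.t_W2 W.t_WKA L.t_LX
theorem a_XC : S_XC := XC.t_XC W.t_W1 W.t_W2 W.t_WKA L.t_LX L.t_SUBX a_OXW a_RUN
theorem a_K1 : S_K1 := K1.t_K1 W.t_W1 W.t_WKA a_PI W.t_W2 a_OXW a_RUN
theorem a_K2 : S_K2 := K2.t_K2 W.t_W1 W.t_W2 W.t_WKA L.t_LX L.t_SUBX a_POT a_OXW a_RUN
theorem a_DK : S_DK := DK.t_DK a_K1 a_K2 a_RUN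

/-- the thick path -/
theorem a_THK (hJ : S_JR) (hU : S_U3) : S_THK :=
  THK.t_THK a_POT (NOG.t_NOG hJ L.t_LX a_DIAG) (GP.t_GP a_EXIT a_XC a_DK a_RUN (ACU.t_ACU hU))

/-- **the one-point lower bound** -/
theorem a_P3 (hJ : S_JR) (hU : S_U3) (hL : S_L3) : S_P3 :=
  P3.t_P3 (ACC.t_ACC hL) (a_THK hJ hU) RNG.t_RNG a_A2 hU INN.t_INN SEP.t_SEP

end Pool.Agent.Y989.FR
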