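import Pool.Agent.H984R4.NP.Defs
import Pool.Agent.H12R2.Sep.Defs5
import Pool.Agent.H12R2.Sep.BlkSum
import Pool.Agent.H985R3.TA.Defs3

/-!
# Frontiers of the complementary components of the limits of the exploration path: definitions

Everything is at `p = 1/2`.  `O = (0, 0)`.  States, `nxt`, `orb`, `Exm`, `RA` : `H984P`
(`Pool.Agent.H984R3.Per.Defs`); `sd` (sup distance) : `H984N`; `blk`, `bdB`, `Crs`, `DCrs`, `PQ` :
`H12S`.  Light imports only: `AE`, `A3v`, `crv` are copies of the definitions of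
`Pool.Agent.W424.OD.Defs` and `Pool.Agent.W801.RS`.
-/

set_option autoImplicit false

namespace Pool.Agent.Y989.FR

open H974 H12S Finset H984P H984N

/-! ### Annuli -/

/-- The edges of the annulus between the squares of radius `d` and `k` around `c`. -/
def AE (c : ℤ × ℤ) (d k : ℕ) : Set Edg := ↑(blk c k \ blk c d)

/-- The cluster of `u` in the annulus. -/
def Clu (c : ℤ × ℤ) (d k : ℕ) (F : Set Edg) (u : Vtx) : Set Vtx := {v | Reach (F ∩ AE c d k) u v}

/-- Three arms: some open cluster of the annulus crosses it, and a lattice path (of arbitrary edges)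
of the annulus which avoids this cluster crosses the annulus. -/
def A3v (c : ℤ × ℤ) (d k : ℕ) (F : Set Edg) : Prop :=
  ∃ u ∈ bdB c d, (∃ w ∈ bdB c k, w ∈ Clu c d k F u) ∧
    ∃ x ∈ bdB c d, ∃ y ∈ bdB c k,
      Reach {e | e ∈ AE c d k ∧ src e ∉ Clu c d k F u ∧ tgt e ∉ Clu c d k F u} x y

/-- Crossing number of the direct path between two points near each other and far from the tip. -/
def crd (a b : ℤ × ℤ) : ℤ :=
  (if 0 ≤ a.2 ∧ b.2 < 0 ∧ 0 < a.1 then 1 else 0) - (if a.2 < 0 ∧ 0 ≤ b.2 ∧ 0 < a.1 then 1 else 0)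

/-- Crossing of the diagonal half-line by the step between two vertices of the same face. -/
def crv (v w : Vtx) : ℤ := crd (v.1 + v.2, v.1 - v.2) (w.1 + w.2, w.1 - w.2)

/-! ### The inner event -/

/-- `x` keeps away from `c`, seen from `v`, at the scale `k`:
`|x - v| ^ B < M (8 k) ^ (B - 1) |x - c|`. -/
def Awy (M B k : ℕ) (v c x : Vtx) : Prop :=
  sd x v ^ B < (M : ℤ) * ((8 * k : ℕ) : ℤ) ^ (B - 1) * sd x c

/-- The vertices of the box of radius `8 k` around `v` which are joined to its boundary. -/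
def BB (k : ℕ) (v : Vtx) (F : Set Edg) : Set Vtx :=
  {c | ∃ w ∈ bdB v (8 * k), Reach (F ∩ ↑(blk v (8 * k))) c w}

/-- There is a thick path from `v` to the distance `k`: a lattice path of arbitrary edges, from
distance `2` to distance `k`, which keeps away from `BB k v F`. -/
def Tk (M B k : ℕ) (v : Vtx) (F : Set Edg) : Prop :=
  ∃ x ∈ bdB v 2, ∃ y ∈ bdB v k,
    Reach {e | e ∈ AE v 2 k ∧ (∀ c ∈ BB k v F, Awy M B k v c (src e)) ∧
      ∀ c ∈ BB k v F, Awy M B k v c (tgt e)} x y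

/-- The event at `v`: two separated arms, and a thick path. -/
def E3 (M B a : ℕ) (v : Vtx) (F : Finset Edg) : Prop := RA v a ↑F ∧ Tk M B (a / 64) v ↑F

/-! ### Accessible origin -/

/-- The cluster of `O` in the box of radius `m`. -/
def cl (m : ℕ) (F : Set Edg) : Set Vtx := {x | Reach (F ∩ ↑(boxE m)) (0, 0) x}

/-- The cluster of `O` reaches the boundary of the box, and a lattice path from `(1, 0)` to the
boundary of the box avoids this cluster. -/
def Acc (m : ℕ) (F : Set Edg) : Prop :=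
  (∃ w ∈ bdB (0, 0) m, w ∈ cl m F) ∧ ((1, 0) : Vtx) ∉ cl m F ∧
    ∃ y ∈ bdB (0, 0) m,
      Reach {e | e ∈ boxE m ∧ src e ∉ cl m F ∧ tgt e ∉ cl m F} (1, 0) y

/-- Thick path which keeps away from the cluster of `O`. -/
def TkA (M B k m : ℕ) (F : Set Edg) : Prop :=
  ∃ x ∈ bdB (0, 0) 2, ∃ y ∈ bdB (0, 0) k,
    Reach {e | e ∈ AE (0, 0) 2 k ∧ (∀ c ∈ cl m F, Awy M B k (0, 0) c (src e)) ∧
      ∀ c ∈ cl m F, Awy M B k (0, 0) c (tgt e)} x y

/-! ### Crossing numbers (rays of faces to the east) -/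

/-- Crossing of the ray from the centre of the face `f` to the east by the unit step `a → b`. -/
def cx (f a b : Vtx) : ℤ :=
  (if a.2 = f.2 ∧ b.2 = f.2 + 1 ∧ f.1 < a.1 then 1 else 0) -
    (if b.2 = f.2 ∧ a.2 = f.2 + 1 ∧ f.1 < a.1 then 1 else 0)

/-- Crossing number of the path from `a` to `b` which is first horizontal, then vertical (in the
column of `b`). -/
def lx (f a b : Vtx) : ℤ :=
  (if a.2 ≤ f.2 ∧ f.2 < b.2 ∧ f.1 < b.1 then 1 else 0) -
    (if b.2 ≤ f.2 ∧ f.2 < a.2 ∧ f.1 < b.1 then 1 else 0)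

/-- Lattice walks along the edges of `G`, with their crossing numbers. -/
inductive Wk (G : Set Edg) : Vtx → Vtx → (Vtx → ℤ) → Prop
  | nil (a : Vtx) : Wk G a a (fun _ => 0)
  | cons (a b c : Vtx) (φ : Vtx → ℤ) (e : Edg) : Wk G a b φ → e ∈ G →
      ((src e = b ∧ tgt e = c) ∨ (src e = c ∧ tgt e = b)) → Wk G a c (fun f => φ f + cx f b c)

/-- The edges (open or closed) with both ends in `C`. -/
def Inn2 (C : Set Vtx) : Set Edg := {e | src e ∈ C ∧ tgt e ∈ C}

/-- The vertices of the path from `p` to `q` which is first horizontal, then vertical. -/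
def Lp (p q : Vtx) : Set Vtx :=
  {x | (x.2 = p.2 ∧ min p.1 q.1 ≤ x.1 ∧ x.1 ≤ max p.1 q.1) ∨
    (x.1 = q.1 ∧ min p.2 q.2 ≤ x.2 ∧ x.2 ≤ max p.2 q.2)}

/-- The correction for the two faces of an edge. -/
def Gd (e : Edg) (x : Vtx) : ℤ := if e.2.2 = true ∧ x.2 = e.2.1 ∧ e.1 < x.1 then 1 else 0

/-- Inner faces of the box of radius `m`. -/
def InF (m : ℕ) (f : Vtx) : Prop := (-(m : ℤ) ≤ f.1 ∧ f.1 < m) ∧ (-(m : ℤ) ≤ f.2 ∧ f.2 < m)

/-- Crossing number of the vertices of an orbit between the times `i` and `j`. -/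
noncomputable def ox (F : Set Edg) (ρ : St) (f : Vtx) (i j : ℕ) : ℤ :=
  ∑ t ∈ Finset.Ico i j, cx f (orb F ρ t).1 (orb F ρ (t + 1)).1

/-- Potentials of the cluster of `O`: they measure the crossing numbers with respect to the face
`(0, 0)`. -/
def IsPot (m : ℕ) (F : Set Edg) (μ : Vtx → ℤ) : Prop :=
  ∀ a b φ, Wk (Inn2 (cl m F)) a b φ → μ b - μ a = φ (0, 0)

/-! ### The interface through the edge from `O` to `(1, 0)` -/

/-- The state at `O` which examines the edge from `O` to `(1, 0)`. -/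
def s0 : St := ((0, 0), .ne)

/-- The interface enters the box at time `0`, is in the state `s0` at the time `t0` and leaves the
box at the time `T`. -/
structure Run (m : ℕ) (F : Set Edg) (ρ : St) (t0 T : ℕ) : Prop where
  out0 : ¬ InF m (face ρ)
  ins : ∀ t, 1 ≤ t → t < T → InF m (face (orb F ρ t))
  mid : orb F ρ t0 = s0
  lt1 : 1 ≤ t0
  lt2 : t0 < T
  outT : ¬ InF m (face (orb F ρ T))

/-- All the points of the rectangle spanned by `p` and `q` have distance at least `u` and at most `U`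
from `O`. -/
def Fr (u U : ℕ) (p q : Vtx) : Prop :=
  ∀ x : Vtx, (min p.1 q.1 ≤ x.1 ∧ x.1 ≤ max p.1 q.1) → (min p.2 q.2 ≤ x.2 ∧ x.2 ≤ max p.2 q.2) →
    (u : ℤ) ≤ sd x (0, 0) ∧ sd x (0, 0) ≤ U

/-- Gate time: at the time `τ` the interface is near a vertex visited before the time `t0`, and the
closed curve formed by the interface and a short path surrounds the face `(0, 0)`. -/
def Gte (u U w : ℕ) (F : Set Edg) (ρ : St) (t0 τ : ℕ) : Prop :=
  ∃ s < t0, sd (orb F ρ s).1 (orb F ρ τ).1 ≤ w ∧ Fr u U (orb F ρ s).1 (orb F ρ τ).1 ∧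
    ox F ρ (0, 0) s τ ≠ lx (0, 0) (orb F ρ s).1 (orb F ρ τ).1

/-- Gate of width at most `w` at distance between `2 u` and `4 u`. -/
def GtA (m u w : ℕ) (F : Set Edg) : Prop :=
  ∃ μ, IsPot m F μ ∧ ∃ a ∈ cl m F, ∃ b ∈ cl m F, 2 * (u : ℤ) ≤ sd a (0, 0) ∧
    sd a (0, 0) ≤ 4 * u ∧ sd a b ≤ w ∧ μ b - μ a ≠ lx (0, 0) a b

end Pool.Agent.Y989.FR
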