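import Pool.Agent.Y989.FR.Defs

/-!
# Frontiers of the complementary components of the limits of the exploration path: the steps
(every step is a `Prop`; nothing is assumed)
-/

set_option autoImplicit false

namespace Pool.Agent.Y989.FR

open H974 H12S Finset H984P H984N

/-! ### From the library (copies with the light definitions) -/

/-- upper bound for three arms (library: `Pool.Agent.W424.KI.u3`) -/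
def S_U3 : Prop := ∃ C : ℝ, 0 < C ∧ ∀ (c : ℤ × ℤ) (d k : ℕ), 1 ≤ d → d ≤ k →
  ∀ S : Finset Edg, blk c k ⊆ S →
    PQ (1/2) S (fun F => A3v c d k ↑F) ≤ C * ((d:ℝ) / k) ^ (2/3 : ℝ)

/-- lower bound for three arms (library: `Pool.Agent.W808.TA.RSA.a_LOWB`) -/
def S_L3 : Prop := ∃ c : ℝ, 0 < c ∧ ∀ (a : ℤ × ℤ) (d k : ℕ), 1 ≤ d → d ≤ k →
  ∀ S : Finset Edg, blk a k ⊆ S →
    c * ((d : ℝ) / k) ^ (2 / 3 : ℝ) ≤ PQ (1 / 2) S (fun F => A3v a d k (↑F : Set Edg))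

/-- discrete Jordan theorem (library: `Pool.Agent.W801.RS.t_JOR`) -/
def S_JR : Prop := ∀ (W : Set Vtx) (μ : Vtx → ℤ) (d k : ℕ), 1 ≤ d → d < k →
  (∀ v w, v ∈ W → w ∈ W → |v.1 - w.1| ≤ 1 → |v.2 - w.2| ≤ 1 →
    ((d : ℤ) ≤ sd v (0, 0) ∧ sd v (0, 0) ≤ k) → ((d : ℤ) ≤ sd w (0, 0) ∧ sd w (0, 0) ≤ k) →
    μ w - μ v = crv v w) →
  ∃ x ∈ bdB (0, 0) d, ∃ y ∈ bdB (0, 0) k,
    Reach {e | e ∈ AE (0, 0) d k ∧ src e ∉ W ∧ tgt e ∉ W} x y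

/-! ### Crossing numbers -/

/-- W1: a walk which does not traverse the edge. -/
def S_W1 : Prop := ∀ (G : Set Edg) (a b : Vtx) (φ : Vtx → ℤ) (e : Edg), Wk G a b φ → e ∉ G →
  φ (dsrc e) - φ (dtgt e) = Gd e b - Gd e a

/-- W2: closed walks and outer faces. -/
def S_W2 : Prop := ∀ (m : ℕ) (G : Set Edg) (a : Vtx) (φ : Vtx → ℤ) (f : Vtx), Wk G a a φ →
  (∀ e ∈ G, e ∈ boxE m) → ¬ InF m f → φ f = 0

/-- WKA: composition, reversal, monotonicity, existence. -/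
def S_WKA : Prop :=
  (∀ (G : Set Edg) (a b c : Vtx) (φ ψ : Vtx → ℤ), Wk G a b φ → Wk G b c ψ →
    Wk G a c (fun f => φ f + ψ f)) ∧
  (∀ (G : Set Edg) (a b : Vtx) (φ : Vtx → ℤ), Wk G a b φ → Wk G b a (fun f => - φ f)) ∧
  (∀ (G G' : Set Edg) (a b : Vtx) (φ : Vtx → ℤ), G ⊆ G' → Wk G a b φ → Wk G' a b φ) ∧
  (∀ (G : Set Edg) (a b : Vtx), Reach G a b → ∃ φ, Wk G a b φ) ∧
  ∀ (m : ℕ) (F : Set Edg) (a b : Vtx) (φ : Vtx → ℤ), F ⊆ ↑(boxE m) → a ∈ cl m F → Wk F a b φ →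
    b ∈ cl m F ∧ Wk (F ∩ Inn2 (cl m F)) a b φ

/-- LX: properties of the short paths. -/
def S_LX : Prop :=
  (∀ a b : Vtx, Wk (Inn2 (Lp a b)) a b (fun f => lx f a b)) ∧
  (∀ f a b c : Vtx, (a.1 ≤ f.1 ∧ b.1 ≤ f.1 ∧ c.1 ≤ f.1) ∨ (f.1 < a.1 ∧ f.1 < b.1 ∧ f.1 < c.1) ∨
    (a.2 ≤ f.2 ∧ b.2 ≤ f.2 ∧ c.2 ≤ f.2) ∨ (f.2 < a.2 ∧ f.2 < b.2 ∧ f.2 < c.2) →
    lx f a c = lx f a b + lx f b c) ∧
  (∀ f a : Vtx, lx f a a = 0) ∧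
  (∀ (f a b : Vtx) (e : Edg), ((src e = a ∧ tgt e = b) ∨ (src e = b ∧ tgt e = a)) →
    lx f a b = cx f a b)

/-- SUBX: refinement of a short path. -/
def S_SUBX : Prop := ∀ (V : Set Vtx) (μ : Vtx → ℤ) (f p q : Vtx), p ∈ V → q ∈ V →
  μ q - μ p ≠ lx f p q → ∃ p1 ∈ V, ∃ q1 ∈ V, Lp p1 q1 ⊆ Lp p q ∧ μ q1 - μ p1 ≠ lx f p1 q1 ∧
    ∀ x ∈ Lp p1 q1, x ∈ V → x = p1 ∨ x = q1

/-- PI: closed walks in the cluster of `O` do not surround the face `(0, 0)`. -/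
def S_PI : Prop := ∀ (m : ℕ) (F : Set Edg) (a : Vtx) (φ : Vtx → ℤ), 1 ≤ m → Acc m F →
  Wk (Inn2 (cl m F)) a a φ → φ (0, 0) = 0

/-- POT: existence of the potential. -/
def S_POT : Prop := ∀ (m : ℕ) (F : Set Edg), 1 ≤ m → Acc m F → ∃ μ : Vtx → ℤ, IsPot m F μ

/-! ### The interface -/

/-- OXW: the vertices of the interface form a walk along open edges. -/
def S_OXW : Prop := ∀ (F : Set Edg) (ρ : St) (i j : ℕ), i ≤ j →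
  Wk F (orb F ρ i).1 (orb F ρ j).1 (fun f => ox F ρ f i j)

/-- RUN: elementary properties of runs. -/
def S_RUN : Prop := ∀ (m : ℕ) (F : Finset Edg) (ρ : St) (t0 T : ℕ), F ⊆ boxE m → 1 ≤ m →
  Run m ↑F ρ t0 T →
    (∀ i j, i < j → j < T → orb ↑F ρ i ≠ orb ↑F ρ j) ∧
    (∀ t, (orb ↑F ρ t).1 ∈ cl m ↑F) ∧
    (∀ t, t < T → ae (orb ↑F ρ t) ∈ boxE m) ∧
    (∀ i j, i < j → j < T → ae (orb ↑F ρ i) = ae (orb ↑F ρ j) → ae (orb ↑F ρ j) ∉ F →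
      (orb ↑F ρ i).1 ≠ (orb ↑F ρ j).1 ∧
      face (orb ↑F ρ (i + 1)) = face (orb ↑F ρ j) ∧ face (orb ↑F ρ (j + 1)) = face (orb ↑F ρ i))

/-- EXIT: the interface through the edge from `O` to `(1, 0)` comes from the outside of the box and
goes to the outside of the box. -/
def S_EXIT : Prop := ∀ (m : ℕ) (F : Finset Edg), F ⊆ boxE m → 1 ≤ m → Acc m ↑F →
  ∃ (ρ : St) (t0 T : ℕ), Run m ↑F ρ t0 T

/-- DIAG: vertices of the cluster which are opposite corners of a face. -/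
def S_DIAG : Prop := ∀ (m : ℕ) (F : Set Edg) (μ : Vtx → ℤ) (a b : Vtx), 2 ≤ m → Acc m F →
  IsPot m F μ → a ∈ cl m F → b ∈ cl m F → |a.1 - b.1| = 1 → |a.2 - b.2| = 1 →
  2 ≤ sd a (0, 0) → 2 ≤ sd b (0, 0) → μ b - μ a = lx (0, 0) a b

/-- NOG: no gates imply a thick path. -/
def S_NOG : Prop := ∀ (M B k m : ℕ) (F : Set Edg) (μ : Vtx → ℤ), 16 ≤ M → 1 ≤ B → 3 ≤ k →
  4 * k ≤ m → Acc m F → IsPot m F μ →
  (∀ a ∈ cl m F, ∀ b ∈ cl m F, 1 ≤ sd a (0, 0) → sd a (0, 0) ≤ 2 * k → 2 ≤ sd a b →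
    (M : ℤ) * ((8 * k : ℕ) : ℤ) ^ (B - 1) * sd a b ≤ 4 * (4 * sd a (0, 0)) ^ B →
      μ b - μ a = lx (0, 0) a b) →
  TkA M B k m F

/-- XC: a gate implies a gate time. -/
def S_XC : Prop := ∀ (m u w : ℕ) (F : Finset Edg) (ρ : St) (t0 T : ℕ), F ⊆ boxE m → 1 ≤ w →
  4 * w ≤ u → 16 * u ≤ m → Acc m ↑F → Run m ↑F ρ t0 T → GtA m u w ↑F →
  ∃ τ, t0 < τ ∧ τ < T ∧ Gte u (8 * u) w ↑F ρ t0 τ

/-- K1: a closed edge is not crossed before and after the time `t0`. -/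
def S_K1 : Prop := ∀ (m : ℕ) (F : Finset Edg) (ρ : St) (t0 T i j : ℕ), F ⊆ boxE m → 1 ≤ m →
  Acc m ↑F → Run m ↑F ρ t0 T → i < t0 → t0 < j → j < T → ae (orb ↑F ρ i) = ae (orb ↑F ρ j) →
  ae (orb ↑F ρ j) ∈ F

/-- K2: the winding number of the closed curve at the first gate time. -/
def S_K2 : Prop := ∀ (m u w : ℕ) (F : Finset Edg) (ρ : St) (t0 T τ : ℕ), F ⊆ boxE m → 1 ≤ w →
  16 * w + 16 ≤ u → 16 * u ≤ m → Acc m ↑F → Run m ↑F ρ t0 T → t0 < τ → τ < T →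
  Gte u (8 * u) w ↑F ρ t0 τ → (∀ τ', t0 < τ' → τ' < τ → ¬ Gte u (8 * u) w ↑F ρ t0 τ') →
  ∃ N : Vtx → ℤ, (∀ j, t0 ≤ j → j ≤ τ → N (face (orb ↑F ρ j)) ≠ 0) ∧
    (∀ e, e ∉ F → ((w : ℤ) < sd (src e) (orb ↑F ρ τ).1 ∨ (w : ℤ) < sd (tgt e) (orb ↑F ρ τ).1) →
      N (dsrc e) = N (dtgt e)) ∧
    ∀ f, ¬ InF m f → N f = 0

/-- DK: after the first gate time there is a dual path of fresh closed edges. -/
def S_DK : Prop := ∀ (m u w : ℕ) (F : Finset Edg) (ρ : St) (t0 T τ : ℕ), F ⊆ boxE m → 1 ≤ w →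
  16 * w + 16 ≤ u → 16 * u ≤ m → Acc m ↑F → Run m ↑F ρ t0 T → t0 < τ → τ < T →
  Gte u (8 * u) w ↑F ρ t0 τ → (∀ τ', t0 < τ' → τ' < τ → ¬ Gte u (8 * u) w ↑F ρ t0 τ') →
  DCrs (orb ↑F ρ τ).1.1 (orb ↑F ρ τ).1.2 (2 * w + 2) (u / 4)
    {e | e ∈ boxE m ∧ e ∉ F ∧ e ∉ Exm ↑F ρ τ ∧ e ∉ boxE (u / 2)}

/-! ### One-point bounds -/

/-- ACC: lower bound for the accessibility of `O`. -/
def S_ACC : Prop := ∃ c : ℝ, 0 < c ∧ ∀ m : ℕ, 1 ≤ m →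
  c * (m : ℝ) ^ (-(2 / 3 : ℝ)) ≤ PQ (1 / 2) (boxE m) (fun F => Acc m ↑F)

/-- ACU: upper bound. -/
def S_ACU : Prop := ∃ C : ℝ, 0 < C ∧ ∀ m : ℕ, 1 ≤ m → ∀ S : Finset Edg, boxE m ⊆ S →
  PQ (1 / 2) S (fun F => Acc m ↑F) ≤ C * (m : ℝ) ^ (-(2 / 3 : ℝ))

/-- A2: dual arm of the face `(0, 0)`. -/
def S_A2 : Prop := ∀ (m : ℕ) (F : Finset Edg), F ⊆ boxE m → 1 ≤ m → Acc m ↑F →
  H985T.A2g m (0, 0) ↑F

/-- GP: probability of a gate. -/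
def S_GP : Prop := ∃ C c : ℝ, 0 < C ∧ 0 < c ∧ ∀ m u w : ℕ, 1 ≤ w → 16 * w + 16 ≤ u →
  16 * u ≤ m →
  PQ (1 / 2) (boxE m) (fun F => Acc m ↑F ∧ GtA m u w ↑F) ≤
    C * (u : ℝ) ^ (-(2 / 3 : ℝ)) * ((w : ℝ) / u) ^ c

/-- THK: the thick path exists with large conditional probability. -/
def S_THK : Prop := ∀ ε : ℝ, 0 < ε → ∃ M B m0 : ℕ, 16 ≤ M ∧ 1 ≤ B ∧ ∀ m : ℕ, m0 ≤ m →
  PQ (1 / 2) (boxE m) (fun F => Acc m ↑F ∧ ¬ TkA M B (m / 64) m ↑F) ≤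
    ε * (m : ℝ) ^ (-(2 / 3 : ℝ))

/-- RNG: closed ring outside of the cluster of `O`. -/
def S_RNG : Prop := ∃ c : ℝ, 0 < c ∧ ∀ M B m : ℕ, 16 ≤ M → 1 ≤ B → 192 ≤ m →
  c * PQ (1 / 2) (boxE m) (fun F => Acc m ↑F ∧ TkA M B (m / 64) m ↑F) ≤
    PQ (1 / 2) (boxE m) (fun F => Acc m ↑F ∧ Tk M B (m / 64) (0, 0) ↑F)

/-- Inner events: they depend on the edges of the box of radius `m / 8` and are invariant under the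
lattice symmetries. -/
def Inn (m : ℕ) (I : Finset Edg → Prop) : Prop :=
  (∀ F, I F ↔ I (F ∩ boxE (m / 8))) ∧
  (∀ (s : Fin 4) (F : Finset Edg), I ((H985T.sy s).toLSym.mp F) ↔ I F) ∧
  (∀ F, I ((rfx 0).mp F) ↔ I F) ∧ ∀ F, I ((rfy 0).mp F) ↔ I F

/-- INN: the thick path is an inner event. -/
def S_INN : Prop := ∀ M B m : ℕ, Inn m (fun F => Tk M B (m / 64) (0, 0) ↑F)

/-- The region of the separated arms at `O`. -/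
noncomputable def SB (a : ℕ) : Finset Edg :=
  RE (-(13 * a : ℕ)) (14 * a : ℕ) (-(13 * a : ℕ)) (14 * a : ℕ)

/-- SEP: separation of the two arms, with an inner event. -/
def S_SEP : Prop := ∀ c1 C1 : ℝ, 0 < c1 → 0 < C1 → ∃ (m0 : ℕ) (κ : ℝ), 0 < κ ∧ ∀ m : ℕ,
  m0 ≤ m → ∀ I : Finset Edg → Prop, Inn m I → ∀ x : ℝ, 0 < x →
  c1 * x ≤ PQ (1 / 2) (boxE m) (fun F => H985T.A2g m (0, 0) ↑F ∧ I F) →
  PQ (1 / 2) (boxE m) (fun F => H985T.A2g (m / 2) (0, 0) ↑F ∧ I F) ≤ C1 * x →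
  κ * x ≤ PQ (1 / 2) (SB m) (fun F => RA (0, 0) m ↑F ∧ I F)

/-- P3: the one-point lower bound at `O`. -/
def S_P3 : Prop := ∃ (M B a0 : ℕ) (c : ℝ), 16 ≤ M ∧ 1 ≤ B ∧ 192 ≤ a0 ∧ 0 < c ∧ ∀ a : ℕ,
  a0 ≤ a → ∀ S : Finset Edg, SB a ⊆ S →
    c * (a : ℝ) ^ (-(2 / 3 : ℝ)) ≤
      PQ (1 / 2) S (fun F => RA (0, 0) a ↑F ∧ Tk M B (a / 64) (0, 0) ↑F)


end Pool.Agent.Y989.FR
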