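import Pool.Agent.Y989.FR.Stm
import Pool.Agent.Y989.FR.StmA
import Pool.Agent.W92.DP.Defs
import Pool.Agent.H389R2.Dim.Lower

/-!
# Frontiers of the complementary components of the limits of the exploration path: the steps, part 2
(every step is a `Prop`; nothing is assumed)
-/

set_option autoImplicit false

namespace Pool.Agent.Y989.FR

open H974 H12S Finset H389NS H984P H984N MeasureTheory Filter Topology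
open Pool.Agent.W92.DP (DTB DLR HA SA)
open scoped ENNReal

/-! ### The half annulus near the end point -/

/-- The core. -/
noncomputable def core3 (a : ℤ) : Finset Vtx :=
  Finset.Icc (-(60 * a)) (-(58 * a)) ×ˢ Finset.Icc (20 * a) (22 * a)

/-- Open crossings. -/
def GO3 (a : ℤ) (F : Finset Edg) : Prop :=
  LRc (-(80 * a)) (-(40 * a)) (10 * a) (14 * a) F ∧ TBc (-(80 * a)) (-(76 * a)) 0 (14 * a) F

/-- Dual crossings. -/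
def GD3 (a : ℤ) (F : Finset Edg) : Prop :=
  DLR (-(80 * a)) (8 * a) (28 * a) (32 * a) F ∧ DTB (4 * a) (8 * a) 0 (32 * a) F

open Classical in
/-- The vertices of the core with the event `E3`. -/
noncomputable def V3 (M B a : ℕ) (F : Finset Edg) : Finset Vtx :=
  (core3 a).filter (fun v => E3 M B a v F)

/-- Their energy. -/
noncomputable def En3 (t : ℝ) (M B a : ℕ) (F : Finset Edg) : ℝ :=
  ∑ v ∈ V3 M B a F, ∑ w ∈ V3 M B a F, ((max (sd v w) 1 : ℤ) : ℝ) ^ (-t)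

/-- The good event. -/
def Gd3 (c0 E0 t : ℝ) (M B a : ℕ) (F : Finset Edg) : Prop :=
  (GO3 a F ∧ GD3 a F) ∧ c0 * (a : ℝ) ^ (4 / 3 : ℝ) ≤ ((V3 M B a F).card : ℝ) ∧
    En3 t M B a F ≤ E0 * (a : ℝ) ^ (8 / 3 - t)

/-- ONE3: one-point lower bound, with the crossings. -/
def S_ONE3 : Prop := ∃ (M B a0 : ℕ) (c : ℝ), 16 ≤ M ∧ 1 ≤ B ∧ 192 ≤ a0 ∧ 0 < c ∧ ∀ a : ℕ,
  a0 ≤ a → ∀ v ∈ core3 a, ∀ S : Finset Edg, SA (4 * a) ⊆ S →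
    c * (a : ℝ) ^ (-(2 / 3 : ℝ)) ≤
      PQ (1 / 2) S (fun F => E3 M B a v F ∧ GO3 a F ∧ GD3 a F)

/-- TWO3: two-point upper bound. -/
def S_TWO3 : Prop := ∀ M B : ℕ, ∃ C : ℝ, 0 < C ∧ ∀ a : ℕ, 192 ≤ a →
  ∀ v ∈ core3 a, ∀ w ∈ core3 a, ∀ S : Finset Edg, SA (4 * a) ⊆ S →
    PQ (1 / 2) S (fun F => E3 M B a v F ∧ E3 M B a w F) ≤
      C * ((max (sd v w) 1 : ℤ) : ℝ) ^ (-(2 / 3) : ℝ) * (a : ℝ) ^ (-(2 / 3) : ℝ)

/-- GOOD3: second moment method. -/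
def S_GOOD3 : Prop := ∀ t : ℝ, 0 < t → t < 4 / 3 →
  ∃ (M B a0 : ℕ) (c0 E0 p : ℝ), 16 ≤ M ∧ 1 ≤ B ∧ 192 ≤ a0 ∧ 0 < c0 ∧ 0 < E0 ∧ 0 < p ∧ p ≤ 1 ∧
    ∀ a : ℕ, a0 ≤ a → ∀ S : Finset Edg, SA (4 * a) ⊆ S →
      p ≤ PQ (1 / 2) S (Gd3 c0 E0 t M B a)

/-- IND3: independence of the scales. -/
def S_IND3 : Prop := ∀ (p c0 E0 t : ℝ) (M B a0 : ℕ), p ≤ 1 → 192 ≤ a0 →
  (∀ a : ℕ, a0 ≤ a → ∀ S : Finset Edg, SA (4 * a) ⊆ S →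
    p ≤ PQ (1 / 2) S (Gd3 c0 E0 t M B a)) →
  ∀ (J a : ℕ) (S : Finset Edg), a0 ≤ a → (∀ j < J, SA (4 * (64 ^ j * a : ℕ)) ⊆ S) →
    PQ (1 / 2) S (fun F => ∀ j < J, ¬ Gd3 c0 E0 t M B (64 ^ j * a) F) ≤ (1 - p) ^ J

/-- `x` keeps away from the exploration path. -/
def AwD (D : Dm) (F : Finset Edg) (M B k : ℕ) (v x : Vtx) : Prop :=
  ∀ i ≤ D.len F, sd x v ^ B ≤ (M : ℤ) * ((8 * k : ℕ) : ℤ) ^ (B - 1) * sd x (D.walk F i).1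

/-- DET3: a vertex of the core with the event `E3` is visited by the exploration path, and a thick
path starts near it. -/
def S_DET3 : Prop := ∀ (D : Dm) (F : Finset Edg), D.Ok → F ⊆ D.edges → ∀ M B a : ℕ, 16 ≤ M →
  1 ≤ B → 192 ≤ a → D.l < -(27 * (4 * a : ℕ)) → 27 * (4 * a : ℕ) < D.r →
  39 * (4 * a : ℕ) < D.h → GO3 a F → GD3 a F → ∀ v ∈ core3 a, E3 M B a v F →
  (∃ i ≤ D.len F, (D.walk F i).1 = v) ∧
    ∃ x ∈ bdB v 2, ∃ y ∈ bdB v (a / 64),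
      Reach {e | e ∈ AE v 2 (a / 64) ∧ AwD D F M B (a / 64) v (src e) ∧
        AwD D F M B (a / 64) v (tgt e)} x y

/-! ### The limit -/

/-- LG: abstract passage to the limit. -/
def S_LG : Prop := ∀ (μs : ℕ → ProbabilityMeasure X) (μ : ProbabilityMeasure X),
  Tendsto μs atTop (𝓝 μ) → ∀ t : ℝ, 0 < t → ∀ T : C(unitInterval, ℂ) → Set ℂ,
  (∀ ε : ℝ≥0∞, 0 < ε → ∃ (c : ℝ) (K : Set ℂ) (Q : ℕ → Set (C(unitInterval, ℂ) × ℂ)), 0 < c ∧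
    IsCompact K ∧ (∀ k, IsClosed (Q k)) ∧ (∀ f, ∀ z ∈ K, (∀ k, (f, z) ∈ Q k) → z ∈ T f) ∧
    ∀ ε' : ℝ, 0 < ε' → ∀ᶠ i in atTop,
      (μs i : Measure X) {γ : X | ¬ Pool.Agent.H389R2.Dim.Good t ε' c
        {z | z ∈ K ∧ ∀ k : ℕ, ε' ≤ 1 / ((k : ℝ) + 1) → (γ.1, z) ∈ Q k}} ≤ ε) →
  ∀ᵐ p : X ∂(μ : Measure X), ENNReal.ofReal t ≤ dimH (T p.1)

/-- LIM3: lower bound for the limits. -/
def S_LIM3 : Prop := ∀ (R : Rect) (δ : ℕ → ℝ), (∀ i, 0 < δ i) → Tendsto δ atTop (𝓝 0) →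
  ∀ μ : ProbabilityMeasure X, Tendsto (fun i => R.law (δ i)) atTop (𝓝 μ) → ∀ t : ℝ, 0 < t →
    t < 4 / 3 → ∀ᵐ p : X ∂(μ : Measure X), ENNReal.ofReal t ≤ dimH (Fro (Set.range p.1))

end Pool.Agent.Y989.FR
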