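import Pool.Agent.Y989.FR.Stm
import Pool.Agent.TH868.CT.Swap
import Pool.Agent.H984R3.Per.Basic
import Pool.Agent.H12R2.Sep.Win1
import Pool.Agent.H12R2.Sep.Win2
import Pool.Agent.H12R2.Sep.WinHalf

/-!
FR-GP: the probability of a gate.
-/

set_option autoImplicit false

namespace Pool.Agent.Y989.FR.GP

open Pool.Agent.Y989.FR H974 H12S Finset H984P H984N

theorem okh : Ok (fun _ : Edg => (1 / 2 : ℝ)) := okq (by norm_num) (by norm_num)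

theorem dcrs_mono {c1 c2 : ℤ} {ρ R : ℕ} {F G : Set Edg} (h : F ⊆ G) (hF : DCrs c1 c2 ρ R F) :
    DCrs c1 c2 ρ R G := by
  obtain ⟨x, y, h1, h2, h3⟩ := hF
  exact ⟨x, y, h1, h2, h3.mono h⟩

/-! ### the smaller box -/

theorem boxE_sub {n m : ℕ} (h : n ≤ m) : boxE n ⊆ boxE m :=
  RE_subset (by omega) (by omega) (by omega) (by omega)

theorem cl_sub {n m : ℕ} (h : n ≤ m) (F : Set Edg) : cl n F ⊆ cl m F := by
  intro x hx
  refine Reach.mono (Set.inter_subset_inter_right _ ?_) hx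
  exact_mod_cast boxE_sub h

theorem bd0 {n : ℕ} {z : Vtx} (h1 : inR (-n) n (-n) n z)
    (h2 : z.1 = -n ∨ z.1 = n ∨ z.2 = -n ∨ z.2 = n) : z ∈ bdB (0, 0) n := by
  obtain ⟨⟨a, b⟩, c, d⟩ := h1
  refine ⟨?_, ?_, ?_⟩
  · rw [abs_le]; simp only; omega
  · rw [abs_le]; simp only; omega
  · have hn : (0:ℤ) ≤ n := by positivity
    rcases h2 with h | h | h | h
    · left; rw [h, sub_zero, abs_neg, abs_of_nonneg hn]
    · left; rw [h, sub_zero, abs_of_nonneg hn]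
    · right; rw [h, sub_zero, abs_neg, abs_of_nonneg hn]
    · right; rw [h, sub_zero, abs_of_nonneg hn]

theorem bd_out {n m : ℕ} (h : n ≤ m) {z : Vtx} (hz : z ∈ bdB (0, 0) m) :
    z.1 ≤ -n ∨ (n : ℤ) ≤ z.1 ∨ z.2 ≤ -n ∨ (n : ℤ) ≤ z.2 := by
  obtain ⟨-, -, h3⟩ := hz
  simp only [sub_zero] at h3
  rcases h3 with h3 | h3 <;> rcases abs_cases z.1 with ⟨h4, h5⟩ | ⟨h4, h5⟩ <;>
    rcases abs_cases z.2 with ⟨h6, h7⟩ | ⟨h6, h7⟩ <;> omega

theorem acc_small {n m : ℕ} (hn : 1 ≤ n) (h : n ≤ m) {F : Set Edg} (hA : Acc m F) :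
    Acc n F := by
  obtain ⟨⟨w, hw, hwc⟩, h1, y, hy, hyr⟩ := hA
  refine ⟨?_, fun h' => h1 (cl_sub h F h'), ?_⟩
  · obtain ⟨z, hz1, hz2, hz3⟩ := first_exit (a := -n) (b := n) (c := -n) (d := n)
      (u := ((0, 0) : Vtx)) (by unfold inR; simp only; omega) hwc (bd_out h hw)
    refine ⟨z, bd0 hz1 hz2, Reach.mono ?_ hz3⟩
    rintro e ⟨⟨he1, -⟩, he2⟩
    exact ⟨he1, he2⟩
  · obtain ⟨z, hz1, hz2, hz3⟩ := first_exit (a := -n) (b := n) (c := -n) (d := n)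
      (u := ((1, 0) : Vtx)) (by unfold inR; simp only; omega) hyr (bd_out h hy)
    refine ⟨z, bd0 hz1 hz2, Reach.mono ?_ hz3⟩
    rintro e ⟨⟨-, he2, he3⟩, he4⟩
    exact ⟨he4, fun h' => he2 (cl_sub h F h'), fun h' => he3 (cl_sub h F h')⟩

theorem acc_loc {n : ℕ} {F G : Set Edg} (h : ∀ e ∈ boxE n, (e ∈ F ↔ e ∈ G)) (hA : Acc n F) :
    Acc n G := by
  have e1 : cl n F = cl n G := by
    have : F ∩ ↑(boxE n) = G ∩ ↑(boxE n) := by
      ext e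
      constructor
      · rintro ⟨h1, h2⟩; exact ⟨(h e h2).mp h1, h2⟩
      · rintro ⟨h1, h2⟩; exact ⟨(h e h2).mpr h1, h2⟩
    unfold cl
    rw [this]
  unfold Acc at hA ⊢
  rw [← e1]
  exact hA

/-! ### gate times -/

/-- first gate time -/
structure Gp (m u w : ℕ) (F : Set Edg) (ρ : St) (t0 τ : ℕ) : Prop where
  out : ¬ InF m (face ρ)
  ins : ∀ t, 1 ≤ t → t ≤ τ → InF m (face (orb F ρ t))
  mid : orb F ρ t0 = s0
  lt1 : 1 ≤ t0
  lt2 : t0 < τ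
  gte : Gte u (8 * u) w F ρ t0 τ
  fst : ∀ τ', t0 < τ' → τ' < τ → ¬ Gte u (8 * u) w F ρ t0 τ'

theorem gte_congr {u U w : ℕ} {F F' : Set Edg} {ρ : St} {t0 τ : ℕ}
    (h : ∀ t ≤ τ, orb F' ρ t = orb F ρ t) (ht : t0 ≤ τ) (hg : Gte u U w F ρ t0 τ) :
    Gte u U w F' ρ t0 τ := by
  obtain ⟨s, hs, h1, h2, h3⟩ := hg
  refine ⟨s, hs, ?_, ?_, ?_⟩
  · rw [h s (by omega), h τ le_rfl]; exact h1
  · rw [h s (by omega), h τ le_rfl]; exact h2
  · rw [h s (by omega), h τ le_rfl]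
    have e : ox F' ρ (0, 0) s τ = ox F ρ (0, 0) s τ := Finset.sum_congr rfl fun t ht => by
      rw [Finset.mem_Ico] at ht
      rw [h t (by omega), h (t + 1) (by omega)]
    rw [e]; exact h3

theorem gp_congr {m u w : ℕ} {F F' : Set Edg} {ρ : St} {t0 τ : ℕ}
    (h : ∀ t ≤ τ, orb F' ρ t = orb F ρ t) (hg : Gp m u w F ρ t0 τ) : Gp m u w F' ρ t0 τ where
  out := hg.out
  ins t h1 h2 := by rw [h t h2]; exact hg.ins t h1 h2
  mid := by rw [h t0 hg.lt2.le]; exact hg.mid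
  lt1 := hg.lt1
  lt2 := hg.lt2
  gte := gte_congr h hg.lt2.le hg.gte
  fst τ' h1 h2 h3 := hg.fst τ' h1 h2
    (gte_congr (F := F') (F' := F) (fun t ht => (h t (by omega)).symm) h1.le h3)

theorem gp_uniq_aux {m u w : ℕ} {F : Set Edg} {ρ ρ' : St} {t0 τ t0' τ' : ℕ}
    (h : Gp m u w F ρ t0 τ) (h' : Gp m u w F ρ' t0' τ') (hle : t0 ≤ t0') : ρ = ρ' ∧ t0 = t0' := by
  have e : orb F ρ' (t0' - t0) = ρ := by
    have e1 : orb F (orb F ρ' (t0' - t0)) t0 = orb F ρ t0 := by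
      rw [← orb_add, h.mid, ← h'.mid]
      congr 1
      omega
    exact ((nxt_bij F).injective.iterate t0) e1
  rcases Nat.eq_zero_or_pos (t0' - t0) with h0 | h0
  · rw [h0, orb_zero] at e
    exact ⟨e.symm, by omega⟩
  · have := h'.ins (t0' - t0) h0 (by have := h'.lt2; omega)
    rw [e] at this
    exact absurd this h.out

theorem gp_uniq {m u w : ℕ} {F : Set Edg} {ρ ρ' : St} {t0 τ t0' τ' : ℕ}
    (h : Gp m u w F ρ t0 τ) (h' : Gp m u w F ρ' t0' τ') : ρ = ρ' ∧ t0 = t0' ∧ τ = τ' := by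
  have e : ρ = ρ' ∧ t0 = t0' := by
    rcases le_total t0 t0' with hle | hle
    · exact gp_uniq_aux h h' hle
    · obtain ⟨a, b⟩ := gp_uniq_aux h' h hle
      exact ⟨a.symm, b.symm⟩
  obtain ⟨rfl, rfl⟩ := e
  refine ⟨rfl, rfl, ?_⟩
  by_contra hne
  rcases lt_or_gt_of_ne hne with hlt | hlt
  · exact h'.fst τ h.lt2 hlt h.gte
  · exact h.fst τ' h'.lt2 hlt h'.gte

open Classical in
/-- the explored edges -/
noncomputable def TT (m u w : ℕ) (ρ : St) (F : Finset Edg) : Finset Edg :=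
  if h : ∃ p : ℕ × ℕ, Gp m u w ↑F ρ p.1 p.2 then boxE (u / 2) ∪ Exm ↑F ρ h.choose.2 else boxE m

theorem TT_of {m u w : ℕ} {ρ : St} {F : Finset Edg} {t0 τ : ℕ} (h : Gp m u w ↑F ρ t0 τ) :
    TT m u w ρ F = boxE (u / 2) ∪ Exm ↑F ρ τ := by
  have hex : ∃ p : ℕ × ℕ, Gp m u w ↑F ρ p.1 p.2 := ⟨(t0, τ), h⟩
  unfold TT
  rw [dif_pos hex]
  have := (gp_uniq h hex.choose_spec).2.2
  rw [← this]

theorem TT_orb {m u w : ℕ} {ρ : St} {F G : Finset Edg} {t0 τ : ℕ} (h : Gp m u w ↑F ρ t0 τ)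
    (hFG : F ∩ TT m u w ρ F = G ∩ TT m u w ρ F) :
    (∀ t ≤ τ, orb ↑G ρ t = orb ↑F ρ t) ∧ Exm ↑G ρ τ = Exm ↑F ρ τ ∧
      ∀ e ∈ boxE (u / 2), (e ∈ F ↔ e ∈ G) := by
  rw [TT_of h] at hFG
  have key : ∀ e, e ∈ boxE (u / 2) ∪ Exm ↑F ρ τ → (e ∈ F ↔ e ∈ G) := by
    intro e he
    constructor
    · intro h1
      have : e ∈ F ∩ (boxE (u / 2) ∪ Exm ↑F ρ τ) := mem_inter.mpr ⟨h1, he⟩
      rw [hFG] at this
      exact (mem_inter.mp this).1
    · intro h1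
      have : e ∈ G ∩ (boxE (u / 2) ∪ Exm ↑F ρ τ) := mem_inter.mpr ⟨h1, he⟩
      rw [← hFG] at this
      exact (mem_inter.mp this).1
  have k2 : ∀ e ∈ Exm (↑F : Set Edg) ρ τ, (e ∈ (↑F : Set Edg) ↔ e ∈ (↑G : Set Edg)) := by
    intro e he
    exact_mod_cast key e (mem_union_right _ he)
  exact ⟨fun t ht => orb_congr k2 ht, Exm_congr k2, fun e he => key e (mem_union_left _ he)⟩

theorem TT_stop {m u w : ℕ} {ρ : St} {F G : Finset Edg} (hF : F ⊆ boxE m) (hG : G ⊆ boxE m)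
    (hFG : F ∩ TT m u w ρ F = G ∩ TT m u w ρ F) : TT m u w ρ G = TT m u w ρ F := by
  by_cases h : ∃ p : ℕ × ℕ, Gp m u w ↑F ρ p.1 p.2
  · obtain ⟨⟨t0, τ⟩, hp⟩ := h
    obtain ⟨k1, k2, k3⟩ := TT_orb hp hFG
    rw [TT_of hp, TT_of (gp_congr k1 hp), k2]
  · have e : TT m u w ρ F = boxE m := by
      unfold TT
      rw [dif_neg h]
    rw [e, inter_eq_left.mpr hF, inter_eq_left.mpr hG] at hFG
    rw [hFG]

/-- the first gate time exists, at the vertex `z` -/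
def Aev (m u w : ℕ) (x : St × Vtx) (F : Finset Edg) : Prop :=
  ∃ t0 τ, Gp m u w ↑F x.1 t0 τ ∧ (orb ↑F x.1 τ).1 = x.2 ∧ Acc (u / 2) ↑F

/-- fresh dual path -/
def Bev' (m u w : ℕ) (x : St × Vtx) (F : Finset Edg) : Prop :=
  DCrs x.2.1 x.2.2 (2 * w + 2) (u / 4) {e | e ∈ boxE m ∧ e ∉ F ∧ e ∉ TT m u w x.1 F}

theorem swap_le (m u w : ℕ) (x : St × Vtx) :
    PQ (1 / 2) (boxE m) (fun F => Aev m u w x F ∧ Bev' m u w x F) ≤
      PQ (1 / 2) (boxE m) (Aev m u w x) *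
      PQ (1 / 2) (boxE m)
        (fun F => DCrs x.2.1 x.2.2 (2 * w + 2) (u / 4) (↑(boxE m \ F) : Set Edg)) := by
  refine TH868.CT.swap (TT m u w x.1) ?_ ?_ ?_
  · intro F G hF hG h
    exact TT_stop hF hG h
  · rintro F G - - h ⟨t0, τ, h1, h2, h3⟩
    obtain ⟨k1, -, k3⟩ := TT_orb h1 h
    refine ⟨t0, τ, gp_congr k1 h1, ?_, acc_loc (fun e he => by exact_mod_cast k3 e he) h3⟩
    rw [k1 τ le_rfl]
    exact h2
  · intro F G _ _ h _ hB
    refine dcrs_mono ?_ hB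
    rintro e ⟨h1, h2, h3⟩
    rw [Finset.mem_coe, mem_sdiff]
    refine ⟨h1, fun h4 => h2 ?_⟩
    have : e ∈ G \ TT m u w x.1 F := mem_sdiff.mpr ⟨h4, h3⟩
    rw [← h] at this
    exact (mem_sdiff.mp this).1

/-! ### assembly -/

/-- the finite set of the starting states and gate vertices -/
noncomputable def RR (m : ℕ) : Finset (St × Vtx) :=
  ((Icc (-(m:ℤ)) m ×ˢ Icc (-(m:ℤ)) m) ×ˢ (univ : Finset Q4)) ×ˢ (Icc (-(m:ℤ)) m ×ˢ Icc (-(m:ℤ)) m)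

theorem cl_box {m : ℕ} {F : Set Edg} {x : Vtx} (h : x ∈ cl m F) :
    x ∈ Icc (-(m:ℤ)) m ×ˢ Icc (-(m:ℤ)) m := by
  have h' : Reach (F ∩ ↑(boxE m)) (0, 0) x := h
  rw [mem_product, mem_Icc, mem_Icc]
  rcases Relation.ReflTransGen.cases_tail h' with h0 | ⟨y, -, e, he, hc⟩
  · rw [h0]; simp only; omega
  · obtain ⟨x0, y0, b⟩ := e
    have h2 := he.2
    unfold boxE at h2
    rw [Finset.mem_coe] at h2
    cases b
    · rw [mem_RE_false] at h2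
      simp only [src_mk, tgt_false] at hc
      rcases hc with ⟨-, hc⟩ | ⟨hc, -⟩ <;> rw [← hc] <;> simp only <;> omega
    · rw [mem_RE_true] at h2
      simp only [src_mk, tgt_true] at hc
      rcases hc with ⟨-, hc⟩ | ⟨hc, -⟩ <;> rw [← hc] <;> simp only <;> omega

theorem t_GP : S_EXIT → S_XC → S_DK → S_RUN → S_ACU → S_GP := by
  intro hEX hXC hDK hRUN hACU
  obtain ⟨C1, hC1, hU⟩ := hACU
  obtain ⟨κ, hκ, hwin⟩ := win_half
  obtain ⟨C2, c, hC2, hc, harm⟩ := win_arm_of (fun h => win_blk h) κ hκ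
  refine ⟨C1 * 4 ^ (2 / 3 : ℝ) * (C2 * 32 ^ c), c, by positivity, hc, ?_⟩
  intro m u w hw hwu hum
  have hu1 : 1 ≤ u / 2 := by omega
  have hu2 : u / 2 ≤ m := by omega
  -- the deterministic part
  have det : ∀ F, F ⊆ boxE m → (Acc m ↑F ∧ GtA m u w ↑F) →
      ∃ x ∈ RR m, Aev m u w x F ∧ Bev' m u w x F := by
    classical
    rintro F hF ⟨hA, hG⟩
    obtain ⟨ρ, t0, T, hrun⟩ := hEX m F hF (by omega) hA
    have hex := hXC m u w F ρ t0 T hF hw (by omega) hum hA hrun hG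
    obtain ⟨hτ1, hτ2, hτ3⟩ := Nat.find_spec hex
    set τ := Nat.find hex with hτ
    have hmin : ∀ τ', t0 < τ' → τ' < τ → ¬ Gte u (8 * u) w ↑F ρ t0 τ' := by
      intro τ' h1 h2 h3
      exact Nat.find_min hex h2 ⟨h1, by omega, h3⟩
    have hgp : Gp m u w ↑F ρ t0 τ :=
      ⟨hrun.out0, fun t h1 h2 => hrun.ins t h1 (by omega), hrun.mid, hrun.lt1, hτ1, hτ3, hmin⟩
    have hdk := hDK m u w F ρ t0 T τ hF hw hwu hum hA hrun hτ1 hτ2 hτ3 hmin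
    obtain ⟨-, r2, -, -⟩ := hRUN m F ρ t0 T hF (by omega) hrun
    refine ⟨(ρ, (orb ↑F ρ τ).1), ?_, ⟨t0, τ, hgp, rfl, acc_small hu1 hu2 hA⟩, ?_⟩
    · unfold RR
      rw [mem_product, mem_product]
      exact ⟨⟨cl_box (r2 0), mem_univ _⟩, cl_box (r2 τ)⟩
    · unfold Bev'
      simp only
      rw [TT_of hgp]
      refine dcrs_mono ?_ hdk
      rintro e ⟨h1, h2, h3, h4⟩
      exact ⟨h1, h2, fun h5 => (mem_union.mp h5).elim h4 h3⟩
  -- the union bound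
  have s1 : PQ (1 / 2) (boxE m) (fun F => Acc m ↑F ∧ GtA m u w ↑F) ≤
      ∑ x ∈ RR m, PQ (1 / 2) (boxE m) (fun F => Aev m u w x F ∧ Bev' m u w x F) := by
    unfold PQ Pr
    rw [← Ex_sum]
    refine Ex_mono okh fun F hF => ?_
    by_cases h : Acc m ↑F ∧ GtA m u w ↑F
    · obtain ⟨x, hx, hx2⟩ := det F hF h
      rw [ind_of h, ← ind_of hx2]
      exact Finset.single_le_sum (f := fun x => ind (Aev m u w x F ∧ Bev' m u w x F))
        (fun _ _ => ind_nonneg _) hx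
    · rw [ind_not_of h]
      exact Finset.sum_nonneg fun _ _ => ind_nonneg _
  -- the dual crossing
  set q : ℝ := C2 * 32 ^ c * ((w:ℝ) / u) ^ c with hq
  have hq0 : 0 ≤ q := by rw [hq]; positivity
  have s2 : ∀ x : St × Vtx, PQ (1 / 2) (boxE m)
      (fun F => DCrs x.2.1 x.2.2 (2 * w + 2) (u / 4) (↑(boxE m \ F) : Set Edg)) ≤ q := by
    intro x
    have h1 := (harm (1 / 2) (u / 4) (hwin _) (2 * w + 2) (u / 4) (by omega) (by omega) le_rfl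
      x.2.1 x.2.2 (boxE m)).2
    refine h1.trans ?_
    rw [hq, mul_assoc, ← Real.mul_rpow (by norm_num) (by positivity)]
    refine mul_le_mul_of_nonneg_left ?_ hC2.le
    refine Real.rpow_le_rpow (by positivity) ?_ hc.le
    have h2 : ((2 * w + 2 : ℕ) : ℝ) ≤ 4 * w := by
      have : (1:ℝ) ≤ w := by exact_mod_cast hw
      push_cast; linarith
    have h3 : (u:ℝ) / 8 ≤ ((u / 4 : ℕ) : ℝ) := by
      have : u ≤ 8 * (u / 4) := by omega
      have h4 : (u:ℝ) ≤ 8 * ((u / 4 : ℕ) : ℝ) := by exact_mod_cast this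
      linarith
    have hu0 : (0:ℝ) < u := by
      have : 0 < u := by omega
      exact_mod_cast this
    have e : 32 * ((w:ℝ) / u) = (4 * w) / (u / 8) := by field_simp; norm_num
    rw [e]
    exact div_le_div₀ (by positivity) h2 (by positivity) h3
  -- disjointness
  have s3 : ∑ x ∈ RR m, PQ (1 / 2) (boxE m) (Aev m u w x) ≤
      PQ (1 / 2) (boxE m) (fun F => Acc (u / 2) ↑F) := by
    unfold PQ Pr
    rw [← Ex_sum]
    refine Ex_mono okh fun F hF => ?_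
    by_cases h : ∃ x ∈ RR m, Aev m u w x F
    · obtain ⟨x, hx, hx2⟩ := h
      have e : ∑ y ∈ RR m, ind (Aev m u w y F) = ind (Aev m u w x F) := by
        refine Finset.sum_eq_single_of_mem x hx fun y _ hne => ind_not_of fun hy => hne ?_
        obtain ⟨t0, τ, h1, h2, -⟩ := hx2
        obtain ⟨t0', τ', h1', h2', -⟩ := hy
        obtain ⟨a1, -, a3⟩ := gp_uniq h1' h1
        refine Prod.ext a1 ?_
        rw [← h2, ← h2', a1, a3]
      rw [e]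
      refine ind_mono ?_
      rintro ⟨-, -, -, -, h3⟩
      exact h3
    · have e : ∑ y ∈ RR m, ind (Aev m u w y F) = 0 :=
        Finset.sum_eq_zero fun y hy => ind_not_of fun h2 => h ⟨y, hy, h2⟩
      rw [e]
      exact ind_nonneg _
  have s4 : PQ (1 / 2) (boxE m) (fun F => Acc (u / 2) ↑F) ≤
      C1 * 4 ^ (2 / 3 : ℝ) * (u:ℝ) ^ (-(2 / 3 : ℝ)) := by
    refine (hU (u / 2) hu1 (boxE m) (boxE_sub hu2)).trans ?_
    rw [mul_assoc]
    refine mul_le_mul_of_nonneg_left ?_ hC1.le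
    have hu0 : (0:ℝ) < u := by
      have : 0 < u := by omega
      exact_mod_cast this
    have h3 : (u:ℝ) / 4 ≤ ((u / 2 : ℕ) : ℝ) := by
      have : u ≤ 4 * (u / 2) := by omega
      have h4 : (u:ℝ) ≤ 4 * ((u / 2 : ℕ) : ℝ) := by exact_mod_cast this
      linarith
    have h5 : (((u / 2 : ℕ) : ℝ)) ^ (-(2 / 3 : ℝ)) ≤ ((u:ℝ) / 4) ^ (-(2 / 3 : ℝ)) :=
      Real.rpow_le_rpow_of_nonpos (by positivity) h3 (by norm_num)
    refine h5.trans (le_of_eq ?_)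
    rw [Real.div_rpow hu0.le (by norm_num), Real.rpow_neg (by norm_num : (0:ℝ) ≤ 4), div_inv_eq_mul,
      mul_comm]
  calc PQ (1 / 2) (boxE m) (fun F => Acc m ↑F ∧ GtA m u w ↑F)
      ≤ ∑ x ∈ RR m, PQ (1 / 2) (boxE m) (fun F => Aev m u w x F ∧ Bev' m u w x F) := s1
    _ ≤ ∑ x ∈ RR m, PQ (1 / 2) (boxE m) (Aev m u w x) * q :=
        Finset.sum_le_sum fun x _ => (swap_le m u w x).trans
          (mul_le_mul_of_nonneg_left (s2 x) (Pr_nonneg okh _ _))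
    _ = (∑ x ∈ RR m, PQ (1 / 2) (boxE m) (Aev m u w x)) * q := by rw [Finset.sum_mul]
    _ ≤ (C1 * 4 ^ (2 / 3 : ℝ) * (u:ℝ) ^ (-(2 / 3 : ℝ))) * q :=
        mul_le_mul_of_nonneg_right (s3.trans s4) hq0
    _ = C1 * 4 ^ (2 / 3 : ℝ) * (C2 * 32 ^ c) * (u : ℝ) ^ (-(2 / 3 : ℝ)) * ((w : ℝ) / u) ^ c := by
        rw [hq]; ring

end Pool.Agent.Y989.FR.GP
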