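import Pool.Agent.Y989.FR.Stm

/-!
# FR-W: crossing numbers of lattice walks
-/

set_option autoImplicit false

namespace Pool.Agent.Y989.FR.W

open Pool.Agent.Y989.FR
open H974 H12S Finset H984P H984N

/-- the step from `a` to `b` along the edge `e` -/
def Stp (e : Edg) (a b : Vtx) : Prop := (src e = a ∧ tgt e = b) ∨ (src e = b ∧ tgt e = a)

theorem step_ne {e e' : Edg} {a b : Vtx} (h : Stp e' a b) (hne : e' ≠ e) :
    cx (dsrc e) a b - cx (dtgt e) a b = Gd e b - Gd e a := by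
  obtain ⟨x, y, s⟩ := e
  obtain ⟨x', y', s'⟩ := e'
  have hne' : ¬ (x' = x ∧ y' = y ∧ s' = s) := by
    rintro ⟨rfl, rfl, rfl⟩
    exact hne rfl
  rcases h with ⟨rfl, rfl⟩ | ⟨rfl, rfl⟩ <;> cases s <;> cases s' <;>
    simp only [cx, Gd, src_mk, tgt_true, tgt_false, dsrc_true, dsrc_false, dtgt_mk, and_true,
      true_and, and_false, false_and, reduceCtorEq, not_false_eq_true, if_false] at hne' ⊢ <;>
    split_ifs <;> omega

theorem cx_rev {e : Edg} {a b : Vtx} (h : Stp e a b) (f : Vtx) : cx f b a = - cx f a b := by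
  obtain ⟨x, y, s⟩ := e
  rcases h with ⟨rfl, rfl⟩ | ⟨rfl, rfl⟩ <;> cases s <;>
    simp only [cx, src_mk, tgt_true, tgt_false] <;> split_ifs <;> omega

theorem wk_congr {G : Set Edg} {a b : Vtx} {φ ψ : Vtx → ℤ} (h : Wk G a b φ)
    (e : ∀ f, φ f = ψ f) : Wk G a b ψ := by
  rw [← funext e]
  exact h

theorem t_W1 : S_W1 := by
  intro G a b φ e h he
  induction h with
  | nil => simp
  | cons b c φ e' hw he' hs ih =>
    have h1 := step_ne (e := e) (e' := e') (a := b) (b := c) hs (fun h => he (h ▸ he'))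
    have h2 := ih
    show φ (dsrc e) + cx (dsrc e) b c - (φ (dtgt e) + cx (dtgt e) b c) = Gd e c - Gd e a
    linarith

theorem box_step {m : ℕ} {e : Edg} {a b : Vtx} (h : Stp e a b) (he : e ∈ boxE m) (f : Vtx)
    (hf : ¬ InF m f) : cx f a b = (if f.1 < -(m : ℤ) ∧ -(m : ℤ) ≤ f.2 ∧ f.2 < b.2 then 1 else 0) -
      (if f.1 < -(m : ℤ) ∧ -(m : ℤ) ≤ f.2 ∧ f.2 < a.2 then 1 else 0) := by
  obtain ⟨x, y, s⟩ := e
  unfold boxE at he
  unfold InF at hf
  rcases h with ⟨rfl, rfl⟩ | ⟨rfl, rfl⟩ <;> cases s <;>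
    simp only [cx, src_mk, tgt_true, tgt_false, mem_RE_true, mem_RE_false] at he ⊢ <;>
    split_ifs <;> omega

theorem t_W2 : S_W2 := by
  intro m G a φ f h hG hf
  have key : ∀ (a b : Vtx) (φ : Vtx → ℤ), Wk G a b φ →
      φ f = (if f.1 < -(m : ℤ) ∧ -(m : ℤ) ≤ f.2 ∧ f.2 < b.2 then 1 else 0) -
        (if f.1 < -(m : ℤ) ∧ -(m : ℤ) ≤ f.2 ∧ f.2 < a.2 then 1 else 0) := by
    intro a b φ h
    induction h with
    | nil => simp
    | cons b c φ e' hw he' hs ih =>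
      have h1 := box_step (a := b) (b := c) hs (hG e' he') f hf
      show φ f + cx f b c = _
      rw [ih, h1]
      ring
  rw [key a a φ h]
  ring

theorem comp {G : Set Edg} {a b c : Vtx} {φ ψ : Vtx → ℤ} (h : Wk G a b φ) (h' : Wk G b c ψ) :
    Wk G a c (fun f => φ f + ψ f) := by
  induction h' with
  | nil => exact wk_congr h (fun f => by simp)
  | cons d c ψ e hw he hs ih =>
    exact wk_congr (Wk.cons a d c _ e ih he hs) (fun f => by ring)

theorem rev {G : Set Edg} {a b : Vtx} {φ : Vtx → ℤ} (h : Wk G a b φ) :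
    Wk G b a (fun f => - φ f) := by
  induction h with
  | nil => exact wk_congr (Wk.nil a) (fun f => by simp)
  | cons b c φ e hw he hs ih =>
    have h1 : Wk G c b (fun f => (fun _ => 0) f + cx f c b) :=
      Wk.cons c c b (fun _ => 0) e (Wk.nil c) he hs.symm
    refine wk_congr (comp h1 ih) (fun f => ?_)
    have h2 := cx_rev (a := b) (b := c) hs f
    simp only
    rw [h2]
    ring

theorem mono {G G' : Set Edg} {a b : Vtx} {φ : Vtx → ℤ} (hG : G ⊆ G') (h : Wk G a b φ) :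
    Wk G' a b φ := by
  induction h with
  | nil => exact Wk.nil a
  | cons b c φ e hw he hs ih => exact Wk.cons a b c φ e ih (hG he) hs

theorem of_reach {G : Set Edg} {a b : Vtx} (h : Reach G a b) : ∃ φ, Wk G a b φ := by
  induction h with
  | refl => exact ⟨_, Wk.nil a⟩
  | tail _ hs ih =>
    obtain ⟨φ, hφ⟩ := ih
    obtain ⟨e, he, hs⟩ := hs
    exact ⟨_, Wk.cons _ _ _ φ e hφ he hs⟩

theorem t_WKA : S_WKA := by
  refine ⟨fun G a b c φ ψ h h' => comp h h', fun G a b φ h => rev h,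
    fun G G' a b φ hG h => mono hG h, fun G a b h => of_reach h, ?_⟩
  intro m F a b φ hF ha h
  induction h with
  | nil => exact ⟨ha, Wk.nil a⟩
  | cons b c φ e hw he hs ih =>
    obtain ⟨hb, hw'⟩ := ih
    have hc : c ∈ cl m F := by
      have h1 : Reach (F ∩ ↑(boxE m)) (0, 0) b := hb
      exact Relation.ReflTransGen.tail h1 ⟨e, ⟨he, hF he⟩, hs⟩
    refine ⟨hc, Wk.cons a b c φ e hw' ⟨he, ?_⟩ hs⟩
    rcases hs with ⟨h1, h2⟩ | ⟨h1, h2⟩
    · exact ⟨h1 ▸ hb, h2 ▸ hc⟩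
    · exact ⟨h1 ▸ hc, h2 ▸ hb⟩

end Pool.Agent.Y989.FR.W
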